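import Pool.Agent.DAF.Data

open Set Topology MeasureTheory

namespace Pool.Agent.DAF

theorem exists_phi {k N : ℝ} (hk : 0 < k) (hN : 0 < N) :
    ∃ φ : (ℝ × ℝ × ℝ) ≃L[ℝ] E3, ∀ X : ℝ × ℝ × ℝ,
      φ X = !₂[k * X.1, k * X.2.1 / N, k * X.2.2] := by
  have hk' := hk.ne'
  have hN' := hN.ne'
  let e : (ℝ × ℝ × ℝ) ≃ₗ[ℝ] E3 :=
    { toFun := fun X => !₂[k * X.1, k * X.2.1 / N, k * X.2.2]
      invFun := fun v => (v 0 / k, v 1 * N / k, v 2 / k)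
      map_add' := by
        intro X Y
        ext i
        fin_cases i <;> simp <;> ring
      map_smul' := by
        intro c X
        ext i
        fin_cases i <;> simp <;> ring
      left_inv := by
        intro X
        ext <;> simp <;> field_simp
      right_inv := by
        intro v
        ext i
        fin_cases i <;> simp <;> field_simp }
  exact ⟨e.toContinuousLinearEquiv, fun X => rfl⟩

/-- `ℝ × ℝ × ℝ` and `E3`. -/
noncomputable def meq3 : (ℝ × ℝ × ℝ) ≃ᵐ (Fin 3 → ℝ) :=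
  ((MeasurableEquiv.piFinSuccAbove (fun _ : Fin 3 => ℝ) 0).trans
    (MeasurableEquiv.prodCongr (MeasurableEquiv.refl ℝ) MeasurableEquiv.finTwoArrow)).symm

lemma meq3_apply (X : ℝ × ℝ × ℝ) : meq3 X = ![X.1, X.2.1, X.2.2] := by
  have : meq3.symm ![X.1, X.2.1, X.2.2] = X := by
    ext <;> rfl
  calc meq3 X = meq3 (meq3.symm ![X.1, X.2.1, X.2.2]) := by rw [this]
    _ = _ := MeasurableEquiv.apply_symm_apply _ _

lemma meq3_pres : MeasurePreserving meq3 := by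
  unfold meq3
  apply MeasurePreserving.symm
  have h1 := volume_preserving_piFinSuccAbove (fun _ : Fin 3 => ℝ) 0
  have h2 : MeasurePreserving (MeasurableEquiv.prodCongr (MeasurableEquiv.refl ℝ)
      (MeasurableEquiv.finTwoArrow (α := ℝ))) volume volume :=
    (MeasurePreserving.id volume).prod (volume_preserving_finTwoArrow ℝ)
  exact h2.comp h1

theorem volume_phi {k N : ℝ} (hk : 0 < k) (hN : 0 < N) (φ : (ℝ × ℝ × ℝ) ≃L[ℝ] E3)
    (hφ : ∀ X : ℝ × ℝ × ℝ, φ X = !₂[k * X.1, k * X.2.1 / N, k * X.2.2]) (S : Set (ℝ × ℝ × ℝ)) :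
    volume (φ '' S) = ENNReal.ofReal (k ^ 3 / N) * volume S := by
  set M : Matrix (Fin 3) (Fin 3) ℝ := Matrix.diagonal ![k, k / N, k] with hM
  have e1 : φ '' S = (MeasurableEquiv.toLp 2 (Fin 3 → ℝ)).symm ⁻¹'
      ((Matrix.toLin' M) '' (meq3.symm ⁻¹' S)) := by
    rw [← MeasurableEquiv.image_eq_preimage_symm, ← MeasurableEquiv.image_eq_preimage_symm]
    rw [image_image, image_image]
    apply image_congr
    intro X _
    rw [hφ, meq3_apply]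
    ext i
    fin_cases i <;> simp [hM, Matrix.toLin'_apply, Matrix.mulVec_diagonal]; ring
  rw [e1, (EuclideanSpace.volume_preserving_symm_measurableEquiv_toLp (Fin 3)).measure_preimage_equiv,
    Measure.addHaar_image_linearMap, LinearMap.det_toLin', hM, Matrix.det_diagonal,
    Fin.prod_univ_three, meq3_pres.symm.measure_preimage_equiv]
  congr 2
  simp only [Matrix.cons_val_zero, Matrix.cons_val_one, Matrix.cons_val]
  rw [abs_of_pos (by positivity)]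
  ring

lemma dist_phi_le {k N : ℝ} (hk : 0 < k) (hN : 0 < N) {φ : (ℝ × ℝ × ℝ) ≃L[ℝ] E3}
    (hφ : ∀ X : ℝ × ℝ × ℝ, φ X = !₂[k * X.1, k * X.2.1 / N, k * X.2.2]) {X Y : ℝ × ℝ × ℝ} {D : ℝ}
    (hD : 0 ≤ D) (h1 : |X.1 - Y.1| ≤ D) (h2 : |X.2.1 - Y.2.1| ≤ D * N) (h3 : |X.2.2 - Y.2.2| ≤ D) :
    dist (φ X) (φ Y) ≤ 2 * k * D := by
  rw [hφ, hφ, EuclideanSpace.dist_eq, Fin.sum_univ_three]
  simp only [Real.dist_eq, sq_abs, Matrix.cons_val_zero, Matrix.cons_val_one, Matrix.cons_val]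
  apply Real.sqrt_le_iff.2
  refine ⟨by positivity, ?_⟩
  have a1 : (k * X.1 - k * Y.1) ^ 2 ≤ (k * D) ^ 2 := by
    rw [← mul_sub, mul_pow, mul_pow]
    exact mul_le_mul_of_nonneg_left (sq_le_sq' (by linarith [(abs_le.1 h1).1]) (abs_le.1 h1).2)
      (by positivity)
  have a3 : (k * X.2.2 - k * Y.2.2) ^ 2 ≤ (k * D) ^ 2 := by
    rw [← mul_sub, mul_pow, mul_pow]
    exact mul_le_mul_of_nonneg_left (sq_le_sq' (by linarith [(abs_le.1 h3).1]) (abs_le.1 h3).2)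
      (by positivity)
  have a2 : (k * X.2.1 / N - k * Y.2.1 / N) ^ 2 ≤ (k * D) ^ 2 := by
    rw [← sub_div, ← mul_sub, mul_div_assoc, mul_pow, mul_pow]
    refine mul_le_mul_of_nonneg_left (sq_le_sq' ?_ ?_) (by positivity)
    · rw [le_div_iff₀ hN]; linarith [(abs_le.1 h2).1]
    · rw [div_le_iff₀ hN]; exact (abs_le.1 h2).2
  nlinarith [sq_nonneg (k * D)]

/-- general estimate of a piece -/
lemma piece {k N : ℝ} (hk : 0 < k) (hN : 0 < N) (φ : (ℝ × ℝ × ℝ) ≃L[ℝ] E3)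
    (hφ : ∀ X : ℝ × ℝ × ℝ, φ X = !₂[k * X.1, k * X.2.1 / N, k * X.2.2]) (S : Set (ℝ × ℝ × ℝ))
    (p : ℝ × ℝ × ℝ → ℝ × ℝ) (q : ℝ × ℝ) (a b c : ℝ) (ha : 0 ≤ a) (hc : 0 ≤ c)
    (hR : ∀ X ∈ S, |(p X).1 - q.1| ≤ a ∧ |(p X).2 - q.2| ≤ b)
    (hL : ∀ X ∈ S, ∀ Y ∈ S, ∀ D, 0 ≤ D → |(p X).1 - (p Y).1| ≤ D → |(p X).2 - (p Y).2| ≤ D →
      |X.1 - Y.1| ≤ c * D ∧ |X.2.1 - Y.2.1| ≤ c * D * N ∧ |X.2.2 - Y.2.2| ≤ c * D) :
    μH[2] (φ '' S) ≤ ENNReal.ofReal (16 * c ^ 2 * a * b * k ^ 2) := by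
  classical
  have hdist : ∀ X ∈ S, ∀ Y ∈ S, dist (φ X) (φ Y) ≤ 2 * k * c * dist (p X) (p Y) := by
    intro X hX Y hY
    have h1 : |(p X).1 - (p Y).1| ≤ dist (p X) (p Y) := by
      rw [Prod.dist_eq, ← Real.dist_eq]; exact le_max_left _ _
    have h2 : |(p X).2 - (p Y).2| ≤ dist (p X) (p Y) := by
      rw [Prod.dist_eq, ← Real.dist_eq (p X).2]; exact le_max_right _ _
    obtain ⟨e1, e2, e3⟩ := hL X hX Y hY _ dist_nonneg h1 h2
    have := dist_phi_le hk hN hφ (mul_nonneg hc dist_nonneg) e1 e2 e3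
    linarith
  set g : ℝ × ℝ → E3 := fun r => φ (Function.invFunOn p S r) with hg
  have hinv : ∀ r ∈ p '' S, Function.invFunOn p S r ∈ S ∧ p (Function.invFunOn p S r) = r :=
    fun r hr => ⟨Function.invFunOn_mem hr, Function.invFunOn_eq hr⟩
  have hgS : φ '' S ⊆ g '' (p '' S) := by
    rintro _ ⟨X, hX, rfl⟩
    refine ⟨p X, mem_image_of_mem _ hX, ?_⟩
    obtain ⟨h1, h2⟩ := hinv (p X) (mem_image_of_mem _ hX)
    have := hdist _ h1 _ hX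
    rw [h2, dist_self, mul_zero] at this
    exact dist_le_zero.1 this
  have hlip : LipschitzOnWith (Real.toNNReal (2 * k * c)) g (p '' S) := by
    apply LipschitzOnWith.of_dist_le_mul
    intro r hr r' hr'
    obtain ⟨h1, h2⟩ := hinv r hr
    obtain ⟨h1', h2'⟩ := hinv r' hr'
    have := hdist _ h1 _ h1'
    rw [h2, h2'] at this
    rw [Real.coe_toNNReal _ (by positivity)]
    exact this
  have hsub : p '' S ⊆ Icc (q.1 - a) (q.1 + a) ×ˢ Icc (q.2 - b) (q.2 + b) := by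
    rintro _ ⟨X, hX, rfl⟩
    obtain ⟨h1, h2⟩ := hR X hX
    rw [abs_le] at h1 h2
    exact ⟨⟨by linarith, by linarith⟩, ⟨by linarith, by linarith⟩⟩
  calc μH[2] (φ '' S) ≤ μH[2] (g '' (p '' S)) := measure_mono hgS
    _ ≤ (Real.toNNReal (2 * k * c) : ENNReal) ^ (2 : ℝ) * μH[2] (p '' S) :=
        hlip.hausdorffMeasure_image_le (by norm_num)
    _ = (ENNReal.ofReal (2 * k * c)) ^ 2 * volume (p '' S) := by
        rw [hausdorffMeasure_prod_real]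
        norm_num
        rfl
    _ ≤ (ENNReal.ofReal (2 * k * c)) ^ 2 * (ENNReal.ofReal (2 * a) * ENNReal.ofReal (2 * b)) := by
        gcongr
        refine (measure_mono hsub).trans ?_
        rw [Measure.volume_eq_prod, Measure.prod_prod, Real.volume_Icc, Real.volume_Icc]
        apply le_of_eq
        congr 2 <;> ring
    _ = _ := by
        rw [← ENNReal.ofReal_pow (by positivity), ← ENNReal.ofReal_mul (by positivity),
          ← ENNReal.ofReal_mul (by positivity)]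
        congr 1
        ring


/-- the planes of the walls of a layer -/
def LWall (Λ : Lay) (x y z : ℝ) : Prop :=
  x = 1 / 2 + Λ.pd * (y - Λ.al * x - Λ.be) ∨
  x = 1 / 2 + Λ.pb * (y - Λ.al * x - Λ.be + Λ.N / 2) ∨
  x = 1 / 2 + Λ.rho * (y - Λ.al * x - Λ.be + Λ.N / 4) + Λ.sig * z ∨
  y - Λ.al * x = Λ.N / 4 - Λ.K * z

/-- the surfaces which carry the boundary of the part of the tile in a layer -/
def LPiece (Λ : Lay) (Φ : ℝ → ℝ → ℝ) (x y z : ℝ) : Prop :=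
  z = -Φ x (y - Λ.N / 2) ∨ LWall Λ x y z ∨ LWall Λ (-x) (-y) z

/-- consequences of the numerical conditions -/
lemma Num.facts {Λ Λ' : Lay} {κ : ℝ} (hs : LaySmall Λ κ) (hn : Num Λ Λ') :
    Λ.K < Λ.N / 2 ∧ κ * Λ.N ≤ 1 / 50 ∧ Λ.N / 8 ≤ Λ.l ∧ Λ.N / 16 < Λ.K := by
  have hK := Λ.K_pos
  have hN := hs.N
  have hlz := Λ.Zlohi
  have h1 := hn.z1
  have h2 := hn.z2
  have h3 := Λ.KZ
  have h4 := Λ.lamlt
  have h5 := hn.thick.pdN
  have h6 := hn.thick.pbN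
  have h7 := Λ.rel
  have h8 := Λ.be_pos
  have hpd := Λ.pd_pos
  have hpb := Λ.pb_neg
  have hsm := hs.small
  have hl := Λ.l_pos
  have e : Λ.l = Λ.N / 4 - Λ.be := rfl
  have hbe : Λ.be ≤ Λ.N / 8 := by
    have hD : 0 < Λ.pd - Λ.pb := by linarith
    have : 3 * Λ.pd ≤ -Λ.pb := by nlinarith
    nlinarith
  refine ⟨by nlinarith, ?_, by linarith, ?_⟩
  · have : 100 * κ * Λ.N < Λ.Zlo := by
      by_contra! hcon
      nlinarith
    linarith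
  · by_contra! hcon
    have hZ : Λ.Zlo ≤ 2 := hlz.trans h2
    have : Λ.K * Λ.Zlo ≤ Λ.N / 16 * 2 := by
      have := mul_le_mul_of_nonneg_left hZ hK.le
      linarith
    linarith

lemma wall1 {Λ : Lay} {κ : ℝ} (hs : LaySmall Λ κ) (hn : LayNum Λ) {dx dy D : ℝ} (hD : 0 ≤ D)
    (h : dx * (1 + Λ.al * Λ.pd) = Λ.pd * dy) (hdy : |dy| ≤ D * Λ.N) : |dx| ≤ 3 * D := by
  have hpd := Λ.pd_pos
  have hlt := Λ.pd_lt
  have hal := abs_le.1 hs.al
  have h50 := hs.pb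
  have h1 : 49 / 50 ≤ 1 + Λ.al * Λ.pd := by nlinarith
  have h2 : |dx| * (1 + Λ.al * Λ.pd) = Λ.pd * |dy| := by
    rw [← abs_of_pos (by linarith : 0 < 1 + Λ.al * Λ.pd), ← abs_mul, h, abs_mul,
      abs_of_pos hpd]
  have h3 : Λ.pd * |dy| ≤ 2 * D := by
    have := mul_le_mul_of_nonneg_left hdy hpd.le
    have := mul_le_mul_of_nonneg_right hn.pdN hD
    linarith
  have := abs_nonneg dx
  nlinarith

lemma wall2 {Λ : Lay} {κ : ℝ} (hs : LaySmall Λ κ) (hn : LayNum Λ) {dx dy D : ℝ} (hD : 0 ≤ D)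
    (h : dx * (1 + Λ.al * Λ.pb) = Λ.pb * dy) (hdx : |dx| ≤ D) : |dy| ≤ D * Λ.N := by
  have hpb := Λ.pb_neg
  have hal := abs_le.1 hs.al
  have h50 := hs.pb
  have hN := hs.N
  have h1 : 49 / 50 ≤ 1 + Λ.al * Λ.pb := by nlinarith
  have h1' : 1 + Λ.al * Λ.pb ≤ 51 / 50 := by nlinarith
  have h2 : |dx| * (1 + Λ.al * Λ.pb) = -Λ.pb * |dy| := by
    rw [← abs_of_pos (by linarith : 0 < 1 + Λ.al * Λ.pb), ← abs_mul, h, abs_mul,
      abs_of_neg hpb]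
  have h3 : -Λ.pb * |dy| ≤ 51 / 50 * D := by
    rw [← h2]
    have := abs_nonneg dx
    nlinarith
  have h4 := hn.pbN
  have h5 : 51 / 50 * D ≤ -Λ.pb * (D * Λ.N) := by
    have := mul_le_mul_of_nonneg_right h4 hD
    linarith
  exact le_of_mul_le_mul_left (h3.trans h5) (by linarith)

lemma wall3 {Λ : Lay} {κ : ℝ} (hs : LaySmall Λ κ) (hn : LayNum Λ) (hK : Λ.K < Λ.N / 2)
    {dx dy dz D : ℝ} (hD : 0 ≤ D)
    (h : |dx * (1 + Λ.al * Λ.rho) - Λ.rho * dy| = Λ.sig * |dz|) (hdx : |dx| ≤ D) (hdz : |dz| ≤ D) :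
    |dy| ≤ 2 * D * Λ.N := by
  have hpb := Λ.pb_neg
  have hpd := Λ.pd_pos
  have hlt := Λ.pd_lt
  have hal := abs_le.1 hs.al
  have h50 := hs.pb
  have hN := hs.N
  have hr := Λ.rho_neg
  have hK0 := Λ.K_pos
  have hsig := Λ.sig_pos
  have er : Λ.rho = (Λ.pb + Λ.pd) / 2 := rfl
  have es : Λ.sig = Λ.K * (Λ.pd - Λ.pb) / 2 := rfl
  have hr2 : -Λ.rho ≤ 1 / 50 := by rw [er]; linarith
  have h1 : |1 + Λ.al * Λ.rho| ≤ 51 / 50 := by
    rw [abs_le]; constructor <;> nlinarith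
  have h2 : |dx * (1 + Λ.al * Λ.rho)| ≤ 51 / 50 * D := by
    rw [abs_mul]
    have := abs_nonneg dx
    nlinarith [abs_nonneg (1 + Λ.al * Λ.rho)]
  have h3 : -Λ.rho * |dy| ≤ 51 / 50 * D + Λ.sig * D := by
    have e : Λ.rho * dy = dx * (1 + Λ.al * Λ.rho) -
      (dx * (1 + Λ.al * Λ.rho) - Λ.rho * dy) := by ring
    have : |Λ.rho * dy| ≤ |dx * (1 + Λ.al * Λ.rho)| + |dx * (1 + Λ.al * Λ.rho) - Λ.rho * dy| := by
      conv_lhs => rw [e]
      exact abs_sub _ _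
    rw [abs_mul, abs_of_neg hr, h] at this
    have := mul_le_mul_of_nonneg_left hdz hsig.le
    linarith
  have h4 : Λ.sig ≤ (Λ.pd * Λ.N + -Λ.pb * Λ.N) / 4 := by
    rw [es]
    have := mul_le_mul_of_nonneg_right hK.le (by linarith : 0 ≤ Λ.pd - Λ.pb)
    linarith
  have h5 : 51 / 50 + Λ.sig ≤ -Λ.rho * (2 * Λ.N) := by
    have := hn.pdN
    have := hn.pbN
    rw [er]
    linarith
  have h6 : 51 / 50 * D + Λ.sig * D ≤ -Λ.rho * (2 * D * Λ.N) := by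
    have := mul_le_mul_of_nonneg_right h5 hD
    linarith
  exact le_of_mul_le_mul_left (h3.trans h6) (by linarith)

lemma wall4 {Λ : Lay} {κ : ℝ} (hs : LaySmall Λ κ) (hK : Λ.K < Λ.N / 2)
    {dx dy dz D : ℝ} (hD : 0 ≤ D)
    (h : |dy - Λ.al * dx| = Λ.K * |dz|) (hdx : |dx| ≤ D) (hdz : |dz| ≤ D) :
    |dy| ≤ D * Λ.N := by
  have hN := hs.N
  have hal := hs.al
  have hK0 := Λ.K_pos
  have e : dy = (dy - Λ.al * dx) + Λ.al * dx := by ring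
  have h1 : |dy| ≤ Λ.K * |dz| + |Λ.al * dx| := by
    rw [← h]
    conv_lhs => rw [e]
    exact abs_add_le _ _
  have h2 : |Λ.al * dx| ≤ D := by
    rw [abs_mul]
    have := abs_nonneg dx
    nlinarith [abs_nonneg Λ.al]
  have h3 := mul_le_mul_of_nonneg_left hdz hK0.le
  have h4 := mul_le_mul_of_nonneg_right hK.le hD
  have h5 := mul_le_mul_of_nonneg_right hN hD
  linarith

/-- differences along walls -/
lemma wall_diff {Λ : Lay} {x y z x' y' z' : ℝ} :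
    ((x = 1 / 2 + Λ.pd * (y - Λ.al * x - Λ.be) ∧ x' = 1 / 2 + Λ.pd * (y' - Λ.al * x' - Λ.be)) →
      (x - x') * (1 + Λ.al * Λ.pd) = Λ.pd * (y - y')) ∧
    ((x = 1 / 2 + Λ.pb * (y - Λ.al * x - Λ.be + Λ.N / 2) ∧
      x' = 1 / 2 + Λ.pb * (y' - Λ.al * x' - Λ.be + Λ.N / 2)) →
      (x - x') * (1 + Λ.al * Λ.pb) = Λ.pb * (y - y')) ∧
    ((x = 1 / 2 + Λ.rho * (y - Λ.al * x - Λ.be + Λ.N / 4) + Λ.sig * z ∧
      x' = 1 / 2 + Λ.rho * (y' - Λ.al * x' - Λ.be + Λ.N / 4) + Λ.sig * z') →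
      (x - x') * (1 + Λ.al * Λ.rho) - Λ.rho * (y - y') = Λ.sig * (z - z')) ∧
    ((y - Λ.al * x = Λ.N / 4 - Λ.K * z ∧ y' - Λ.al * x' = Λ.N / 4 - Λ.K * z') →
      (y - y') - Λ.al * (x - x') = -Λ.K * (z - z')) := by
  refine ⟨?_, ?_, ?_, ?_⟩
  all_goals
    rintro ⟨h1, h2⟩
    linear_combination h1 - h2

/-- the pieces of the walls -/
def WPiece (Λ : Lay) (i : Fin 4) (x y z : ℝ) : Prop :=
  match i with
  | 0 => x = 1 / 2 + Λ.pd * (y - Λ.al * x - Λ.be)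
  | 1 => x = 1 / 2 + Λ.pb * (y - Λ.al * x - Λ.be + Λ.N / 2)
  | 2 => x = 1 / 2 + Λ.rho * (y - Λ.al * x - Λ.be + Λ.N / 4) + Λ.sig * z
  | 3 => y - Λ.al * x = Λ.N / 4 - Λ.K * z

/-- the relations for the differences along walls -/
def WRel (Λ : Lay) (i : Fin 4) (dx dy dz : ℝ) : Prop :=
  match i with
  | 0 => dx * (1 + Λ.al * Λ.pd) = Λ.pd * dy
  | 1 => dx * (1 + Λ.al * Λ.pb) = Λ.pb * dy
  | 2 => |dx * (1 + Λ.al * Λ.rho) - Λ.rho * dy| = Λ.sig * |dz|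
  | 3 => |dy - Λ.al * dx| = Λ.K * |dz|

lemma WPiece.rel {Λ : Lay} {i : Fin 4} {x y z x' y' z' : ℝ} (h : WPiece Λ i x y z)
    (h' : WPiece Λ i x' y' z') : WRel Λ i (x - x') (y - y') (z - z') := by
  obtain ⟨e0, e1, e2, e3⟩ := wall_diff (Λ := Λ) (x := x) (y := y) (z := z) (x' := x') (y' := y')
    (z' := z')
  match i with
  | 0 => exact e0 ⟨h, h'⟩
  | 1 => exact e1 ⟨h, h'⟩
  | 2 =>
    have := e2 ⟨h, h'⟩
    show |_| = _
    rw [this, abs_mul, abs_of_pos Λ.sig_pos]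
  | 3 =>
    have := e3 ⟨h, h'⟩
    show |_| = _
    rw [this, abs_mul, abs_neg, abs_of_pos Λ.K_pos]

lemma WPiece.rel' {Λ : Lay} {i : Fin 4} {x y z x' y' z' : ℝ} (h : WPiece Λ i (-x) (-y) z)
    (h' : WPiece Λ i (-x') (-y') z') : WRel Λ i (x - x') (y - y') (z - z') := by
  have h0 := WPiece.rel h h'
  match i with
  | 0 =>
    have h0 : (-x - -x') * (1 + Λ.al * Λ.pd) = Λ.pd * (-y - -y') := h0
    show _ = _
    linarith
  | 1 =>
    have h0 : (-x - -x') * (1 + Λ.al * Λ.pb) = Λ.pb * (-y - -y') := h0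
    show _ = _
    linarith
  | 2 =>
    have h0 : |(-x - -x') * (1 + Λ.al * Λ.rho) - Λ.rho * (-y - -y')| = Λ.sig * |z - z'| := h0
    show |_| = _
    rw [← h0, ← abs_neg]
    congr 1; ring
  | 3 =>
    have h0 : |(-y - -y') - Λ.al * (-x - -x')| = Λ.K * |z - z'| := h0
    show |_| = _
    rw [← h0, ← abs_neg]
    congr 1; ring

/-- one wall piece of the body -/
lemma body_wall {Λ Λ' : Lay} {κ : ℝ} (hs : LaySmall Λ κ) (hn : Num Λ Λ') {k : ℝ} (hk : 0 < k)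
    (φ : (ℝ × ℝ × ℝ) ≃L[ℝ] E3)
    (hφ : ∀ X : ℝ × ℝ × ℝ, φ X = !₂[k * X.1, k * X.2.1 / Λ.N, k * X.2.2])
    (i : Fin 4) (S : Set (ℝ × ℝ × ℝ))
    (hS : ∀ X ∈ S, |X.1| ≤ 1 ∧ |X.2.1| ≤ Λ.N ∧ |X.2.2| ≤ 2)
    (hW : ∀ X ∈ S, ∀ Y ∈ S, WRel Λ i (X.1 - Y.1) (X.2.1 - Y.2.1) (X.2.2 - Y.2.2)) :
    μH[2] (φ '' S) ≤ ENNReal.ofReal (500 * k ^ 2) := by
  have hN := hs.N
  have hN0 : 0 < Λ.N := by linarith
  obtain ⟨hK, -, -, -⟩ := Num.facts hs hn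
  match i with
  | 0 =>
    refine (piece hk hN0 φ hφ S (fun X => (X.2.1 / Λ.N, X.2.2)) (0, 0) 1 2 3 (by norm_num)
      (by norm_num) ?_ ?_).trans (ENNReal.ofReal_le_ofReal (by nlinarith [sq_nonneg k]))
    · intro X hX
      obtain ⟨-, h2, h3⟩ := hS X hX
      refine ⟨?_, by simpa using h3⟩
      simp only [sub_zero]
      rw [abs_div, abs_of_pos hN0, div_le_one hN0]
      exact h2
    · intro X hX Y hY D hD h1 h2
      simp only at h1 h2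
      rw [← sub_div, abs_div, abs_of_pos hN0, div_le_iff₀ hN0] at h1
      have := wall1 hs hn.thick hD (hW X hX Y hY) h1
      refine ⟨this, ?_, by linarith⟩
      have := mul_nonneg hD hN0.le
      linarith
  | 1 =>
    refine (piece hk hN0 φ hφ S (fun X => (X.1, X.2.2)) (0, 0) 1 2 1 (by norm_num)
      (by norm_num) ?_ ?_).trans (ENNReal.ofReal_le_ofReal (by nlinarith [sq_nonneg k]))
    · intro X hX
      obtain ⟨h1, -, h3⟩ := hS X hX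
      exact ⟨by simpa using h1, by simpa using h3⟩
    · intro X hX Y hY D hD h1 h2
      have := wall2 hs hn.thick hD (hW X hX Y hY) h1
      refine ⟨by simpa using h1, ?_, by simpa using h2⟩
      linarith
  | 2 =>
    refine (piece hk hN0 φ hφ S (fun X => (X.1, X.2.2)) (0, 0) 1 2 2 (by norm_num)
      (by norm_num) ?_ ?_).trans (ENNReal.ofReal_le_ofReal (by nlinarith [sq_nonneg k]))
    · intro X hX
      obtain ⟨h1, -, h3⟩ := hS X hX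
      exact ⟨by simpa using h1, by simpa using h3⟩
    · intro X hX Y hY D hD h1 h2
      simp only at h1 h2
      have := wall3 hs hn.thick hK hD (hW X hX Y hY) h1 h2
      exact ⟨by linarith, this, by linarith⟩
  | 3 =>
    refine (piece hk hN0 φ hφ S (fun X => (X.1, X.2.2)) (0, 0) 1 2 1 (by norm_num)
      (by norm_num) ?_ ?_).trans (ENNReal.ofReal_le_ofReal (by nlinarith [sq_nonneg k]))
    · intro X hX
      obtain ⟨h1, -, h3⟩ := hS X hX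
      exact ⟨by simpa using h1, by simpa using h3⟩
    · intro X hX Y hY D hD h1 h2
      simp only at h1 h2
      have := wall4 hs hK hD (hW X hX Y hY) h1 h2
      exact ⟨by linarith, by linarith, by linarith⟩


/-- the bottom of the body -/
lemma body_bottom {Λ Λ' : Lay} {Φ : ℝ → ℝ → ℝ} {κ : ℝ} (hΦ : LayPhi Λ Φ κ) (hs : LaySmall Λ κ)
    (hn : Num Λ Λ') {k : ℝ} (hk : 0 < k) (φ : (ℝ × ℝ × ℝ) ≃L[ℝ] E3)
    (hφ : ∀ X : ℝ × ℝ × ℝ, φ X = !₂[k * X.1, k * X.2.1 / Λ.N, k * X.2.2])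
    (S : Set (ℝ × ℝ × ℝ))
    (hS : ∀ X ∈ S, |X.1| ≤ 1 ∧ |X.2.1| ≤ Λ.N ∧ |X.2.2| ≤ 2)
    (hW : ∀ X ∈ S, X.2.2 = -Φ X.1 (X.2.1 - Λ.N / 2)) :
    μH[2] (φ '' S) ≤ ENNReal.ofReal (500 * k ^ 2) := by
  have hN := hs.N
  have hN0 : 0 < Λ.N := by linarith
  obtain ⟨-, hκ, -, -⟩ := Num.facts hs hn
  have hκ0 := hs.kpos
  refine (piece hk hN0 φ hφ S (fun X => (X.1, X.2.1 / Λ.N)) (0, 0) 1 1 1 (by norm_num)
      (by norm_num) ?_ ?_).trans (ENNReal.ofReal_le_ofReal (by nlinarith [sq_nonneg k]))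
  · intro X hX
    obtain ⟨h1, h2, -⟩ := hS X hX
    refine ⟨by simpa using h1, ?_⟩
    simp only [sub_zero]
    rw [abs_div, abs_of_pos hN0, div_le_one hN0]
    exact h2
  · intro X hX Y hY D hD h1 h2
    simp only at h1 h2
    rw [← sub_div, abs_div, abs_of_pos hN0, div_le_iff₀ hN0] at h2
    refine ⟨by linarith, by linarith, ?_⟩
    rw [hW X hX, hW Y hY]
    have h3 := hΦ.lip X.1 (X.2.1 - Λ.N / 2) Y.1 (Y.2.1 - Λ.N / 2)
    rw [show X.2.1 - Λ.N / 2 - (Y.2.1 - Λ.N / 2) = X.2.1 - Y.2.1 by ring] at h3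
    rw [show -Φ X.1 (X.2.1 - Λ.N / 2) - -Φ Y.1 (Y.2.1 - Λ.N / 2) =
      -(Φ X.1 (X.2.1 - Λ.N / 2) - Φ Y.1 (Y.2.1 - Λ.N / 2)) by ring, abs_neg]
    have h4 := mul_le_mul_of_nonneg_left (add_le_add h1 h2) hκ0
    have h5 := mul_le_mul_of_nonneg_left hN hκ0
    have h6 := mul_le_mul_of_nonneg_right hκ hD
    have h7 : κ * D ≤ κ * Λ.N * D := by nlinarith
    nlinarith

lemma Num.facts' {Λ Λ' : Lay} {κ : ℝ} (hs : LaySmall Λ κ) (hs' : LaySmall Λ' κ)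
    (hn : Num Λ Λ') : κ * Λ'.N ≤ 1 / 50 ∧ Λ'.N ≤ Λ'.K ∧ Λ.N / 4 < Λ'.sig := by
  have hK := Λ'.K_pos
  have hN := hs'.N
  have hlz := Λ'.Zlohi
  have h2 := hn.z3
  have h3 := Λ'.KZ
  have h4 := Λ'.lamlt
  have h5 := hn.thin.pdN
  have h6 := hn.thin.pbN
  have h7 := Λ'.rel
  have h8 := Λ'.be_pos
  have hpd := Λ'.pd_pos
  have hpb := Λ'.pb_neg
  have hsm := hs'.small
  have hl := Λ'.l_pos
  have hz0 := Λ'.Zlo_pos
  have e : Λ'.l = Λ'.N / 4 - Λ'.be := rfl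
  have hbe : Λ'.be ≤ Λ'.N / 8 := by
    have hD : 0 < Λ'.pd - Λ'.pb := by linarith
    have : 3 * Λ'.pd ≤ -Λ'.pb := by nlinarith
    nlinarith
  have hZ : Λ'.Zlo * Λ'.N ≤ 4 :=
    (mul_le_mul_of_nonneg_right hlz (by linarith)).trans h2
  refine ⟨?_, ?_, ?_⟩
  · have h9 : 100 * κ * Λ'.N < Λ'.Zlo := by
      by_contra! hcon
      nlinarith
    have : Λ'.Zlo ≤ 4 / 1000 := by nlinarith
    linarith
  · by_contra! hcon
    have h10 : Λ'.K * (Λ'.Zlo * Λ'.N) ≤ Λ'.K * 4 := mul_le_mul_of_nonneg_left hZ hK.le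
    have h11 : Λ'.N / 8 < Λ'.K * Λ'.Zlo := by linarith
    have h12 : Λ'.N / 8 * Λ'.N < Λ'.K * Λ'.Zlo * Λ'.N :=
      mul_lt_mul_of_pos_right h11 (by linarith)
    nlinarith
  · have := (Num.facts hs hn).2.2.2
    have := hn.sep
    linarith

lemma arm1 {Λ : Lay} {κ : ℝ} (hs : LaySmall Λ κ) {dx dy D : ℝ} (hD : 0 ≤ D)
    (h : dx * (1 + Λ.al * Λ.pd) = Λ.pd * dy) (hdy : |dy| ≤ D) : |dx| ≤ D := by
  have hpd := Λ.pd_pos
  have hlt := Λ.pd_lt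
  have hal := abs_le.1 hs.al
  have h50 := hs.pb
  have h1 : 49 / 50 ≤ 1 + Λ.al * Λ.pd := by nlinarith
  have h2 : |dx| * (1 + Λ.al * Λ.pd) = Λ.pd * |dy| := by
    rw [← abs_of_pos (by linarith : 0 < 1 + Λ.al * Λ.pd), ← abs_mul, h, abs_mul,
      abs_of_pos hpd]
  have h3 : Λ.pd * |dy| ≤ 1 / 50 * D := by
    have := mul_le_mul_of_nonneg_left hdy hpd.le
    have := mul_le_mul_of_nonneg_right (by linarith : Λ.pd ≤ 1 / 50) hD
    linarith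
  have := abs_nonneg dx
  nlinarith

lemma arm2 {Λ : Lay} {κ : ℝ} (hs : LaySmall Λ κ) {dx dy D : ℝ} (hD : 0 ≤ D)
    (h : dx * (1 + Λ.al * Λ.pb) = Λ.pb * dy) (hdy : |dy| ≤ D) : |dx| ≤ D := by
  have hpb := Λ.pb_neg
  have hal := abs_le.1 hs.al
  have h50 := hs.pb
  have h1 : 49 / 50 ≤ 1 + Λ.al * Λ.pb := by nlinarith
  have h2 : |dx| * (1 + Λ.al * Λ.pb) = -Λ.pb * |dy| := by
    rw [← abs_of_pos (by linarith : 0 < 1 + Λ.al * Λ.pb), ← abs_mul, h, abs_mul,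
      abs_of_neg hpb]
  have h3 : -Λ.pb * |dy| ≤ 1 / 50 * D := by
    have := mul_le_mul_of_nonneg_left hdy (by linarith : 0 ≤ -Λ.pb)
    have := mul_le_mul_of_nonneg_right h50 hD
    linarith
  have := abs_nonneg dx
  nlinarith

lemma arm3 {Λ : Lay} {κ : ℝ} (hs : LaySmall Λ κ) (hsig : Λ.N / 4 < Λ.sig)
    {dx dy dz D : ℝ} (hD : 0 ≤ D)
    (h : |dx * (1 + Λ.al * Λ.rho) - Λ.rho * dy| = Λ.sig * |dz|) (hdy : |dy| ≤ D)
    (hdx : |dx| ≤ D * Λ.N) : |dz| ≤ 9 / 2 * D := by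
  have hpb := Λ.pb_neg
  have hpd := Λ.pd_pos
  have hlt := Λ.pd_lt
  have hal := abs_le.1 hs.al
  have h50 := hs.pb
  have hN := hs.N
  have hr := Λ.rho_neg
  have er : Λ.rho = (Λ.pb + Λ.pd) / 2 := rfl
  have hr2 : -Λ.rho ≤ 1 / 50 := by rw [er]; linarith
  have h1 : |1 + Λ.al * Λ.rho| ≤ 51 / 50 := by
    rw [abs_le]; constructor <;> nlinarith
  have h2 : |dx * (1 + Λ.al * Λ.rho)| ≤ 51 / 50 * (D * Λ.N) := by
    rw [abs_mul]
    have := abs_nonneg dx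
    nlinarith [abs_nonneg (1 + Λ.al * Λ.rho)]
  have h3 : |Λ.rho * dy| ≤ 1 / 50 * D := by
    rw [abs_mul, abs_of_neg hr]
    have := abs_nonneg dy
    nlinarith
  have h4 : Λ.sig * |dz| ≤ 51 / 50 * (D * Λ.N) + 1 / 50 * D := by
    rw [← h]
    exact (abs_sub _ _).trans (add_le_add h2 h3)
  have h5 : 51 / 50 * (D * Λ.N) + 1 / 50 * D ≤ Λ.sig * (9 / 2 * D) := by
    have h6 := mul_le_mul_of_nonneg_right hsig.le hD
    have h7 := mul_le_mul_of_nonneg_right hN hD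
    linarith
  exact le_of_mul_le_mul_left (h4.trans h5) (by linarith)

lemma arm4 {Λ : Lay} {κ : ℝ} (hs : LaySmall Λ κ) (hK : Λ.N ≤ Λ.K)
    {dx dy dz D : ℝ} (hD : 0 ≤ D)
    (h : |dy - Λ.al * dx| = Λ.K * |dz|) (hdy : |dy| ≤ D) (hdx : |dx| ≤ D * Λ.N) :
    |dz| ≤ 2 * D := by
  have hN := hs.N
  have hal := hs.al
  have h2 : |Λ.al * dx| ≤ D * Λ.N := by
    rw [abs_mul]
    have := abs_nonneg dx
    nlinarith [abs_nonneg Λ.al]
  have h4 : Λ.K * |dz| ≤ D + D * Λ.N := by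
    rw [← h]
    exact (abs_sub _ _).trans (add_le_add hdy h2)
  have h5 : D + D * Λ.N ≤ Λ.K * (2 * D) := by
    have h6 := mul_le_mul_of_nonneg_right hK hD
    have h7 := mul_le_mul_of_nonneg_right hN hD
    linarith
  exact le_of_mul_le_mul_left (h4.trans h5) (by linarith)

/-- one wall piece of the arm -/
lemma arm_wall {Λ Λ' : Lay} {κ H : ℝ} (hs : LaySmall Λ κ) (hs' : LaySmall Λ' κ) (hn : Num Λ Λ')
    (hNN : Λ'.N = Λ.N) {k : ℝ} (hk : 0 < k)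
    (φ : (ℝ × ℝ × ℝ) ≃L[ℝ] E3)
    (hφ : ∀ X : ℝ × ℝ × ℝ, φ X = !₂[k * X.1, k * X.2.1 / Λ.N, k * X.2.2])
    (i : Fin 4) (S : Set (ℝ × ℝ × ℝ))
    (hS : ∀ X ∈ S, |X.2.1| ≤ 1 ∧ |X.1| ≤ Λ.N ∧ |H - X.2.2| ≤ 4 / Λ.N)
    (hW : ∀ X ∈ S, ∀ Y ∈ S, WRel Λ' i (X.2.1 - Y.2.1) (X.1 - Y.1) (X.2.2 - Y.2.2)) :
    μH[2] (φ '' S) ≤ ENNReal.ofReal (500 * k ^ 2) := by
  have hN := hs.N
  have hN0 : 0 < Λ.N := by linarith
  have hN1 : Λ.N⁻¹ * Λ.N = 1 := inv_mul_cancel₀ hN0.ne'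
  obtain ⟨-, hK, hsig⟩ := Num.facts' hs hs' hn
  have huz : ∀ X ∈ S, |X.1 - 0| ≤ Λ.N ∧ |X.2.2 - H| ≤ 4 / Λ.N := by
    intro X hX
    obtain ⟨-, h1, h3⟩ := hS X hX
    rw [abs_sub_comm] at h3
    exact ⟨by simpa using h1, h3⟩
  have hxu : ∀ X ∈ S, |X.1 - 0| ≤ Λ.N ∧ |X.2.1 / Λ.N - 0| ≤ 1 / Λ.N := by
    intro X hX
    obtain ⟨h2, h1, -⟩ := hS X hX
    refine ⟨by simpa using h1, ?_⟩
    rw [sub_zero, abs_div, abs_of_pos hN0]
    exact div_le_div_of_nonneg_right h2 hN0.le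
  match i with
  | 0 =>
    refine (piece hk hN0 φ hφ S (fun X => (X.1, X.2.2)) (0, H) Λ.N (4 / Λ.N) 1 hN0.le
      (by norm_num) huz ?_).trans (ENNReal.ofReal_le_ofReal ?_)
    · intro X hX Y hY D hD h1 h2
      have h3 : |X.1 - Y.1| ≤ D := h1
      have h4 : |X.2.2 - Y.2.2| ≤ D := h2
      have := arm1 hs' hD (hW X hX Y hY) h3
      have := mul_le_mul_of_nonneg_left hN hD
      exact ⟨by linarith, by linarith, by linarith⟩
    · have : 16 * (1 : ℝ) ^ 2 * Λ.N * (4 / Λ.N) = 64 := by field_simp; norm_num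
      rw [this]
      nlinarith [sq_nonneg k]
  | 1 =>
    refine (piece hk hN0 φ hφ S (fun X => (X.1, X.2.2)) (0, H) Λ.N (4 / Λ.N) 1 hN0.le
      (by norm_num) huz ?_).trans (ENNReal.ofReal_le_ofReal ?_)
    · intro X hX Y hY D hD h1 h2
      have h3 : |X.1 - Y.1| ≤ D := h1
      have h4 : |X.2.2 - Y.2.2| ≤ D := h2
      have := arm2 hs' hD (hW X hX Y hY) h3
      have := mul_le_mul_of_nonneg_left hN hD
      exact ⟨by linarith, by linarith, by linarith⟩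
    · have : 16 * (1 : ℝ) ^ 2 * Λ.N * (4 / Λ.N) = 64 := by field_simp; norm_num
      rw [this]
      nlinarith [sq_nonneg k]
  | 2 =>
    refine (piece hk hN0 φ hφ S (fun X => (X.1, X.2.1 / Λ.N)) (0, 0) Λ.N (1 / Λ.N) (9 / 2) hN0.le
      (by norm_num) hxu ?_).trans (ENNReal.ofReal_le_ofReal ?_)
    · intro X hX Y hY D hD h1 h2
      have h3 : |X.1 - Y.1| ≤ D := h1
      simp only at h2
      rw [← sub_div, abs_div, abs_of_pos hN0, div_le_iff₀ hN0] at h2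
      have h5 := arm3 hs' (by rw [hNN]; exact hsig) hD (hW X hX Y hY) h3 (by rw [hNN]; exact h2)
      have := mul_nonneg hD hN0.le
      exact ⟨by linarith, by linarith, h5⟩
    · have : 16 * (9 / 2 : ℝ) ^ 2 * Λ.N * (1 / Λ.N) = 324 := by field_simp; norm_num
      rw [this]
      nlinarith [sq_nonneg k]
  | 3 =>
    refine (piece hk hN0 φ hφ S (fun X => (X.1, X.2.1 / Λ.N)) (0, 0) Λ.N (1 / Λ.N) 2 hN0.le
      (by norm_num) hxu ?_).trans (ENNReal.ofReal_le_ofReal ?_)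
    · intro X hX Y hY D hD h1 h2
      have h3 : |X.1 - Y.1| ≤ D := h1
      simp only at h2
      rw [← sub_div, abs_div, abs_of_pos hN0, div_le_iff₀ hN0] at h2
      have h5 := arm4 hs' hK hD (hW X hX Y hY) h3 (by rw [hNN]; exact h2)
      have := mul_nonneg hD hN0.le
      exact ⟨by linarith, by linarith, h5⟩
    · have : 16 * (2 : ℝ) ^ 2 * Λ.N * (1 / Λ.N) = 64 := by field_simp; norm_num
      rw [this]
      nlinarith [sq_nonneg k]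

/-- the top of the arm -/
lemma arm_top {Λ Λ' : Lay} {Φ' : ℝ → ℝ → ℝ} {κ H : ℝ} (hΦ' : LayPhi Λ' Φ' κ)
    (hs : LaySmall Λ κ) (hs' : LaySmall Λ' κ)
    (hn : Num Λ Λ') (hNN : Λ'.N = Λ.N) {k : ℝ} (hk : 0 < k) (φ : (ℝ × ℝ × ℝ) ≃L[ℝ] E3)
    (hφ : ∀ X : ℝ × ℝ × ℝ, φ X = !₂[k * X.1, k * X.2.1 / Λ.N, k * X.2.2])
    (S : Set (ℝ × ℝ × ℝ))
    (hS : ∀ X ∈ S, |X.2.1| ≤ 1 ∧ |X.1| ≤ Λ.N ∧ |H - X.2.2| ≤ 4 / Λ.N)
    (hW : ∀ X ∈ S, H - X.2.2 = -Φ' X.2.1 (X.1 - Λ'.N / 2)) :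
    μH[2] (φ '' S) ≤ ENNReal.ofReal (500 * k ^ 2) := by
  have hN := hs.N
  have hN0 : 0 < Λ.N := by linarith
  obtain ⟨hκ, -, -⟩ := Num.facts' hs hs' hn
  rw [hNN] at hκ
  have hκ0 := hs'.kpos
  refine (piece hk hN0 φ hφ S (fun X => (X.1, X.2.1 / Λ.N)) (0, 0) Λ.N (1 / Λ.N) 1 hN0.le
      (by norm_num) ?_ ?_).trans (ENNReal.ofReal_le_ofReal ?_)
  · intro X hX
    obtain ⟨h2, h1, -⟩ := hS X hX
    refine ⟨by simpa using h1, ?_⟩
    simp only [sub_zero]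
    rw [abs_div, abs_of_pos hN0]
    exact div_le_div_of_nonneg_right h2 hN0.le
  · intro X hX Y hY D hD h1 h2
    simp only at h1 h2
    rw [← sub_div, abs_div, abs_of_pos hN0, div_le_iff₀ hN0] at h2
    refine ⟨by linarith, by linarith, ?_⟩
    have e1 := hW X hX
    have e2 := hW Y hY
    have h3 := hΦ'.lip X.2.1 (X.1 - Λ'.N / 2) Y.2.1 (Y.1 - Λ'.N / 2)
    rw [show X.1 - Λ'.N / 2 - (Y.1 - Λ'.N / 2) = X.1 - Y.1 by ring] at h3
    rw [show X.2.2 - Y.2.2 =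
      Φ' X.2.1 (X.1 - Λ'.N / 2) - Φ' Y.2.1 (Y.1 - Λ'.N / 2) by linarith]
    have h4 := mul_le_mul_of_nonneg_left (add_le_add h2 h1) hκ0
    have h6 := mul_le_mul_of_nonneg_right hκ hD
    have h7 : κ * D ≤ κ * Λ.N * D := by
      have : κ ≤ κ * Λ.N := by nlinarith
      nlinarith
    nlinarith
  · have : 16 * (1 : ℝ) ^ 2 * Λ.N * (1 / Λ.N) = 16 := by field_simp
    rw [this]
    nlinarith [sq_nonneg k]

lemma G_abs_box {Λ : Lay} {t z : ℝ} (h0 : 0 ≤ t) (h1 : t ≤ Λ.N / 2) (hz : |Λ.K * z| ≤ Λ.l) :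
    |Λ.G t z| ≤ Λ.pd * (Λ.l + |Λ.K * z|) := by
  have key : ∀ t z : ℝ, 0 ≤ t → t ≤ Λ.N / 2 → |Λ.K * z| ≤ Λ.l →
      -(Λ.pd * (Λ.l + |Λ.K * z|)) ≤ Λ.G t z := by
    intro t z h0 h1 hz
    have hpd := Λ.pd_pos
    have hr := Λ.rho_neg
    have hl := Λ.l_pos
    have hl2 := Λ.l_lt
    have hz' := abs_le.1 hz
    have hz2 := le_abs_self (Λ.K * z)
    have hkz : |Λ.K * z| < Λ.N / 4 := hz.trans_lt hl2
    have hm : 0 ≤ Λ.pd * (Λ.l + |Λ.K * z|) := mul_nonneg hpd.le (by positivity)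
    by_cases ha : t ≤ Λ.l - Λ.K * z
    · rw [Lay.G_a h0 hkz ha]
      have := mul_nonneg hpd.le h0
      linarith
    by_cases hc : Λ.N / 2 - (Λ.K * z + Λ.l) ≤ t
    · have h2 : Λ.pd * (t - Λ.N / 2) ≤ Λ.G t z := (le_max_right _ _).trans (le_max_left _ _)
      nlinarith
    · push Not at ha hc
      rw [Lay.G_e h0 h1 ha.le (by linarith) hc.le (by linarith)]
      have e5 := Λ.X_sub_pd' (Λ.N / 2 - (Λ.K * z + Λ.l)) z
      have e6 : Λ.X t z - Λ.X (Λ.N / 2 - (Λ.K * z + Λ.l)) z =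
          Λ.rho * (t - (Λ.N / 2 - (Λ.K * z + Λ.l))) := by unfold Lay.X; ring
      nlinarith
  rw [abs_le]
  refine ⟨key t z h0 h1 hz, ?_⟩
  have := key (Λ.N / 2 - t) (-z) (by linarith) (by linarith) (by rwa [mul_neg, abs_neg])
  rw [Lay.G_symm h0 h1, mul_neg, abs_neg] at this
  linarith

lemma F_abs_box {Λ : Lay} (t : ℝ) {z : ℝ} (hz : |Λ.K * z| ≤ Λ.l) :
    |Λ.F t z| ≤ Λ.pd * (Λ.l + |Λ.K * z|) :=
  glue_abs_le (A := fun t => Λ.G t z) (B := fun t => Λ.G t (-z)) Λ.half_pos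
    (Lay.G_zero _) (Lay.G_half _) (Lay.G_zero _) (Lay.G_half _)
    (fun t ht => G_abs_box ht.1 ht.2 hz)
    (fun t ht => by
      have := G_abs_box (Λ := Λ) (t := t) (z := -z) ht.1 ht.2 (by rwa [mul_neg, abs_neg])
      rwa [mul_neg, abs_neg] at this) t

theorem LB_box {Λ Λ' : Lay} {Φ : ℝ → ℝ → ℝ} {κ : ℝ} (hΦ : LayPhi Λ Φ κ) (hs : LaySmall Λ κ)
    (hn : Num Λ Λ') {x y z : ℝ} (hx : |x| ≤ 1 / 8) (hy : |y| ≤ Λ.N / 16) (hz : |z| ≤ 1 / 12) :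
    Λ.LB Φ x y z := by
  obtain ⟨hK, -, hl, -⟩ := Num.facts hs hn
  have hK0 := Λ.K_pos
  have hN := hs.N
  have hz' := abs_le.1 hz
  have hx' := abs_le.1 hx
  have hy' := abs_le.1 hy
  have hal := hs.al
  have hpd := Λ.pd_pos
  have hKz : |Λ.K * z| ≤ Λ.N / 24 := by
    rw [abs_mul, abs_of_pos hK0]
    have := mul_le_mul hK.le hz (abs_nonneg z) (by linarith : 0 ≤ Λ.N / 2)
    linarith
  have hKz' := abs_le.1 hKz
  have hF : ∀ t, |Λ.F t z| ≤ 3 / 8 := by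
    intro t
    refine (F_abs_box t (hKz.trans (by linarith))).trans ?_
    have h1 := Λ.b2
    have h2 := Λ.lamlt
    have h3 := mul_le_mul_of_nonneg_left Λ.Zlohi hK0.le
    have e : Λ.l = Λ.N / 4 - Λ.be := rfl
    rw [← e] at h1 h2
    have h4 : Λ.pd * (2 * Λ.l) ≤ 1 / 2 := by
      refine le_trans ?_ h1.le
      exact mul_le_mul_of_nonneg_left (by linarith) hpd.le
    have h5 : Λ.pd * |Λ.K * z| ≤ Λ.pd * (Λ.l / 3) :=
      mul_le_mul_of_nonneg_left (by linarith) hpd.le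
    linarith
  have halx : |Λ.al * x| ≤ 1 / 8 := by
    rw [abs_mul]
    have := mul_le_mul hal hx (abs_nonneg x) (by norm_num)
    linarith
  have halx' := abs_le.1 halx
  have hz1 := hn.z1
  refine ⟨?_, ?_, ?_, ?_, ?_⟩
  · have := hΦ.lo x (y - Λ.N / 2)
    linarith
  · have := hΦ.lo x y
    linarith
  · have := abs_le.1 (hF (y - Λ.al * x + Λ.be))
    linarith
  · have := abs_le.1 (hF (y - Λ.al * x - Λ.be))
    linarith
  · rw [abs_le]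
    constructor <;> linarith

lemma union_bound {φ : (ℝ × ℝ × ℝ) → E3} {ι : Type*} (s : Finset ι)
    (F : ι → Set (ℝ × ℝ × ℝ)) {c : ENNReal} (h : ∀ i ∈ s, μH[2] (φ '' (F i)) ≤ c) :
    μH[2] (φ '' (⋃ i ∈ s, F i)) ≤ s.card * c := by
  rw [image_iUnion₂]
  refine (measure_biUnion_finset_le _ _).trans ?_
  refine (Finset.sum_le_card_nsmul _ _ _ h).trans ?_
  rw [nsmul_eq_mul]

lemma LWall_iff {Λ : Lay} {x y z : ℝ} (h : LWall Λ x y z) : ∃ i, WPiece Λ i x y z := by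
  rcases h with h | h | h | h
  · exact ⟨0, h⟩
  · exact ⟨1, h⟩
  · exact ⟨2, h⟩
  · exact ⟨3, h⟩

theorem area_bound {Λ Λ' : Lay} {Φ Φ' : ℝ → ℝ → ℝ} {κ H : ℝ} (hΦ : LayPhi Λ Φ κ)
    (hΦ' : LayPhi Λ' Φ' κ) (hs : LaySmall Λ κ) (hs' : LaySmall Λ' κ) (hn : Num Λ Λ')
    (hN : Λ'.N = Λ.N) {k : ℝ} (hk : 0 < k) (φ : (ℝ × ℝ × ℝ) ≃L[ℝ] E3)
    (hφ : ∀ X : ℝ × ℝ × ℝ, φ X = !₂[k * X.1, k * X.2.1 / Λ.N, k * X.2.2])
    (F : Set (ℝ × ℝ × ℝ))
    (hF : ∀ X ∈ F,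
      (|X.1| ≤ 1 ∧ |X.2.1| ≤ Λ.N ∧ |X.2.2| ≤ 2 ∧ LPiece Λ Φ X.1 X.2.1 X.2.2) ∨
      (|X.2.1| ≤ 1 ∧ |X.1| ≤ Λ.N ∧ |H - X.2.2| ≤ 4 / Λ.N ∧
        LPiece Λ' Φ' X.2.1 X.1 (H - X.2.2))) :
    μH[2] (φ '' F) ≤ ENNReal.ofReal (10 ^ 4 * k ^ 2) := by
  classical
  -- the pieces: `(b, none)`, `(b, some (s, i))`
  set B : Set (ℝ × ℝ × ℝ) := {X | |X.1| ≤ 1 ∧ |X.2.1| ≤ Λ.N ∧ |X.2.2| ≤ 2} with hB
  set A : Set (ℝ × ℝ × ℝ) := {X | |X.2.1| ≤ 1 ∧ |X.1| ≤ Λ.N ∧ |H - X.2.2| ≤ 4 / Λ.N} with hA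
  set Q : Bool × Option (Bool × Fin 4) → Set (ℝ × ℝ × ℝ) := fun j =>
    match j with
    | (false, none) => B ∩ {X | X.2.2 = -Φ X.1 (X.2.1 - Λ.N / 2)}
    | (false, some (false, i)) => B ∩ {X | WPiece Λ i X.1 X.2.1 X.2.2}
    | (false, some (true, i)) => B ∩ {X | WPiece Λ i (-X.1) (-X.2.1) X.2.2}
    | (true, none) => A ∩ {X | H - X.2.2 = -Φ' X.2.1 (X.1 - Λ'.N / 2)}
    | (true, some (false, i)) => A ∩ {X | WPiece Λ' i X.2.1 X.1 (H - X.2.2)}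
    | (true, some (true, i)) => A ∩ {X | WPiece Λ' i (-X.2.1) (-X.1) (H - X.2.2)} with hQ
  have hsub : F ⊆ ⋃ j ∈ (Finset.univ : Finset (Bool × Option (Bool × Fin 4))), Q j := by
    intro X hX
    simp only [Finset.mem_univ, iUnion_true, mem_iUnion]
    rcases hF X hX with ⟨h1, h2, h3, h4⟩ | ⟨h1, h2, h3, h4⟩
    · have hXB : X ∈ B := ⟨h1, h2, h3⟩
      rcases h4 with h | h | h
      · exact ⟨(false, none), hXB, h⟩
      · obtain ⟨i, hi⟩ := LWall_iff h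
        exact ⟨(false, some (false, i)), hXB, hi⟩
      · obtain ⟨i, hi⟩ := LWall_iff h
        exact ⟨(false, some (true, i)), hXB, hi⟩
    · have hXA : X ∈ A := ⟨h1, h2, h3⟩
      rcases h4 with h | h | h
      · exact ⟨(true, none), hXA, h⟩
      · obtain ⟨i, hi⟩ := LWall_iff h
        exact ⟨(true, some (false, i)), hXA, hi⟩
      · obtain ⟨i, hi⟩ := LWall_iff h
        exact ⟨(true, some (true, i)), hXA, hi⟩
  have hbound : ∀ j ∈ (Finset.univ : Finset (Bool × Option (Bool × Fin 4))),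
      μH[2] (φ '' (Q j)) ≤ ENNReal.ofReal (500 * k ^ 2) := by
    rintro j -
    match j with
    | (false, none) => exact body_bottom hΦ hs hn hk φ hφ _ (fun X hX => hX.1) (fun X hX => hX.2)
    | (false, some (false, i)) =>
      exact body_wall hs hn hk φ hφ i _ (fun X hX => hX.1)
        (fun X hX Y hY => WPiece.rel hX.2 hY.2)
    | (false, some (true, i)) =>
      exact body_wall hs hn hk φ hφ i _ (fun X hX => hX.1)
        (fun X hX Y hY => WPiece.rel' hX.2 hY.2)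
    | (true, none) =>
      exact arm_top hΦ' hs hs' hn hN hk φ hφ _ (fun X hX => hX.1) (fun X hX => hX.2)
    | (true, some (false, i)) =>
      refine arm_wall (H := H) hs hs' hn hN hk φ hφ i _ (fun X hX => hX.1)
        (fun X hX Y hY => ?_)
      have := WPiece.rel hX.2 hY.2
      rw [show H - X.2.2 - (H - Y.2.2) = -(X.2.2 - Y.2.2) by ring] at this
      match i with
      | 0 => exact this
      | 1 => exact this
      | 2 =>
        have h' : |_| = Λ'.sig * |-(X.2.2 - Y.2.2)| := this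
        rw [abs_neg] at h'
        exact h'
      | 3 =>
        have h' : |_| = Λ'.K * |-(X.2.2 - Y.2.2)| := this
        rw [abs_neg] at h'
        exact h'
    | (true, some (true, i)) =>
      refine arm_wall (H := H) hs hs' hn hN hk φ hφ i _ (fun X hX => hX.1)
        (fun X hX Y hY => ?_)
      have := WPiece.rel' hX.2 hY.2
      rw [show H - X.2.2 - (H - Y.2.2) = -(X.2.2 - Y.2.2) by ring] at this
      match i with
      | 0 => exact this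
      | 1 => exact this
      | 2 =>
        have h' : |_| = Λ'.sig * |-(X.2.2 - Y.2.2)| := this
        rw [abs_neg] at h'
        exact h'
      | 3 =>
        have h' : |_| = Λ'.K * |-(X.2.2 - Y.2.2)| := this
        rw [abs_neg] at h'
        exact h'
  refine (measure_mono (image_mono hsub)).trans ((union_bound _ _ hbound).trans ?_)
  have hcard : (Finset.univ : Finset (Bool × Option (Bool × Fin 4))).card = 18 := by decide
  rw [hcard, ← ENNReal.ofReal_natCast, ← ENNReal.ofReal_mul (by norm_num)]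
  apply ENNReal.ofReal_le_ofReal
  push_cast
  nlinarith [sq_nonneg k]

end Pool.Agent.DAF
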