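import Pool.Agent.DAF.Distinct

open Set Topology

namespace Pool.Agent.DAF

namespace Data

variable (𝔇 : Data)

lemma T_zbound {x y z : ℝ} (h : 𝔇.T x y z) : |z| ≤ 2 * 𝔇.H := by
  have h1 := 𝔇.T_ge h
  have h2 := 𝔇.T_le h
  have h3 := 𝔇.Ψ_pos x (y - 𝔇.hlf)
  have h4 := 𝔇.Ψ_lt x (y - 𝔇.hlf)
  have hH := 𝔇.H_pos
  unfold h0 at h1 h2
  rw [abs_le]; constructor <;> linarith

/-- the tiles as an indexed family -/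
noncomputable def fam (p : ℤ × ℤ × ℤ × Bool) : Set (ℝ × ℝ × ℝ) :=
  match p with
  | (i, m, k, false) => 𝔇.tA i (𝔇.P.s * i + m * 𝔇.P.N) k
  | (i, m, k, true) => 𝔇.tB i (𝔇.P.s * i + m * 𝔇.P.N + 𝔇.hlf) k

theorem Til_locfin (X : ℝ × ℝ × ℝ) : ∃ U ∈ 𝓝 X, {S ∈ 𝔇.Til | (S ∩ U).Nonempty}.Finite := by
  have hN := 𝔇.N_real
  have hs := 𝔇.s_real
  have hH := 𝔇.H_pos
  have hlf : 𝔇.hlf = 𝔇.P.N / 2 := rfl
  set A : ℝ := |X.1| + |X.2.1| + |X.2.2| + 2 + 3 * 𝔇.P.N + 2 * 𝔇.H with hA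
  have n1 := abs_nonneg X.1
  have n2 := abs_nonneg X.2.1
  have n3 := abs_nonneg X.2.2
  have hA0 : 0 ≤ A := by linarith
  obtain ⟨M, hM⟩ := exists_nat_ge (A + 𝔇.P.s * A + A / (2 * 𝔇.H))
  have q1 : 0 ≤ 𝔇.P.s * A := mul_nonneg (by linarith) hA0
  have q2 : 0 ≤ A / (2 * 𝔇.H) := div_nonneg hA0 (by linarith)
  refine ⟨Metric.ball X 1, Metric.ball_mem_nhds X one_pos, ?_⟩
  have hfin : (𝔇.fam '' (Icc (-(M : ℤ)) M ×ˢ (Icc (-(M : ℤ)) M ×ˢ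
      (Icc (-(M : ℤ)) M ×ˢ (univ : Set Bool))))).Finite :=
    ((Set.finite_Icc _ _).prod ((Set.finite_Icc _ _).prod
      ((Set.finite_Icc _ _).prod Set.finite_univ))).image _
  refine hfin.subset ?_
  -- the bound on the parameters
  have key : ∀ (i m k : ℤ) (b : ℝ), b = 𝔇.P.s * i + m * 𝔇.P.N → |(i : ℝ)| ≤ A → |b| ≤ A →
      |2 * 𝔇.H * k| ≤ A → i ∈ Icc (-(M : ℤ)) M ∧ m ∈ Icc (-(M : ℤ)) M ∧
        k ∈ Icc (-(M : ℤ)) M := by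
    intro i m k b hb h1 h2 h3
    have e1 : |(i : ℝ)| ≤ M := by linarith
    have e2 : |(k : ℝ)| ≤ M := by
      have : |(k : ℝ)| ≤ A / (2 * 𝔇.H) := by
        rw [le_div_iff₀ (by linarith)]
        rw [abs_mul, abs_of_pos (by linarith : 0 < 2 * 𝔇.H)] at h3
        linarith
      linarith
    have e3 : |(m : ℝ)| ≤ M := by
      have h4 : |(m : ℝ) * 𝔇.P.N| ≤ A + 𝔇.P.s * A := by
        have : (m : ℝ) * 𝔇.P.N = b - 𝔇.P.s * i := by rw [hb]; ring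
        rw [this]
        refine (abs_sub _ _).trans ?_
        rw [abs_mul, abs_of_pos (by linarith : (0 : ℝ) < 𝔇.P.s)]
        have := mul_le_mul_of_nonneg_left h1 (by linarith : (0 : ℝ) ≤ 𝔇.P.s)
        linarith
      rw [abs_mul, abs_of_pos (by linarith : (0 : ℝ) < 𝔇.P.N)] at h4
      have h5 := abs_nonneg (m : ℝ)
      have h6 : |(m : ℝ)| * 1 ≤ |(m : ℝ)| * 𝔇.P.N :=
        mul_le_mul_of_nonneg_left (by linarith) h5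
      linarith
    have c : ∀ j : ℤ, |(j : ℝ)| ≤ M → j ∈ Icc (-(M : ℤ)) M := by
      intro j hj
      have := abs_le.1 hj
      constructor
      · exact_mod_cast this.1
      · exact_mod_cast this.2
    exact ⟨c i e1, c m e3, c k e2⟩
  rintro S ⟨⟨a, b, k, hS⟩, ⟨Y, hY1, hY2⟩⟩
  rw [Metric.mem_ball, Prod.dist_eq, Prod.dist_eq, max_lt_iff, max_lt_iff, Real.dist_eq,
    Real.dist_eq, Real.dist_eq] at hY2
  obtain ⟨d1, d2, d3⟩ := hY2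
  have d1' := abs_lt.1 d1
  have d2' := abs_lt.1 d2
  have d3' := abs_lt.1 d3
  have x1 := abs_le.1 (le_refl |X.1|)
  have x2 := abs_le.1 (le_refl |X.2.1|)
  have x3 := abs_le.1 (le_refl |X.2.2|)
  rcases hS with ⟨hL, rfl⟩ | ⟨hL, rfl⟩
  · obtain ⟨i, m, h1, h2⟩ := hL
    obtain ⟨t1, t2⟩ := 𝔇.T_bound hY1
    have t3 := 𝔇.T_zbound hY1
    have t1' := abs_le.1 t1
    have t2' := abs_le.1 t2
    have t3' := abs_le.1 t3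
    obtain ⟨k1, k2, k3⟩ := key i m k b h2 (by rw [← h1, abs_le]; constructor <;> linarith)
      (by rw [abs_le]; constructor <;> linarith) (by rw [abs_le]; constructor <;> linarith)
    refine ⟨(i, m, k, false), ⟨k1, k2, k3, mem_univ _⟩, ?_⟩
    change 𝔇.tA i (𝔇.P.s * i + m * 𝔇.P.N) k = 𝔇.tA a b k
    rw [h1, h2]
  · obtain ⟨i, m, h1, h2⟩ := hL
    obtain ⟨t1, t2⟩ := 𝔇.T_bound hY1
    have t3 := 𝔇.T_zbound hY1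
    have t1' := abs_le.1 t1
    have t2' := abs_le.1 t2
    have t3' := abs_le.1 t3
    obtain ⟨k1, k2, k3⟩ := key i m k (b - 𝔇.hlf) h2
      (by rw [← h1, abs_le]; constructor <;> linarith)
      (by rw [abs_le]; constructor <;> linarith) (by rw [abs_le]; constructor <;> linarith)
    refine ⟨(i, m, k, true), ⟨k1, k2, k3, mem_univ _⟩, ?_⟩
    change 𝔇.tB i (𝔇.P.s * i + m * 𝔇.P.N + 𝔇.hlf) k = 𝔇.tB a b k
    rw [h1, ← h2, sub_add_cancel]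

omit 𝔇 in
lemma mem_add_image {S : Set (ℝ × ℝ × ℝ)} {v X : ℝ × ℝ × ℝ} :
    X ∈ (fun x => v + x) '' S ↔ X - v ∈ S := by
  constructor
  · rintro ⟨Y, hY, rfl⟩
    simpa using hY
  · intro h
    exact ⟨X - v, h, by simp⟩

omit 𝔇 in
lemma mem_sub_image {S : Set (ℝ × ℝ × ℝ)} {v X : ℝ × ℝ × ℝ} :
    X ∈ (fun x => v - x) '' S ↔ v - X ∈ S := by
  constructor
  · rintro ⟨Y, hY, rfl⟩
    simpa using hY
  · intro h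
    exact ⟨v - X, h, by simp⟩

lemma add_tA (a b a' b' : ℝ) (k k' : ℤ) :
    (fun x => ((a, b, 2 * 𝔇.H * k) : ℝ × ℝ × ℝ) + x) '' 𝔇.tA a' b' k' =
      𝔇.tA (a + a') (b + b') (k + k') := by
  ext X
  rw [mem_add_image]
  change 𝔇.T (X.1 - a - a') (X.2.1 - b - b') (X.2.2 - 2 * 𝔇.H * k - 2 * 𝔇.H * k') ↔
    𝔇.T (X.1 - (a + a')) (X.2.1 - (b + b')) (X.2.2 - 2 * 𝔇.H * ((k + k' : ℤ) : ℝ))
  rw [sub_sub, sub_sub, show X.2.2 - 2 * 𝔇.H * k - 2 * 𝔇.H * k' =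
    X.2.2 - 2 * 𝔇.H * ((k + k' : ℤ) : ℝ) by push_cast; ring]

lemma add_tB (a b a' b' : ℝ) (k k' : ℤ) :
    (fun x => ((a, b, 2 * 𝔇.H * k) : ℝ × ℝ × ℝ) + x) '' 𝔇.tB a' b' k' =
      𝔇.tB (a + a') (b + b') (k + k') := by
  ext X
  rw [mem_add_image]
  change 𝔇.T (a' - (X.1 - a)) (b' - (X.2.1 - b)) (2 * 𝔇.H * k' - (X.2.2 - 2 * 𝔇.H * k)) ↔
    𝔇.T (a + a' - X.1) (b + b' - X.2.1) (2 * 𝔇.H * ((k + k' : ℤ) : ℝ) - X.2.2)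
  rw [show a' - (X.1 - a) = a + a' - X.1 by ring, show b' - (X.2.1 - b) = b + b' - X.2.1 by ring,
    show 2 * 𝔇.H * k' - (X.2.2 - 2 * 𝔇.H * k) = 2 * 𝔇.H * ((k + k' : ℤ) : ℝ) - X.2.2 by
      push_cast; ring]

lemma sub_tA (a b a' b' : ℝ) (k k' : ℤ) :
    (fun x => ((a, b, 2 * 𝔇.H * k) : ℝ × ℝ × ℝ) - x) '' 𝔇.tA a' b' k' =
      𝔇.tB (a - a') (b - b') (k - k') := by
  ext X
  rw [mem_sub_image]
  change 𝔇.T (a - X.1 - a') (b - X.2.1 - b') (2 * 𝔇.H * k - X.2.2 - 2 * 𝔇.H * k') ↔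
    𝔇.T (a - a' - X.1) (b - b' - X.2.1) (2 * 𝔇.H * ((k - k' : ℤ) : ℝ) - X.2.2)
  rw [show a - X.1 - a' = a - a' - X.1 by ring, show b - X.2.1 - b' = b - b' - X.2.1 by ring,
    show 2 * 𝔇.H * k - X.2.2 - 2 * 𝔇.H * k' = 2 * 𝔇.H * ((k - k' : ℤ) : ℝ) - X.2.2 by
      push_cast; ring]

lemma sub_tB (a b a' b' : ℝ) (k k' : ℤ) :
    (fun x => ((a, b, 2 * 𝔇.H * k) : ℝ × ℝ × ℝ) - x) '' 𝔇.tB a' b' k' =
      𝔇.tA (a - a') (b - b') (k - k') := by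
  ext X
  rw [mem_sub_image]
  change 𝔇.T (a' - (a - X.1)) (b' - (b - X.2.1)) (2 * 𝔇.H * k' - (2 * 𝔇.H * k - X.2.2)) ↔
    𝔇.T (X.1 - (a - a')) (X.2.1 - (b - b')) (X.2.2 - 2 * 𝔇.H * ((k - k' : ℤ) : ℝ))
  rw [show a' - (a - X.1) = X.1 - (a - a') by ring, show b' - (b - X.2.1) = X.2.1 - (b - b') by
    ring, show 2 * 𝔇.H * k' - (2 * 𝔇.H * k - X.2.2) =
      X.2.2 - 2 * 𝔇.H * ((k - k' : ℤ) : ℝ) by push_cast; ring]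

theorem Til_homog : ∀ S ∈ 𝔇.Til, ∃ v : ℝ × ℝ × ℝ,
    (S = (fun x => v + x) '' 𝔇.TS ∧ (∀ S' ∈ 𝔇.Til, (fun x => v + x) '' S' ∈ 𝔇.Til) ∧
      (∀ S' ∈ 𝔇.Til, (fun x => -v + x) '' S' ∈ 𝔇.Til)) ∨
    (S = (fun x => v - x) '' 𝔇.TS ∧ (∀ S' ∈ 𝔇.Til, (fun x => v - x) '' S' ∈ 𝔇.Til)) := by
  have hadd : ∀ (a b : ℝ) (k : ℤ), 𝔇.P.Lat a b → ∀ S' ∈ 𝔇.Til,
      (fun x => ((a, b, 2 * 𝔇.H * k) : ℝ × ℝ × ℝ) + x) '' S' ∈ 𝔇.Til := by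
    intro a b k hL S' hS'
    obtain ⟨a', b', k', ⟨hL', rfl⟩ | ⟨hL', rfl⟩⟩ := hS'
    · exact ⟨_, _, _, Or.inl ⟨Plan.Lat.add _ hL hL', 𝔇.add_tA _ _ _ _ _ _⟩⟩
    · refine ⟨_, _, _, Or.inr ⟨?_, 𝔇.add_tB _ _ _ _ _ _⟩⟩
      have := Plan.Lat.add _ hL hL'
      rwa [← add_sub_assoc] at this
  rintro S ⟨a, b, k, ⟨hL, rfl⟩ | ⟨hL, rfl⟩⟩
  · refine ⟨(a, b, 2 * 𝔇.H * k), Or.inl ⟨?_, hadd a b k hL, ?_⟩⟩
    · rw [← 𝔇.tA_zero, add_tA, add_zero, add_zero, add_zero]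
    · intro S' hS'
      have := hadd (-a) (-b) (-k) (Plan.Lat.neg _ hL) S' hS'
      have e : ((-a, -b, 2 * 𝔇.H * ((-k : ℤ) : ℝ)) : ℝ × ℝ × ℝ) = -(a, b, 2 * 𝔇.H * (k : ℝ)) := by
        refine Prod.ext rfl (Prod.ext rfl ?_)
        change 2 * 𝔇.H * ((-k : ℤ) : ℝ) = -(2 * 𝔇.H * (k : ℝ))
        push_cast; ring
      rwa [e] at this
  · refine ⟨(a, b, 2 * 𝔇.H * k), Or.inr ⟨?_, ?_⟩⟩
    · rw [← 𝔇.tA_zero, sub_tA, sub_zero, sub_zero, sub_zero]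
    · intro S' hS'
      obtain ⟨a', b', k', ⟨hL', rfl⟩ | ⟨hL', rfl⟩⟩ := hS'
      · refine ⟨_, _, _, Or.inr ⟨?_, 𝔇.sub_tA _ _ _ _ _ _⟩⟩
        have := Plan.Lat.sub _ hL hL'
        rwa [sub_right_comm] at this
      · refine ⟨_, _, _, Or.inl ⟨?_, 𝔇.sub_tB _ _ _ _ _ _⟩⟩
        have := Plan.Lat.sub _ hL hL'
        rwa [sub_sub_sub_cancel_right] at this

end Data

end Pool.Agent.DAF
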