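import Pool.Agent.DAF.Items

open Set Topology

namespace Pool.Agent.DAF

lemma LB_compact {Λ : Lay} {Φ : ℝ → ℝ → ℝ} {κ : ℝ} (hΦ : LayPhi Λ Φ κ) :
    IsCompact {X : ℝ × ℝ × ℝ | Λ.LB Φ X.1 X.2.1 X.2.2} :=
  Metric.isCompact_of_isClosed_isBounded (LB_closed hΦ) (LB_bounded hΦ)

/-- near the top point over the origin only the top constraint is active -/
lemma LB_nhd {Λ : Lay} {Φ : ℝ → ℝ → ℝ} {κ : ℝ} (hΦ : LayPhi Λ Φ κ) :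
    ∃ W : Set (ℝ × ℝ × ℝ), IsOpen W ∧ (0, 0, Φ 0 0) ∈ W ∧
      ∀ X ∈ W, X.2.2 ≤ Φ X.1 X.2.1 → Λ.LB Φ X.1 X.2.1 X.2.2 := by
  have hcΦ := hΦ.cont
  have hz0 : 0 < Φ 0 0 := Λ.Zlo_pos.trans_le (hΦ.lo 0 0)
  have hz : |Φ 0 0| ≤ Λ.Zhi := by rw [abs_of_pos hz0]; exact hΦ.hi 0 0
  have hKz := abs_lt.1 (Λ.Kz_abs hz)
  have a1 := Λ.wl_abs 0 hz
  have a2 := Λ.wr_abs 0 hz
  refine ⟨(({X | Λ.wl (X.2.1 - Λ.al * X.1) X.2.2 < X.1} ∩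
    {X | X.1 < Λ.wr (X.2.1 - Λ.al * X.1) X.2.2}) ∩ {X | -Φ X.1 (X.2.1 - Λ.N / 2) < X.2.2}) ∩
    {X | |X.2.1 - Λ.al * X.1| < Λ.N / 4 - Λ.K * X.2.2}, ?_, ?_, ?_⟩
  · refine (((isOpen_lt ?_ (by fun_prop)).inter
      (isOpen_lt (by fun_prop) ?_)).inter (isOpen_lt ?_ (by fun_prop))).inter
      (isOpen_lt (by fun_prop) (by fun_prop))
    · exact Λ.wl_cont.comp (f := fun X : ℝ × ℝ × ℝ => (X.2.1 - Λ.al * X.1, X.2.2)) (by fun_prop)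
    · exact Λ.wr_cont.comp (f := fun X : ℝ × ℝ × ℝ => (X.2.1 - Λ.al * X.1, X.2.2)) (by fun_prop)
    · exact (hcΦ.comp (f := fun X : ℝ × ℝ × ℝ => (X.1, X.2.1 - Λ.N / 2)) (by fun_prop)).neg
  · have e : (0 : ℝ) - Λ.al * 0 = 0 := by ring
    refine ⟨⟨⟨?_, ?_⟩, ?_⟩, ?_⟩
    · show Λ.wl (0 - Λ.al * 0) (Φ 0 0) < 0
      rw [e]; exact a1.2
    · show 0 < Λ.wr (0 - Λ.al * 0) (Φ 0 0)
      rw [e]; exact a2.1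
    · show -Φ 0 (0 - Λ.N / 2) < Φ 0 0
      linarith [Λ.Zlo_pos.trans_le (hΦ.lo 0 (0 - Λ.N / 2))]
    · show |0 - Λ.al * 0| < Λ.N / 4 - Λ.K * Φ 0 0
      rw [e, abs_zero]; linarith
  · rintro X ⟨⟨⟨h1, h2⟩, h3⟩, h4⟩ h5
    exact ⟨h3.le, h5, h1.le, h2.le, h4.le⟩

namespace Data

variable (𝔇 : Data)

lemma TS_eq : 𝔇.TS = {X : ℝ × ℝ × ℝ | 𝔇.Λ.LB 𝔇.Ψ X.1 X.2.1 X.2.2} ∪
    dl 𝔇.H ⁻¹' {X : ℝ × ℝ × ℝ | 𝔇.Λ'.LB 𝔇.Ψ' X.1 X.2.1 X.2.2} := rfl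

theorem TS_compact : IsCompact 𝔇.TS := by
  rw [TS_eq]
  exact (LB_compact 𝔇.phi).union ((dl 𝔇.H).isCompact_preimage.2 (LB_compact 𝔇.phi'))

/-- a connected open core -/
lemma core : ∃ C : Set (ℝ × ℝ × ℝ), IsOpen C ∧ IsConnected C ∧ C ⊆ 𝔇.TS ∧ 𝔇.TS ⊆ closure C := by
  obtain ⟨O1, o1, s1, c1, k1⟩ := LB_reg 𝔇.phi 𝔇.comp.toLaySmall
  obtain ⟨O2, o2, s2, c2, k2⟩ := (LB_reg 𝔇.phi' 𝔇.comp'.toLaySmall).preimage (dl 𝔇.H)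
  rw [preimage_univ, inter_univ] at s2 c2 k2
  rw [inter_univ] at s1 c1 k1
  obtain ⟨W1, w1, m1, l1⟩ := LB_nhd 𝔇.phi
  obtain ⟨W2, w2, m2, l2⟩ := LB_nhd 𝔇.phi'
  set o : ℝ × ℝ × ℝ := (0, 0, 𝔇.Ψ 0 0) with ho
  have m2' : o ∈ dl 𝔇.H ⁻¹' W2 := m2
  have hopen : IsOpen (W1 ∩ dl 𝔇.H ⁻¹' W2) := w1.inter (w2.preimage (dl 𝔇.H).continuous)
  obtain ⟨ε, hε, hball⟩ := Metric.isOpen_iff.1 hopen o ⟨m1, m2'⟩
  have hUT : Metric.ball o ε ⊆ 𝔇.TS := by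
    intro X hX
    obtain ⟨h1, h2⟩ := hball hX
    rcases le_total X.2.2 (𝔇.Ψ X.1 X.2.1) with h | h
    · exact Or.inl (l1 X h1 h)
    · refine Or.inr (l2 (dl 𝔇.H X) h2 ?_)
      show 𝔇.H - X.2.2 ≤ 𝔇.H - 𝔇.Ψ X.1 X.2.1
      linarith
  have hob : o ∈ {X : ℝ × ℝ × ℝ | 𝔇.Λ.LB 𝔇.Ψ X.1 X.2.1 X.2.2} := l1 o m1 le_rfl
  have hoa : o ∈ dl 𝔇.H ⁻¹' {X : ℝ × ℝ × ℝ | 𝔇.Λ'.LB 𝔇.Ψ' X.1 X.2.1 X.2.2} := by
    refine l2 (dl 𝔇.H o) m2' ?_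
    show 𝔇.H - 𝔇.Ψ 0 0 ≤ 𝔇.H - 𝔇.Ψ 0 0
    exact le_rfl
  have hUn : Metric.ball o ε ∈ 𝓝 o := Metric.ball_mem_nhds o hε
  have hn1 : (O1 ∩ Metric.ball o ε).Nonempty := by
    rw [inter_comm]
    exact mem_closure_iff_nhds.1 (c1 hob) _ hUn
  have hn2 : (O2 ∩ Metric.ball o ε).Nonempty := by
    rw [inter_comm]
    exact mem_closure_iff_nhds.1 (c2 hoa) _ hUn
  have kU : IsConnected (Metric.ball o ε) :=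
    ⟨⟨o, Metric.mem_ball_self hε⟩, (convex_ball o ε).isPreconnected⟩
  have kU1 : IsConnected (O1 ∪ Metric.ball o ε) := k1.union hn1 kU
  refine ⟨O2 ∪ (O1 ∪ Metric.ball o ε), o2.union (o1.union Metric.isOpen_ball), ?_, ?_, ?_⟩
  · refine k2.union ?_ kU1
    obtain ⟨x, hx1, hx2⟩ := hn2
    exact ⟨x, hx1, Or.inr hx2⟩
  · rw [TS_eq]
    refine union_subset (s2.trans subset_union_right) (union_subset (s1.trans subset_union_left) ?_)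
    rw [← TS_eq]; exact hUT
  · rw [TS_eq]
    refine union_subset (c1.trans (closure_mono ?_)) (c2.trans (closure_mono subset_union_left))
    exact subset_union_left.trans subset_union_right

theorem TS_closure_interior : closure (interior 𝔇.TS) = 𝔇.TS := by
  obtain ⟨C, h1, -, h3, h4⟩ := 𝔇.core
  refine subset_antisymm ?_ ?_
  · exact closure_minimal interior_subset 𝔇.TS_compact.isClosed
  · exact h4.trans (closure_mono (interior_maximal h3 h1))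

theorem TS_conn : IsConnected (interior 𝔇.TS) := by
  obtain ⟨C, h1, h2, h3, h4⟩ := 𝔇.core
  exact h2.subset_closure (interior_maximal h3 h1) (interior_subset.trans h4)

end Data

end Pool.Agent.DAF
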