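import Pool.Agent.DAF.Distinct
import Pool.Agent.DAF.TileTop
import Pool.Agent.DAF.TileHom

open Set Topology

namespace Pool.Agent.DAF

namespace Data

variable (𝔇 : Data)

/-- all contacts: the flag selects the lower or the upper half -/
def fT : Bool × SIdx → Set (ℝ × ℝ × ℝ)
  | (false, j) => 𝔇.sT j
  | (true, j) => dl 𝔇.H ⁻¹' 𝔇.dual.sT j

noncomputable def fv : Bool × SIdx → ℝ × ℝ × ℝ
  | (false, j) => 𝔇.sv j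
  | (true, j) => ((𝔇.dual.sv j).2.1, (𝔇.dual.sv j).1, -(𝔇.dual.sv j).2.2)

noncomputable def fc : Bool × SIdx → ℝ
  | (false, j) => 𝔇.sc j
  | (true, j) => 𝔇.dual.sc j - (𝔇.dual.sv j).2.2 * 𝔇.H

def okf : Bool × SIdx → Prop
  | (_, j) => 𝔇.ok j

lemma okf_dual {b : Bool} {j : SIdx} : 𝔇.okf (b, j) ↔ 𝔇.dual.ok j := by
  cases j <;> exact Iff.rfl

theorem f_item {i : Bool × SIdx} (hi : 𝔇.okf i) : Item 𝔇.TS (𝔇.fT i) (𝔇.fv i) (𝔇.fc i) := by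
  match i, hi with
  | (false, j), hi => exact 𝔇.side_item hi
  | (true, j), hi =>
    have h := (𝔇.dual.side_item (𝔇.okf_dual (b := true).1 hi)).dl 𝔇.H
    rw [dl_TS] at h
    exact h

lemma pl_dl (H : ℝ) (v : ℝ × ℝ × ℝ) (c : ℝ) :
    pl (v.2.1, v.1, -v.2.2) (c - v.2.2 * H) = dl H ⁻¹' pl v c := by
  ext X
  change v.2.1 * X.1 + v.1 * X.2.1 + -v.2.2 * X.2.2 = c - v.2.2 * H ↔
    v.1 * X.2.1 + v.2.1 * X.1 + v.2.2 * (H - X.2.2) = c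
  constructor <;> intro h <;> linarith

theorem f_distinct (hn : Num 𝔇.Λ 𝔇.Λ') {i i' : Bool × SIdx} (hi : 𝔇.okf i) (hi' : 𝔇.okf i')
    (h : pl (𝔇.fv i) (𝔇.fc i) = pl (𝔇.fv i') (𝔇.fc i')) : i = i' := by
  match i, i', hi, hi', h with
  | (false, j), (false, j'), hi, hi', h =>
    rw [𝔇.side_distinct hn.thick hi hi' h]
  | (true, j), (true, j'), hi, hi', h =>
    have h' : dl 𝔇.H ⁻¹' pl (𝔇.dual.sv j) (𝔇.dual.sc j) =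
        dl 𝔇.H ⁻¹' pl (𝔇.dual.sv j') (𝔇.dual.sc j') := by
      rw [← pl_dl, ← pl_dl]; exact h
    have h2 := (dl 𝔇.H).surjective.preimage_injective h'
    rw [𝔇.dual.side_distinct hn.thin (𝔇.okf_dual (b := true).1 hi) (𝔇.okf_dual (b := true).1 hi')
      h2]
  | (false, j), (true, j'), hi, hi', h =>
    exact (𝔇.cross_distinct hn hi (𝔇.okf_dual (b := true).1 hi') h).elim
  | (true, j), (false, j'), hi, hi', h =>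
    exact (𝔇.cross_distinct hn hi' (𝔇.okf_dual (b := true).1 hi) h.symm).elim

theorem f_inj (hn : Num 𝔇.Λ 𝔇.Λ') {i i' : Bool × SIdx} (hi : 𝔇.okf i) (hi' : 𝔇.okf i')
    (h : 𝔇.fT i = 𝔇.fT i') : i = i' := by
  have h1 := 𝔇.f_item hi
  have h2 := 𝔇.f_item hi'
  apply 𝔇.f_distinct hn hi hi'
  obtain ⟨O, hO, hO1, -, hO2⟩ := h1.reg
  have hsub : O ∩ {X | nrm (𝔇.fv i) X = 𝔇.fc i} ⊆ {X | nrm (𝔇.fv i') X = 𝔇.fc i'} := by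
    rw [← pl_eq, ← pl_eq]
    refine hO1.trans ?_
    rw [h]
    exact h2.sub
  have hne : (O ∩ {X | nrm (𝔇.fv i) X = 𝔇.fc i}).Nonempty := by
    rw [← pl_eq]; exact hO2.nonempty
  have := plane_eq_of_open_subset hO hne (nrm_ne h1.ne) (nrm_ne h2.ne) hsub
  rw [pl_eq, pl_eq]
  exact this

/-- the neighbours -/
def Nb : Set (Set (ℝ × ℝ × ℝ)) := {S | ∃ i, 𝔇.okf i ∧ 𝔇.fT i = S}

open Classical in
noncomputable def idx (S : Set (ℝ × ℝ × ℝ)) : Bool × SIdx :=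
  if h : ∃ i, 𝔇.okf i ∧ 𝔇.fT i = S then h.choose else (false, SIdx.cell 0)

lemma idx_spec {S : Set (ℝ × ℝ × ℝ)} (h : S ∈ 𝔇.Nb) : 𝔇.okf (𝔇.idx S) ∧ 𝔇.fT (𝔇.idx S) = S := by
  have h' : ∃ i, 𝔇.okf i ∧ 𝔇.fT i = S := h
  unfold idx
  rw [dif_pos h']
  exact h'.choose_spec

lemma idx_fT (hn : Num 𝔇.Λ 𝔇.Λ') {i : Bool × SIdx} (hi : 𝔇.okf i) : 𝔇.idx (𝔇.fT i) = i := by
  obtain ⟨h1, h2⟩ := 𝔇.idx_spec (S := 𝔇.fT i) ⟨i, hi, rfl⟩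
  exact 𝔇.f_inj hn h1 hi h2

noncomputable def Lf (S : Set (ℝ × ℝ × ℝ)) : (ℝ × ℝ × ℝ) →L[ℝ] ℝ := nrm (𝔇.fv (𝔇.idx S))
noncomputable def cf (S : Set (ℝ × ℝ × ℝ)) : ℝ := 𝔇.fc (𝔇.idx S)

lemma rh_Til {S : Set (ℝ × ℝ × ℝ)} (h : S ∈ 𝔇.Til) : rh ⁻¹' S ∈ 𝔇.Til := by
  obtain ⟨a, b, k, ⟨hL, rfl⟩ | ⟨hL, rfl⟩⟩ := h
  · exact ⟨-a, -b, k, Or.inl ⟨Plan.Lat.neg _ hL, 𝔇.rh_tA a b k⟩⟩
  · refine ⟨-a, -b, k, Or.inr ⟨?_, 𝔇.rh_tB a b k⟩⟩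
    have h1 := Plan.Lat.neg _ hL
    have h2 : 𝔇.P.Lat 0 (-(2 * 𝔇.hlf)) := ⟨0, -1, by simp, by rw [← 𝔇.two_hlf]; push_cast; ring⟩
    have h3 := Plan.Lat.add _ h1 h2
    rwa [add_zero, show -(b - 𝔇.hlf) + -(2 * 𝔇.hlf) = -b - 𝔇.hlf by ring] at h3

lemma dl_Til' {S : Set (ℝ × ℝ × ℝ)} (h : S ∈ 𝔇.dual.Til) : dl 𝔇.H ⁻¹' S ∈ 𝔇.Til := by
  obtain ⟨a, b, k, ⟨hL, rfl⟩ | ⟨hL, rfl⟩⟩ := h
  · exact ⟨b, a, -k, Or.inl ⟨𝔇.Lat_dual.1 hL, 𝔇.dl_tA a b k⟩⟩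
  · refine ⟨b, a, 1 - k, Or.inr ⟨?_, 𝔇.dl_tB a b k⟩⟩
    rw [dual_hlf] at hL
    have h1 := 𝔇.Lat_dual.1 hL
    have h2 := Plan.Lat.add _ h1 𝔇.Lat_half
    rwa [sub_add_cancel, ← sub_eq_add_neg] at h2

lemma sT_Til {j : SIdx} (hj : 𝔇.ok j) : 𝔇.sT j ∈ 𝔇.Til := by
  have hw : ∀ w, 𝔇.wT w ∈ 𝔇.Til := by
    intro w
    cases w with
    | a1 => exact ⟨_, _, _, Or.inl ⟨𝔇.Lat_a1, rfl⟩⟩
    | a2 => exact ⟨_, _, _, Or.inl ⟨𝔇.Lat_a2, rfl⟩⟩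
    | be => exact ⟨_, _, _, Or.inr ⟨𝔇.Lat_be, rfl⟩⟩
    | bn => exact ⟨_, _, _, Or.inr ⟨𝔇.Lat_bn, rfl⟩⟩
  match j, hj with
  | SIdx.wall false w, _ => exact hw w
  | SIdx.wall true w, _ => exact 𝔇.rh_Til (hw w)
  | SIdx.cell n, _ =>
    refine ⟨_, _, _, Or.inl ⟨?_, rfl⟩⟩
    have h := Plan.Lat.sub _ (Plan.Lat.neg _ (𝔇.Lat_cc n)) 𝔇.Lat_half
    rwa [show -(n : ℝ) - -𝔇.hlf = 𝔇.hlf - n by ring] at h

lemma fT_Til {i : Bool × SIdx} (hi : 𝔇.okf i) : 𝔇.fT i ∈ 𝔇.Til := by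
  match i, hi with
  | (false, j), hi => exact 𝔇.sT_Til hi
  | (true, j), hi => exact 𝔇.dl_Til' (𝔇.dual.sT_Til (𝔇.okf_dual (b := true).1 hi))

lemma ok_finite : {j | 𝔇.ok j}.Finite := by
  have h1 : (Set.range fun p : Bool × Wl => SIdx.wall p.1 p.2).Finite := by
    haveI : Finite Wl := by
      refine Finite.of_surjective (fun i : Fin 4 => match i with
        | 0 => Wl.a1 | 1 => Wl.a2 | 2 => Wl.be | 3 => Wl.bn) ?_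
      intro w
      cases w
      · exact ⟨0, rfl⟩
      · exact ⟨1, rfl⟩
      · exact ⟨2, rfl⟩
      · exact ⟨3, rfl⟩
    exact Set.finite_range _
  have h2 : ((fun n => SIdx.cell n) '' Icc (1 : ℤ) (𝔇.P.N - 1)).Finite :=
    (Set.finite_Icc _ _).image _
  refine (h1.union h2).subset ?_
  intro j hj
  cases j with
  | wall ρ w => exact Or.inl ⟨(ρ, w), rfl⟩
  | cell n => exact Or.inr ⟨n, ⟨hj.1, hj.2⟩, rfl⟩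

lemma Nb_finite : 𝔇.Nb.Finite := by
  have h : ((fun i => 𝔇.fT i) '' ((Set.univ : Set Bool) ×ˢ {j | 𝔇.ok j})).Finite :=
    (Set.finite_univ.prod 𝔇.ok_finite).image _
  refine h.subset ?_
  rintro S ⟨⟨b, j⟩, hi, rfl⟩
  exact ⟨(b, j), ⟨mem_univ _, hi⟩, rfl⟩

lemma Nb_ncard (hn : Num 𝔇.Λ 𝔇.Λ') : 𝔇.P.N - 1 ≤ 𝔇.Nb.ncard := by
  have hN := 𝔇.N_pos
  have hsub : (fun n : ℤ => 𝔇.fT (false, SIdx.cell n)) '' Icc (1 : ℤ) (𝔇.P.N - 1) ⊆ 𝔇.Nb := by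
    rintro S ⟨n, hn', rfl⟩
    exact ⟨(false, SIdx.cell n), ⟨hn'.1, hn'.2⟩, rfl⟩
  have hinj : InjOn (fun n : ℤ => 𝔇.fT (false, SIdx.cell n)) (Icc (1 : ℤ) (𝔇.P.N - 1)) := by
    intro n h1 m h2 h
    have := 𝔇.f_inj hn (i := (false, SIdx.cell n)) (i' := (false, SIdx.cell m))
      ⟨h1.1, h1.2⟩ ⟨h2.1, h2.2⟩ h
    simpa using this
  have h1 := Set.ncard_le_ncard hsub 𝔇.Nb_finite
  rw [Set.ncard_image_of_injOn hinj, ← Finset.coe_Icc, Set.ncard_coe_finset, Int.card_Icc] at h1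
  have h2 : ((𝔇.P.N - 1 + 1 - 1).toNat : ℤ) ≤ 𝔇.Nb.ncard := by exact_mod_cast h1
  rw [Int.toNat_of_nonneg (by omega)] at h2
  omega

/-- vertex data for a corner tile -/
lemma vertex_data (hn : Num 𝔇.Λ 𝔇.Λ') {S : Set (ℝ × ℝ × ℝ)} {v : ℝ × ℝ × ℝ}
    {i1 i2 i3 : Bool × SIdx} (h : 𝔇.TS ∩ S = {v}) (o1 : 𝔇.okf i1) (o2 : 𝔇.okf i2)
    (o3 : 𝔇.okf i3) (m1 : v ∈ 𝔇.fT i1) (m2 : v ∈ 𝔇.fT i2) (m3 : v ∈ 𝔇.fT i3)
    (hd : det3 (𝔇.fv i1) (𝔇.fv i2) (𝔇.fv i3) ≠ 0) :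
    ∃ v, 𝔇.TS ∩ S = {v} ∧ ∃ R : Fin 3 → Set (ℝ × ℝ × ℝ), (∀ i, R i ∈ 𝔇.Nb ∧ v ∈ R i) ∧
      LinearIndependent ℝ (fun i => 𝔇.Lf (R i)) := by
  refine ⟨v, h, ![𝔇.fT i1, 𝔇.fT i2, 𝔇.fT i3], ?_, ?_⟩
  · intro i
    fin_cases i
    · exact ⟨⟨i1, o1, rfl⟩, m1⟩
    · exact ⟨⟨i2, o2, rfl⟩, m2⟩
    · exact ⟨⟨i3, o3, rfl⟩, m3⟩
  · have e : (fun i => 𝔇.Lf ((![𝔇.fT i1, 𝔇.fT i2, 𝔇.fT i3] : Fin 3 → Set (ℝ × ℝ × ℝ)) i)) =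
        ![nrm (𝔇.fv i1), nrm (𝔇.fv i2), nrm (𝔇.fv i3)] := by
      funext i
      fin_cases i
      · change nrm (𝔇.fv (𝔇.idx (𝔇.fT i1))) = nrm (𝔇.fv i1)
        rw [𝔇.idx_fT hn o1]
      · change nrm (𝔇.fv (𝔇.idx (𝔇.fT i2))) = nrm (𝔇.fv i2)
        rw [𝔇.idx_fT hn o2]
      · change nrm (𝔇.fv (𝔇.idx (𝔇.fT i3))) = nrm (𝔇.fv i3)
        rw [𝔇.idx_fT hn o3]
    rw [e]
    exact linInd_of_det hd

theorem contactData (hn : Num 𝔇.Λ 𝔇.Λ') : ContactData 𝔇.TS 𝔇.Til 𝔇.Nb 𝔇.Lf 𝔇.cf where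
  compact := 𝔇.TS_compact
  closure_interior := 𝔇.TS_closure_interior
  conn := 𝔇.TS_conn
  mem := ⟨0, 0, 0, Or.inl ⟨𝔇.P.Lat_zero, 𝔇.tA_zero.symm⟩⟩
  covers := by
    rw [eq_univ_iff_forall]
    intro X
    obtain ⟨S, hS, hX⟩ := 𝔇.cover X
    exact ⟨S, hS, hX⟩
  locfin := 𝔇.Til_locfin
  homog := 𝔇.Til_homog
  nb_sub := by
    rintro S ⟨i, hi, rfl⟩
    exact 𝔇.fT_Til hi
  nb_fin := 𝔇.Nb_finite
  plane := by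
    intro S hS
    obtain ⟨h1, h2⟩ := 𝔇.idx_spec hS
    have h := 𝔇.f_item h1
    rw [h2] at h
    exact ⟨nrm_ne h.ne, by have := h.sub; rw [pl_eq] at this; exact this⟩
  regular := by
    intro S hS
    obtain ⟨h1, h2⟩ := 𝔇.idx_spec hS
    have h := 𝔇.f_item h1
    rw [h2] at h
    obtain ⟨O, a, b, c, d⟩ := h.reg
    rw [pl_eq] at b c d
    exact ⟨O, a, b, c, d⟩
  distinct := by
    intro S hS S' hS' hne h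
    obtain ⟨h1, h2⟩ := 𝔇.idx_spec hS
    obtain ⟨h1', h2'⟩ := 𝔇.idx_spec hS'
    have h3 : pl (𝔇.fv (𝔇.idx S)) (𝔇.fc (𝔇.idx S)) = pl (𝔇.fv (𝔇.idx S')) (𝔇.fc (𝔇.idx S')) := by
      rw [pl_eq, pl_eq]; exact h
    have h4 := 𝔇.f_distinct hn h1 h1' h3
    apply hne
    rw [← h2, ← h2', h4]
  other := by
    intro S hS hST hSN
    by_cases hne : (𝔇.TS ∩ S).Nonempty
    · right
      obtain ⟨X, hX1, hX2⟩ := hne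
      rcases 𝔇.classify hS hX1 hX2 with h | ⟨S', h, rfl⟩
      · rcases 𝔇.low_cases h with h | ⟨j, hj, h⟩ | h
        · exact absurd h hST
        · exact absurd ⟨(false, j), hj, h.symm⟩ hSN
        · obtain ⟨v, j1, j2, j3, hv⟩ := 𝔇.corner_vertex h
          exact 𝔇.vertex_data hn (i1 := (false, j1)) (i2 := (false, j2)) (i3 := (false, j3))
            hv.eq hv.o1 hv.o2 hv.o3 hv.m1 hv.m2 hv.m3 hv.det
      · rcases 𝔇.dual.low_cases h with rfl | ⟨j, hj, rfl⟩ | h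
        · exact absurd 𝔇.dl_TS hST
        · exact absurd ⟨(true, j), 𝔇.okf_dual.2 hj, rfl⟩ hSN
        · obtain ⟨v, j1, j2, j3, hv⟩ := 𝔇.dual.corner_vertex h
          have hinv : ∀ X, dl 𝔇.H (dl 𝔇.H X) = X := fun X => (dl 𝔇.H).left_inv X
          refine 𝔇.vertex_data hn (v := dl 𝔇.H v) (i1 := (true, j1)) (i2 := (true, j2))
            (i3 := (true, j3)) ?_ (𝔇.okf_dual.2 hv.o1) (𝔇.okf_dual.2 hv.o2)
            (𝔇.okf_dual.2 hv.o3) ?_ ?_ ?_ ?_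
          · rw [← 𝔇.dl_TS, ← preimage_inter, hv.eq]
            ext X
            rw [mem_preimage, mem_singleton_iff, mem_singleton_iff]
            constructor
            · intro h; rw [← h, hinv]
            · intro h; rw [h, hinv]
          · change dl 𝔇.H (dl 𝔇.H v) ∈ 𝔇.dual.sT j1
            rw [hinv]; exact hv.m1
          · change dl 𝔇.H (dl 𝔇.H v) ∈ 𝔇.dual.sT j2
            rw [hinv]; exact hv.m2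
          · change dl 𝔇.H (dl 𝔇.H v) ∈ 𝔇.dual.sT j3
            rw [hinv]; exact hv.m3
          · have e : det3 (𝔇.fv (true, j1)) (𝔇.fv (true, j2)) (𝔇.fv (true, j3)) =
                det3 (𝔇.dual.sv j1) (𝔇.dual.sv j2) (𝔇.dual.sv j3) := by
              simp only [det3, fv]; ring
            rw [e]; exact hv.det
    · left
      exact not_nonempty_iff_eq_empty.1 hne

end Data

end Pool.Agent.DAF
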