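import Pool.Agent.DAF.Tile

open Set Topology

namespace Pool.Agent.DAF

namespace Data

variable (𝔇 : Data)

lemma Lat_dual {a b : ℝ} : 𝔇.dual.P.Lat a b ↔ 𝔇.P.Lat b a := 𝔇.P.Lat_dual

lemma hlf_int : ∃ j : ℤ, 𝔇.hlf = j := by
  obtain ⟨i, m, h1, _⟩ := 𝔇.Lat_half
  exact ⟨i, h1⟩

lemma bot_Bd {x y : ℝ} : 𝔇.Bd x y (𝔇.h0 x y) ↔
    𝔇.P.w (-1) (𝔇.hlf - y) ≤ -x ∧ -x ≤ 𝔇.P.w 0 (𝔇.hlf - y) ∧
      𝔇.P.r 0 (-x) ≤ 𝔇.hlf - y ∧ 𝔇.hlf - y ≤ 𝔇.P.r (𝔇.P.N - 1) (-x) := by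
  have h := LB_bot 𝔇.comp 𝔇.psi x y
  rw [𝔇.LN] at h
  exact h

lemma top_Am {x y : ℝ} : 𝔇.Am x y (𝔇.h0 x y + 2 * 𝔇.H) ↔
    𝔇.P.r (-1) (𝔇.hlf - x) ≤ -y ∧ -y ≤ 𝔇.P.r 0 (𝔇.hlf - x) ∧
      𝔇.P.w 0 (-y) ≤ 𝔇.hlf - x ∧ 𝔇.hlf - x ≤ 𝔇.P.w (𝔇.P.N - 1) (-y) := by
  have h := 𝔇.dual.bot_Bd (x := y) (y := x)
  have e : 𝔇.dual.h0 y x = 𝔇.H - (𝔇.h0 x y + 2 * 𝔇.H) := by
    change -𝔇.Ψ' y (x - 𝔇.hlf) = _
    unfold Ψ' h0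
    rw [𝔇.Ψ_half]; ring
  rw [dual_Bd, e, sub_sub_cancel] at h
  exact h

/-- The bottom contacts, in inverted coordinates `(-x, N/2 - y)`. -/
lemma bottom_iff {c i : ℤ} (hL : 𝔇.P.Lat c i) {x y z : ℝ} :
    (𝔇.T x y z ∧ 𝔇.T (x - (-c - 𝔇.hlf)) (y - (𝔇.hlf - i)) (z - 2 * 𝔇.H * ((-1 : ℤ) : ℝ))) ↔
    z = 𝔇.h0 x y ∧ (𝔇.P.w (-1) (𝔇.hlf - y) ≤ -x ∧ -x ≤ 𝔇.P.w 0 (𝔇.hlf - y)) ∧
      (𝔇.P.r 0 (-x) ≤ 𝔇.hlf - y ∧ 𝔇.hlf - y ≤ 𝔇.P.r (𝔇.P.N - 1) (-x)) ∧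
      (𝔇.P.r (i - 1) (-x) ≤ 𝔇.hlf - y ∧ 𝔇.hlf - y ≤ 𝔇.P.r i (-x)) ∧
      (𝔇.P.w c (𝔇.hlf - y) ≤ -x ∧ -x ≤ 𝔇.P.w (c + 𝔇.P.N - 1) (𝔇.hlf - y)) := by
  have hL' : 𝔇.P.Lat (-c - 𝔇.hlf) (𝔇.hlf - i) := by
    have h1 := Plan.Lat.sub 𝔇.P (Plan.Lat.neg 𝔇.P hL) 𝔇.Lat_half
    have e1 : -(c : ℝ) - 𝔇.hlf = -(c : ℝ) - 𝔇.hlf := rfl
    have e2 : -(i : ℝ) - -𝔇.hlf = 𝔇.hlf - i := by ring
    rwa [e2] at h1
  have hlat := 𝔇.h0_lat hL' x y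
  -- rewriting the second set of conditions
  have e1 : 𝔇.P.r (i - 1) (-x) =
      𝔇.P.r (-1) (𝔇.hlf - (x - (-c - 𝔇.hlf))) + i := by
    have := 𝔇.P.r_lat hL (-1) (𝔇.hlf - (x - (-c - 𝔇.hlf)))
    rw [← this]
    congr 1
    · ring
    · ring
  have e2 : 𝔇.P.r i (-x) = 𝔇.P.r 0 (𝔇.hlf - (x - (-c - 𝔇.hlf))) + i := by
    have := 𝔇.P.r_lat hL 0 (𝔇.hlf - (x - (-c - 𝔇.hlf)))
    rw [← this]
    congr 1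
    · ring
    · ring
  have e3 : 𝔇.P.w c (𝔇.hlf - y) = 𝔇.P.w 0 (-(y - (𝔇.hlf - i))) + c := by
    have := 𝔇.P.w_lat hL 0 (-(y - (𝔇.hlf - i)))
    rw [← this]
    congr 1
    · ring
    · ring
  have e4 : 𝔇.P.w (c + 𝔇.P.N - 1) (𝔇.hlf - y) =
      𝔇.P.w (𝔇.P.N - 1) (-(y - (𝔇.hlf - i))) + c := by
    have := 𝔇.P.w_lat hL (𝔇.P.N - 1) (-(y - (𝔇.hlf - i)))
    rw [← this]
    congr 1
    · ring
    · ring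
  have key : 𝔇.Am (x - (-c - 𝔇.hlf)) (y - (𝔇.hlf - i)) (𝔇.h0 x y + 2 * 𝔇.H) ↔
      (𝔇.P.r (i - 1) (-x) ≤ 𝔇.hlf - y ∧ 𝔇.hlf - y ≤ 𝔇.P.r i (-x)) ∧
      (𝔇.P.w c (𝔇.hlf - y) ≤ -x ∧ -x ≤ 𝔇.P.w (c + 𝔇.P.N - 1) (𝔇.hlf - y)) := by
    rw [← hlat, top_Am, e1, e2, e3, e4]
    constructor
    · rintro ⟨a, b, c, d⟩
      exact ⟨⟨by linarith, by linarith⟩, ⟨by linarith, by linarith⟩⟩
    · rintro ⟨⟨a, b⟩, ⟨c, d⟩⟩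
      exact ⟨by linarith, by linarith, by linarith, by linarith⟩
  have ez : z - 2 * 𝔇.H * ((-1 : ℤ) : ℝ) = z + 2 * 𝔇.H := by push_cast; ring
  rw [ez]
  constructor
  · rintro ⟨h1, h2⟩
    have g1 := 𝔇.T_ge h1
    have g2 := 𝔇.T_le h2
    rw [hlat] at g2
    obtain rfl : z = 𝔇.h0 x y := le_antisymm (by linarith) g1
    have b1 := 𝔇.T_low h1 (𝔇.h0_lt x y).le
    have hΨ := 𝔇.Ψ_lat hL' x y
    have b2 := 𝔇.T_high h2 (by rw [hΨ]; exact (𝔇.lt_top x y).le)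
    have c1 := 𝔇.bot_Bd.1 b1
    have c2 := key.1 b2
    exact ⟨rfl, ⟨c1.1, c1.2.1⟩, c1.2.2, c2⟩
  · rintro ⟨rfl, ⟨a, b⟩, c', d⟩
    exact ⟨Or.inl (𝔇.bot_Bd.2 ⟨a, b, c'⟩), Or.inr (key.2 d)⟩

lemma w_le_w {c c' : ℤ} (h : c ≤ c') (y : ℝ) : 𝔇.P.w c y ≤ 𝔇.P.w c' y := by
  rcases h.lt_or_eq with h | h
  · exact (𝔇.P.wc_lt h y).le
  · rw [h]

lemma r_le_r {c c' : ℤ} (h : c ≤ c') (y : ℝ) : 𝔇.P.r c y ≤ 𝔇.P.r c' y := by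
  rcases h.lt_or_eq with h | h
  · exact (𝔇.P.rc_lt h y).le
  · rw [h]

lemma N_pos : (1000 : ℤ) ≤ 𝔇.P.N := by
  have := 𝔇.P.s_ge
  unfold Plan.N
  nlinarith

/-- the column of the tile which meets the bottom cell `n` -/
def cc (n : ℤ) : ℤ := (𝔇.P.s * n) % 𝔇.P.N - 𝔇.P.N

lemma s_sq : 𝔇.P.s * 𝔇.P.s = 𝔇.P.N + 1 := by unfold Plan.N; ring

lemma Lat_iff_int {c i : ℤ} : 𝔇.P.Lat c i ↔ ∃ m : ℤ, i = 𝔇.P.s * c + m * 𝔇.P.N := by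
  constructor
  · rintro ⟨c', m, h1, h2⟩
    have h1' : c = c' := by exact_mod_cast h1
    subst h1'
    exact ⟨m, by exact_mod_cast h2⟩
  · rintro ⟨m, h⟩
    exact ⟨c, m, rfl, by rw [h]; push_cast; ring⟩

lemma Lat_cc (n : ℤ) : 𝔇.P.Lat (𝔇.cc n) n := by
  rw [Lat_iff_int]
  have h := Int.emod_add_mul_ediv (𝔇.P.s * n) 𝔇.P.N
  refine ⟨𝔇.P.s * ((𝔇.P.s * n) / 𝔇.P.N + 1) - n, ?_⟩
  unfold cc
  have e : (𝔇.P.s * n) % 𝔇.P.N = 𝔇.P.s * n - 𝔇.P.N * ((𝔇.P.s * n) / 𝔇.P.N) := by linarith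
  rw [e]
  linear_combination (-n) * 𝔇.s_sq

lemma cc_range {n : ℤ} (h1 : 1 ≤ n) (h2 : n ≤ 𝔇.P.N - 1) :
    -𝔇.P.N + 1 ≤ 𝔇.cc n ∧ 𝔇.cc n ≤ -1 := by
  have hN := 𝔇.N_pos
  have e1 := Int.emod_nonneg (𝔇.P.s * n) (by omega : 𝔇.P.N ≠ 0)
  have e2 := Int.emod_lt_of_pos (𝔇.P.s * n) (by omega : 0 < 𝔇.P.N)
  have e3 : (𝔇.P.s * n) % 𝔇.P.N ≠ 0 := by
    intro h0
    obtain ⟨m, hm⟩ := 𝔇.Lat_iff_int.1 (𝔇.Lat_cc n)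
    have : 𝔇.cc n = -𝔇.P.N := by unfold cc; rw [h0]; ring
    rw [this] at hm
    have hd : 𝔇.P.N ∣ n := ⟨m - 𝔇.P.s, by rw [hm]; ring⟩
    have := Int.le_of_dvd (by omega) hd
    omega
  unfold cc
  omega

lemma cc_unique {c n : ℤ} (hL : 𝔇.P.Lat c n) (h1 : -𝔇.P.N + 1 ≤ c) (h2 : c ≤ -1) :
    c = 𝔇.cc n := by
  have hN := 𝔇.N_pos
  obtain ⟨m, hm⟩ := 𝔇.Lat_iff_int.1 hL
  -- s n = s^2 c + s m N = c + N (c + s m)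
  have h3 : 𝔇.P.s * n = (c + 𝔇.P.N) + 𝔇.P.N * (c + 𝔇.P.s * m - 1) := by
    rw [hm]
    linear_combination c * 𝔇.s_sq
  unfold cc
  rw [h3, Int.add_mul_emod_self_left, Int.emod_eq_of_lt (by omega) (by omega)]
  ring

/-- the tile which meets the bottom cell `n` -/
def cT (n : ℤ) : Set (ℝ × ℝ × ℝ) := 𝔇.tA (-(𝔇.cc n : ℝ) - 𝔇.hlf) (𝔇.hlf - n) (-1)

/-- the bottom contact with cell `n` -/
theorem cell_contact {n : ℤ} (h1 : 1 ≤ n) (h2 : n ≤ 𝔇.P.N - 1) :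
    𝔇.TS ∩ 𝔇.cT n = {X | X.2.2 = 𝔇.h0 X.1 X.2.1 ∧ 𝔇.P.Cell 0 n (-X.1) (𝔇.hlf - X.2.1)} := by
  obtain ⟨r1, r2⟩ := 𝔇.cc_range h1 h2
  ext ⟨x, y, z⟩
  have h := 𝔇.bottom_iff (𝔇.Lat_cc n) (x := x) (y := y) (z := z)
  have e : ((x, y, z) : ℝ × ℝ × ℝ) ∈ 𝔇.TS ∩ 𝔇.cT n ↔
    (𝔇.T x y z ∧ 𝔇.T (x - (-(𝔇.cc n : ℝ) - 𝔇.hlf)) (y - (𝔇.hlf - n))
      (z - 2 * 𝔇.H * ((-1 : ℤ) : ℝ))) := Iff.rfl
  rw [e, h]
  change _ ↔ z = 𝔇.h0 x y ∧ 𝔇.P.Cell 0 n (-x) (𝔇.hlf - y)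
  unfold Plan.Cell
  rw [show (0 : ℤ) - 1 = -1 by norm_num]
  constructor
  · rintro ⟨a, b, c, d, e⟩
    exact ⟨a, b.1, b.2, d.1, d.2⟩
  · rintro ⟨a, b, c, d, e⟩
    refine ⟨a, ⟨b, c⟩, ⟨?_, ?_⟩, ⟨d, e⟩, ⟨?_, ?_⟩⟩
    · exact (𝔇.r_le_r (by omega) _).trans d
    · exact e.trans (𝔇.r_le_r (by omega) _)
    · exact (𝔇.w_le_w (by omega) _).trans b
    · exact c.trans (𝔇.w_le_w (by omega) _)

/-- possible lower partners of `T` -/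
def Low (S : Set (ℝ × ℝ × ℝ)) : Prop :=
  S = 𝔇.TS ∨
  (S = 𝔇.tA 1 𝔇.P.s 0 ∨ S = 𝔇.tA 1 (𝔇.P.s - 𝔇.P.N) 0 ∨
    S = 𝔇.tA (-1) (-𝔇.P.s) 0 ∨ S = 𝔇.tA (-1) (-(𝔇.P.s - 𝔇.P.N)) 0) ∨
  (S = 𝔇.tB 0 𝔇.hlf 0 ∨ S = 𝔇.tB 0 (-𝔇.hlf) 0 ∨
    S = 𝔇.tB 1 (𝔇.P.s - 𝔇.hlf) 0 ∨ S = 𝔇.tB (-1) (-(𝔇.P.s - 𝔇.hlf)) 0) ∨
  (∃ n : ℤ, 1 ≤ n ∧ n ≤ 𝔇.P.N - 1 ∧ S = 𝔇.cT n) ∨
  (S = 𝔇.tA (-𝔇.hlf) 𝔇.hlf (-1) ∨ S = 𝔇.tA 𝔇.hlf 𝔇.hlf (-1) ∨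
    S = 𝔇.tA (-𝔇.hlf) (-𝔇.hlf) (-1) ∨ S = 𝔇.tA 𝔇.hlf (-𝔇.hlf) (-1))

theorem lowA {a b : ℝ} {k : ℤ} (hL : 𝔇.P.Lat a b) {x y z : ℝ} (h1 : 𝔇.T x y z)
    (h2 : 𝔇.T (x - a) (y - b) (z - 2 * 𝔇.H * k)) (hz : z ≤ 𝔇.Ψ x y) :
    𝔇.Low (𝔇.tA a b k) := by
  have g1 := 𝔇.T_ge h1
  have g2 := 𝔇.T_ge h2
  have g3 := 𝔇.T_le h2
  rw [𝔇.h0_lat hL] at g2 g3
  have hH := 𝔇.H_pos
  have hlt := 𝔇.lt_top x y
  have hk1 : k < 1 := by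
    by_contra hcon
    have : (1 : ℝ) ≤ k := by exact_mod_cast not_lt.1 hcon
    nlinarith
  have hk2 : -2 < k := by
    by_contra hcon
    have : (k : ℝ) ≤ -2 := by exact_mod_cast not_lt.1 hcon
    nlinarith
  obtain rfl | rfl : k = 0 ∨ k = -1 := by omega
  · have h2' : 𝔇.T (x - a) (y - b) z := by simpa using h2
    have b1 := 𝔇.T_low h1 hz
    have b2 := 𝔇.T_low h2' (by rw [𝔇.Ψ_lat hL]; exact hz)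
    by_cases h00 : a = 0 ∧ b = 0
    · left
      rw [h00.1, h00.2, tA_zero]
    · right; left
      rcases 𝔇.meetA0 hL h00 b1 b2 with ⟨rfl, rfl, _⟩ | ⟨rfl, rfl, _⟩ | ⟨rfl, rfl, _⟩ |
        ⟨rfl, rfl, _⟩
      · exact Or.inl rfl
      · exact Or.inr (Or.inl rfl)
      · exact Or.inr (Or.inr (Or.inl rfl))
      · exact Or.inr (Or.inr (Or.inr rfl))
  · have hL2 : 𝔇.P.Lat (-a - 𝔇.hlf) (-b - -𝔇.hlf) :=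
      Plan.Lat.sub 𝔇.P (Plan.Lat.neg 𝔇.P hL) 𝔇.Lat_half
    obtain ⟨c, m, hc, hm⟩ := hL2
    obtain ⟨i, hi⟩ : ∃ i : ℤ, i = 𝔇.P.s * c + m * 𝔇.P.N := ⟨_, rfl⟩
    have hLi : 𝔇.P.Lat c i := 𝔇.Lat_iff_int.2 ⟨m, hi⟩
    have hb : b = 𝔇.hlf - i := by rw [hi]; push_cast; linarith
    have ha : a = -c - 𝔇.hlf := by linarith
    subst ha hb
    obtain ⟨-, ⟨c1, c2⟩, ⟨c3, c4⟩, ⟨c5, c6⟩, ⟨c7, c8⟩⟩ := (𝔇.bottom_iff hLi).1 ⟨h1, h2⟩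
    have hN := 𝔇.N_pos
    have i1 : 0 ≤ i := by
      by_contra! hcon
      have := 𝔇.P.rc_lt hcon (-x)
      linarith
    have i2 : i ≤ 𝔇.P.N := by
      by_contra! hcon
      have := 𝔇.P.rc_lt (by omega : 𝔇.P.N - 1 < i - 1) (-x)
      linarith
    have j1 : c ≤ 0 := by
      by_contra! hcon
      have := 𝔇.P.wc_lt hcon (𝔇.hlf - y)
      linarith
    have j2 : -𝔇.P.N ≤ c := by
      by_contra! hcon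
      have := 𝔇.P.wc_lt (by omega : c + 𝔇.P.N - 1 < -1) (𝔇.hlf - y)
      linarith
    have hNr : (𝔇.P.N : ℝ) = 2 * 𝔇.hlf := by unfold hlf; ring
    rcases eq_or_ne c 0 with hc0 | hc0
    · -- c = 0
      have hd : 𝔇.P.N ∣ i := ⟨m, by rw [hi, hc0]; ring⟩
      have hi' : i = 0 ∨ i = 𝔇.P.N := by
        obtain ⟨t, ht⟩ := hd
        have t1 : 0 ≤ t := by by_contra! hcon; nlinarith
        have t2 : t ≤ 1 := by by_contra! hcon; nlinarith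
        obtain rfl | rfl : t = 0 ∨ t = 1 := by omega
        · left; rw [ht]; ring
        · right; rw [ht]; ring
      right; right; right; right
      rcases hi' with h | h
      · left
        rw [hc0, h]; push_cast; congr 1 <;> ring
      · right; right; left
        rw [hc0, h, hNr]; push_cast; congr 1 <;> ring
    rcases eq_or_ne c (-𝔇.P.N) with hcN | hcN
    · have hd : 𝔇.P.N ∣ i := ⟨m - 𝔇.P.s, by rw [hi, hcN]; ring⟩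
      have hi' : i = 0 ∨ i = 𝔇.P.N := by
        obtain ⟨t, ht⟩ := hd
        have t1 : 0 ≤ t := by by_contra! hcon; nlinarith
        have t2 : t ≤ 1 := by by_contra! hcon; nlinarith
        obtain rfl | rfl : t = 0 ∨ t = 1 := by omega
        · left; rw [ht]; ring
        · right; rw [ht]; ring
      right; right; right; right
      rcases hi' with h | h
      · right; left
        rw [hcN, h]; push_cast; rw [hNr]; congr 1 <;> ring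
      · right; right; right
        rw [hcN, h]; push_cast; rw [hNr]; congr 1 <;> ring
    · right; right; right; left
      have hcc : c = 𝔇.cc i := 𝔇.cc_unique hLi (by omega) (by omega)
      refine ⟨i, ?_, ?_, ?_⟩
      · -- i ≠ 0
        rcases eq_or_ne i 0 with h | h
        · exfalso
          have : 𝔇.P.N ∣ c := by
            refine ⟨-(c + 𝔇.P.s * m), ?_⟩
            have h' : 𝔇.P.s * c + m * 𝔇.P.N = 0 := by rw [← hi, h]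
            linear_combination (-c) * 𝔇.s_sq + 𝔇.P.s * h'
          obtain ⟨t, ht⟩ := this
          have t1 : -1 < t := by
            by_contra! hcon
            have : 𝔇.P.N * t ≤ 𝔇.P.N * -1 := by nlinarith
            omega
          have t2 : t < 0 := by
            by_contra! hcon
            have : 0 ≤ 𝔇.P.N * t := by nlinarith
            omega
          omega
        · omega
      · rcases eq_or_ne i 𝔇.P.N with h | h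
        · exfalso
          have : 𝔇.P.N ∣ c := by
            refine ⟨𝔇.P.s - (c + 𝔇.P.s * m), ?_⟩
            have h' : 𝔇.P.s * c + m * 𝔇.P.N = 𝔇.P.N := by rw [← hi, h]
            linear_combination (-c) * 𝔇.s_sq + 𝔇.P.s * h'
          obtain ⟨t, ht⟩ := this
          have t1 : -1 < t := by
            by_contra! hcon
            have : 𝔇.P.N * t ≤ 𝔇.P.N * -1 := by nlinarith
            omega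
          have t2 : t < 0 := by
            by_contra! hcon
            have : 0 ≤ 𝔇.P.N * t := by nlinarith
            omega
          omega
        · omega
      · unfold cT
        rw [← hcc]

theorem lowB {a b : ℝ} {k : ℤ} (hk : k ≤ 0) (hL : 𝔇.P.Lat a (b - 𝔇.hlf)) {x y z : ℝ}
    (h1 : 𝔇.T x y z) (h2 : 𝔇.T (a - x) (b - y) (2 * 𝔇.H * k - z)) :
    𝔇.Low (𝔇.tB a b k) := by
  have g1 := 𝔇.T_ge h1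
  have g2 := 𝔇.T_ge h2
  unfold h0 at g2
  rw [𝔇.Ψ_refl' hL] at g2
  have hH := 𝔇.H_pos
  have hlt := 𝔇.lt_top x y
  have hk2 : -1 < k := by
    by_contra hcon
    have : (k : ℝ) ≤ -1 := by exact_mod_cast not_lt.1 hcon
    nlinarith
  obtain rfl : k = 0 := by omega
  have h2' : 𝔇.T (a - x) (b - y) (-z) := by simpa using h2
  have hz : z ≤ 𝔇.Ψ x y := by push_cast at g2; linarith
  have b1 := 𝔇.T_low h1 hz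
  have b2 := 𝔇.T_low h2' (by rw [𝔇.Ψ_refl hL]; unfold h0 at g1; linarith)
  right; right; left
  rcases 𝔇.meetB0 hL b1 b2 with ⟨rfl, rfl, _⟩ | ⟨rfl, rfl, _⟩ | ⟨rfl, rfl, _⟩ | ⟨rfl, rfl, _⟩
  · exact Or.inl rfl
  · exact Or.inr (Or.inl rfl)
  · exact Or.inr (Or.inr (Or.inl rfl))
  · exact Or.inr (Or.inr (Or.inr rfl))

end Data

/-- the map which exchanges the two kinds of layers -/
def dl (H : ℝ) : (ℝ × ℝ × ℝ) ≃ₜ (ℝ × ℝ × ℝ) where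
  toFun X := (X.2.1, X.1, H - X.2.2)
  invFun X := (X.2.1, X.1, H - X.2.2)
  left_inv X := by simp
  right_inv X := by simp
  continuous_toFun := by fun_prop
  continuous_invFun := by fun_prop

/-- the half turn -/
def rh : (ℝ × ℝ × ℝ) ≃ₜ (ℝ × ℝ × ℝ) where
  toFun X := (-X.1, -X.2.1, X.2.2)
  invFun X := (-X.1, -X.2.1, X.2.2)
  left_inv X := by simp
  right_inv X := by simp
  continuous_toFun := by fun_prop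
  continuous_invFun := by fun_prop

namespace Data

variable (𝔇 : Data)

lemma rh_tA (a b : ℝ) (k : ℤ) : rh ⁻¹' 𝔇.tA a b k = 𝔇.tA (-a) (-b) k := by
  ext ⟨x, y, z⟩
  change 𝔇.T (-x - a) (-y - b) (z - 2 * 𝔇.H * k) ↔ 𝔇.T (x - -a) (y - -b) (z - 2 * 𝔇.H * k)
  rw [← 𝔇.T_neg_iff, show -(-x - a) = x - -a by ring, show -(-y - b) = y - -b by ring]

lemma rh_tB (a b : ℝ) (k : ℤ) : rh ⁻¹' 𝔇.tB a b k = 𝔇.tB (-a) (-b) k := by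
  ext ⟨x, y, z⟩
  change 𝔇.T (a - -x) (b - -y) (2 * 𝔇.H * k - z) ↔ 𝔇.T (-a - x) (-b - y) (2 * 𝔇.H * k - z)
  rw [← 𝔇.T_neg_iff, show -(a - -x) = -a - x by ring, show -(b - -y) = -b - y by ring]

lemma rh_TS : rh ⁻¹' 𝔇.TS = 𝔇.TS := by
  rw [← tA_zero, rh_tA, neg_zero]

lemma dl_tA (a b : ℝ) (k : ℤ) : dl 𝔇.H ⁻¹' 𝔇.dual.tA a b k = 𝔇.tA b a (-k) := by
  ext ⟨x, y, z⟩
  change 𝔇.dual.T (y - a) (x - b) (𝔇.H - z - 2 * 𝔇.H * k) ↔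
    𝔇.T (x - b) (y - a) (z - 2 * 𝔇.H * ((-k : ℤ) : ℝ))
  rw [dual_T, show 𝔇.H - (𝔇.H - z - 2 * 𝔇.H * k) = z - 2 * 𝔇.H * ((-k : ℤ) : ℝ) by
    push_cast; ring]

lemma dl_tB (a b : ℝ) (k : ℤ) : dl 𝔇.H ⁻¹' 𝔇.dual.tB a b k = 𝔇.tB b a (1 - k) := by
  ext ⟨x, y, z⟩
  change 𝔇.dual.T (a - y) (b - x) (2 * 𝔇.H * k - (𝔇.H - z)) ↔
    𝔇.T (b - x) (a - y) (2 * 𝔇.H * ((1 - k : ℤ) : ℝ) - z)
  rw [dual_T, show 𝔇.H - (2 * 𝔇.H * k - (𝔇.H - z)) = 2 * 𝔇.H * ((1 - k : ℤ) : ℝ) - z by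
    push_cast; ring]

lemma dl_TS : dl 𝔇.H ⁻¹' 𝔇.dual.TS = 𝔇.TS := by
  rw [← tA_zero, ← tA_zero, dl_tA, neg_zero]

lemma dl_Til {S : Set (ℝ × ℝ × ℝ)} (h : S ∈ 𝔇.Til) :
    ∃ S' ∈ 𝔇.dual.Til, S = dl 𝔇.H ⁻¹' S' := by
  obtain ⟨a, b, k, ⟨hL, rfl⟩ | ⟨hL, rfl⟩⟩ := h
  · refine ⟨𝔇.dual.tA b a (-k), ⟨b, a, -k, Or.inl ⟨𝔇.Lat_dual.2 hL, rfl⟩⟩, ?_⟩
    rw [dl_tA, neg_neg]
  · refine ⟨𝔇.dual.tB b a (1 - k), ⟨b, a, 1 - k, Or.inr ⟨?_, rfl⟩⟩, ?_⟩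
    · rw [dual_hlf, Lat_dual]
      have h := Plan.Lat.sub 𝔇.P hL 𝔇.Lat_half
      rwa [show b - 𝔇.hlf - -𝔇.hlf = b by ring] at h
    · rw [dl_tB, sub_sub_cancel]

/-- Classification of the tiles which meet `T`. -/
theorem classify {S : Set (ℝ × ℝ × ℝ)} (hS : S ∈ 𝔇.Til) {X : ℝ × ℝ × ℝ} (h1 : X ∈ 𝔇.TS)
    (h2 : X ∈ S) : 𝔇.Low S ∨ ∃ S', 𝔇.dual.Low S' ∧ S = dl 𝔇.H ⁻¹' S' := by
  obtain ⟨x, y, z⟩ := X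
  obtain ⟨a, b, k, ⟨hL, rfl⟩ | ⟨hL, rfl⟩⟩ := hS
  · rcases le_total z (𝔇.Ψ x y) with hz | hz
    · exact Or.inl (𝔇.lowA hL h1 h2 hz)
    · right
      refine ⟨𝔇.dual.tA b a (-k), ?_, by rw [dl_tA, neg_neg]⟩
      refine 𝔇.dual.lowA (x := y) (y := x) (z := 𝔇.H - z) (𝔇.Lat_dual.2 hL) ?_ ?_ ?_
      · rw [dual_T, sub_sub_cancel]; exact h1
      · rw [dual_T]
        change 𝔇.T (x - a) (y - b) (𝔇.H - (𝔇.H - z - 2 * 𝔇.H * ((-k : ℤ) : ℝ)))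
        rw [show 𝔇.H - (𝔇.H - z - 2 * 𝔇.H * ((-k : ℤ) : ℝ)) = z - 2 * 𝔇.H * k by
          push_cast; ring]
        exact h2
      · change 𝔇.H - z ≤ 𝔇.H - 𝔇.Ψ x y
        linarith
  · rcases le_or_gt k 0 with hk | hk
    · exact Or.inl (𝔇.lowB hk hL h1 h2)
    · right
      refine ⟨𝔇.dual.tB b a (1 - k), ?_, by rw [dl_tB, sub_sub_cancel]⟩
      refine 𝔇.dual.lowB (x := y) (y := x) (z := 𝔇.H - z) (by omega) ?_ ?_ ?_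
      · rw [dual_hlf, Lat_dual]
        have h := Plan.Lat.sub 𝔇.P hL 𝔇.Lat_half
        rwa [show b - 𝔇.hlf - -𝔇.hlf = b by ring] at h
      · rw [dual_T, sub_sub_cancel]; exact h1
      · rw [dual_T]
        change 𝔇.T (a - x) (b - y) (𝔇.H - (2 * 𝔇.H * ((1 - k : ℤ) : ℝ) - (𝔇.H - z)))
        rw [show 𝔇.H - (2 * 𝔇.H * ((1 - k : ℤ) : ℝ) - (𝔇.H - z)) = 2 * 𝔇.H * k - z by
          push_cast; ring]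
        exact h2

end Data

end Pool.Agent.DAF
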