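import Pool.Agent.DAF.Defs

open Set MeasureTheory Topology

namespace Pool.Agent.DAF

/-- The local data which prove that `T` is a face-to-face tile.  `𝒯` is the tiling, `𝒩` the tiles
sharing a face with `T`, the face shared with `S` lies in the plane `{L S = c S}`. -/
structure ContactData {E : Type*} [NormedAddCommGroup E] [NormedSpace ℝ E] (T : Set E)
    (𝒯 𝒩 : Set (Set E)) (L : Set E → (E →L[ℝ] ℝ)) (c : Set E → ℝ) : Prop where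
  compact : IsCompact T
  closure_interior : closure (interior T) = T
  conn : IsConnected (interior T)
  mem : T ∈ 𝒯
  covers : ⋃₀ 𝒯 = univ
  locfin : ∀ x : E, ∃ U ∈ 𝓝 x, {S ∈ 𝒯 | (S ∩ U).Nonempty}.Finite
  homog : ∀ S ∈ 𝒯, ∃ v : E,
    (S = (fun x => v + x) '' T ∧ (∀ S' ∈ 𝒯, (fun x => v + x) '' S' ∈ 𝒯) ∧
      (∀ S' ∈ 𝒯, (fun x => -v + x) '' S' ∈ 𝒯)) ∨
    (S = (fun x => v - x) '' T ∧ (∀ S' ∈ 𝒯, (fun x => v - x) '' S' ∈ 𝒯))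
  nb_sub : 𝒩 ⊆ 𝒯
  nb_fin : 𝒩.Finite
  plane : ∀ S ∈ 𝒩, L S ≠ 0 ∧ T ∩ S ⊆ {x | L S x = c S}
  regular : ∀ S ∈ 𝒩, ∃ O : Set E, IsOpen O ∧ O ∩ {x | L S x = c S} ⊆ T ∩ S ∧
    T ∩ S ⊆ closure (O ∩ {x | L S x = c S}) ∧ IsConnected (O ∩ {x | L S x = c S})
  distinct : ∀ S ∈ 𝒩, ∀ S' ∈ 𝒩, S ≠ S' → {x | L S x = c S} ≠ {x | L S' x = c S'}
  other : ∀ S ∈ 𝒯, S ≠ T → S ∉ 𝒩 → T ∩ S = ∅ ∨ ∃ v, T ∩ S = {v} ∧
    ∃ R : Fin 3 → Set E, (∀ i, R i ∈ 𝒩 ∧ v ∈ R i) ∧ LinearIndependent ℝ (fun i => L (R i))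

end Pool.Agent.DAF
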