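import Pool.Agent.DAF.ContactData

open Set MeasureTheory Topology

namespace Pool.Agent.DAF

section Transport

variable {E E' : Type*} [NormedAddCommGroup E] [NormedSpace ℝ E] [NormedAddCommGroup E']
  [NormedSpace ℝ E']

/-- The affine homeomorphism `x ↦ v + A x`. -/
noncomputable def aff (A : E ≃L[ℝ] E') (v : E') : E ≃ₜ E' :=
  A.toHomeomorph.trans (Homeomorph.addLeft v)

@[simp] lemma aff_apply (A : E ≃L[ℝ] E') (v : E') (x : E) : aff A v x = v + A x := rfl

lemma aff_symm_apply (A : E ≃L[ℝ] E') (v : E') (y : E') :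
    (aff A v).symm y = -(A.symm v) + A.symm y := by
  apply (aff A v).injective
  rw [Homeomorph.apply_symm_apply, aff_apply]
  simp

lemma aff_symm_eq (A : E ≃L[ℝ] E') (v : E') : (aff A v).symm = aff A.symm (-(A.symm v)) := by
  ext y
  rw [aff_symm_apply, aff_apply]

lemma aff_image_plane (A : E ≃L[ℝ] E') (v : E') (L : E →L[ℝ] ℝ) (c : ℝ) :
    aff A v '' {x | L x = c} =
      {y | (L.comp (A.symm : E' →L[ℝ] E)) y = c + L (A.symm v)} := by
  ext y
  constructor
  · rintro ⟨x, hx, rfl⟩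
    simp only [mem_ofPred_eq] at hx
    simp [hx, add_comm]
  · intro hy
    simp only [mem_ofPred_eq, ContinuousLinearMap.comp_apply, ContinuousLinearEquiv.coe_coe] at hy
    refine ⟨A.symm (y - v), ?_, by simp⟩
    simp only [mem_ofPred_eq, map_sub]
    linarith

lemma comp_symm_ne_zero (A : E ≃L[ℝ] E') {L : E →L[ℝ] ℝ} (hL : L ≠ 0) :
    L.comp (A.symm : E' →L[ℝ] E) ≠ 0 := by
  intro h
  apply hL
  ext x
  have := congrArg (fun f : E' →L[ℝ] ℝ => f (A x)) h
  simpa using this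

lemma isPlane_image (A : E ≃L[ℝ] E') (v : E') {H : Set E} (h : IsPlane H) :
    IsPlane (aff A v '' H) := by
  obtain ⟨L, c, hL, rfl⟩ := h
  exact ⟨_, _, comp_symm_ne_zero A hL, aff_image_plane A v L c⟩

omit [NormedSpace ℝ E] [NormedSpace ℝ E'] in
lemma relInt_image (h : E ≃ₜ E') (H S : Set E) :
    h '' relInt H S = relInt (h '' H) (h '' S) := by
  ext y
  constructor
  · rintro ⟨x, ⟨hx, U, hU, hxU, hUS⟩, rfl⟩
    refine ⟨mem_image_of_mem _ hx, h '' U, h.isOpenMap _ hU, mem_image_of_mem _ hxU, ?_⟩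
    rw [← image_inter h.injective]
    exact image_mono hUS
  · rintro ⟨⟨x, hx, rfl⟩, U, hU, hxU, hUS⟩
    refine ⟨x, ⟨hx, h ⁻¹' U, hU.preimage h.continuous, hxU, ?_⟩, rfl⟩
    rintro z ⟨hzU, hzH⟩
    obtain ⟨w, hw, e⟩ := hUS ⟨hzU, mem_image_of_mem _ hzH⟩
    rwa [← h.injective e]

lemma isFace_image (A : E ≃L[ℝ] E') (v : E') {P F : Set E} (h : IsFace P F) :
    IsFace (aff A v '' P) (aff A v '' F) := by
  obtain ⟨H, hH, x, hx, rfl⟩ := h
  refine ⟨aff A v '' H, isPlane_image A v hH, aff A v x, ?_, ?_⟩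
  · rw [← Homeomorph.image_frontier, ← relInt_image]
    exact mem_image_of_mem _ hx
  · rw [Homeomorph.image_closure, Homeomorph.image_connectedComponentIn _ hx, relInt_image,
      Homeomorph.image_frontier]

lemma isFace_image_iff (A : E ≃L[ℝ] E') (v : E') {P F : Set E} :
    IsFace (aff A v '' P) (aff A v '' F) ↔ IsFace P F := by
  refine ⟨fun h => ?_, isFace_image A v⟩
  have := isFace_image A.symm (-(A.symm v)) h
  rw [← aff_symm_eq, Homeomorph.image_symm, Homeomorph.preimage_image,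
    Homeomorph.preimage_image] at this
  exact this

lemma faces_image (A : E ≃L[ℝ] E') (v : E') (P : Set E) :
    {F | IsFace (aff A v '' P) F} = (fun F => aff A v '' F) '' {F | IsFace P F} := by
  ext F
  constructor
  · intro hF
    refine ⟨(aff A v) ⁻¹' F, ?_, ?_⟩
    · rw [mem_ofPred_eq, ← isFace_image_iff A v, Homeomorph.image_preimage]
      exact hF
    · exact Homeomorph.image_preimage _ _
  · rintro ⟨F, hF, rfl⟩
    exact isFace_image A v hF

lemma isVertex_image (A : E ≃L[ℝ] E') (v : E') {P : Set E} {x : E} (h : IsVertex P x) :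
    IsVertex (aff A v '' P) (aff A v x) := by
  obtain ⟨L, c, hL, hF⟩ := h
  refine ⟨fun i => (L i).comp (A.symm : E' →L[ℝ] E), fun i => c i + L i (A.symm v), ?_, ?_⟩
  · let f : (E →L[ℝ] ℝ) →ₗ[ℝ] (E' →L[ℝ] ℝ) :=
      { toFun := fun L => L.comp (A.symm : E' →L[ℝ] E)
        map_add' := fun L M => by ext; simp
        map_smul' := fun a L => by ext; simp }
    have hf : LinearMap.ker f = ⊥ := by
      rw [LinearMap.ker_eq_bot']
      intro M hM
      by_contra hne
      exact comp_symm_ne_zero A hne hM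
    exact hL.map' f hf
  · intro i
    obtain ⟨F, hF1, hF2, hF3⟩ := hF i
    refine ⟨aff A v '' F, isFace_image A v hF1, mem_image_of_mem _ hF2, ?_⟩
    rw [← aff_image_plane]
    exact image_mono hF3

lemma isNHedron_image (A : E ≃L[ℝ] E') (v : E') {P : Set E} {n : ℕ} (h : IsNHedron n P) :
    IsNHedron n (aff A v '' P) := by
  obtain ⟨⟨h1, h2, h3, h4, h5⟩, h6⟩ := h
  refine ⟨⟨h1.image (aff A v).continuous, ?_, ?_, ?_, ?_⟩, ?_⟩
  · rw [← Homeomorph.image_interior, ← Homeomorph.image_closure, h2]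
  · rw [← Homeomorph.image_interior, Homeomorph.isConnected_image]
    exact h3
  · rw [faces_image]
    exact h4.image _
  · rw [faces_image, ← Homeomorph.image_frontier, h5]
    exact image_sUnion
  · rw [faces_image, ncard_image_of_injective _ (image_injective.2 (aff A v).injective), h6]

/-- The two ways in which the tiles of a contact tiling meet. -/
def Meet3 (S T : Set E) : Prop :=
  S ∩ T = ∅ ∨ (∃ v, S ∩ T = {v} ∧ IsVertex S v ∧ IsVertex T v) ∨
    (IsFace S (S ∩ T) ∧ IsFace T (S ∩ T))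

lemma Meet3.meetProperly {S T : Set E} (h : Meet3 S T) : MeetProperly S T := by
  rcases h with h | h | h
  · exact Or.inl h
  · exact Or.inr (Or.inl h)
  · exact Or.inr (Or.inr (Or.inr h))

lemma Meet3.image (A : E ≃L[ℝ] E') (v : E') {S T : Set E} (h : Meet3 S T) :
    Meet3 (aff A v '' S) (aff A v '' T) := by
  rcases h with h | ⟨x, h, hS, hT⟩ | ⟨hS, hT⟩
  · left
    rw [← image_inter (aff A v).injective, h, image_empty]
  · right; left
    refine ⟨aff A v x, ?_, isVertex_image A v hS, isVertex_image A v hT⟩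
    rw [← image_inter (aff A v).injective, h, image_singleton]
  · right; right
    rw [← image_inter (aff A v).injective]
    exact ⟨isFace_image A v hS, isFace_image A v hT⟩

end Transport

section Planes

variable {E : Type*} [NormedAddCommGroup E] [NormedSpace ℝ E]

lemma isClosed_plane (L : E →L[ℝ] ℝ) (c : ℝ) : IsClosed {x | L x = c} :=
  isClosed_eq L.continuous continuous_const

/-- Small multiples of a vector stay in an open set. -/
lemma exists_small {U : Set E} (hU : IsOpen U) {x : E} (hx : x ∈ U) (w : E) :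
    ∃ t : ℝ, 0 < t ∧ x + t • w ∈ U := by
  have hc : Continuous fun t : ℝ => x + t • w := by fun_prop
  have h0 : (fun t : ℝ => x + t • w) ⁻¹' U ∈ 𝓝 (0 : ℝ) :=
    (hU.preimage hc).mem_nhds (by simpa using hx)
  obtain ⟨ε, hε, hb⟩ := Metric.mem_nhds_iff.1 h0
  refine ⟨ε / 2, by positivity, ?_⟩
  have : ε / 2 ∈ Metric.ball (0 : ℝ) ε := by
    rw [Metric.mem_ball, dist_zero_right, Real.norm_eq_abs, abs_of_pos (by positivity)]
    linarith
  exact hb this

lemma plane_eq_of_open_subset {L L' : E →L[ℝ] ℝ} {c c' : ℝ} {U : Set E} (hU : IsOpen U)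
    (hne : (U ∩ {x | L x = c}).Nonempty) (hL : L ≠ 0) (hL' : L' ≠ 0)
    (hsub : U ∩ {x | L x = c} ⊆ {x | L' x = c'}) : {x | L x = c} = {x | L' x = c'} := by
  obtain ⟨x0, hx0U, hx0⟩ := hne
  have hx0' : L' x0 = c' := hsub ⟨hx0U, hx0⟩
  simp only [mem_ofPred_eq] at hx0
  have hker : ∀ w, L w = 0 → L' w = 0 := by
    intro w hw
    obtain ⟨t, ht, htU⟩ := exists_small hU hx0U w
    have : L' (x0 + t • w) = c' := hsub ⟨htU, by simp [hx0, hw]⟩
    rw [map_add, hx0', map_smul, smul_eq_mul] at this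
    have h2 : t * L' w = 0 := by linarith
    exact (mul_eq_zero.1 h2).resolve_left ht.ne'
  obtain ⟨e, he⟩ : ∃ e, L e ≠ 0 := by
    by_contra hcon
    push Not at hcon
    exact hL (ContinuousLinearMap.ext hcon)
  have hform : ∀ y, L' y = L y / L e * L' e := by
    intro y
    have := hker (y - (L y / L e) • e) (by
      rw [map_sub, map_smul, smul_eq_mul, div_mul_cancel₀ _ he, sub_self])
    rw [map_sub, map_smul, smul_eq_mul] at this
    linarith
  have he' : L' e ≠ 0 := by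
    intro h0
    apply hL'
    ext y
    rw [hform y, h0]
    simp
  ext y
  simp only [mem_ofPred_eq]
  constructor
  · intro hy
    have := hker (y - x0) (by rw [map_sub, hy, hx0, sub_self])
    rw [map_sub, hx0'] at this
    linarith
  · intro hy
    have h1 : L' (y - x0) = 0 := by rw [map_sub, hy, hx0', sub_self]
    rw [hform] at h1
    have h2 := (mul_eq_zero.1 h1).resolve_right he'
    have h3 : L (y - x0) = 0 := by
      rcases div_eq_zero_iff.1 h2 with h | h
      · exact h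
      · exact absurd h he
    rw [map_sub, hx0] at h3
    linarith

lemma exists_avoid {ι : Type*} {L : E →L[ℝ] ℝ} {c : ℝ} (hL : L ≠ 0) (s : Finset ι)
    (M : ι → (E →L[ℝ] ℝ)) (d : ι → ℝ) (hM : ∀ i ∈ s, M i ≠ 0)
    (hne : ∀ i ∈ s, {x | L x = c} ≠ {x | M i x = d i}) {U : Set E} (hU : IsOpen U)
    (hUn : (U ∩ {x | L x = c}).Nonempty) :
    ∃ y ∈ U ∩ {x | L x = c}, ∀ i ∈ s, M i y ≠ d i := by
  classical
  suffices h : ∃ V ⊆ U, IsOpen V ∧ (V ∩ {x | L x = c}).Nonempty ∧
      ∀ i ∈ s, ∀ y ∈ V, M i y ≠ d i by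
    obtain ⟨V, hVU, -, ⟨y, hyV, hy⟩, hV⟩ := h
    exact ⟨y, ⟨hVU hyV, hy⟩, fun i hi => hV i hi y hyV⟩
  induction s using Finset.induction_on with
  | empty => exact ⟨U, Subset.rfl, hU, hUn, by simp⟩
  | insert a s ha ih =>
    obtain ⟨V, hVU, hV, hVn, hVs⟩ := ih (fun i hi => hM i (Finset.mem_insert_of_mem hi))
      (fun i hi => hne i (Finset.mem_insert_of_mem hi))
    have hnot : ¬ (V ∩ {x | L x = c} ⊆ {x | M a x = d a}) := fun hcon =>
      hne a (Finset.mem_insert_self _ _)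
        (plane_eq_of_open_subset hV hVn hL (hM a (Finset.mem_insert_self _ _)) hcon)
    obtain ⟨y, hy, hya⟩ := not_subset.1 hnot
    refine ⟨V ∩ {x | M a x = d a}ᶜ, inter_subset_left.trans hVU,
      hV.inter (isClosed_plane _ _).isOpen_compl, ⟨y, ⟨hy.1, hya⟩, hy.2⟩, ?_⟩
    intro i hi z hz
    rcases Finset.mem_insert.1 hi with rfl | hi
    · exact hz.2
    · exact hVs i hi z hz.1

end Planes

section Main

variable {E : Type*} [NormedAddCommGroup E] [NormedSpace ℝ E] {T : Set E}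
    {𝒯 𝒩 : Set (Set E)} {L : Set E → (E →L[ℝ] ℝ)} {c : Set E → ℝ}

namespace ContactData

lemma exists_aff (h : ContactData T 𝒯 𝒩 L c) {S : Set E} (hS : S ∈ 𝒯) :
    ∃ (A : E ≃L[ℝ] E) (v : E),
      (A = ContinuousLinearEquiv.refl ℝ E ∨ A = ContinuousLinearEquiv.neg ℝ) ∧
      S = aff A v '' T ∧ (∀ S' ∈ 𝒯, aff A v '' S' ∈ 𝒯) ∧
      (∀ S' ∈ 𝒯, (aff A v) ⁻¹' S' ∈ 𝒯) := by
  obtain ⟨v, ⟨h1, h2, h3⟩ | ⟨h1, h2⟩⟩ := h.homog S hS
  · refine ⟨ContinuousLinearEquiv.refl ℝ E, v, Or.inl rfl, h1, h2, ?_⟩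
    intro S' hS'
    have e : ((aff (ContinuousLinearEquiv.refl ℝ E) v).symm : E → E) = fun x => -v + x := by
      funext x
      rw [aff_symm_apply]
      simp
    rw [← Homeomorph.image_symm, e]
    exact h3 S' hS'
  · have e : (aff (ContinuousLinearEquiv.neg ℝ) v : E → E) = fun x => v - x := by
      ext x
      simp [sub_eq_add_neg]
    refine ⟨ContinuousLinearEquiv.neg ℝ, v, Or.inr rfl, ?_, ?_, ?_⟩
    · rw [e]; exact h1
    · rw [e]; exact h2
    · intro S' hS'
      have e' : ((aff (ContinuousLinearEquiv.neg ℝ) v).symm : E → E) = fun x => v - x := by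
        funext x
        rw [aff_symm_apply]
        simp [sub_eq_add_neg]
      rw [← Homeomorph.image_symm, e']
      exact h2 S' hS'

lemma isClosed_T (h : ContactData T 𝒯 𝒩 L c) : IsClosed T := h.compact.isClosed

lemma isClosed_of_mem (h : ContactData T 𝒯 𝒩 L c) {S : Set E} (hS : S ∈ 𝒯) : IsClosed S := by
  obtain ⟨A, v, -, rfl, -, -⟩ := h.exists_aff hS
  exact (Homeomorph.isClosed_image _).2 h.isClosed_T

lemma closure_interior_of_mem (h : ContactData T 𝒯 𝒩 L c) {S : Set E} (hS : S ∈ 𝒯) :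
    closure (interior S) = S := by
  obtain ⟨A, v, -, rfl, -, -⟩ := h.exists_aff hS
  rw [← Homeomorph.image_interior, ← Homeomorph.image_closure, h.closure_interior]

/-- Contacts lie in planes. -/
lemma contact_plane (h : ContactData T 𝒯 𝒩 L c) {S : Set E} (hS : S ∈ 𝒯) (hST : S ≠ T)
    (hne : (T ∩ S).Nonempty) : ∃ (M : E →L[ℝ] ℝ) (d : ℝ), M ≠ 0 ∧ T ∩ S ⊆ {x | M x = d} := by
  by_cases hN : S ∈ 𝒩
  · exact ⟨L S, c S, (h.plane S hN).1, (h.plane S hN).2⟩
  · rcases h.other S hS hST hN with h0 | ⟨v, hv, R, hR, -⟩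
    · rw [h0] at hne
      exact absurd hne not_nonempty_empty
    · refine ⟨L (R 0), L (R 0) v, (h.plane _ (hR 0).1).1, ?_⟩
      rw [hv]
      rintro x rfl
      rfl

lemma interior_inter (h : ContactData T 𝒯 𝒩 L c) {S : Set E} (hS : S ∈ 𝒯) (hST : S ≠ T) :
    interior T ∩ S = ∅ := by
  rw [eq_empty_iff_forall_notMem]
  rintro x ⟨hxT, hxS⟩
  rw [← h.closure_interior_of_mem hS] at hxS
  obtain ⟨y, hyT, hyS⟩ := mem_closure_iff.1 hxS _ isOpen_interior hxT
  obtain ⟨M, d, hM, hsub⟩ := h.contact_plane hS hST ⟨y, interior_subset hyT, interior_subset hyS⟩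
  obtain ⟨e, he⟩ : ∃ e, M e ≠ 0 := by
    by_contra hcon
    push Not at hcon
    exact hM (ContinuousLinearMap.ext hcon)
  obtain ⟨t, ht, htU⟩ := exists_small (isOpen_interior.inter isOpen_interior)
    (show y ∈ interior T ∩ interior S from ⟨hyT, hyS⟩) e
  have h1 : M y = d := hsub ⟨interior_subset hyT, interior_subset hyS⟩
  have h2 : M (y + t • e) = d := hsub ⟨interior_subset htU.1, interior_subset htU.2⟩
  rw [map_add, h1, map_smul, smul_eq_mul] at h2
  have h3 : t * M e = 0 := by linarith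
  exact (mul_ne_zero ht.ne' he) h3

lemma ne_of_mem_nb (h : ContactData T 𝒯 𝒩 L c) {S : Set E} (hS : S ∈ 𝒩) : S ≠ T := by
  rintro rfl
  obtain ⟨x, hx⟩ := h.conn.nonempty
  obtain ⟨e, he⟩ : ∃ e, L S e ≠ 0 := by
    by_contra hcon
    push Not at hcon
    exact (h.plane S hS).1 (ContinuousLinearMap.ext hcon)
  obtain ⟨t, ht, htU⟩ := exists_small isOpen_interior hx e
  have hsub := (h.plane S hS).2
  have h1 : L S x = c S := hsub ⟨interior_subset hx, interior_subset hx⟩
  have h2 : L S (x + t • e) = c S := hsub ⟨interior_subset htU, interior_subset htU⟩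
  rw [map_add, h1, map_smul, smul_eq_mul] at h2
  have h3 : t * L S e = 0 := by linarith
  exact (mul_ne_zero ht.ne' he) h3

lemma contact_subset_frontier (h : ContactData T 𝒯 𝒩 L c) {S : Set E} (hS : S ∈ 𝒯)
    (hST : S ≠ T) : T ∩ S ⊆ frontier T := by
  rintro x ⟨hxT, hxS⟩
  rw [h.isClosed_T.frontier_eq]
  refine ⟨hxT, fun hx => ?_⟩
  have := h.interior_inter hS hST
  exact (eq_empty_iff_forall_notMem.1 this x) ⟨hx, hxS⟩

lemma frontier_eq (h : ContactData T 𝒯 𝒩 L c) : frontier T = ⋃ S ∈ 𝒩, T ∩ S := by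
  apply Subset.antisymm
  · intro x hx
    have hxT : x ∈ T := h.isClosed_T.frontier_subset hx
    -- first find a tile `S ≠ T` containing `x`
    have key : ∃ S ∈ 𝒯, S ≠ T ∧ x ∈ S := by
      by_contra hcon
      push Not at hcon
      obtain ⟨U, hU, hfin⟩ := h.locfin x
      have hcl : IsClosed (⋃ S ∈ {S ∈ 𝒯 | (S ∩ U).Nonempty ∧ S ≠ T}, S) := by
        refine Set.Finite.isClosed_biUnion (hfin.subset ?_) ?_
        · intro S hS
          exact ⟨hS.1, hS.2.1⟩
        · intro S hS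
          exact h.isClosed_of_mem hS.1
      have hxn : x ∉ ⋃ S ∈ {S ∈ 𝒯 | (S ∩ U).Nonempty ∧ S ≠ T}, S := by
        simp only [mem_iUnion, not_exists]
        intro S hS
        exact hcon S hS.1 hS.2.2
      have hV : U ∩ (⋃ S ∈ {S ∈ 𝒯 | (S ∩ U).Nonempty ∧ S ≠ T}, S)ᶜ ∈ 𝓝 x :=
        Filter.inter_mem hU (hcl.isOpen_compl.mem_nhds hxn)
      have hsub : U ∩ (⋃ S ∈ {S ∈ 𝒯 | (S ∩ U).Nonempty ∧ S ≠ T}, S)ᶜ ⊆ T := by
        rintro y ⟨hyU, hy⟩
        have : y ∈ ⋃₀ 𝒯 := by rw [h.covers]; trivial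
        obtain ⟨S, hS, hyS⟩ := this
        by_cases hST : S = T
        · rw [← hST]; exact hyS
        · exfalso
          apply hy
          simp only [mem_iUnion]
          exact ⟨S, ⟨hS, ⟨y, hyS, hyU⟩, hST⟩, hyS⟩
      have : x ∈ interior T := mem_interior_iff_mem_nhds.2 (Filter.mem_of_superset hV hsub)
      rw [h.isClosed_T.frontier_eq] at hx
      exact hx.2 this
    obtain ⟨S, hS, hST, hxS⟩ := key
    by_cases hN : S ∈ 𝒩
    · simp only [mem_iUnion]
      exact ⟨S, hN, hxT, hxS⟩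
    · rcases h.other S hS hST hN with h0 | ⟨v, hv, R, hR, -⟩
      · exfalso
        exact (eq_empty_iff_forall_notMem.1 h0 x) ⟨hxT, hxS⟩
      · have hxv : x = v := by
          have : x ∈ T ∩ S := ⟨hxT, hxS⟩
          rw [hv] at this
          exact this
        subst hxv
        simp only [mem_iUnion]
        exact ⟨R 0, (hR 0).1, hxT, (hR 0).2⟩
  · intro x hx
    simp only [mem_iUnion] at hx
    obtain ⟨S, hS, hx⟩ := hx
    exact h.contact_subset_frontier (h.nb_sub hS) (h.ne_of_mem_nb hS) hx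

lemma isClosed_contact (h : ContactData T 𝒯 𝒩 L c) {S : Set E} (hS : S ∈ 𝒩) :
    IsClosed (T ∩ S) := h.isClosed_T.inter (h.isClosed_of_mem (h.nb_sub hS))

lemma relInt_frontier (h : ContactData T 𝒯 𝒩 L c) {S : Set E} (hS : S ∈ 𝒩) :
    relInt {x | L S x = c S} (frontier T) = relInt {x | L S x = c S} (T ∩ S) := by
  classical
  apply Subset.antisymm
  · rintro x ⟨hx, U, hU, hxU, hsub⟩
    refine ⟨hx, U, hU, hxU, ?_⟩
    by_contra hcon
    obtain ⟨y, hy, hyn⟩ := not_subset.1 hcon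
    obtain ⟨z, hz, hz'⟩ := exists_avoid (h.plane S hS).1 (h.nb_fin.toFinset.erase S) L c
      (fun i hi => (h.plane i (by simpa using (Finset.mem_of_mem_erase hi))).1)
      (fun i hi => h.distinct S hS i (by simpa using (Finset.mem_of_mem_erase hi))
        (Finset.ne_of_mem_erase hi).symm)
      (hU.inter (h.isClosed_contact hS).isOpen_compl) ⟨y, ⟨hy.1, hyn⟩, hy.2⟩
    have hzf : z ∈ frontier T := hsub ⟨hz.1.1, hz.2⟩
    rw [h.frontier_eq] at hzf
    simp only [mem_iUnion] at hzf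
    obtain ⟨S', hS', hzS'⟩ := hzf
    have hne : S' ≠ S := by
      rintro rfl
      exact hz.1.2 hzS'
    exact hz' S' (Finset.mem_erase.2 ⟨hne, by simpa using hS'⟩) ((h.plane S' hS').2 hzS')
  · rintro x ⟨hx, U, hU, hxU, hsub⟩
    exact ⟨hx, U, hU, hxU, hsub.trans
      (h.contact_subset_frontier (h.nb_sub hS) (h.ne_of_mem_nb hS))⟩

lemma relInt_connected (h : ContactData T 𝒯 𝒩 L c) {S : Set E} (hS : S ∈ 𝒩) :
    IsConnected (relInt {x | L S x = c S} (T ∩ S)) ∧
      closure (relInt {x | L S x = c S} (T ∩ S)) = T ∩ S := by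
  obtain ⟨O, hO, hO1, hO2, hO3⟩ := h.regular S hS
  have h1 : O ∩ {x | L S x = c S} ⊆ relInt {x | L S x = c S} (T ∩ S) := fun x hx =>
    ⟨hx.2, O, hO, hx.1, hO1⟩
  have h2 : relInt {x | L S x = c S} (T ∩ S) ⊆ T ∩ S := by
    rintro x ⟨hx, U, hU, hxU, hsub⟩
    exact hsub ⟨hxU, hx⟩
  refine ⟨hO3.subset_closure h1 (h2.trans hO2), Subset.antisymm ?_ (hO2.trans (closure_mono h1))⟩
  exact closure_minimal h2 (h.isClosed_contact hS)

lemma isFace_contact (h : ContactData T 𝒯 𝒩 L c) {S : Set E} (hS : S ∈ 𝒩) :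
    IsFace T (T ∩ S) := by
  obtain ⟨hc, hcl⟩ := h.relInt_connected hS
  obtain ⟨x, hx⟩ := hc.nonempty
  refine ⟨{x | L S x = c S}, ⟨L S, c S, (h.plane S hS).1, rfl⟩, x, ?_, ?_⟩
  · rw [h.relInt_frontier hS]; exact hx
  · rw [h.relInt_frontier hS, hc.isPreconnected.connectedComponentIn hx, hcl]

lemma isFace_iff (h : ContactData T 𝒯 𝒩 L c) {F : Set E} :
    IsFace T F ↔ ∃ S ∈ 𝒩, F = T ∩ S := by
  classical
  constructor
  · rintro ⟨H, ⟨M, d, hM, rfl⟩, x, hx, rfl⟩
    have key : ∃ S ∈ 𝒩, {x | M x = d} = {x | L S x = c S} := by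
      by_contra hcon
      push Not at hcon
      obtain ⟨hxH, U, hU, hxU, hsub⟩ := hx
      obtain ⟨z, hz, hz'⟩ := exists_avoid hM h.nb_fin.toFinset L c
        (fun i hi => (h.plane i (by simpa using hi)).1)
        (fun i hi => hcon i (by simpa using hi)) hU ⟨x, hxU, hxH⟩
      have hzf : z ∈ frontier T := hsub hz
      rw [h.frontier_eq] at hzf
      simp only [mem_iUnion] at hzf
      obtain ⟨S', hS', hzS'⟩ := hzf
      exact hz' S' (by simpa using hS') ((h.plane S' hS').2 hzS')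
    obtain ⟨S, hS, hSe⟩ := key
    refine ⟨S, hS, ?_⟩
    rw [hSe, h.relInt_frontier hS] at hx ⊢
    obtain ⟨hc, hcl⟩ := h.relInt_connected hS
    rw [hc.isPreconnected.connectedComponentIn hx, hcl]
  · rintro ⟨S, hS, rfl⟩
    exact h.isFace_contact hS

lemma contact_injOn (h : ContactData T 𝒯 𝒩 L c) : InjOn (fun S => T ∩ S) 𝒩 := by
  intro S hS S' hS' he
  by_contra hne
  apply h.distinct S hS S' hS' hne
  obtain ⟨O, hO, hO1, hO2, hO3⟩ := h.regular S hS
  refine plane_eq_of_open_subset hO hO3.nonempty (h.plane S hS).1 (h.plane S' hS').1 ?_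
  refine hO1.trans ?_
  simp only at he
  rw [he]
  exact (h.plane S' hS').2

lemma faces_eq (h : ContactData T 𝒯 𝒩 L c) :
    {F | IsFace T F} = (fun S => T ∩ S) '' 𝒩 := by
  ext F
  simp only [mem_ofPred_eq, mem_image, h.isFace_iff]
  constructor
  · rintro ⟨S, hS, rfl⟩; exact ⟨S, hS, rfl⟩
  · rintro ⟨S, hS, rfl⟩; exact ⟨S, hS, rfl⟩

lemma isNHedron (h : ContactData T 𝒯 𝒩 L c) : IsNHedron 𝒩.ncard T := by
  refine ⟨⟨h.compact, h.closure_interior, h.conn, ?_, ?_⟩, ?_⟩
  · rw [h.faces_eq]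
    exact h.nb_fin.image _
  · rw [h.faces_eq, h.frontier_eq, sUnion_image]
  · rw [h.faces_eq]
    exact h.contact_injOn.ncard_image

lemma exists_ker {A : E ≃L[ℝ] E3} (M : E →L[ℝ] ℝ) : ∃ w, w ≠ 0 ∧ M w = 0 := by
  by_contra hcon
  push Not at hcon
  have hinj : Function.Injective (M : E →ₗ[ℝ] ℝ) := by
    rw [injective_iff_map_eq_zero]
    intro a ha
    by_contra hne
    exact hcon a hne ha
  have h1 := LinearMap.finrank_le_finrank_of_injective hinj
  have h2 : Module.finrank ℝ E = 3 := by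
    rw [A.toLinearEquiv.finrank_eq]
    simp
  rw [h2] at h1
  simp at h1

/-- Face contacts have more than one point. -/
lemma not_subsingleton (h : ContactData T 𝒯 𝒩 L c) (φ : E ≃L[ℝ] E3) {S : Set E} (hS : S ∈ 𝒩) :
    ¬ (T ∩ S).Subsingleton := by
  intro hsub
  obtain ⟨O, hO, hO1, hO2, hO3⟩ := h.regular S hS
  obtain ⟨x, hxO, hx⟩ := hO3.nonempty
  obtain ⟨w, hw, hw0⟩ := exists_ker (A := φ) (L S)
  obtain ⟨t, ht, htU⟩ := exists_small hO hxO w
  simp only [mem_ofPred_eq] at hx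
  have h1 : x ∈ T ∩ S := hO1 ⟨hxO, hx⟩
  have h2 : x + t • w ∈ T ∩ S := hO1 ⟨htU, by simp [hx, hw0]⟩
  have := hsub h1 h2
  have h3 : t • w = 0 := by
    have := add_eq_left.1 this.symm
    exact this
  exact (smul_ne_zero ht.ne' hw) h3

/-- The tile `T` meets the other tiles properly. -/
lemma meet_T (h : ContactData T 𝒯 𝒩 L c) (φ : E ≃L[ℝ] E3) {S : Set E} (hS : S ∈ 𝒯)
    (hST : S ≠ T) : Meet3 T S := by
  obtain ⟨A, v, -, hSe, himg, hpre⟩ := h.exists_aff hS
  have hT' := hpre T h.mem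
  have hT'ne : (aff A v) ⁻¹' T ≠ T := by
    intro he
    apply hST
    rw [hSe]
    conv_lhs => rw [← he]
    exact Homeomorph.image_preimage _ _
  have hmeet : aff A v '' (T ∩ (aff A v) ⁻¹' T) = T ∩ S := by
    rw [image_inter (aff A v).injective, Homeomorph.image_preimage, ← hSe, inter_comm]
  by_cases hN : S ∈ 𝒩
  · right; right
    refine ⟨h.isFace_contact hN, ?_⟩
    have hT'N : (aff A v) ⁻¹' T ∈ 𝒩 := by
      by_contra hnot
      have hs : (T ∩ (aff A v) ⁻¹' T).Subsingleton := by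
        rcases h.other _ hT' hT'ne hnot with h0 | ⟨w, hw, -⟩
        · rw [h0]; exact subsingleton_empty
        · rw [hw]; exact subsingleton_singleton
      apply h.not_subsingleton φ hN
      rw [← hmeet]
      exact hs.image _
    have := isFace_image A v (h.isFace_contact hT'N)
    rw [hmeet, ← hSe] at this
    exact this
  · rcases h.other S hS hST hN with h0 | ⟨w, hw, R, hR, hlin⟩
    · exact Or.inl h0
    · right; left
      have hvert : ∀ {S : Set E} {w : E} {R : Fin 3 → Set E}, T ∩ S = {w} →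
          (∀ i, R i ∈ 𝒩 ∧ w ∈ R i) → LinearIndependent ℝ (fun i => L (R i)) →
          IsVertex T w := by
        intro S w R hw hR hlin
        refine ⟨fun i => L (R i), fun i => c (R i), hlin, fun i => ?_⟩
        have hwT : w ∈ T := by
          have : w ∈ T ∩ S := by rw [hw]; rfl
          exact this.1
        exact ⟨T ∩ R i, h.isFace_contact (hR i).1, ⟨hwT, (hR i).2⟩, (h.plane _ (hR i).1).2⟩
      refine ⟨w, hw, hvert hw hR hlin, ?_⟩
      have hT'N : (aff A v) ⁻¹' T ∉ 𝒩 := by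
        intro hin
        apply h.not_subsingleton φ hin
        have h1 : (aff A v '' (T ∩ (aff A v) ⁻¹' T)).Subsingleton := by
          rw [hmeet, hw]; exact subsingleton_singleton
        exact subsingleton_of_image (aff A v).injective _ h1
      rcases h.other _ hT' hT'ne hT'N with h0 | ⟨w', hw', R', hR', hlin'⟩
      · rw [h0, image_empty, hw] at hmeet
        exact absurd hmeet.symm (singleton_ne_empty _)
      · have := isVertex_image A v (hvert hw' hR' hlin')
        rw [hw', image_singleton, hw] at hmeet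
        rw [singleton_eq_singleton_iff.1 hmeet, ← hSe] at this
        exact this

lemma pair (h : ContactData T 𝒯 𝒩 L c) (φ : E ≃L[ℝ] E3) {S S' : Set E} (hS : S ∈ 𝒯)
    (hS' : S' ∈ 𝒯) (hne : S ≠ S') :
    Disjoint (interior S) (interior S') ∧ Meet3 S S' := by
  obtain ⟨A, v, -, hSe, himg, hpre⟩ := h.exists_aff hS
  have hT' := hpre S' hS'
  have hT'ne : (aff A v) ⁻¹' S' ≠ T := by
    intro he
    apply hne
    rw [hSe, ← he, Homeomorph.image_preimage]
  have e1 : aff A v '' ((aff A v) ⁻¹' S') = S' := Homeomorph.image_preimage _ _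
  constructor
  · have h1 := h.interior_inter hT' hT'ne
    rw [hSe, ← e1, ← Homeomorph.image_interior, ← Homeomorph.image_interior]
    rw [disjoint_image_iff (aff A v).injective, disjoint_iff_inter_eq_empty]
    rw [← subset_empty_iff, ← h1]
    exact inter_subset_inter_right _ interior_subset
  · have h1 := (h.meet_T φ hT' hT'ne).image A v
    rw [e1, ← hSe] at h1
    exact h1

end ContactData

/-- MODULE B. -/
theorem isTile_of_contact {E : Type*} [NormedAddCommGroup E] [NormedSpace ℝ E] {T : Set E}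
    {𝒯 𝒩 : Set (Set E)} {L : Set E → (E →L[ℝ] ℝ)} {c : Set E → ℝ}
    (h : ContactData T 𝒯 𝒩 L c) (φ : E ≃L[ℝ] E3) : IsTile 𝒩.ncard (φ '' T) := by
  have hφ : (aff φ 0 : E → E3) = φ := by
    ext x
    simp
  have hn := isNHedron_image φ 0 h.isNHedron
  rw [hφ] at hn
  refine ⟨hn, (fun S => φ '' S) '' 𝒯, ?_, ?_, ?_, ?_⟩
  · rintro _ ⟨S, hS, rfl⟩
    obtain ⟨A, v, hA, hSe, -, -⟩ := h.exists_aff hS
    rcases hA with rfl | rfl
    · refine ⟨IsometryEquiv.addLeft (φ v), ?_⟩
      simp only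
      rw [hSe, image_image, image_image]
      apply image_congr
      intro x _
      simp
    · refine ⟨IsometryEquiv.subLeft (φ v), ?_⟩
      simp only
      rw [hSe, image_image, image_image]
      apply image_congr
      intro x _
      simp [sub_eq_add_neg]
  · have e : ⋃₀ ((fun S => φ '' S) '' 𝒯) = φ '' (⋃₀ 𝒯) := image_sUnion.symm
    rw [e, h.covers, image_univ, φ.surjective.range_eq]
  · rintro _ ⟨S, hS, rfl⟩ _ ⟨S', hS', rfl⟩ hne
    have hne' : S ≠ S' := by rintro rfl; exact hne rfl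
    have h1 := (h.pair φ hS hS' hne').1
    simp only
    rw [← hφ, ← Homeomorph.image_interior, ← Homeomorph.image_interior,
      disjoint_image_iff (aff φ 0).injective]
    exact h1
  · rintro _ ⟨S, hS, rfl⟩ _ ⟨S', hS', rfl⟩ hne
    have hne' : S ≠ S' := by rintro rfl; exact hne rfl
    have h1 := ((h.pair φ hS hS' hne').2.image φ 0).meetProperly
    rw [hφ] at h1
    exact h1

end Main

end Pool.Agent.DAF
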