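import Pool.Agent.DAF.ContactTile

open Set MeasureTheory Topology
open scoped RealInnerProductSpace ENNReal

namespace Pool.Agent.DAF

namespace CB

lemma exit_point {Q : Set E3} (hQ : IsCompact Q) {x u : E3} (hx : x ∈ Q) (hu : u ≠ 0) :
    ∃ t : ℝ, x + t • u ∈ frontier Q := by
  let S : Set ℝ := {t | x + t • u ∈ Q}
  have hcont : Continuous fun t : ℝ => x + t • u := by fun_prop
  have hScl : IsClosed S := hQ.isClosed.preimage hcont
  have hSb : BddAbove S := by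
    obtain ⟨R, hR⟩ := hQ.isBounded.exists_norm_le
    refine ⟨(R + ‖x‖) / ‖u‖, ?_⟩
    intro t ht
    have h1 : ‖x + t • u‖ ≤ R := hR _ ht
    have h2 : ‖t • u‖ ≤ R + ‖x‖ := by
      calc ‖t • u‖ = ‖(x + t • u) - x‖ := by rw [add_sub_cancel_left]
        _ ≤ ‖x + t • u‖ + ‖x‖ := norm_sub_le _ _
        _ ≤ R + ‖x‖ := by linarith
    rw [norm_smul, Real.norm_eq_abs] at h2
    have hu' : 0 < ‖u‖ := norm_pos_iff.2 hu
    rw [le_div_iff₀ hu']
    exact (mul_le_mul_of_nonneg_right (le_abs_self t) hu'.le).trans h2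
  have hSn : S.Nonempty := ⟨0, by simpa [S] using hx⟩
  have ht0 : sSup S ∈ S := hScl.csSup_mem hSn hSb
  refine ⟨sSup S, ?_⟩
  rw [frontier, hQ.isClosed.closure_eq]
  refine ⟨ht0, fun hint => ?_⟩
  obtain ⟨ε, hε, h⟩ := exists_small isOpen_interior hint u
  have h3 : sSup S + ε ∈ S := by
    have := interior_subset h
    simpa [S, add_smul, add_assoc] using this
  have := le_csSup hSb h3
  linarith

lemma area_ge {Q : Set E3} (hQ : IsCompact Q) (hconv : Convex ℝ Q)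
    (b : OrthonormalBasis (Fin 3) ℝ E3) {p q r : E3} (hp : p ∈ Q) (hq : q ∈ Q) (hr : r ∈ Q)
    {D h x : ℝ} (hD : 0 < D) (hh : 0 < h) (hqp : q = p + D • b 0)
    (hrp : r = p + (x • b 0 + h • b 1)) (hx0 : 0 ≤ x) (hxD : x ≤ D) :
    ENNReal.ofReal (D / 2 * (h / 2)) ≤ area Q := by
  let π : E3 → ℝ × ℝ := fun y => (⟪b 0, y - p⟫, ⟪b 1, y - p⟫)
  have hb : ∀ i j, ⟪b i, b j⟫ = if i = j then (1 : ℝ) else 0 := fun i j => by
    simpa using b.inner_eq_ite i j
  have hLip : LipschitzWith 1 π := by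
    apply LipschitzWith.of_dist_le_mul
    intro y z
    rw [NNReal.coe_one, one_mul, Prod.dist_eq, max_le_iff]
    have key : ∀ i, dist ⟪b i, y - p⟫ ⟪b i, z - p⟫ ≤ dist y z := by
      intro i
      rw [Real.dist_eq, ← inner_sub_right, sub_sub_sub_cancel_right, dist_eq_norm]
      calc |⟪b i, y - z⟫| ≤ ‖b i‖ * ‖y - z‖ := abs_real_inner_le_norm _ _
        _ = ‖y - z‖ := by rw [b.norm_eq_one, one_mul]
    exact ⟨key 0, key 1⟩
  have hsub : Icc (x / 2) ((x + D) / 2) ×ˢ Icc 0 (h / 2) ⊆ π '' frontier Q := by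
    rintro ⟨s, t⟩ ⟨⟨hs1, hs2⟩, ⟨ht1, ht2⟩⟩
    simp only at hs1 hs2 ht1 ht2
    set γ := t / h with hγ
    have hγ0 : 0 ≤ γ := by positivity
    have hγ1 : γ ≤ 1 / 2 := by
      rw [hγ, div_le_iff₀ hh]; linarith
    set β := (s - x * γ) / D with hβ
    have hβ0 : 0 ≤ β := by
      apply div_nonneg _ hD.le
      nlinarith
    have hα0 : 0 ≤ 1 - β - γ := by
      have : β ≤ 1 - γ := by
        rw [hβ, div_le_iff₀ hD]
        nlinarith
      linarith
    have hγh : γ * h = t := by rw [hγ]; field_simp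
    have hβD : β * D = s - x * γ := by rw [hβ]; field_simp
    let y : E3 := p + (s • b 0 + t • b 1)
    have hy : y ∈ Q := by
      have h1 := hconv hp hq (a := 1 - β / (1 - γ)) (b := β / (1 - γ))
        (by rw [sub_nonneg, div_le_one (by linarith)]; linarith)
        (div_nonneg hβ0 (by linarith)) (by ring)
      have h2 := hconv h1 hr (a := 1 - γ) (b := γ) (by linarith) hγ0 (by ring)
      have hne : (1 - γ) ≠ 0 := by
        have : γ ≤ 1 / 2 := hγ1
        intro h0; linarith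
      have h3 : (1 - γ) * (β / (1 - γ)) = β := by field_simp
      have : y = (1 - γ) • ((1 - β / (1 - γ)) • p + (β / (1 - γ)) • q) + γ • r := by
        rw [hqp, hrp]
        have e1 : (1 - γ) • ((1 - β / (1 - γ)) • p + (β / (1 - γ)) • (p + D • b 0))
            = (1 - γ) • p + (((1 - γ) * (β / (1 - γ))) * D) • b 0 := by
          module
        rw [e1, h3, hβD]
        have e2 : γ • (p + (x • b 0 + h • b 1)) = γ • p + (x * γ) • b 0 + (γ * h) • b 1 := by
          module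
        rw [e2, hγh]
        show p + (s • b 0 + t • b 1) = _
        module
      rw [this]; exact h2
    obtain ⟨τ, hτ⟩ := exit_point hQ hy (u := b 2) (b.orthonormal.ne_zero 2)
    refine ⟨_, hτ, ?_⟩
    have h20 : ⟪b 0, b 2⟫ = (0 : ℝ) := by rw [hb]; simp
    have h21 : ⟪b 1, b 2⟫ = (0 : ℝ) := by rw [hb]; simp
    have h01 : ⟪b 0, b 1⟫ = (0 : ℝ) := by rw [hb]; simp
    have h10 : ⟪b 1, b 0⟫ = (0 : ℝ) := by rw [hb]; simp
    have h00 : ⟪b 0, b 0⟫ = (1 : ℝ) := by rw [hb]; simp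
    have h11 : ⟪b 1, b 1⟫ = (1 : ℝ) := by rw [hb]; simp
    have hyp : y + τ • b 2 - p = s • b 0 + t • b 1 + τ • b 2 := by
      show p + (s • b 0 + t • b 1) + τ • b 2 - p = _
      abel
    show (⟪b 0, y + τ • b 2 - p⟫, ⟪b 1, y + τ • b 2 - p⟫) = (s, t)
    rw [hyp]
    simp only [inner_add_right, real_inner_smul_right, h20, h21, h01, h10, h00, h11]
    simp
  have h1 : (volume : Measure (ℝ × ℝ)) (Icc (x / 2) ((x + D) / 2) ×ˢ Icc 0 (h / 2)) =
      ENNReal.ofReal (D / 2 * (h / 2)) := by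
    rw [Measure.volume_eq_prod, Measure.prod_prod, Real.volume_Icc, Real.volume_Icc,
      ← ENNReal.ofReal_mul (by linarith)]
    congr 1
    ring
  rw [← h1]
  calc (volume : Measure (ℝ × ℝ)) (Icc (x / 2) ((x + D) / 2) ×ˢ Icc 0 (h / 2))
      ≤ (volume : Measure (ℝ × ℝ)) (π '' frontier Q) := measure_mono hsub
    _ = Measure.hausdorffMeasure 2 (π '' frontier Q) := by rw [hausdorffMeasure_prod_real]
    _ ≤ (1 : NNReal) ^ (2 : ℝ) * Measure.hausdorffMeasure 2 (frontier Q) :=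
        hLip.hausdorffMeasure_image_le (by norm_num) _
    _ = area Q := by simp [area]

lemma vol_le {Q : Set E3} (b : OrthonormalBasis (Fin 3) ℝ E3) (p : E3) {D h : ℝ}
    (hD : 0 ≤ D) (hh : 0 ≤ h)
    (h0 : ∀ y ∈ Q, 0 ≤ ⟪b 0, y - p⟫ ∧ ⟪b 0, y - p⟫ ≤ D)
    (h1 : ∀ y ∈ Q, |⟪b 1, y - p⟫| ≤ h) (h2 : ∀ y ∈ Q, |⟪b 2, y - p⟫| ≤ h) :
    volume Q ≤ ENNReal.ofReal (4 * D * h ^ 2) := by
  let f : E3 → (Fin 3 → ℝ) := fun y => WithLp.ofLp (b.repr y)
  have hf : MeasurePreserving f volume volume :=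
    (PiLp.volume_preserving_ofLp (Fin 3)).comp b.measurePreserving_repr
  let lo : Fin 3 → ℝ := ![⟪b 0, p⟫, ⟪b 1, p⟫ - h, ⟪b 2, p⟫ - h]
  let hi : Fin 3 → ℝ := ![⟪b 0, p⟫ + D, ⟪b 1, p⟫ + h, ⟪b 2, p⟫ + h]
  have hsub : Q ⊆ f ⁻¹' (Icc lo hi) := by
    intro y hy
    obtain ⟨a1, a2⟩ := h0 y hy
    have a3 := abs_le.1 (h1 y hy)
    have a4 := abs_le.1 (h2 y hy)
    rw [inner_sub_right] at a1 a2 a3 a4
    have hfy : ∀ i, f y i = ⟪b i, y⟫ := fun i => b.repr_apply_apply y i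
    constructor
    · intro i
      rw [hfy]
      fin_cases i
      · show ⟪b 0, p⟫ ≤ ⟪b 0, y⟫; linarith
      · show ⟪b 1, p⟫ - h ≤ ⟪b 1, y⟫; linarith
      · show ⟪b 2, p⟫ - h ≤ ⟪b 2, y⟫; linarith
    · intro i
      rw [hfy]
      fin_cases i
      · show ⟪b 0, y⟫ ≤ ⟪b 0, p⟫ + D; linarith
      · show ⟪b 1, y⟫ ≤ ⟪b 1, p⟫ + h; linarith
      · show ⟪b 2, y⟫ ≤ ⟪b 2, p⟫ + h; linarith
  calc volume Q ≤ volume (f ⁻¹' (Icc lo hi)) := measure_mono hsub
    _ = volume (Icc lo hi) := hf.measure_preimage measurableSet_Icc.nullMeasurableSet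
    _ = ENNReal.ofReal (4 * D * h ^ 2) := by
      rw [Real.volume_Icc_pi, Fin.prod_univ_three]
      have e0 : hi 0 - lo 0 = D := by simp [hi, lo]
      have e1 : hi 1 - lo 1 = 2 * h := by simp [hi, lo]; ring
      have e2 : hi 2 - lo 2 = 2 * h := by simp [hi, lo]; ring
      rw [e0, e1, e2, ← ENNReal.ofReal_mul hD, ← ENNReal.ofReal_mul (by positivity)]
      congr 1
      ring

lemma exists_basis (e w : E3) (he : ‖e‖ = 1) (hw : ⟪e, w⟫ = (0 : ℝ)) :
    ∃ b : OrthonormalBasis (Fin 3) ℝ E3, b 0 = e ∧ w = ‖w‖ • b 1 := by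
  by_cases hw0 : w = 0
  · obtain ⟨b, hb⟩ := Orthonormal.exists_orthonormalBasis_extension_of_card_eq (𝕜 := ℝ)
      (E := E3) (ι := Fin 3) (by simp) (v := fun _ => e) (s := {0}) (by
        constructor
        · rintro ⟨i, hi⟩; simpa using he
        · rintro ⟨i, hi⟩ ⟨j, hj⟩ hij
          simp only [mem_singleton_iff] at hi hj
          subst hi; subst hj
          exact absurd rfl hij)
    exact ⟨b, hb 0 rfl, by simp [hw0]⟩
  · have hwn : ‖w‖ ≠ 0 := norm_ne_zero_iff.2 hw0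
    obtain ⟨b, hb⟩ := Orthonormal.exists_orthonormalBasis_extension_of_card_eq (𝕜 := ℝ)
      (E := E3) (ι := Fin 3) (by simp) (v := ![e, ‖w‖⁻¹ • w, 0]) (s := {0, 1}) (by
        constructor
        · rintro ⟨i, hi⟩
          rcases hi with rfl | hi
          · simpa using he
          · simp only [mem_singleton_iff] at hi
            subst hi
            show ‖‖w‖⁻¹ • w‖ = 1
            rw [norm_smul, norm_inv, norm_norm, inv_mul_cancel₀ hwn]
        · rintro ⟨i, hi⟩ ⟨j, hj⟩ hij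
          have h01 : ⟪e, ‖w‖⁻¹ • w⟫ = (0 : ℝ) := by rw [real_inner_smul_right, hw, mul_zero]
          rcases hi with rfl | hi <;> rcases hj with rfl | hj
          · exact absurd rfl hij
          · simp only [mem_singleton_iff] at hj; subst hj
            exact h01
          · simp only [mem_singleton_iff] at hi; subst hi
            show ⟪‖w‖⁻¹ • w, e⟫ = (0 : ℝ)
            rw [real_inner_comm]; exact h01
          · simp only [mem_singleton_iff] at hi hj; subst hi; subst hj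
            exact absurd rfl hij)
    refine ⟨b, hb 0 (by simp), ?_⟩
    rw [hb 1 (by simp)]
    show w = ‖w‖ • (‖w‖⁻¹ • w)
    rw [smul_smul, mul_inv_cancel₀ hwn, one_smul]

lemma exists_diam_gen {X : Type*} [MetricSpace X] {Q : Set X} (hQ : IsCompact Q)
    (hne : Q.Nonempty) : ∃ p ∈ Q, ∃ q ∈ Q, ∀ x ∈ Q, ∀ y ∈ Q, dist x y ≤ dist p q := by
  have hc : ContinuousOn (fun z : X × X => dist z.1 z.2) (Q ×ˢ Q) :=
    (continuous_fst.dist continuous_snd).continuousOn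
  obtain ⟨z, hpq, hmax⟩ := (hQ.prod hQ).exists_isMaxOn (hne.prod hne) hc
  exact ⟨z.1, hpq.1, z.2, hpq.2, fun x hx y hy => hmax (mk_mem_prod hx hy)⟩

lemma exists_diam {Q : Set E3} (hQ : IsCompact Q) (hvol : volume Q = 1) :
    ∃ p ∈ Q, ∃ q ∈ Q, 0 < dist p q ∧ ∀ x ∈ Q, ∀ y ∈ Q, dist x y ≤ dist p q := by
  have hne : Q.Nonempty := by
    by_contra h
    rw [not_nonempty_iff_eq_empty] at h
    rw [h, measure_empty] at hvol
    exact zero_ne_one hvol
  obtain ⟨p, hp, q, hq, hmax⟩ := exists_diam_gen hQ hne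
  refine ⟨p, hp, q, hq, ?_, hmax⟩
  rcases (dist_nonneg (x := p) (y := q)).lt_or_eq with h | h
  · exact h
  · exfalso
    have hss : Q.Subsingleton := by
      intro x hx y hy
      have := hmax x hx y hy
      rw [← h] at this
      exact dist_le_zero.1 this
    rcases hss.eq_empty_or_singleton with h | ⟨x, h⟩
    · rw [h, measure_empty] at hvol
      exact zero_ne_one hvol
    · rw [h, measure_singleton] at hvol
      exact zero_ne_one hvol

lemma exists_far {Q : Set E3} (hQ : IsCompact Q) (hne : Q.Nonempty) (p e : E3) :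
    ∃ r ∈ Q, ∀ y ∈ Q, ‖(y - p) - ⟪e, y - p⟫ • e‖ ≤ ‖(r - p) - ⟪e, r - p⟫ • e‖ := by
  have hc : ContinuousOn (fun y : E3 => ‖(y - p) - ⟪e, y - p⟫ • e‖) Q := by
    apply Continuous.continuousOn
    fun_prop
  obtain ⟨r, hr, hrmax⟩ := hQ.exists_isMaxOn hne hc
  exact ⟨r, hr, fun y hy => hrmax hy⟩

lemma coord_bound {Q : Set E3} {p q e : E3} (hp : p ∈ Q) (hq : q ∈ Q) {D : ℝ}
    (hmax : ∀ x ∈ Q, ∀ y ∈ Q, dist x y ≤ D) (hen : ‖e‖ = 1) (hqp : q = p + D • e) :
    ∀ y ∈ Q, 0 ≤ ⟪e, y - p⟫ ∧ ⟪e, y - p⟫ ≤ D := by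
  have hee : ⟪e, e⟫ = (1 : ℝ) := by rw [real_inner_self_eq_norm_sq, hen]; norm_num
  intro y hy
  have h1 : ⟪e, y - p⟫ ≤ D := by
    calc ⟪e, y - p⟫ ≤ ‖e‖ * ‖y - p‖ := real_inner_le_norm _ _
      _ = dist y p := by rw [hen, one_mul, dist_eq_norm]
      _ ≤ D := hmax y hy p hp
  have h2 : D - ⟪e, y - p⟫ ≤ D := by
    have h3 : ⟪e, q - y⟫ = D - ⟪e, y - p⟫ := by
      have : q - y = D • e - (y - p) := by rw [hqp]; abel
      rw [this, inner_sub_right, real_inner_smul_right, hee, mul_one]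
    rw [← h3]
    calc ⟪e, q - y⟫ ≤ ‖e‖ * ‖q - y‖ := real_inner_le_norm _ _
      _ = dist q y := by rw [hen, one_mul, dist_eq_norm]
      _ ≤ D := hmax q hq y hy
  exact ⟨by linarith, h1⟩

lemma perp_bound {Q : Set E3} (b : OrthonormalBasis (Fin 3) ℝ E3) {p : E3} {h : ℝ}
    (hmax : ∀ y ∈ Q, ‖(y - p) - ⟪b 0, y - p⟫ • b 0‖ ≤ h) (i : Fin 3) (hi : i ≠ 0) :
    ∀ y ∈ Q, |⟪b i, y - p⟫| ≤ h := by
  intro y hy
  have hbi : ⟪b i, b 0⟫ = (0 : ℝ) := by
    rw [b.inner_eq_ite i 0]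
    simp [hi]
  have h1 : ⟪b i, y - p⟫ = ⟪b i, (y - p) - ⟪b 0, y - p⟫ • b 0⟫ := by
    rw [inner_sub_right (b i) (y - p) (⟪b 0, y - p⟫ • b 0), real_inner_smul_right, hbi,
      mul_zero, sub_zero]
  rw [h1]
  calc |⟪b i, (y - p) - ⟪b 0, y - p⟫ • b 0⟫| ≤ ‖b i‖ * ‖(y - p) - ⟪b 0, y - p⟫ • b 0‖ :=
        abs_real_inner_le_norm _ _
    _ = ‖(y - p) - ⟪b 0, y - p⟫ • b 0‖ := by rw [b.norm_eq_one, one_mul]
    _ ≤ h := hmax y hy

lemma diam_aux {Q : Set E3} (hQ : IsCompact Q) (hconv : Convex ℝ Q) (hvol : volume Q = 1)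
    (b : OrthonormalBasis (Fin 3) ℝ E3) {p q r : E3} (hp : p ∈ Q) (hq : q ∈ Q) (hr : r ∈ Q)
    {D h x : ℝ} (hD : 0 < D) (hh : 0 ≤ h) (hmax : ∀ x ∈ Q, ∀ y ∈ Q, dist x y ≤ D)
    (hqp : q = p + D • b 0) (hrp : r = p + (x • b 0 + h • b 1))
    (hrmax : ∀ y ∈ Q, ‖(y - p) - ⟪b 0, y - p⟫ • b 0‖ ≤ h) :
    ENNReal.ofReal D ≤ 64 * area Q ^ 2 := by
  have hcoord := coord_bound hp hq hmax (b.norm_eq_one 0) hqp
  have hv := vol_le (Q := Q) b p hD.le hh hcoord
    (perp_bound b hrmax 1 (by decide)) (perp_bound b hrmax 2 (by decide))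
  rw [hvol] at hv
  have hv' : 1 ≤ 4 * D * h ^ 2 := (ENNReal.one_le_ofReal).1 hv
  have hhpos : 0 < h := by
    rcases hh.lt_or_eq with h0 | h0
    · exact h0
    · exfalso
      rw [← h0] at hv'
      norm_num at hv'
  have hx : x = ⟪b 0, r - p⟫ := by
    have h00 : ⟪b 0, b 0⟫ = (1 : ℝ) := by
      rw [real_inner_self_eq_norm_sq, b.norm_eq_one]; norm_num
    have h01 : ⟪b 0, b 1⟫ = (0 : ℝ) := by
      rw [b.inner_eq_ite 0 1]
      simp
    rw [hrp, add_sub_cancel_left, inner_add_right, real_inner_smul_right,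
      real_inner_smul_right, h00, h01]
    ring
  have hxb := hcoord r hr
  rw [← hx] at hxb
  have harea := area_ge hQ hconv b hp hq hr hD hhpos hqp hrp hxb.1 hxb.2
  calc ENNReal.ofReal D ≤ ENNReal.ofReal (64 * (D / 2 * (h / 2)) ^ 2) := by
        apply ENNReal.ofReal_le_ofReal
        nlinarith
    _ = 64 * ENNReal.ofReal (D / 2 * (h / 2)) ^ 2 := by
        rw [ENNReal.ofReal_mul (by norm_num), ENNReal.ofReal_pow (by positivity)]
        norm_num
    _ ≤ 64 * area Q ^ 2 := by gcongr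

lemma diam_bound {Q : Set E3} (hQ : IsCompact Q) (hconv : Convex ℝ Q) (hvol : volume Q = 1) :
    ∃ D : ℝ, 0 ≤ D ∧ (∀ x ∈ Q, ∀ y ∈ Q, dist x y ≤ D) ∧
      ENNReal.ofReal D ≤ 64 * area Q ^ 2 := by
  obtain ⟨p, hp, q, hq, hD, hmax⟩ := exists_diam hQ hvol
  refine ⟨dist p q, hD.le, hmax, ?_⟩
  generalize hDdef : dist p q = D at *
  have hqpn : ‖q - p‖ = D := by rw [← dist_eq_norm, dist_comm, hDdef]
  obtain ⟨e, he⟩ : ∃ e : E3, e = D⁻¹ • (q - p) := ⟨_, rfl⟩
  have hen : ‖e‖ = 1 := by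
    rw [he, norm_smul, hqpn, norm_inv, Real.norm_eq_abs, abs_of_pos hD, inv_mul_cancel₀ hD.ne']
  have hqp : q = p + D • e := by
    rw [he, smul_smul, mul_inv_cancel₀ hD.ne', one_smul]; abel
  obtain ⟨r, hr, hrmax⟩ := exists_far hQ ⟨p, hp⟩ p e
  have hee : ⟪e, e⟫ = (1 : ℝ) := by rw [real_inner_self_eq_norm_sq, hen]; norm_num
  obtain ⟨w, hw⟩ : ∃ w : E3, w = (r - p) - ⟪e, r - p⟫ • e := ⟨_, rfl⟩
  have hew : ⟪e, w⟫ = (0 : ℝ) := by
    rw [hw, inner_sub_right, real_inner_smul_right, hee, mul_one, sub_self]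
  rw [← hw] at hrmax
  obtain ⟨b, hb0, hb1⟩ := exists_basis e w hen hew
  subst hb0
  refine diam_aux hQ hconv hvol b hp hq hr hD (norm_nonneg w) hmax hqp
    (x := ⟪b 0, r - p⟫) ?_ hrmax
  rw [← hb1, hw]; abel

lemma isometry_eq (g : E3 ≃ᵢ E3) (x : E3) :
    g x = g 0 + g.toRealAffineIsometryEquiv.linearIsometryEquiv x := by
  have h := g.toRealAffineIsometryEquiv.map_vadd 0 x
  rw [vadd_eq_add, add_zero, vadd_eq_add, IsometryEquiv.coeFn_toRealAffineIsometryEquiv] at h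
  rw [h, add_comm]

lemma exists_aff_isometry (g : E3 ≃ᵢ E3) :
    ∃ (A : E3 ≃L[ℝ] E3) (v : E3), ∀ Q : Set E3, g '' Q = aff A v '' Q := by
  refine ⟨g.toRealAffineIsometryEquiv.linearIsometryEquiv.toContinuousLinearEquiv, g 0, ?_⟩
  intro Q
  apply image_congr
  intro x _
  rw [isometry_eq]
  rfl

lemma measurePreserving_isometry (g : E3 ≃ᵢ E3) : MeasurePreserving g volume volume := by
  have h : (g : E3 → E3) =
      (fun x => g 0 + x) ∘ g.toRealAffineIsometryEquiv.linearIsometryEquiv := by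
    funext x
    rw [isometry_eq]
    rfl
  rw [h]
  exact (measurePreserving_add_left volume _).comp
    g.toRealAffineIsometryEquiv.linearIsometryEquiv.measurePreserving

lemma volume_image (g : E3 ≃ᵢ E3) {Q : Set E3} (hQ : IsCompact Q) :
    volume (g '' Q) = volume Q := by
  have h := (measurePreserving_isometry g.symm).measure_preimage
    hQ.measurableSet.nullMeasurableSet
  rw [← h]
  congr 1
  exact g.toEquiv.image_eq_preimage_symm Q

lemma convex_image (g : E3 ≃ᵢ E3) {Q : Set E3} (hQ : Convex ℝ Q) : Convex ℝ (g '' Q) := by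
  rintro _ ⟨x, hx, rfl⟩ _ ⟨y, hy, rfl⟩ a b ha hb hab
  refine ⟨a • x + b • y, hQ hx hy ha hb hab, ?_⟩
  rw [isometry_eq, isometry_eq g x, isometry_eq g y, map_add, map_smul, map_smul]
  have hb' : b = 1 - a := by linarith
  subst hb'
  module

lemma packing {𝒯 : Set (Set E3)} (hvol : ∀ S ∈ 𝒯, volume (interior S) = 1)
    (hdis : ∀ S ∈ 𝒯, ∀ T ∈ 𝒯, S ≠ T → Disjoint (interior S) (interior T))
    (F : Finset (Set E3)) (hF : ∀ S ∈ F, S ∈ 𝒯) {B : Set E3} (hB : ∀ S ∈ F, S ⊆ B) :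
    (F.card : ℝ≥0∞) ≤ volume B := by
  calc (F.card : ℝ≥0∞) = ∑ S ∈ F, volume (interior S) := by
        rw [Finset.sum_congr rfl (fun S hS => hvol S (hF S hS))]; simp
    _ = volume (⋃ S ∈ F, interior S) :=
        (measure_biUnion_finset (fun S hS T hT hne => hdis S (hF S hS) T (hF T hT) hne)
          (fun S _ => isOpen_interior.measurableSet)).symm
    _ ≤ volume B := measure_mono (iUnion₂_subset fun S hS => interior_subset.trans (hB S hS))

lemma finite_meet {𝒯 : Set (Set E3)} (hvol : ∀ S ∈ 𝒯, volume (interior S) = 1)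
    (hdis : ∀ S ∈ 𝒯, ∀ T ∈ 𝒯, S ≠ T → Disjoint (interior S) (interior T)) {D : ℝ}
    (hdiam : ∀ S ∈ 𝒯, ∀ x ∈ S, ∀ y ∈ S, dist x y ≤ D) (x : E3) (r : ℝ) :
    {S | S ∈ 𝒯 ∧ (S ∩ Metric.closedBall x r).Nonempty}.Finite := by
  by_contra hinf
  have hinf' : {S | S ∈ 𝒯 ∧ (S ∩ Metric.closedBall x r).Nonempty}.Infinite := hinf
  have hV : volume (Metric.closedBall x (r + D)) < ⊤ :=
    (isCompact_closedBall x (r + D)).measure_lt_top
  obtain ⟨k, hk⟩ := ENNReal.exists_nat_gt hV.ne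
  obtain ⟨F, hF, hcard⟩ := hinf'.exists_subset_card_eq k
  have h := packing hvol hdis F (fun S hS => (hF hS).1) (B := Metric.closedBall x (r + D)) (by
    intro S hS y hy
    obtain ⟨hS1, z, hz1, hz2⟩ := hF hS
    rw [Metric.mem_closedBall] at hz2 ⊢
    have := dist_triangle y z x
    have := hdiam S hS1 y hy z hz1
    linarith)
  rw [hcard] at h
  exact absurd (hk.trans_le h) (lt_irrefl _)

lemma finite_cover {H : Set E3} (s : Finset (Set E3)) (hs : ∀ S ∈ s, IsClosed S) {V : Set E3}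
    (hV : IsOpen V) (hne : (V ∩ H).Nonempty) (hsub : V ∩ H ⊆ ⋃ S ∈ s, S) :
    ∃ S ∈ s, ∃ V' ⊆ V, IsOpen V' ∧ (V' ∩ H).Nonempty ∧ V' ∩ H ⊆ S := by
  classical
  induction s using Finset.induction_on generalizing V with
  | empty =>
    obtain ⟨y, hy⟩ := hne
    simpa using hsub hy
  | insert a s ha ih =>
    by_cases h : V ∩ H ⊆ a
    · exact ⟨a, Finset.mem_insert_self _ _, V, Subset.rfl, hV, hne, h⟩
    · obtain ⟨y, hy, hya⟩ := not_subset.1 h
      obtain ⟨S, hS, V', hV', h1, h2, h3⟩ := ih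
        (fun S hS => hs S (Finset.mem_insert_of_mem hS)) (V := V ∩ aᶜ)
        (hV.inter (hs a (Finset.mem_insert_self _ _)).isOpen_compl)
        ⟨y, ⟨hy.1, hya⟩, hy.2⟩ (by
          rintro z ⟨⟨hz1, hz2⟩, hz3⟩
          have := hsub ⟨hz1, hz3⟩
          simp only [mem_iUnion, Finset.mem_insert, exists_prop] at this ⊢
          obtain ⟨S, rfl | hS, hzS⟩ := this
          · exact absurd hzS hz2
          · exact ⟨S, hS, hzS⟩)
      exact ⟨S, Finset.mem_insert_of_mem hS, V', hV'.trans inter_subset_left, h1, h2, h3⟩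

lemma no_line {L : E3 →L[ℝ] ℝ} {c : ℝ} {V : Set E3} (hV : IsOpen V)
    (hne : (V ∩ {x | L x = c}).Nonempty) (a d : E3)
    (h : ∀ y ∈ V ∩ {x | L x = c}, ∃ t : ℝ, y = a + t • d) : False := by
  obtain ⟨z, hzV, hz⟩ := hne
  obtain ⟨t1, ht1⟩ := h z ⟨hzV, hz⟩
  have hle : LinearMap.ker (L : E3 →ₗ[ℝ] ℝ) ≤ Submodule.span ℝ {d} := by
    intro w hw
    have hw' : L w = 0 := hw
    obtain ⟨ε, hε, hεV⟩ := exists_small hV hzV w
    obtain ⟨t2, ht2⟩ := h (z + ε • w) ⟨hεV, by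
      show L (z + ε • w) = c
      rw [map_add, map_smul, hw', smul_zero, add_zero]; exact hz⟩
    have h3 : ε • w = (t2 - t1) • d := by
      have : ε • w = (z + ε • w) - z := by abel
      rw [this, ht2, ht1]; module
    rw [Submodule.mem_span_singleton]
    refine ⟨ε⁻¹ * (t2 - t1), ?_⟩
    rw [mul_smul, ← h3, smul_smul, inv_mul_cancel₀ hε.ne', one_smul]
  have h1 := LinearMap.finrank_range_add_finrank_ker (L : E3 →ₗ[ℝ] ℝ)
  have h2 : Module.finrank ℝ (LinearMap.range (L : E3 →ₗ[ℝ] ℝ)) ≤ 1 := by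
    have := Submodule.finrank_le (LinearMap.range (L : E3 →ₗ[ℝ] ℝ))
    simpa using this
  have h3 : Module.finrank ℝ (LinearMap.ker (L : E3 →ₗ[ℝ] ℝ)) ≤ 1 :=
    (Submodule.finrank_mono hle).trans ((finrank_span_le_card {d}).trans (by simp))
  have h4 : Module.finrank ℝ E3 = 3 := by simp
  omega

lemma frontier_cover {𝒯 : Set (Set E3)} {T : Set E3} (hcl : ∀ S ∈ 𝒯, IsClosed S)
    (hcov : ⋃₀ 𝒯 = univ)
    (hfin : ∀ x r, {S | S ∈ 𝒯 ∧ (S ∩ Metric.closedBall x r).Nonempty}.Finite)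
    {y : E3} (hy : y ∈ frontier T) : ∃ S ∈ 𝒯, S ≠ T ∧ y ∈ S := by
  by_contra hcon
  push Not at hcon
  let N : Set (Set E3) := {S | S ∈ 𝒯 ∧ (S ∩ Metric.closedBall y 1).Nonempty} \ {T}
  have hNfin : N.Finite := (hfin y 1).subset sdiff_subset
  have hNcl : IsClosed (⋃ S ∈ N, S) :=
    hNfin.isClosed_biUnion fun S hS => hcl S hS.1.1
  have hyN : y ∉ ⋃ S ∈ N, S := by
    intro h
    simp only [mem_iUnion, exists_prop] at h
    obtain ⟨S, hS, hyS⟩ := h
    exact hcon S hS.1.1 hS.2 hyS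
  have hopen : IsOpen ((⋃ S ∈ N, S)ᶜ ∩ Metric.ball y 1) :=
    hNcl.isOpen_compl.inter Metric.isOpen_ball
  have hsub : (⋃ S ∈ N, S)ᶜ ∩ Metric.ball y 1 ⊆ T := by
    rintro z ⟨hz1, hz2⟩
    have : z ∈ ⋃₀ 𝒯 := by rw [hcov]; trivial
    obtain ⟨S, hS, hzS⟩ := this
    by_cases hST : S = T
    · rw [← hST]; exact hzS
    · exfalso
      apply hz1
      simp only [mem_iUnion, exists_prop]
      exact ⟨S, ⟨⟨hS, z, hzS, Metric.ball_subset_closedBall hz2⟩, hST⟩, hzS⟩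
  have hyint : y ∈ interior T :=
    mem_interior.2 ⟨_, hsub, hopen, hyN, Metric.mem_ball_self one_pos⟩
  exact hy.2 hyint

lemma face_eq_inter {𝒯 : Set (Set E3)} {T : Set E3} (hT : T ∈ 𝒯) (hcl : ∀ S ∈ 𝒯, IsClosed S)
    (hcov : ⋃₀ 𝒯 = univ)
    (hfin : ∀ x r, {S | S ∈ 𝒯 ∧ (S ∩ Metric.closedBall x r).Nonempty}.Finite)
    (hftf : ∀ S ∈ 𝒯, T ≠ S → MeetProperly T S) {F : Set E3} (hF : IsFace T F) :
    ∃ S ∈ 𝒯, S ≠ T ∧ (S ∩ T).Nonempty ∧ F = T ∩ S := by
  classical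
  obtain ⟨H, ⟨L, c, hL, rfl⟩, x, hx, hFeq⟩ := hF
  obtain ⟨hxH, U, hU, hxU, hUsub⟩ := hx
  obtain ⟨ε, hε, hball⟩ := Metric.isOpen_iff.1 hU x hxU
  set H : Set E3 := {x | L x = c} with hH
  have hTcl := hcl T hT
  have hfT : frontier T ⊆ T := hTcl.frontier_subset
  have hNfin := hfin x ε
  let N : Finset (Set E3) := hNfin.toFinset.filter (fun S => S ≠ T)
  have hNmem : ∀ S, S ∈ N ↔ (S ∈ 𝒯 ∧ (S ∩ Metric.closedBall x ε).Nonempty) ∧ S ≠ T := by
    intro S
    simp [N]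
  obtain ⟨S, hSN, V, hVsub, hVo, hVne, hVS⟩ := finite_cover (H := H) N
    (fun S hS => hcl S ((hNmem S).1 hS).1.1) (V := Metric.ball x ε) Metric.isOpen_ball
    ⟨x, Metric.mem_ball_self hε, hxH⟩ (by
      rintro y ⟨hy1, hy2⟩
      obtain ⟨S, hS, hST, hyS⟩ := frontier_cover hcl hcov hfin (hUsub ⟨hball hy1, hy2⟩)
      simp only [mem_iUnion, exists_prop]
      exact ⟨S, (hNmem S).2 ⟨⟨hS, y, hyS, Metric.ball_subset_closedBall hy1⟩, hST⟩, hyS⟩)
  obtain ⟨⟨hS𝒯, -⟩, hST⟩ := (hNmem S).1 hSN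
  have hVTS : V ∩ H ⊆ T ∩ S := fun y hy =>
    ⟨hfT (hUsub ⟨hball (hVsub hy.1), hy.2⟩), hVS hy⟩
  have hC : Metric.ball x ε ∩ H ⊆ connectedComponentIn (relInt H (frontier T)) x := by
    apply IsPreconnected.subset_connectedComponentIn
    · apply Convex.isPreconnected
      apply (convex_ball x ε).inter
      intro y hy z hz a b _ _ hab
      simp only [hH, mem_ofPred_eq] at hy hz ⊢
      rw [map_add, map_smul, map_smul, hy, hz, smul_eq_mul, smul_eq_mul, ← add_mul, hab,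
        one_mul]
    · exact ⟨Metric.mem_ball_self hε, hxH⟩
    · rintro y ⟨hy1, hy2⟩
      exact ⟨hy2, U, hU, hball hy1, hUsub⟩
  refine ⟨S, hS𝒯, hST, ?_, ?_⟩
  · obtain ⟨y, hy⟩ := hVne
    exact ⟨y, (hVTS hy).2, (hVTS hy).1⟩
  · rcases hftf S hS𝒯 (Ne.symm hST) with h | ⟨v, hv, -⟩ | ⟨⟨a, b, -, hab, -⟩, -⟩ | ⟨hface, -⟩
    · obtain ⟨y, hy⟩ := hVne
      have := hVTS hy
      rw [h] at this
      exact this.elim
    · exfalso
      refine no_line hVo hVne v 0 fun y hy => ⟨0, ?_⟩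
      have := hVTS hy
      rw [hv] at this
      simpa using this
    · exfalso
      refine no_line hVo hVne a (b - a) fun y hy => ?_
      have := hVTS hy
      rw [hab, segment_eq_image'] at this
      obtain ⟨t, -, ht⟩ := this
      exact ⟨t, ht.symm⟩
    · obtain ⟨H', ⟨L', c', hL', rfl⟩, x', hx', hSeq⟩ := hface
      have hTSH' : T ∩ S ⊆ {x | L' x = c'} := by
        rw [hSeq]
        apply closure_minimal _ (isClosed_plane L' c')
        exact (connectedComponentIn_subset _ _).trans fun y hy => hy.1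
      have hplane : H = {x | L' x = c'} :=
        plane_eq_of_open_subset hVo hVne hL hL' (hVTS.trans hTSH')
      rw [← hplane] at hSeq
      obtain ⟨z, hz⟩ := hVne
      have hzcl : z ∈ closure (connectedComponentIn (relInt H (frontier T)) x') := by
        rw [← hSeq]; exact hVTS hz
      obtain ⟨z', hz'V, hz'C⟩ := mem_closure_iff.1 hzcl V hVo hz.1
      have hz'H : z' ∈ H := (connectedComponentIn_subset _ _ hz'C).1
      have h1 := hC ⟨hVsub hz'V, hz'H⟩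
      rw [hFeq, hSeq, connectedComponentIn_eq h1, connectedComponentIn_eq hz'C]

end CB

open CB in
/-- MODULE A. Convex n-hedral unit-volume tiles of area `a` have at most `2^30 a^6` faces. -/
theorem convex_bound (n : ℕ) (Q : Set E3) (hQ : IsTile n Q) (hvol : volume Q = 1)
    (hconv : Convex ℝ Q) : (n : ENNReal) ≤ 2 ^ 30 * (area Q) ^ 6 := by
  obtain ⟨hN, 𝒯, h𝒯⟩ := hQ
  have hcpt := hN.1.isCompact
  obtain ⟨D, hD0, hDmax, hDa⟩ := diam_bound hcpt hconv hvol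
  have htile : ∀ S ∈ 𝒯, IsCompact S ∧ volume (interior S) = 1 ∧
      ∀ x ∈ S, ∀ y ∈ S, dist x y ≤ D := by
    intro S hS
    obtain ⟨g, rfl⟩ := h𝒯.congruent S hS
    refine ⟨hcpt.image g.continuous, ?_, ?_⟩
    · have hc := convex_image g hconv
      have h1 : volume (interior (g '' Q)) = volume (g '' Q) := by
        apply le_antisymm (measure_mono interior_subset)
        have h2 : g '' Q ⊆ interior (g '' Q) ∪ frontier (g '' Q) := by
          rw [← closure_eq_interior_union_frontier]; exact subset_closure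
        calc volume (g '' Q) ≤ volume (interior (g '' Q) ∪ frontier (g '' Q)) :=
              measure_mono h2
          _ ≤ volume (interior (g '' Q)) + volume (frontier (g '' Q)) := measure_union_le _ _
          _ = volume (interior (g '' Q)) := by rw [hc.addHaar_frontier volume, add_zero]
      rw [h1, volume_image g hcpt, hvol]
    · rintro _ ⟨x, hx, rfl⟩ _ ⟨y, hy, rfl⟩
      rw [g.isometry.dist_eq]
      exact hDmax x hx y hy
  obtain ⟨T, hT⟩ : ∃ T, T ∈ 𝒯 := by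
    have : (0 : E3) ∈ ⋃₀ 𝒯 := by rw [h𝒯.covers]; trivial
    obtain ⟨T, hT, -⟩ := this
    exact ⟨T, hT⟩
  obtain ⟨g, hg⟩ := h𝒯.congruent T hT
  obtain ⟨A, v, hAv⟩ := exists_aff_isometry g
  have hTN : IsNHedron n T := by
    rw [hg, hAv]
    exact isNHedron_image A v hN
  have hfin := finite_meet (fun S hS => (htile S hS).2.1) h𝒯.disjoint
    (fun S hS => (htile S hS).2.2)
  have hTne : T.Nonempty := by
    by_contra h
    rw [not_nonempty_iff_eq_empty] at h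
    have := (htile T hT).2.1
    rw [h, interior_empty, measure_empty] at this
    exact zero_ne_one this
  obtain ⟨x0, hx0⟩ := hTne
  let N : Set (Set E3) := {S | S ∈ 𝒯 ∧ (S ∩ T).Nonempty}
  have hNfin : N.Finite := by
    apply (hfin x0 D).subset
    rintro S ⟨hS, y, hyS, hyT⟩
    exact ⟨hS, y, hyS, Metric.mem_closedBall.2 ((htile T hT).2.2 y hyT x0 hx0)⟩
  have hface : ∀ F ∈ {F | IsFace T F}, ∃ S ∈ N, F = T ∩ S := by
    intro F hF
    obtain ⟨S, hS, -, hne, h⟩ := face_eq_inter hT (fun S hS => (htile S hS).1.isClosed)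
      h𝒯.covers hfin (fun S hS hne => h𝒯.faceToFace T hT S hS hne) hF
    exact ⟨S, ⟨hS, hne⟩, h⟩
  choose! f hfN hfeq using hface
  have hcard : n ≤ N.ncard := by
    rw [← hTN.2]
    apply ncard_le_ncard_of_injOn f hfN _ hNfin
    intro F hF F' hF' hff
    rw [hfeq F hF, hfeq F' hF', hff]
  have hpack := packing (fun S hS => (htile S hS).2.1) h𝒯.disjoint hNfin.toFinset
    (fun S hS => ((hNfin.mem_toFinset).1 hS).1) (B := Metric.closedBall x0 (2 * D)) (by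
      intro S hS y hy
      obtain ⟨hS1, z, hzS, hzT⟩ := (hNfin.mem_toFinset).1 hS
      rw [Metric.mem_closedBall]
      have h1 := (htile S hS1).2.2 y hy z hzS
      have h2 := (htile T hT).2.2 z hzT x0 hx0
      have h3 := dist_triangle y z x0
      linarith)
  rw [← ncard_eq_toFinset_card N hNfin] at hpack
  have hpi : ENNReal.ofReal (Real.pi * 4 / 3) ≤ 8 := by
    rw [show (8 : ℝ≥0∞) = ENNReal.ofReal 8 by norm_num]
    apply ENNReal.ofReal_le_ofReal
    have := Real.pi_le_four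
    linarith
  calc (n : ℝ≥0∞) ≤ (N.ncard : ℝ≥0∞) := by exact_mod_cast hcard
    _ ≤ volume (Metric.closedBall x0 (2 * D)) := hpack
    _ = ENNReal.ofReal (2 * D) ^ 3 * ENNReal.ofReal (Real.pi * 4 / 3) :=
        EuclideanSpace.volume_closedBall_fin_three x0 (2 * D)
    _ ≤ (2 * (64 * area Q ^ 2)) ^ 3 * 8 := by
        rw [ENNReal.ofReal_mul (by norm_num)]
        gcongr
        simp
    _ = 2 ^ 24 * area Q ^ 6 := by ring
    _ ≤ 2 ^ 30 * area Q ^ 6 := by
        gcongr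
        · norm_num
        · norm_num

end Pool.Agent.DAF
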