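import Pool.Agent.DAF.Items

open Set Topology

namespace Pool.Agent.DAF

/-- determinant of three vectors -/
def det3 (u v w : ℝ × ℝ × ℝ) : ℝ :=
  u.1 * (v.2.1 * w.2.2 - v.2.2 * w.2.1) - u.2.1 * (v.1 * w.2.2 - v.2.2 * w.1) +
    u.2.2 * (v.1 * w.2.1 - v.2.1 * w.1)

section

variable {P : Plan} {Λ : Lay} {Ψ : ℝ → ℝ → ℝ} {Z1 Z2 κ : ℝ} {gx gy q : ℤ → ℝ}

lemma pb_p (hc : Compat P Λ Z1 Z2 κ) : Λ.pb * (Λ.K * Z1 - Λ.l) = -P.f.u1 := by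
  rw [hc.K1]
  linear_combination P.f.a1 * hc.hpb + P.f.pb_mul

lemma pd_r (hc : Compat P Λ Z1 Z2 κ) : Λ.pd * (Λ.K * Z2 + Λ.l) = P.f.u2 := by
  rw [hc.K2]
  linear_combination (-(P.f.a2 - Λ.N / 2)) * hc.hpd - hc.pdm

lemma fix_p (P : Plan) {X Y : ℝ} (h1 : X = P.w 0 Y) (h2 : Y = P.r 0 X) :
    X = P.px ∧ Y = P.py := by
  have g1 := P.wc_lip 0 Y P.py
  have g2 := P.rc_lip 0 X P.px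
  rw [← h1, ← P.px_eq] at g1
  rw [← h2, ← P.py_eq] at g2
  have n1 := abs_nonneg (X - P.px)
  have n2 := abs_nonneg (Y - P.py)
  have e1 : |X - P.px| = 0 := by linarith
  have e2 : |Y - P.py| = 0 := by linarith
  exact ⟨sub_eq_zero.1 (abs_eq_zero.1 e1), sub_eq_zero.1 (abs_eq_zero.1 e2)⟩

lemma wm1_r (P : Plan) : P.w (-1) (-P.ry) = -P.rx := by rw [P.wc_neg, neg_neg, ← P.rx_eq]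

lemma fix_r (P : Plan) {X Y : ℝ} (h1 : X = P.w (-1) Y) (h2 : Y = P.r 0 X) :
    X = -P.rx ∧ Y = -P.ry := by
  have g1 := P.wc_lip (-1) Y (-P.ry)
  have g2 := P.rc_lip 0 X (-P.rx)
  rw [← h1, wm1_r] at g1
  rw [← h2, ← P.ry_eq] at g2
  have n1 := abs_nonneg (X - -P.rx)
  have n2 := abs_nonneg (Y - -P.ry)
  have e1 : |X - -P.rx| = 0 := by linarith
  have e2 : |Y - -P.ry| = 0 := by linarith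
  exact ⟨sub_eq_zero.1 (abs_eq_zero.1 e1), sub_eq_zero.1 (abs_eq_zero.1 e2)⟩

/-- the determinant at a corner is `±1` up to a small error -/
lemma corner_det {A K k p g h : ℝ} (hK : 0 < K) (hA : |A| ≤ 2) (hp : |p| ≤ 1)
    (hk : K * k ≤ 1 / 400) (hg : |g| ≤ k) (hh : |h| ≤ k) :
    |K * (A * h + p * g)| ≤ 1 / 100 := by
  have h0 : 0 ≤ k := (abs_nonneg _).trans hg
  rw [abs_mul, abs_of_pos hK]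
  have h1 : |A * h + p * g| ≤ 2 * k + 1 * k := by
    refine (abs_add_le _ _).trans ?_
    rw [abs_mul, abs_mul]
    exact add_le_add (mul_le_mul hA hh (abs_nonneg _) (by norm_num))
      (mul_le_mul hp hg (abs_nonneg _) (by norm_num))
  calc K * |A * h + p * g| ≤ K * (2 * k + 1 * k) := mul_le_mul_of_nonneg_left h1 hK.le
    _ = 3 * (K * k) := by ring
    _ ≤ 1 / 100 := by linarith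

end

namespace Data

variable (𝔇 : Data)

lemma l_def : 𝔇.Λ.l = 𝔇.Λ.N / 4 - 𝔇.Λ.be := rfl

lemma hN4 : 𝔇.Λ.N = 2 * 𝔇.hlf := by rw [𝔇.LNN, 𝔇.two_hlf]

lemma slope_cell {n : ℤ} (h1 : 1 ≤ n) (h2 : n ≤ 𝔇.P.N - 1) :
    |𝔇.gx n| ≤ 𝔇.κ ∧ |𝔇.gy n| ≤ 𝔇.κ := 𝔇.psi.slope n h1 h2

/-- data of a corner -/
structure IsVert (S : Set (ℝ × ℝ × ℝ)) (v : ℝ × ℝ × ℝ) (j1 j2 j3 : SIdx) : Prop where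
  eq : 𝔇.TS ∩ S = {v}
  o1 : 𝔇.ok j1
  o2 : 𝔇.ok j2
  o3 : 𝔇.ok j3
  m1 : v ∈ 𝔇.sT j1
  m2 : v ∈ 𝔇.sT j2
  m3 : v ∈ 𝔇.sT j3
  det : det3 (𝔇.sv j1) (𝔇.sv j2) (𝔇.sv j3) ≠ 0

lemma mem_bn {v : ℝ × ℝ × ℝ} (h : 𝔇.Bd v.1 v.2.1 v.2.2)
    (h2 : v.2.1 - 𝔇.Λ.al * v.1 = 𝔇.Λ.N / 4 - 𝔇.Λ.K * v.2.2) : v ∈ 𝔇.wT Wl.bn := by
  have : v ∈ 𝔇.TS ∩ 𝔇.wT Wl.bn := by
    rw [wall_contact]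
    exact ⟨h2, h.1, h.2.1, h.2.2.1, h.2.2.2.1⟩
  exact this.2

lemma one_le : (1 : ℤ) ≤ 𝔇.P.N - 1 := by have := 𝔇.N_pos; omega

lemma mem_c1 {v : ℝ × ℝ × ℝ} (h1 : v.2.2 = 𝔇.h0 v.1 v.2.1)
    (h2 : 𝔇.P.Cell 0 1 (-v.1) (𝔇.hlf - v.2.1)) : v ∈ 𝔇.cT 1 := by
  have : v ∈ 𝔇.TS ∩ 𝔇.cT 1 := by
    rw [𝔇.cell_contact le_rfl 𝔇.one_le]
    exact ⟨h1, h2⟩
  exact this.2

/-- the corner `p` -/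
theorem vert_p : ∃ v, 𝔇.TS ∩ 𝔇.tA (-𝔇.hlf) 𝔇.hlf (-1) = {v} ∧ v ∈ 𝔇.wT Wl.bn ∧
    rh v ∈ 𝔇.wT Wl.a2 ∧ v ∈ 𝔇.cT 1 := by
  have hb := fun (x y z : ℝ) => 𝔇.bottom_iff (c := 0) (i := 0)
    (𝔇.Lat_iff_int.2 ⟨0, by simp⟩) (x := x) (y := y) (z := z)
  set v : ℝ × ℝ × ℝ := (-𝔇.P.px, 𝔇.hlf - 𝔇.P.py, -𝔇.Z1) with hv
  have hN := 𝔇.N_pos
  have hlt := 𝔇.P.wc_lt (by norm_num : (-1 : ℤ) < 0) 𝔇.P.py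
  have hlt2 := 𝔇.P.rc_lt (by norm_num : (-1 : ℤ) < 0) 𝔇.P.px
  have hpx := 𝔇.P.px_eq
  have hpy := 𝔇.P.py_eq
  have hz : -𝔇.Z1 = 𝔇.h0 (-𝔇.P.px) (𝔇.hlf - 𝔇.P.py) := by
    unfold h0
    rw [← 𝔇.psi.even, neg_neg, show -(𝔇.hlf - 𝔇.P.py - 𝔇.hlf) = 𝔇.P.py by ring, 𝔇.psi.at_p]
  have e1 : - -𝔇.P.px = 𝔇.P.px := neg_neg _
  have e2 : 𝔇.hlf - (𝔇.hlf - 𝔇.P.py) = 𝔇.P.py := by ring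
  have hmem : v ∈ 𝔇.TS ∩ 𝔇.tA (-𝔇.hlf) 𝔇.hlf (-1) := by
    have h := (hb v.1 v.2.1 v.2.2).2
    rw [show (-((0 : ℤ) : ℝ) - 𝔇.hlf) = -𝔇.hlf by simp,
      show 𝔇.hlf - ((0 : ℤ) : ℝ) = 𝔇.hlf by simp] at h
    refine h ⟨hz, ?_⟩
    change (𝔇.P.w (-1) (𝔇.hlf - (𝔇.hlf - 𝔇.P.py)) ≤ - -𝔇.P.px ∧
      - -𝔇.P.px ≤ 𝔇.P.w 0 (𝔇.hlf - (𝔇.hlf - 𝔇.P.py))) ∧
      (𝔇.P.r 0 (- -𝔇.P.px) ≤ 𝔇.hlf - (𝔇.hlf - 𝔇.P.py) ∧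
        𝔇.hlf - (𝔇.hlf - 𝔇.P.py) ≤ 𝔇.P.r (𝔇.P.N - 1) (- -𝔇.P.px)) ∧
      (𝔇.P.r (0 - 1) (- -𝔇.P.px) ≤ 𝔇.hlf - (𝔇.hlf - 𝔇.P.py) ∧
        𝔇.hlf - (𝔇.hlf - 𝔇.P.py) ≤ 𝔇.P.r 0 (- -𝔇.P.px)) ∧
      (𝔇.P.w 0 (𝔇.hlf - (𝔇.hlf - 𝔇.P.py)) ≤ - -𝔇.P.px ∧
        - -𝔇.P.px ≤ 𝔇.P.w (0 + 𝔇.P.N - 1) (𝔇.hlf - (𝔇.hlf - 𝔇.P.py)))
    rw [e1, e2, show (0 : ℤ) - 1 = -1 by norm_num, ← hpx, ← hpy]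
    refine ⟨⟨?_, le_rfl⟩, ⟨le_rfl, ?_⟩, ⟨?_, le_rfl⟩, ⟨le_rfl, ?_⟩⟩
    · rw [← hpx] at hlt; exact hlt.le
    · have := 𝔇.r_le_r (by omega : 0 ≤ 𝔇.P.N - 1) 𝔇.P.px
      rwa [← hpy] at this
    · rw [← hpy] at hlt2; exact hlt2.le
    · have := 𝔇.w_le_w (by omega : 0 ≤ 0 + 𝔇.P.N - 1) 𝔇.P.py
      rwa [← hpx] at this
  have hBd : 𝔇.Bd v.1 v.2.1 v.2.2 := by
    refine 𝔇.T_low hmem.1 ?_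
    change -𝔇.Z1 ≤ 𝔇.Ψ (-𝔇.P.px) (𝔇.hlf - 𝔇.P.py)
    rw [hz]; exact (𝔇.h0_lt _ _).le
  have hKZ := 𝔇.comp.KZ1
  have hN4 := 𝔇.hN4
  refine ⟨v, ?_, ?_, ?_, ?_⟩
  · refine Subset.antisymm ?_ (singleton_subset_iff.2 hmem)
    rintro ⟨x, y, z⟩ hX
    have h := (hb x y z).1
    rw [show (-((0 : ℤ) : ℝ) - 𝔇.hlf) = -𝔇.hlf by simp,
      show 𝔇.hlf - ((0 : ℤ) : ℝ) = 𝔇.hlf by simp] at h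
    obtain ⟨h1, ⟨h2, h3⟩, ⟨h4, h5⟩, ⟨h6, h7⟩, ⟨h8, h9⟩⟩ := h hX
    obtain ⟨g1, g2⟩ := fix_p 𝔇.P (le_antisymm h3 h8) (le_antisymm h7 h4)
    have gx : x = -𝔇.P.px := by linarith
    have gy : y = 𝔇.hlf - 𝔇.P.py := by linarith
    rw [mem_singleton_iff, hv, h1, gx, gy, hz]
  · refine 𝔇.mem_bn hBd ?_
    change 𝔇.hlf - 𝔇.P.py - 𝔇.Λ.al * -𝔇.P.px = 𝔇.Λ.N / 4 - 𝔇.Λ.K * -𝔇.Z1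
    linarith
  · have : rh v ∈ 𝔇.TS ∩ 𝔇.wT Wl.a2 := by
      rw [wall_contact]
      have hpb := pb_p 𝔇.comp
      have hK1 := 𝔇.comp.K1'
      have hl := 𝔇.l_def
      have hpxd : 𝔇.P.px = 1 / 2 + 𝔇.P.f.u1 := rfl
      have e : - (𝔇.hlf - 𝔇.P.py) - 𝔇.Λ.al * (- -𝔇.P.px) - 𝔇.Λ.be + 𝔇.Λ.N / 2 =
          -(𝔇.Λ.K * 𝔇.Z1 - 𝔇.Λ.l) := by linarith
      have hpos : 0 ≤ 𝔇.Λ.K * 𝔇.Z1 - 𝔇.Λ.l := by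
        by_contra! hcon
        have h1 := 𝔇.Λ.pb_neg
        have h2 := 𝔇.P.f.u1_pos
        nlinarith
      change (- -𝔇.P.px = 1 / 2 + 𝔇.Λ.pb * (- (𝔇.hlf - 𝔇.P.py) - 𝔇.Λ.al * (- -𝔇.P.px) -
          𝔇.Λ.be + 𝔇.Λ.N / 2)) ∧
        (|- (𝔇.hlf - 𝔇.P.py) - 𝔇.Λ.al * (- -𝔇.P.px) - 𝔇.Λ.be + 𝔇.Λ.N / 2| ≤
          -(𝔇.Λ.K * -𝔇.Z1 + 𝔇.Λ.l)) ∧
        -𝔇.Ψ (- -𝔇.P.px) (- (𝔇.hlf - 𝔇.P.py) - 𝔇.Λ.N / 2) ≤ -𝔇.Z1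
      rw [e]
      refine ⟨by linarith, ?_, ?_⟩
      · rw [abs_neg, abs_of_nonneg hpos]; linarith
      · rw [e1]
        have h1 := Lay.perN 𝔇.phi 𝔇.P.px 𝔇.P.py
        rw [show - (𝔇.hlf - 𝔇.P.py) - 𝔇.Λ.N / 2 = 𝔇.P.py - 𝔇.Λ.N by rw [hN4]; ring, h1,
          𝔇.psi.at_p]
    exact this.2
  · refine 𝔇.mem_c1 hz ?_
    change 𝔇.P.Cell 0 1 (- -𝔇.P.px) (𝔇.hlf - (𝔇.hlf - 𝔇.P.py))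
    rw [e1, e2]
    unfold Plan.Cell
    rw [show (0 : ℤ) - 1 = -1 by norm_num, show (1 : ℤ) - 1 = 0 by norm_num, ← hpx, ← hpy]
    refine ⟨?_, le_rfl, le_rfl, ?_⟩
    · rw [← hpx] at hlt; exact hlt.le
    · have := 𝔇.r_le_r (by norm_num : (0 : ℤ) ≤ 1) 𝔇.P.px
      rwa [← hpy] at this

/-- the corner `-r` -/
theorem vert_r : ∃ v, 𝔇.TS ∩ 𝔇.tA 𝔇.hlf 𝔇.hlf (-1) = {v} ∧ v ∈ 𝔇.wT Wl.bn ∧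
    v ∈ 𝔇.wT Wl.a1 ∧ v ∈ 𝔇.cT 1 := by
  have hb := fun (x y z : ℝ) => 𝔇.bottom_iff (c := -𝔇.P.N) (i := 0)
    (𝔇.Lat_iff_int.2 ⟨𝔇.P.s, by ring⟩) (x := x) (y := y) (z := z)
  set v : ℝ × ℝ × ℝ := (𝔇.P.rx, 𝔇.hlf + 𝔇.P.ry, -𝔇.Z2) with hv
  have hN := 𝔇.N_pos
  have hN2 := 𝔇.two_hlf
  have hwr := wm1_r 𝔇.P
  have hry := 𝔇.P.ry_eq
  have hlt := 𝔇.P.wc_lt (by norm_num : (-1 : ℤ) < 0) (-𝔇.P.ry)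
  have hlt2 := 𝔇.P.rc_lt (by norm_num : (-1 : ℤ) < 0) (-𝔇.P.rx)
  have hz : -𝔇.Z2 = 𝔇.h0 𝔇.P.rx (𝔇.hlf + 𝔇.P.ry) := by
    unfold h0
    rw [show 𝔇.hlf + 𝔇.P.ry - 𝔇.hlf = 𝔇.P.ry by ring, 𝔇.psi.at_r]
  have e2 : 𝔇.hlf - (𝔇.hlf + 𝔇.P.ry) = -𝔇.P.ry := by ring
  have ea : -((-𝔇.P.N : ℤ) : ℝ) - 𝔇.hlf = 𝔇.hlf := by push_cast; rw [hN2]; ring
  have eb : 𝔇.hlf - ((0 : ℤ) : ℝ) = 𝔇.hlf := by simp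
  have hmem : v ∈ 𝔇.TS ∩ 𝔇.tA 𝔇.hlf 𝔇.hlf (-1) := by
    have h := (hb v.1 v.2.1 v.2.2).2
    rw [ea, eb] at h
    refine h ⟨hz, ?_⟩
    change (𝔇.P.w (-1) (𝔇.hlf - (𝔇.hlf + 𝔇.P.ry)) ≤ -𝔇.P.rx ∧
      -𝔇.P.rx ≤ 𝔇.P.w 0 (𝔇.hlf - (𝔇.hlf + 𝔇.P.ry))) ∧
      (𝔇.P.r 0 (-𝔇.P.rx) ≤ 𝔇.hlf - (𝔇.hlf + 𝔇.P.ry) ∧
        𝔇.hlf - (𝔇.hlf + 𝔇.P.ry) ≤ 𝔇.P.r (𝔇.P.N - 1) (-𝔇.P.rx)) ∧
      (𝔇.P.r (0 - 1) (-𝔇.P.rx) ≤ 𝔇.hlf - (𝔇.hlf + 𝔇.P.ry) ∧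
        𝔇.hlf - (𝔇.hlf + 𝔇.P.ry) ≤ 𝔇.P.r 0 (-𝔇.P.rx)) ∧
      (𝔇.P.w (-𝔇.P.N) (𝔇.hlf - (𝔇.hlf + 𝔇.P.ry)) ≤ -𝔇.P.rx ∧
        -𝔇.P.rx ≤ 𝔇.P.w (-𝔇.P.N + 𝔇.P.N - 1) (𝔇.hlf - (𝔇.hlf + 𝔇.P.ry)))
    rw [e2, show (0 : ℤ) - 1 = -1 by norm_num, show -𝔇.P.N + 𝔇.P.N - 1 = -1 by ring, hwr, ← hry]
    refine ⟨⟨le_rfl, ?_⟩, ⟨le_rfl, ?_⟩, ⟨?_, le_rfl⟩, ⟨?_, le_rfl⟩⟩
    · rw [hwr] at hlt; exact hlt.le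
    · have := 𝔇.r_le_r (by omega : 0 ≤ 𝔇.P.N - 1) (-𝔇.P.rx)
      rwa [← hry] at this
    · rw [← hry] at hlt2; exact hlt2.le
    · have := 𝔇.w_le_w (by omega : -𝔇.P.N ≤ -1) (-𝔇.P.ry)
      rwa [hwr] at this
  have hBd : 𝔇.Bd v.1 v.2.1 v.2.2 := by
    refine 𝔇.T_low hmem.1 ?_
    change -𝔇.Z2 ≤ 𝔇.Ψ 𝔇.P.rx (𝔇.hlf + 𝔇.P.ry)
    rw [hz]; exact (𝔇.h0_lt _ _).le
  have hKZ := 𝔇.comp.KZ2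
  have hN4 := 𝔇.hN4
  refine ⟨v, ?_, ?_, ?_, ?_⟩
  · refine Subset.antisymm ?_ (singleton_subset_iff.2 hmem)
    rintro ⟨x, y, z⟩ hX
    have h := (hb x y z).1
    rw [ea, eb, show -𝔇.P.N + 𝔇.P.N - 1 = -1 by ring] at h
    obtain ⟨h1, ⟨h2, h3⟩, ⟨h4, h5⟩, ⟨h6, h7⟩, ⟨h8, h9⟩⟩ := h hX
    obtain ⟨g1, g2⟩ := fix_r 𝔇.P (le_antisymm h9 h2) (le_antisymm h7 h4)
    have gx : x = 𝔇.P.rx := by linarith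
    have gy : y = 𝔇.hlf + 𝔇.P.ry := by linarith
    rw [mem_singleton_iff, hv, h1, gx, gy, hz]
  · refine 𝔇.mem_bn hBd ?_
    change 𝔇.hlf + 𝔇.P.ry - 𝔇.Λ.al * 𝔇.P.rx = 𝔇.Λ.N / 4 - 𝔇.Λ.K * -𝔇.Z2
    linarith
  · have : v ∈ 𝔇.TS ∩ 𝔇.wT Wl.a1 := by
      rw [wall_contact]
      have hpd := pd_r 𝔇.comp
      have hl := 𝔇.l_def
      have hrxd : 𝔇.P.rx = 1 / 2 + 𝔇.P.f.u2 := rfl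
      have e : 𝔇.hlf + 𝔇.P.ry - 𝔇.Λ.al * 𝔇.P.rx - 𝔇.Λ.be =
          𝔇.Λ.K * 𝔇.Z2 + 𝔇.Λ.l := by linarith
      have hpos : 0 ≤ 𝔇.Λ.K * 𝔇.Z2 + 𝔇.Λ.l := by
        by_contra! hcon
        have h1 := 𝔇.Λ.pd_pos
        have h2 := 𝔇.P.f.u2_pos
        nlinarith
      change (𝔇.P.rx = 1 / 2 + 𝔇.Λ.pd * (𝔇.hlf + 𝔇.P.ry - 𝔇.Λ.al * 𝔇.P.rx - 𝔇.Λ.be)) ∧
        (|𝔇.hlf + 𝔇.P.ry - 𝔇.Λ.al * 𝔇.P.rx - 𝔇.Λ.be| ≤ 𝔇.Λ.l - 𝔇.Λ.K * -𝔇.Z2) ∧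
        -𝔇.Ψ 𝔇.P.rx (𝔇.hlf + 𝔇.P.ry - 𝔇.Λ.N / 2) ≤ -𝔇.Z2
      rw [e]
      refine ⟨by linarith, ?_, ?_⟩
      · rw [abs_of_nonneg hpos]; linarith
      · rw [𝔇.LN, show 𝔇.hlf + 𝔇.P.ry - 𝔇.hlf = 𝔇.P.ry by ring, 𝔇.psi.at_r]
    exact this.2
  · refine 𝔇.mem_c1 hz ?_
    change 𝔇.P.Cell 0 1 (-𝔇.P.rx) (𝔇.hlf - (𝔇.hlf + 𝔇.P.ry))
    rw [e2]
    unfold Plan.Cell
    rw [show (0 : ℤ) - 1 = -1 by norm_num, show (1 : ℤ) - 1 = 0 by norm_num, hwr, ← hry]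
    refine ⟨le_rfl, ?_, le_rfl, ?_⟩
    · rw [hwr] at hlt; exact hlt.le
    · have := 𝔇.r_le_r (by norm_num : (0 : ℤ) ≤ 1) (-𝔇.P.rx)
      rwa [← hry] at this

lemma rh_cT {n : ℤ} (h1 : 1 ≤ n) (h2 : n ≤ 𝔇.P.N - 1) : rh ⁻¹' 𝔇.cT n = 𝔇.cT (𝔇.P.N - n) := by
  unfold cT
  rw [rh_tA]
  obtain ⟨r1, r2⟩ := 𝔇.cc_range h1 h2
  have hL : 𝔇.P.Lat ((-𝔇.P.N - 𝔇.cc n : ℤ) : ℝ) ((𝔇.P.N - n : ℤ) : ℝ) := by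
    rw [Lat_iff_int]
    obtain ⟨m, hm⟩ := 𝔇.Lat_iff_int.1 (𝔇.Lat_cc n)
    refine ⟨1 + 𝔇.P.s - m, ?_⟩
    linear_combination (-1 : ℤ) * hm
  have hc : -𝔇.P.N - 𝔇.cc n = 𝔇.cc (𝔇.P.N - n) := 𝔇.cc_unique hL (by omega) (by omega)
  rw [← hc]
  have := 𝔇.two_hlf
  congr 1
  · push_cast; linarith
  · push_cast; linarith

lemma det_nonzero_of {t : ℝ} (h : |t| ≤ 1 / 100) : 1 + t ≠ 0 ∧ -1 + t ≠ 0 := by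
  have := abs_le.1 h
  constructor
  · intro h; linarith
  · intro h; linarith

/-- every corner is a vertex with three independent faces -/
theorem corner_vertex {S : Set (ℝ × ℝ × ℝ)} (h : 𝔇.Corner S) :
    ∃ v j1 j2 j3, 𝔇.IsVert S v j1 j2 j3 := by
  have hN := 𝔇.N_pos
  have hK := 𝔇.Λ.K_pos
  have hKk := 𝔇.comp.Kk
  have hb := abs_le.1 (𝔇.al_mul 𝔇.abs_pb)
  have hd := abs_le.1 (𝔇.al_mul 𝔇.abs_pd)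
  have hb2 : |1 + 𝔇.Λ.al * 𝔇.Λ.pb| ≤ 2 := by rw [abs_le]; constructor <;> linarith
  have hd2 : |1 + 𝔇.Λ.al * 𝔇.Λ.pd| ≤ 2 := by rw [abs_le]; constructor <;> linarith
  have hpb1 : |𝔇.Λ.pb| ≤ 1 := 𝔇.abs_pb.trans (by norm_num)
  have hpd1 : |𝔇.Λ.pd| ≤ 1 := 𝔇.abs_pd.trans (by norm_num)
  have s1 := 𝔇.slope_cell le_rfl 𝔇.one_le
  have s2 := 𝔇.slope_cell (n := 𝔇.P.N - 1) 𝔇.one_le le_rfl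
  have o1 : 𝔇.ok (SIdx.cell 1) := ⟨le_rfl, 𝔇.one_le⟩
  have o2 : 𝔇.ok (SIdx.cell (𝔇.P.N - 1)) := ⟨𝔇.one_le, le_rfl⟩
  have dA : ∀ g h : ℝ, |g| ≤ 𝔇.κ → |h| ≤ 𝔇.κ →
      det3 (𝔇.sv (SIdx.wall false Wl.bn)) (𝔇.sv (SIdx.wall true Wl.a2)) (-g, -h, 1) ≠ 0 := by
    intro g h hg hh
    have e : det3 (𝔇.sv (SIdx.wall false Wl.bn)) (𝔇.sv (SIdx.wall true Wl.a2)) (-g, -h, 1) =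
        1 + 𝔇.Λ.K * ((1 + 𝔇.Λ.al * 𝔇.Λ.pb) * h + 𝔇.Λ.pb * g) := by
      simp only [det3, sv, wv]; ring
    rw [e]
    exact (det_nonzero_of (corner_det hK hb2 hpb1 hKk hg hh)).1
  have dA' : ∀ g h : ℝ, |g| ≤ 𝔇.κ → |h| ≤ 𝔇.κ →
      det3 (𝔇.sv (SIdx.wall true Wl.bn)) (𝔇.sv (SIdx.wall false Wl.a2)) (-g, -h, 1) ≠ 0 := by
    intro g h hg hh
    have e : det3 (𝔇.sv (SIdx.wall true Wl.bn)) (𝔇.sv (SIdx.wall false Wl.a2)) (-g, -h, 1) =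
        1 + 𝔇.Λ.K * ((1 + 𝔇.Λ.al * 𝔇.Λ.pb) * (-h) + 𝔇.Λ.pb * (-g)) := by
      simp only [det3, sv, wv]; ring
    rw [e]
    exact (det_nonzero_of (corner_det hK hb2 hpb1 hKk (by rwa [abs_neg]) (by rwa [abs_neg]))).1
  have dB : ∀ g h : ℝ, |g| ≤ 𝔇.κ → |h| ≤ 𝔇.κ →
      det3 (𝔇.sv (SIdx.wall false Wl.bn)) (𝔇.sv (SIdx.wall false Wl.a1)) (-g, -h, 1) ≠ 0 := by
    intro g h hg hh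
    have e : det3 (𝔇.sv (SIdx.wall false Wl.bn)) (𝔇.sv (SIdx.wall false Wl.a1)) (-g, -h, 1) =
        -1 + 𝔇.Λ.K * ((1 + 𝔇.Λ.al * 𝔇.Λ.pd) * (-h) + 𝔇.Λ.pd * (-g)) := by
      simp only [det3, sv, wv]; ring
    rw [e]
    exact (det_nonzero_of (corner_det hK hd2 hpd1 hKk (by rwa [abs_neg]) (by rwa [abs_neg]))).2
  have dB' : ∀ g h : ℝ, |g| ≤ 𝔇.κ → |h| ≤ 𝔇.κ →
      det3 (𝔇.sv (SIdx.wall true Wl.bn)) (𝔇.sv (SIdx.wall true Wl.a1)) (-g, -h, 1) ≠ 0 := by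
    intro g h hg hh
    have e : det3 (𝔇.sv (SIdx.wall true Wl.bn)) (𝔇.sv (SIdx.wall true Wl.a1)) (-g, -h, 1) =
        -1 + 𝔇.Λ.K * ((1 + 𝔇.Λ.al * 𝔇.Λ.pd) * h + 𝔇.Λ.pd * g) := by
      simp only [det3, sv, wv]; ring
    rw [e]
    exact (det_nonzero_of (corner_det hK hd2 hpd1 hKk hg hh)).2
  -- transfer by the half turn
  have tr : ∀ {S : Set (ℝ × ℝ × ℝ)} {v : ℝ × ℝ × ℝ}, 𝔇.TS ∩ S = {v} →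
      𝔇.TS ∩ rh ⁻¹' S = {rh v} := by
    intro S v hS
    rw [← 𝔇.rh_TS, ← preimage_inter, hS]
    ext X
    rw [mem_preimage, mem_singleton_iff, mem_singleton_iff]
    constructor
    · intro h
      rw [← h]
      exact (rh.left_inv X).symm
    · intro h
      rw [h]
      exact rh.left_inv v
  have rr : ∀ X, rh (rh X) = X := fun X => rh.left_inv X
  have hc1 : ∀ {v}, v ∈ 𝔇.cT 1 → rh v ∈ 𝔇.cT (𝔇.P.N - 1) := by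
    intro v hv
    rw [← 𝔇.rh_cT le_rfl 𝔇.one_le, mem_preimage, rr]
    exact hv
  rcases h with rfl | rfl | rfl | rfl
  · obtain ⟨v, h1, h2, h3, h4⟩ := 𝔇.vert_p
    exact ⟨v, SIdx.wall false Wl.bn, SIdx.wall true Wl.a2, SIdx.cell 1,
      h1, trivial, trivial, o1, h2, h3, h4, dA _ _ s1.1 s1.2⟩
  · obtain ⟨v, h1, h2, h3, h4⟩ := 𝔇.vert_r
    exact ⟨v, SIdx.wall false Wl.bn, SIdx.wall false Wl.a1, SIdx.cell 1,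
      h1, trivial, trivial, o1, h2, h3, h4, dB _ _ s1.1 s1.2⟩
  · obtain ⟨v, h1, h2, h3, h4⟩ := 𝔇.vert_r
    have h1' := tr h1
    rw [rh_tA] at h1'
    refine ⟨rh v, SIdx.wall true Wl.bn, SIdx.wall true Wl.a1, SIdx.cell (𝔇.P.N - 1),
      h1', trivial, trivial, o2, ?_, ?_, hc1 h4, dB' _ _ s2.1 s2.2⟩
    · change rh (rh v) ∈ 𝔇.wT Wl.bn
      rw [rr]; exact h2
    · change rh (rh v) ∈ 𝔇.wT Wl.a1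
      rw [rr]; exact h3
  · obtain ⟨v, h1, h2, h3, h4⟩ := 𝔇.vert_p
    have h1' := tr h1
    rw [rh_tA, neg_neg] at h1'
    refine ⟨rh v, SIdx.wall true Wl.bn, SIdx.wall false Wl.a2, SIdx.cell (𝔇.P.N - 1),
      h1', trivial, trivial, o2, ?_, h3, hc1 h4, dA' _ _ s2.1 s2.2⟩
    change rh (rh v) ∈ 𝔇.wT Wl.bn
    rw [rr]; exact h2

end Data

end Pool.Agent.DAF
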