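import Pool.Agent.DAF.Saw

open Set

namespace Pool.Agent.DAF

/-- The plan pattern: column walls `x = w c y` and row lines `y = r i x`. -/
structure Plan where
  s : ℤ
  f : Saw
  g : Saw
  s_odd : Odd s
  s_ge : 1000 ≤ s
  fN : f.N = (s : ℝ) ^ 2 - 1
  gN : g.N = (s : ℝ) ^ 2 - 1
  fa1 : f.a1 = ((s : ℝ) - 1) / 2 - g.u1
  fa2 : f.a2 = ((s : ℝ) + 1) / 2 + g.u2
  ga1 : g.a1 = ((s : ℝ) - 1) / 2 - f.u1
  ga2 : g.a2 = ((s : ℝ) + 1) / 2 + f.u2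
  fm : f.m ≤ 1 / 100
  gm : g.m ≤ 1 / 100

namespace Plan

variable (P : Plan)

/-- exchange the roles of `x` and `y` -/
def dual : Plan where
  s := P.s
  f := P.g
  g := P.f
  s_odd := P.s_odd
  s_ge := P.s_ge
  fN := P.gN
  gN := P.fN
  fa1 := P.ga1
  fa2 := P.ga2
  ga1 := P.fa1
  ga2 := P.fa2
  fm := P.gm
  gm := P.fm

/-- the period -/
def N : ℤ := P.s ^ 2 - 1

/-- the wall between column `c` and column `c+1` -/
noncomputable def w (c : ℤ) (y : ℝ) : ℝ := c + 1 / 2 + P.f.f (y - P.s * c - P.s / 2)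

/-- the line between row `i` and row `i+1` -/
noncomputable def r (i : ℤ) (x : ℝ) : ℝ := i + 1 / 2 + P.g.f (x - P.s * i - P.s / 2)

/-- the lattice -/
def Lat (a b : ℝ) : Prop := ∃ i m : ℤ, a = i ∧ b = P.s * i + m * P.N

/-- corner `p` (north-east) and corner `r` (south-east) of the hole around the origin; the other
two corners are `-p` (south-west) and `-r` (north-west). -/
noncomputable def px : ℝ := 1 / 2 + P.f.u1
noncomputable def py : ℝ := 1 / 2 + P.g.u1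
noncomputable def rx : ℝ := 1 / 2 + P.f.u2
noncomputable def ry : ℝ := -(1 / 2) - P.g.u2

/-- cell of column `c` and row `i` -/
def Cell (c i : ℤ) (x y : ℝ) : Prop :=
  P.w (c - 1) y ≤ x ∧ x ≤ P.w c y ∧ P.r (i - 1) x ≤ y ∧ y ≤ P.r i x

end Plan

/-- The interface height function `Ψ`: periodic, even, Lipschitz with a small constant, affine on
the sides of the hole and on all cells which are not holes. -/
structure PsiData (P : Plan) (Ψ : ℝ → ℝ → ℝ) (Z1 Z2 κ : ℝ) (gx gy q : ℤ → ℝ) : Prop where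
  per : ∀ a b : ℝ, P.Lat a b → ∀ x y, Ψ (x + a) (y + b) = Ψ x y
  even : ∀ x y, Ψ (-x) (-y) = Ψ x y
  lip : ∀ x y x' y', |Ψ x y - Ψ x' y'| ≤ κ * (|x - x'| + |y - y'|)
  sideE : ∀ t ∈ Icc (0 : ℝ) 1,
    Ψ (P.rx + t * (P.px - P.rx)) (P.ry + t * (P.py - P.ry)) = Z2 + t * (Z1 - Z2)
  sideN : ∀ t ∈ Icc (0 : ℝ) 1,
    Ψ (-P.rx + t * (P.px + P.rx)) (-P.ry + t * (P.py + P.ry)) = Z2 + t * (Z1 - Z2)
  cell : ∀ n : ℤ, 1 ≤ n → n ≤ P.N - 1 → ∀ x y, P.Cell 0 n x y → Ψ x y = gx n * x + gy n * y + q n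
  slope : ∀ n : ℤ, 1 ≤ n → n ≤ P.N - 1 → |gx n| ≤ κ ∧ |gy n| ≤ κ
  inj : ∀ n n' : ℤ, 1 ≤ n → n ≤ P.N - 1 → 1 ≤ n' → n' ≤ P.N - 1 → n ≠ n' →
    ¬ (gx n = gx n' ∧ gy n = gy n')

/-- Data of the wave: gradient jumps `A_b = (ab, yb)`, `A_d = (ad, yd)` across the walls and
`B_b = (xb, bb)`, `B_d = (xd, bd)` across the row lines. -/
structure Wave (P : Plan) (Z1 Z2 κ : ℝ) where
  xb : ℝ
  xd : ℝ
  yb : ℝ
  yd : ℝ
  ab : ℝ
  ad : ℝ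
  bb : ℝ
  bd : ℝ
  hab : ab = (P.s - 1) * xb + P.s * (P.s - 2) * xd
  had : ad = -xb - (P.s - 1) * xd
  hbb : bb = (P.s - 1) * yb + P.s * (P.s - 2) * yd
  hbd : bd = -yb - (P.s - 1) * yd
  nBb : xb + bb * P.g.pb = 0
  nBd : xd + bd * P.g.pd = 0
  nAb : ab * P.f.pb + yb = 0
  nAd : ad * P.f.pd + yd = 0
  height : -(((P.s - 1) * xb + (P.s ^ 2 - P.s - 2) * xd) / 2) * (P.px + P.rx) +
    -(((P.s - 1) * bb + (P.s ^ 2 - P.s - 2) * bd) / 2) * (P.py + P.ry) = Z1 - Z2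
  sgn : 0 < xb * xd
  kx : (P.s - 1) * |xb| + P.s ^ 2 * |xd| ≤ κ
  ky : (P.s - 1) * |bb| + P.s ^ 2 * |bd| ≤ κ
  kZ : 2 * |Z1 - Z2| ≤ κ

end Pool.Agent.DAF
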