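import Pool.Agent.DAF.LayerBody
import Pool.Agent.DAF.Plan
import Pool.Agent.DAF.ContactData

open Set Topology

namespace Pool.Agent.DAF

/-- A set `D` in the set `H` (a plane or the whole space) is the closure of a relatively open
connected subset. -/
def Reg {E : Type*} [TopologicalSpace E] (D H : Set E) : Prop :=
  ∃ O : Set E, IsOpen O ∧ O ∩ H ⊆ D ∧ D ⊆ closure (O ∩ H) ∧ IsConnected (O ∩ H)

/-- Smallness conditions on a layer. -/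
structure LaySmall (Λ : Lay) (κ : ℝ) : Prop where
  N : 1000 ≤ Λ.N
  al : |Λ.al| ≤ 1
  pb : -Λ.pb ≤ 1 / 50
  kpos : 0 ≤ κ
  small : 100 * κ * Λ.N * Λ.K ≤ Λ.K * Λ.Zlo - Λ.l

/-- Compatibility of a layer with the plan and the interface heights `Z1` at the corner `p` and
`Z2` at the corner `r` of the hole. -/
structure Compat (P : Plan) (Λ : Lay) (Z1 Z2 κ : ℝ) : Prop extends LaySmall Λ κ where
  hN : Λ.N = P.N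
  hbe : 2 * Λ.be = P.s - Λ.al
  hpb : Λ.pb * (1 - Λ.al * P.f.pb) = P.f.pb
  hpd : Λ.pd * (1 - Λ.al * P.f.pd) = P.f.pd
  KZ1 : Λ.K * Z1 = Λ.N / 4 - P.py + Λ.al * P.px
  KZ2 : Λ.K * Z2 = Λ.N / 4 + P.ry - Λ.al * P.rx
  lo : Λ.Zlo + κ * Λ.N ≤ Z2
  hi : Z2 + κ * Λ.N ≤ Λ.Zhi

/-- Numerical side conditions on a layer. -/
structure LayNum (Λ : Lay) : Prop where
  pdN : Λ.pd * Λ.N ≤ 2
  pbN : 6 ≤ -Λ.pb * Λ.N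

/-- Numerical side conditions: the layer `Λ` is thick, `Λ'` is thin. -/
structure Num (Λ Λ' : Lay) : Prop where
  thick : LayNum Λ
  thin : LayNum Λ'
  z1 : 1 / 2 ≤ Λ.Zlo
  z2 : Λ.Zhi ≤ 2
  z3 : Λ'.Zhi * Λ'.N ≤ 4
  sep : 4 * Λ.K < Λ'.sig

/-- All data of the tile. -/
structure Data where
  P : Plan
  Λ : Lay
  Λ' : Lay
  Z1 : ℝ
  Z2 : ℝ
  κ : ℝ
  H : ℝ
  Ψ : ℝ → ℝ → ℝ
  gx : ℤ → ℝ
  gy : ℤ → ℝ
  q : ℤ → ℝ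
  gx' : ℤ → ℝ
  gy' : ℤ → ℝ
  q' : ℤ → ℝ
  comp : Compat P Λ Z1 Z2 κ
  comp' : Compat P.dual Λ' (H - Z1) (H - Z2) κ
  psi : PsiData P Ψ Z1 Z2 κ gx gy q
  psi' : PsiData P.dual (fun x y => H - Ψ y x) (H - Z1) (H - Z2) κ gx' gy' q'

namespace Data

variable (𝔇 : Data)

/-- the height function of the dual -/
def Ψ' (x y : ℝ) : ℝ := 𝔇.H - 𝔇.Ψ y x

/-- the dual data -/
def dual : Data where
  P := 𝔇.P.dual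
  Λ := 𝔇.Λ'
  Λ' := 𝔇.Λ
  Z1 := 𝔇.H - 𝔇.Z1
  Z2 := 𝔇.H - 𝔇.Z2
  κ := 𝔇.κ
  H := 𝔇.H
  Ψ := 𝔇.Ψ'
  gx := 𝔇.gx'
  gy := 𝔇.gy'
  q := 𝔇.q'
  gx' := 𝔇.gx
  gy' := 𝔇.gy
  q' := 𝔇.q
  comp := 𝔇.comp'
  comp' := by
    rw [sub_sub_cancel, sub_sub_cancel]
    exact 𝔇.comp
  psi := 𝔇.psi'
  psi' := by
    have e : (fun x y => 𝔇.H - 𝔇.Ψ' y x) = 𝔇.Ψ := by
      funext x y; unfold Ψ'; ring
    rw [e, sub_sub_cancel, sub_sub_cancel]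
    exact 𝔇.psi

/-- the tile -/
def T (x y z : ℝ) : Prop := 𝔇.Λ.LB 𝔇.Ψ x y z ∨ 𝔇.Λ'.LB 𝔇.Ψ' y x (𝔇.H - z)

end Data

end Pool.Agent.DAF
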