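import Mathlib

open Set MeasureTheory

namespace Pool.Agent.DAF

section Generic

variable {E : Type*} [NormedAddCommGroup E] [NormedSpace ℝ E]

/-- A plane (in general: an affine hyperplane): the level set of a nonzero linear functional. -/
def IsPlane (H : Set E) : Prop :=
  ∃ (L : E →L[ℝ] ℝ) (c : ℝ), L ≠ 0 ∧ H = {x | L x = c}

/-- The interior of `S` relative to `H`: the points of `H` having a neighbourhood `U` with
`U ∩ H ⊆ S`. -/
def relInt (H S : Set E) : Set E :=
  {x | x ∈ H ∧ ∃ U : Set E, IsOpen U ∧ x ∈ U ∧ U ∩ H ⊆ S}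

/-- A face of `P`: a maximal planar piece of the boundary, that is, the closure of a connected
component of the relative interior of `∂P ∩ H` in a plane `H`. -/
def IsFace (P F : Set E) : Prop :=
  ∃ H : Set E, IsPlane H ∧ ∃ x ∈ relInt H (frontier P),
    F = closure (connectedComponentIn (relInt H (frontier P)) x)

/-- A vertex of `P`: a point lying in three faces of `P` whose planes have linearly independent
normals. -/
def IsVertex (P : Set E) (v : E) : Prop :=
  ∃ (L : Fin 3 → (E →L[ℝ] ℝ)) (c : Fin 3 → ℝ), LinearIndependent ℝ L ∧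
    ∀ i, ∃ F, IsFace P F ∧ v ∈ F ∧ F ⊆ {x | L i x = c i}

/-- An edge of `P`: a nondegenerate segment between two vertices of `P`, contained in two
different faces of `P`, with no vertex of `P` strictly between its end points. -/
def IsEdge (P e : Set E) : Prop :=
  ∃ a b : E, a ≠ b ∧ e = segment ℝ a b ∧ IsVertex P a ∧ IsVertex P b ∧
    (∃ F G : Set E, IsFace P F ∧ IsFace P G ∧ F ≠ G ∧ e ⊆ F ∩ G) ∧
    ∀ x ∈ openSegment ℝ a b, ¬ IsVertex P x

/-- A polyhedron: a compact connected solid whose boundary is a finite union of planar faces. -/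
structure IsPolyhedron (P : Set E) : Prop where
  isCompact : IsCompact P
  closure_interior : closure (interior P) = P
  isConnected_interior : IsConnected (interior P)
  finite_faces : {F : Set E | IsFace P F}.Finite
  frontier_eq : frontier P = ⋃₀ {F : Set E | IsFace P F}

/-- An `n`-hedron: a polyhedron with exactly `n` faces. -/
def IsNHedron (n : ℕ) (P : Set E) : Prop :=
  IsPolyhedron P ∧ {F : Set E | IsFace P F}.ncard = n

/-- Face-to-face condition for two solids: they meet in the empty set, a common vertex,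
a common edge or a common whole face. -/
def MeetProperly (S T : Set E) : Prop :=
  S ∩ T = ∅ ∨ (∃ v, S ∩ T = {v} ∧ IsVertex S v ∧ IsVertex T v) ∨
    (IsEdge S (S ∩ T) ∧ IsEdge T (S ∩ T)) ∨ (IsFace S (S ∩ T) ∧ IsFace T (S ∩ T))

end Generic

/-- Euclidean 3-space. -/
abbrev E3 := EuclideanSpace ℝ (Fin 3)

/-- A face-to-face tiling of space by congruent copies of `P` (mirror images allowed). -/
structure IsTiling (P : Set E3) (𝒯 : Set (Set E3)) : Prop where
  congruent : ∀ S ∈ 𝒯, ∃ g : E3 ≃ᵢ E3, S = g '' P
  covers : ⋃₀ 𝒯 = univ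
  disjoint : ∀ S ∈ 𝒯, ∀ T ∈ 𝒯, S ≠ T → Disjoint (interior S) (interior T)
  faceToFace : ∀ S ∈ 𝒯, ∀ T ∈ 𝒯, S ≠ T → MeetProperly S T

/-- An `n`-hedral tile: an `n`-hedron which tiles space face-to-face. -/
def IsTile (n : ℕ) (P : Set E3) : Prop := IsNHedron n P ∧ ∃ 𝒯, IsTiling P 𝒯

/-- Surface area: the two-dimensional Hausdorff measure of the boundary (Mathlib's
normalisation, a constant multiple of the usual one). -/
noncomputable def area (P : Set E3) : ENNReal := Measure.hausdorffMeasure 2 (frontier P)

/-- A least-area `n`-hedral tile: an `n`-hedral tile of unit volume whose surface area is minimal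
among all `n`-hedral tiles of unit volume. -/
def IsLeastArea (n : ℕ) (P : Set E3) : Prop :=
  IsTile n P ∧ volume P = 1 ∧ ∀ Q, IsTile n Q → volume Q = 1 → area P ≤ area Q

end Pool.Agent.DAF
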