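import Pool.Agent.DAF.Corner
import Pool.Agent.DAF.ContactTile

open Set Topology

namespace Pool.Agent.DAF

/-- the functional with a given normal vector -/
noncomputable def nrm (v : ℝ × ℝ × ℝ) : (ℝ × ℝ × ℝ) →L[ℝ] ℝ :=
  v.1 • ContinuousLinearMap.fst ℝ ℝ (ℝ × ℝ) +
    v.2.1 • (ContinuousLinearMap.fst ℝ ℝ ℝ).comp (ContinuousLinearMap.snd ℝ ℝ (ℝ × ℝ)) +
    v.2.2 • (ContinuousLinearMap.snd ℝ ℝ ℝ).comp (ContinuousLinearMap.snd ℝ ℝ (ℝ × ℝ))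

lemma nrm_apply (v X : ℝ × ℝ × ℝ) :
    nrm v X = v.1 * X.1 + v.2.1 * X.2.1 + v.2.2 * X.2.2 := by
  simp [nrm]

lemma nrm_ne {v : ℝ × ℝ × ℝ} (h : v ≠ 0) : nrm v ≠ 0 := by
  intro h0
  apply h
  have e1 := congrArg (fun f : (ℝ × ℝ × ℝ) →L[ℝ] ℝ => f (1, 0, 0)) h0
  have e2 := congrArg (fun f : (ℝ × ℝ × ℝ) →L[ℝ] ℝ => f (0, 1, 0)) h0
  have e3 := congrArg (fun f : (ℝ × ℝ × ℝ) →L[ℝ] ℝ => f (0, 0, 1)) h0
  simp only [nrm_apply, ContinuousLinearMap.zero_apply] at e1 e2 e3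
  refine Prod.ext ?_ (Prod.ext ?_ ?_)
  · change v.1 = 0; linarith
  · change v.2.1 = 0; linarith
  · change v.2.2 = 0; linarith

lemma pl_eq (v : ℝ × ℝ × ℝ) (c : ℝ) : pl v c = {X | nrm v X = c} := by
  ext X
  rw [mem_ofPred_eq, nrm_apply]
  exact Iff.rfl

lemma linInd_of_det {u v w : ℝ × ℝ × ℝ} (h : det3 u v w ≠ 0) :
    LinearIndependent ℝ ![nrm u, nrm v, nrm w] := by
  rw [Fintype.linearIndependent_iff]
  intro g hg
  have e1 := congrArg (fun f : (ℝ × ℝ × ℝ) →L[ℝ] ℝ => f (1, 0, 0)) hg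
  have e2 := congrArg (fun f : (ℝ × ℝ × ℝ) →L[ℝ] ℝ => f (0, 1, 0)) hg
  have e3 := congrArg (fun f : (ℝ × ℝ × ℝ) →L[ℝ] ℝ => f (0, 0, 1)) hg
  simp only [Fin.sum_univ_three, ContinuousLinearMap.add_apply,
    ContinuousLinearMap.smul_apply, Matrix.cons_val_zero, Matrix.cons_val_one,
    Matrix.cons_val_two, Matrix.head_cons, Matrix.tail_cons, nrm_apply,
    ContinuousLinearMap.zero_apply, smul_eq_mul, Matrix.cons_val] at e1 e2 e3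
  have f1 : g 0 * u.1 + g 1 * v.1 + g 2 * w.1 = 0 := by linarith
  have f2 : g 0 * u.2.1 + g 1 * v.2.1 + g 2 * w.2.1 = 0 := by linarith
  have f3 : g 0 * u.2.2 + g 1 * v.2.2 + g 2 * w.2.2 = 0 := by linarith
  have g0 : g 0 * det3 u v w = 0 := by
    unfold det3
    linear_combination (v.2.1 * w.2.2 - v.2.2 * w.2.1) * f1 -
      (v.1 * w.2.2 - v.2.2 * w.1) * f2 + (v.1 * w.2.1 - v.2.1 * w.1) * f3
  have g1 : g 1 * det3 u v w = 0 := by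
    unfold det3
    linear_combination (-(u.2.1 * w.2.2 - u.2.2 * w.2.1)) * f1 +
      (u.1 * w.2.2 - u.2.2 * w.1) * f2 - (u.1 * w.2.1 - u.2.1 * w.1) * f3
  have g2 : g 2 * det3 u v w = 0 := by
    unfold det3
    linear_combination (u.2.1 * v.2.2 - u.2.2 * v.2.1) * f1 -
      (u.1 * v.2.2 - u.2.2 * v.1) * f2 + (u.1 * v.2.1 - u.2.1 * v.1) * f3
  intro i
  fin_cases i
  · exact (mul_eq_zero.1 g0).resolve_right h
  · exact (mul_eq_zero.1 g1).resolve_right h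
  · exact (mul_eq_zero.1 g2).resolve_right h

/-- equal planes have proportional equations -/
lemma pl_prop {v v' : ℝ × ℝ × ℝ} {c c' : ℝ} (hv : v ≠ 0) (hv' : v' ≠ 0)
    (h : pl v c = pl v' c') :
    ∃ t : ℝ, t ≠ 0 ∧ v'.1 = t * v.1 ∧ v'.2.1 = t * v.2.1 ∧ v'.2.2 = t * v.2.2 ∧ c' = t * c := by
  obtain ⟨a, b, d⟩ := v
  obtain ⟨a', b', d'⟩ := v'
  have hn : 0 < a ^ 2 + b ^ 2 + d ^ 2 := by
    rcases eq_or_ne a 0 with ha | ha
    · rcases eq_or_ne b 0 with hb | hb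
      · rcases eq_or_ne d 0 with hd | hd
        · exact absurd (by rw [ha, hb, hd]; rfl) hv
        · positivity
      · positivity
    · positivity
  set n := a ^ 2 + b ^ 2 + d ^ 2 with hn'
  have key : ∀ x y z : ℝ, a * x + b * y + d * z = c → a' * x + b' * y + d' * z = c' := by
    intro x y z hx
    have : ((x, y, z) : ℝ × ℝ × ℝ) ∈ pl (a, b, d) c := hx
    rw [h] at this
    exact this
  have h0 := key (c / n * a) (c / n * b) (c / n * d) (by field_simp; ring)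
  have h1 := key (c / n * a + b) (c / n * b - a) (c / n * d) (by field_simp; ring)
  have h2 := key (c / n * a + d) (c / n * b) (c / n * d - a) (by field_simp; ring)
  have h3 := key (c / n * a) (c / n * b + d) (c / n * d - b) (by field_simp; ring)
  have k1 : a' * b = b' * a := by linarith
  have k2 : a' * d = d' * a := by linarith
  have k3 : b' * d = d' * b := by linarith
  set t := (a * a' + b * b' + d * d') / n with ht
  have tn : t * n = a * a' + b * b' + d * d' := by rw [ht]; field_simp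
  have e1 : a' = t * a := by
    have : (a' - t * a) * n = 0 := by
      have : t * a * n = a * (t * n) := by ring
      rw [sub_mul, this, tn, hn']
      linear_combination b * k1 + d * k2
    rcases mul_eq_zero.1 this with h | h
    · linarith
    · exact absurd h hn.ne'
  have e2 : b' = t * b := by
    have : (b' - t * b) * n = 0 := by
      have : t * b * n = b * (t * n) := by ring
      rw [sub_mul, this, tn, hn']
      linear_combination (-a) * k1 + d * k3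
    rcases mul_eq_zero.1 this with h | h
    · linarith
    · exact absurd h hn.ne'
  have e3 : d' = t * d := by
    have : (d' - t * d) * n = 0 := by
      have : t * d * n = d * (t * n) := by ring
      rw [sub_mul, this, tn, hn']
      linear_combination (-a) * k2 - b * k3
    rcases mul_eq_zero.1 this with h | h
    · linarith
    · exact absurd h hn.ne'
  refine ⟨t, ?_, e1, e2, e3, ?_⟩
  · intro h0
    apply hv'
    rw [e1, e2, e3, h0]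
    simp
  · rw [← h0, e1, e2, e3]
    field_simp
    ring

namespace Data

variable (𝔇 : Data)

lemma A0_pos : 0 < 1 + 𝔇.Λ.al * 𝔇.Λ.pd := by
  have := abs_le.1 (𝔇.al_mul 𝔇.abs_pd); linarith
lemma A1_pos : 0 < 1 + 𝔇.Λ.al * 𝔇.Λ.pb := by
  have := abs_le.1 (𝔇.al_mul 𝔇.abs_pb); linarith
lemma A2_pos : 49 / 50 ≤ 1 + 𝔇.Λ.al * 𝔇.Λ.rho := by
  have := abs_le.1 (𝔇.al_mul 𝔇.abs_rho); linarith

lemma sig_le_K : 𝔇.Λ.sig ≤ 𝔇.Λ.K := by
  have h1 := 𝔇.Λ.pd_lt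
  have h2 := 𝔇.pb_le
  have h4 := 𝔇.Λ.K_pos
  unfold Lay.sig
  nlinarith

/-- signature of the walls -/
def Sig1 (v : ℝ × ℝ × ℝ) : Prop :=
  (v.2.2 = 0 ∧ |v.2.1| < |v.1|) ∨
    (v.2.2 ≠ 0 ∧ 𝔇.Λ.sig / 2 * (|v.1| + |v.2.1|) ≤ |v.2.2| ∧
      |v.2.2| ≤ 𝔇.Λ.K * (|v.1| + |v.2.1|))

lemma sig_wv (w : Wl) : 𝔇.Sig1 (𝔇.wv w) := by
  have hd := abs_le.1 (𝔇.al_mul 𝔇.abs_pd)
  have hb := abs_le.1 (𝔇.al_mul 𝔇.abs_pb)
  have hr := abs_le.1 (𝔇.al_mul 𝔇.abs_rho)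
  have h1 := 𝔇.abs_pd
  have h2 := 𝔇.abs_pb
  have h3 := 𝔇.abs_rho
  have hs := 𝔇.Λ.sig_pos
  have hK := 𝔇.Λ.K_pos
  have hsK := 𝔇.sig_le_K
  cases w with
  | a1 =>
    left
    refine ⟨rfl, ?_⟩
    change |-𝔇.Λ.pd| < |1 + 𝔇.Λ.al * 𝔇.Λ.pd|
    rw [abs_neg, abs_of_pos 𝔇.A0_pos]; linarith
  | a2 =>
    left
    refine ⟨rfl, ?_⟩
    change |-𝔇.Λ.pb| < |1 + 𝔇.Λ.al * 𝔇.Λ.pb|
    rw [abs_neg, abs_of_pos 𝔇.A1_pos]; linarith
  | be =>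
    right
    change -𝔇.Λ.sig ≠ 0 ∧
      𝔇.Λ.sig / 2 * (|1 + 𝔇.Λ.al * 𝔇.Λ.rho| + |-𝔇.Λ.rho|) ≤ |-𝔇.Λ.sig| ∧
      |-𝔇.Λ.sig| ≤ 𝔇.Λ.K * (|1 + 𝔇.Λ.al * 𝔇.Λ.rho| + |-𝔇.Λ.rho|)
    rw [abs_neg, abs_neg, abs_of_pos hs, abs_of_pos (by linarith [𝔇.A2_pos] :
      0 < 1 + 𝔇.Λ.al * 𝔇.Λ.rho)]
    have hr0 := abs_nonneg 𝔇.Λ.rho
    refine ⟨by intro h; linarith, ?_, ?_⟩
    · nlinarith
    · -- sig ≤ K/25
      have h5 : 𝔇.Λ.sig ≤ 𝔇.Λ.K / 25 := by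
        have h1 := 𝔇.Λ.pd_lt
        have h2 := 𝔇.pb_le
        unfold Lay.sig
        nlinarith
      nlinarith
  | bn =>
    right
    change 𝔇.Λ.K ≠ 0 ∧ 𝔇.Λ.sig / 2 * (|-𝔇.Λ.al| + |(1 : ℝ)|) ≤ |𝔇.Λ.K| ∧
      |𝔇.Λ.K| ≤ 𝔇.Λ.K * (|-𝔇.Λ.al| + |(1 : ℝ)|)
    rw [abs_neg, abs_one, abs_of_pos hK]
    have ha := 𝔇.al_le
    have ha0 := abs_nonneg 𝔇.Λ.al
    refine ⟨hK.ne', ?_, ?_⟩
    · nlinarith
    · nlinarith

lemma sig_wall (ρ : Bool) (w : Wl) : 𝔇.Sig1 (𝔇.sv (SIdx.wall ρ w)) := by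
  have h := 𝔇.sig_wv w
  cases ρ with
  | false => exact h
  | true =>
    unfold Sig1 at h ⊢
    change ((𝔇.wv w).2.2 = 0 ∧ |-(𝔇.wv w).2.1| < |-(𝔇.wv w).1|) ∨
      ((𝔇.wv w).2.2 ≠ 0 ∧ 𝔇.Λ.sig / 2 * (|-(𝔇.wv w).1| + |-(𝔇.wv w).2.1|) ≤ |(𝔇.wv w).2.2| ∧
      |(𝔇.wv w).2.2| ≤ 𝔇.Λ.K * (|-(𝔇.wv w).1| + |-(𝔇.wv w).2.1|))
    rwa [abs_neg, abs_neg]

/-- signature of the cells -/
lemma sig_cell {n : ℤ} (h1 : 1 ≤ n) (h2 : n ≤ 𝔇.P.N - 1) :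
    |(𝔇.sv (SIdx.cell n)).1| + |(𝔇.sv (SIdx.cell n)).2.1| ≤ 2 * 𝔇.κ := by
  obtain ⟨a, b⟩ := 𝔇.slope_cell h1 h2
  change |-𝔇.gx n| + |-𝔇.gy n| ≤ 2 * 𝔇.κ
  rw [abs_neg, abs_neg]; linarith

/-- the sign of the half turn -/
def sg : Bool → ℝ
  | false => 1
  | true => -1

lemma sg_sq (ρ : Bool) : sg ρ * sg ρ = 1 := by cases ρ <;> simp [sg]
lemma sg_ne {ρ ρ' : Bool} (h : ρ ≠ ρ') : sg ρ * sg ρ' = -1 := by
  cases ρ <;> cases ρ' <;> simp [sg] at h ⊢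

lemma sv_wall (ρ : Bool) (w : Wl) : (𝔇.sv (SIdx.wall ρ w)).1 = sg ρ * (𝔇.wv w).1 ∧
    (𝔇.sv (SIdx.wall ρ w)).2.1 = sg ρ * (𝔇.wv w).2.1 ∧
    (𝔇.sv (SIdx.wall ρ w)).2.2 = (𝔇.wv w).2.2 := by
  cases ρ <;> simp [sg, sv]

omit 𝔇 in
lemma sign_contra {A A' B B' τ : ℝ} (hA : 0 < A) (hA' : 0 < A') (e1 : A' = τ * A)
    (e2 : B' = τ * B) (h : B * B' < 0) : False := by
  have h1 : 0 < τ := by
    by_contra! hcon
    have := mul_nonneg (neg_nonneg.2 hcon) hA.le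
    linarith
  have h2 : B * B' = τ * (B * B) := by rw [e2]; ring
  have h3 := mul_nonneg h1.le (mul_self_nonneg B)
  linarith

/-- different walls in one layer lie in different planes -/
lemma wall_distinct (hn : LayNum 𝔇.Λ) {ρ ρ' : Bool} {w w' : Wl} {t : ℝ} (ht : t ≠ 0)
    (h1 : (𝔇.sv (SIdx.wall ρ' w')).1 = t * (𝔇.sv (SIdx.wall ρ w)).1)
    (h2 : (𝔇.sv (SIdx.wall ρ' w')).2.1 = t * (𝔇.sv (SIdx.wall ρ w)).2.1)
    (h3 : (𝔇.sv (SIdx.wall ρ' w')).2.2 = t * (𝔇.sv (SIdx.wall ρ w)).2.2)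
    (h4 : 𝔇.wc w' = t * 𝔇.wc w) : ρ = ρ' ∧ w = w' := by
  obtain ⟨a1, a2, a3⟩ := 𝔇.sv_wall ρ w
  obtain ⟨b1, b2, b3⟩ := 𝔇.sv_wall ρ' w'
  rw [a1, b1] at h1
  rw [a2, b2] at h2
  rw [a3, b3] at h3
  have q1 := sg_sq ρ
  have q2 := sg_sq ρ'
  have hA0 := 𝔇.A0_pos
  have hA1 := 𝔇.A1_pos
  have hA2 := 𝔇.A2_pos
  have hpd := 𝔇.Λ.pd_pos
  have hpb := 𝔇.Λ.pb_neg
  have hsig := 𝔇.Λ.sig_pos
  have hK := 𝔇.Λ.K_pos
  have hrho := 𝔇.Λ.rho_neg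
  have hrho2 := 𝔇.abs_rho
  have hal := 𝔇.al_le
  have hN := 𝔇.Λ.N_pos
  have hbe := 𝔇.Λ.be_lt
  have hbe0 := 𝔇.Λ.be_pos
  have c0 : 𝔇.wc Wl.a1 ≠ 0 := by
    have h := hn.pdN
    change 1 / 2 - 𝔇.Λ.pd * 𝔇.Λ.be ≠ 0
    have : 𝔇.Λ.pd * 𝔇.Λ.be < 1 / 2 := by nlinarith
    intro h; linarith
  have c1 : 𝔇.wc Wl.a2 ≠ 0 := by
    have h := hn.pbN
    change 1 / 2 + 𝔇.Λ.pb * (𝔇.Λ.N / 2 - 𝔇.Λ.be) ≠ 0
    have : 𝔇.Λ.pb * (𝔇.Λ.N / 2 - 𝔇.Λ.be) < -1 := by nlinarith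
    intro h; linarith
  set τ := sg ρ' * t * sg ρ with hτ
  have e1 : (𝔇.wv w').1 = τ * (𝔇.wv w).1 := by
    have : sg ρ' * (sg ρ' * (𝔇.wv w').1) = sg ρ' * (t * (sg ρ * (𝔇.wv w).1)) := by rw [h1]
    rw [← mul_assoc, q2, one_mul] at this
    rw [this, hτ]; ring
  have e2 : (𝔇.wv w').2.1 = τ * (𝔇.wv w).2.1 := by
    have : sg ρ' * (sg ρ' * (𝔇.wv w').2.1) = sg ρ' * (t * (sg ρ * (𝔇.wv w).2.1)) := by rw [h2]
    rw [← mul_assoc, q2, one_mul] at this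
    rw [this, hτ]; ring
  -- equal types
  have same : w = w' → ρ = ρ' ∧ w = w' := by
    intro hw
    subst hw
    by_contra hcon
    have hρ : ρ ≠ ρ' := fun h => hcon ⟨h, rfl⟩
    have hτ' : τ = -t := by
      have := sg_ne hρ
      rw [hτ]
      linear_combination t * this
    have hτ1 : τ = 1 := by
      cases w with
      | a1 =>
        have e : (1 + 𝔇.Λ.al * 𝔇.Λ.pd) = τ * (1 + 𝔇.Λ.al * 𝔇.Λ.pd) := e1
        have : (1 - τ) * (1 + 𝔇.Λ.al * 𝔇.Λ.pd) = 0 := by linarith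
        rcases mul_eq_zero.1 this with h | h
        · linarith
        · linarith
      | a2 =>
        have e : (1 + 𝔇.Λ.al * 𝔇.Λ.pb) = τ * (1 + 𝔇.Λ.al * 𝔇.Λ.pb) := e1
        have : (1 - τ) * (1 + 𝔇.Λ.al * 𝔇.Λ.pb) = 0 := by linarith
        rcases mul_eq_zero.1 this with h | h
        · linarith
        · linarith
      | be =>
        have e : (1 + 𝔇.Λ.al * 𝔇.Λ.rho) = τ * (1 + 𝔇.Λ.al * 𝔇.Λ.rho) := e1
        have : (1 - τ) * (1 + 𝔇.Λ.al * 𝔇.Λ.rho) = 0 := by linarith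
        rcases mul_eq_zero.1 this with h | h
        · linarith
        · linarith
      | bn =>
        have e : (1 : ℝ) = τ * 1 := e2
        linarith
    have ht1 : t = -1 := by linarith
    rw [ht1] at h3 h4
    cases w with
    | a1 => exact c0 (by linarith)
    | a2 => exact c1 (by linarith)
    | be =>
      have e : -𝔇.Λ.sig = -1 * -𝔇.Λ.sig := h3
      linarith
    | bn =>
      have e : 𝔇.Λ.K = -1 * 𝔇.Λ.K := h3
      linarith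
  cases w with
  | a1 =>
    cases w' with
    | a1 => exact same rfl
    | a2 =>
      exfalso
      refine sign_contra hA0 hA1 e1 e2 ?_
      change -𝔇.Λ.pd * -𝔇.Λ.pb < 0
      have := mul_pos_of_neg_of_neg (neg_lt_zero.2 hpd) hpb
      linarith
    | be =>
      exfalso
      have f3 : -𝔇.Λ.sig = t * 0 := h3
      linarith
    | bn =>
      exfalso
      have f3 : 𝔇.Λ.K = t * 0 := h3
      linarith
  | a2 =>
    cases w' with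
    | a1 =>
      exfalso
      refine sign_contra hA1 hA0 e1 e2 ?_
      change -𝔇.Λ.pb * -𝔇.Λ.pd < 0
      have := mul_pos_of_neg_of_neg (neg_lt_zero.2 hpd) hpb
      linarith
    | a2 => exact same rfl
    | be =>
      exfalso
      have f3 : -𝔇.Λ.sig = t * 0 := h3
      linarith
    | bn =>
      exfalso
      have f3 : 𝔇.Λ.K = t * 0 := h3
      linarith
  | be =>
    cases w' with
    | a1 =>
      exfalso
      have f3 : 0 = t * -𝔇.Λ.sig := h3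
      rcases mul_eq_zero.1 f3.symm with h | h
      · exact ht h
      · linarith
    | a2 =>
      exfalso
      have f3 : 0 = t * -𝔇.Λ.sig := h3
      rcases mul_eq_zero.1 f3.symm with h | h
      · exact ht h
      · linarith
    | be => exact same rfl
    | bn =>
      exfalso
      have f1 : -𝔇.Λ.al = τ * (1 + 𝔇.Λ.al * 𝔇.Λ.rho) := e1
      have f2 : 1 = τ * -𝔇.Λ.rho := e2
      have g1 := (abs_le.1 hal).1
      have g2 := (abs_le.1 hrho2).1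
      have g3 : 0 < τ := by
        by_contra! hcon
        have := mul_nonneg (neg_nonneg.2 hcon) (neg_nonneg.2 hrho.le)
        linarith only [this, f2]
      have g4 : τ * -𝔇.Λ.rho ≤ τ * (1 / 50) := mul_le_mul_of_nonneg_left (by linarith) g3.le
      have g5 : τ * (49 / 50) ≤ τ * (1 + 𝔇.Λ.al * 𝔇.Λ.rho) :=
        mul_le_mul_of_nonneg_left hA2 g3.le
      linarith only [f1, f2, g1, g4, g5]
  | bn =>
    cases w' with
    | a1 =>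
      exfalso
      have f3 : 0 = t * 𝔇.Λ.K := h3
      rcases mul_eq_zero.1 f3.symm with h | h
      · exact ht h
      · linarith
    | a2 =>
      exfalso
      have f3 : 0 = t * 𝔇.Λ.K := h3
      rcases mul_eq_zero.1 f3.symm with h | h
      · exact ht h
      · linarith
    | be =>
      exfalso
      have f1 : 1 + 𝔇.Λ.al * 𝔇.Λ.rho = τ * -𝔇.Λ.al := e1
      have f2 : -𝔇.Λ.rho = τ * 1 := e2
      have g1 := (abs_le.1 (𝔇.al_mul 𝔇.abs_rho))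
      have : τ = -𝔇.Λ.rho := by linarith
      rw [this] at f1
      linarith [g1.1, g1.2]
    | bn => exact same rfl

/-- different contacts in the lower half lie in different planes -/
theorem side_distinct (hn : LayNum 𝔇.Λ) {j j' : SIdx} (hj : 𝔇.ok j) (hj' : 𝔇.ok j')
    (h : pl (𝔇.sv j) (𝔇.sc j) = pl (𝔇.sv j') (𝔇.sc j')) : j = j' := by
  obtain ⟨t, ht, h1, h2, h3, h4⟩ := pl_prop (𝔇.side_item hj).ne (𝔇.side_item hj').ne h
  have hKk := 𝔇.comp.Kk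
  have hK := 𝔇.Λ.K_pos
  have hκ := 𝔇.comp.kpos
  have hs := 𝔇.Λ.sig_pos
  match j, j', hj, hj' with
  | SIdx.wall ρ w, SIdx.wall ρ' w', _, _ =>
    obtain ⟨rfl, rfl⟩ := 𝔇.wall_distinct hn ht h1 h2 h3 h4
    rfl
  | SIdx.cell n, SIdx.cell n', hj, hj' =>
    have f1 : -𝔇.gx n' = t * -𝔇.gx n := h1
    have f2 : -𝔇.gy n' = t * -𝔇.gy n := h2
    have f3 : (1 : ℝ) = t * 1 := h3
    have t1 : t = 1 := by linarith
    by_contra hne
    have hne' : n ≠ n' := fun h => hne (by rw [h])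
    apply 𝔇.psi.inj n n' hj.1 hj.2 hj'.1 hj'.2 hne'
    rw [t1] at f1 f2
    constructor <;> linarith
  | SIdx.wall ρ w, SIdx.cell n, _, hj' =>
    exfalso
    have f3 : (1 : ℝ) = t * (𝔇.sv (SIdx.wall ρ w)).2.2 := h3
    have hc := 𝔇.sig_cell hj'.1 hj'.2
    rw [h1, h2, abs_mul, abs_mul] at hc
    rcases 𝔇.sig_wall ρ w with ⟨g, _⟩ | ⟨_, _, g⟩
    · rw [g] at f3; linarith
    · have f4 : |t| * |(𝔇.sv (SIdx.wall ρ w)).2.2| = 1 := by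
        rw [← abs_mul, ← f3, abs_one]
      have ht0 := abs_nonneg t
      have g2 := mul_le_mul_of_nonneg_left g ht0
      have g3 := mul_le_mul_of_nonneg_left hc hK.le
      nlinarith only [g2, g3, f4, hKk]
  | SIdx.cell n, SIdx.wall ρ w, hj, _ =>
    exfalso
    have f3 : (𝔇.sv (SIdx.wall ρ w)).2.2 = t * 1 := h3
    have hc := 𝔇.sig_cell hj.1 hj.2
    rcases 𝔇.sig_wall ρ w with ⟨g, _⟩ | ⟨_, _, g⟩
    · rw [g] at f3; exact ht (by linarith)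
    · rw [f3, h1, h2, mul_one, abs_mul, abs_mul] at g
      have ht0 := abs_pos.2 ht
      have g2 : |t| * (𝔇.Λ.K * (|(𝔇.sv (SIdx.cell n)).1| + |(𝔇.sv (SIdx.cell n)).2.1|)) ≤
          |t| * (𝔇.Λ.K * (2 * 𝔇.κ)) :=
        mul_le_mul_of_nonneg_left (mul_le_mul_of_nonneg_left hc hK.le) ht0.le
      have g3 : |t| * (𝔇.Λ.K * 𝔇.κ) ≤ |t| * (1 / 400) := mul_le_mul_of_nonneg_left hKk ht0.le
      nlinarith only [g, g2, g3, ht0]

/-- crude bounds for the tile -/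
lemma Bd_bound {x y z : ℝ} (h : 𝔇.Bd x y z) :
    |x| ≤ 1 ∧ |y| ≤ 𝔇.P.N ∧ |z| ≤ 𝔇.Λ.Zhi := by
  have hx := Lay.LB_xabs 𝔇.phi h
  have hz := Lay.zabs 𝔇.phi h.1 h.2.1
  have hK := abs_lt.1 (𝔇.Λ.Kz_abs hz)
  have h5 := abs_le.1 h.2.2.2.2
  have hN := 𝔇.N_real
  have hNN := 𝔇.LNN
  have hal := 𝔇.al_le
  have hax : |𝔇.Λ.al * x| ≤ 1 := by
    rw [abs_mul]
    calc |𝔇.Λ.al| * |x| ≤ 1 * 1 := mul_le_mul hal hx.le (abs_nonneg _) zero_le_one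
      _ = 1 := one_mul _
  have hax' := abs_le.1 hax
  refine ⟨hx.le, ?_, hz⟩
  rw [abs_le]
  constructor <;> linarith

lemma Am_bound {x y z : ℝ} (h : 𝔇.Am x y z) :
    |y| ≤ 1 ∧ |x| ≤ 𝔇.P.N ∧ |𝔇.H - z| ≤ 𝔇.Λ'.Zhi := by
  have h' : 𝔇.dual.Bd y x (𝔇.H - z) := by rw [dual_Bd, sub_sub_cancel]; exact h
  exact 𝔇.dual.Bd_bound h'

lemma T_bound {x y z : ℝ} (h : 𝔇.T x y z) : |x| ≤ 𝔇.P.N ∧ |y| ≤ 𝔇.P.N := by
  have hN := 𝔇.N_real
  rcases h with h | h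
  · have := 𝔇.Bd_bound h
    exact ⟨by linarith, this.2.1⟩
  · have := 𝔇.Am_bound h
    exact ⟨this.2.1, by linarith⟩

lemma kN : 100 * 𝔇.κ * 𝔇.P.N < 𝔇.H := by
  have h := 𝔇.comp.small
  have hK := 𝔇.Λ.K_pos
  have hl := 𝔇.Λ.l_pos
  have h1 := 𝔇.Ψ_lt 0 0
  have h2 := 𝔇.phi.lo 0 0
  rw [𝔇.LNN] at h
  have h3 : 100 * 𝔇.κ * 𝔇.P.N < 𝔇.Λ.Zlo := by
    by_contra! hcon
    have := mul_le_mul_of_nonneg_right hcon hK.le
    linarith
  linarith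

/-- the planes of the two halves are different -/
theorem cross_distinct (hn : Num 𝔇.Λ 𝔇.Λ') {j j' : SIdx} (hj : 𝔇.ok j) (hj' : 𝔇.dual.ok j')
    (h : pl (𝔇.sv j) (𝔇.sc j) = pl ((𝔇.dual.sv j').2.1, (𝔇.dual.sv j').1, -(𝔇.dual.sv j').2.2)
      (𝔇.dual.sc j' - (𝔇.dual.sv j').2.2 * 𝔇.H)) : False := by
  have hi' := (𝔇.dual.side_item hj').dl 𝔇.H
  obtain ⟨t, ht, h1, h2, h3, h4⟩ := pl_prop (𝔇.side_item hj).ne hi'.ne h
  have hKk := 𝔇.comp.Kk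
  have hKk' : 𝔇.Λ'.K * 𝔇.κ ≤ 1 / 400 := 𝔇.comp'.Kk
  have hK := 𝔇.Λ.K_pos
  have hK' := 𝔇.Λ'.K_pos
  have hκ := 𝔇.comp.kpos
  have hs := 𝔇.Λ'.sig_pos
  have ht0 := abs_pos.2 ht
  change (𝔇.dual.sv j').2.1 = t * (𝔇.sv j).1 at h1
  change (𝔇.dual.sv j').1 = t * (𝔇.sv j).2.1 at h2
  change -(𝔇.dual.sv j').2.2 = t * (𝔇.sv j).2.2 at h3
  have a1 : |(𝔇.dual.sv j').2.1| = |t| * |(𝔇.sv j).1| := by rw [h1, abs_mul]
  have a2 : |(𝔇.dual.sv j').1| = |t| * |(𝔇.sv j).2.1| := by rw [h2, abs_mul]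
  have a3 : |(𝔇.dual.sv j').2.2| = |t| * |(𝔇.sv j).2.2| := by rw [← abs_neg, h3, abs_mul]
  match j, j', hj, hj' with
  | SIdx.wall ρ w, SIdx.wall ρ' w', _, _ =>
    rcases 𝔇.sig_wall ρ w with ⟨g, g'⟩ | ⟨g, _, g'⟩
    · rcases 𝔇.dual.sig_wall ρ' w' with ⟨f, f'⟩ | ⟨f, _, _⟩
      · rw [a1, a2] at f'
        have := lt_of_mul_lt_mul_left f' ht0.le
        linarith
      · rw [g, mul_zero] at h3
        exact f (by linarith)
    · rcases 𝔇.dual.sig_wall ρ' w' with ⟨f, f'⟩ | ⟨f, f', _⟩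
      · rw [f, neg_zero] at h3
        rcases mul_eq_zero.1 h3.symm with h | h
        · exact ht h
        · exact g h
      · rw [a1, a2, a3] at f'
        have e : 𝔇.dual.Λ = 𝔇.Λ' := rfl
        rw [e] at f'
        have f2 := mul_le_mul_of_nonneg_left g' ht0.le
        have hpos : 0 < |t| * |(𝔇.sv (SIdx.wall ρ w)).2.2| := mul_pos ht0 (abs_pos.2 g)
        have hS : 0 < |t| * (|(𝔇.sv (SIdx.wall ρ w)).1| + |(𝔇.sv (SIdx.wall ρ w)).2.1|) := by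
          by_contra! hcon
          have := mul_nonneg ht0.le (add_nonneg (abs_nonneg (𝔇.sv (SIdx.wall ρ w)).1)
            (abs_nonneg (𝔇.sv (SIdx.wall ρ w)).2.1))
          have h0 : |t| * (|(𝔇.sv (SIdx.wall ρ w)).1| + |(𝔇.sv (SIdx.wall ρ w)).2.1|) = 0 :=
            le_antisymm hcon this
          have e4 : |t| * (𝔇.Λ.K * (|(𝔇.sv (SIdx.wall ρ w)).1| +
              |(𝔇.sv (SIdx.wall ρ w)).2.1|)) = 0 := by
            rw [mul_left_comm, h0, mul_zero]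
          rw [e4] at f2
          linarith only [f2, hpos]
        have hsep := hn.sep
        have e3 := mul_lt_mul_of_pos_right hsep hS
        nlinarith only [f', f2, e3, hS, hK]
  | SIdx.cell n, SIdx.wall ρ' w', hj, _ =>
    have hc := 𝔇.sig_cell hj.1 hj.2
    have f3 : (𝔇.sv (SIdx.cell n)).2.2 = 1 := rfl
    rw [f3, abs_one, mul_one] at a3
    rw [f3, mul_one] at h3
    rcases 𝔇.dual.sig_wall ρ' w' with ⟨f, f'⟩ | ⟨f, _, f'⟩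
    · rw [f] at h3; exact ht (by linarith)
    · rw [a1, a2, a3] at f'
      have e : 𝔇.dual.Λ = 𝔇.Λ' := rfl
      rw [e] at f'
      have g2 : |t| * (𝔇.Λ'.K * (|(𝔇.sv (SIdx.cell n)).1| + |(𝔇.sv (SIdx.cell n)).2.1|)) ≤
          |t| * (𝔇.Λ'.K * (2 * 𝔇.κ)) :=
        mul_le_mul_of_nonneg_left (mul_le_mul_of_nonneg_left hc hK'.le) ht0.le
      have g3 : |t| * (𝔇.Λ'.K * 𝔇.κ) ≤ |t| * (1 / 400) := mul_le_mul_of_nonneg_left hKk' ht0.le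
      nlinarith only [f', g2, g3, ht0]
  | SIdx.wall ρ w, SIdx.cell n, _, hj' =>
    have hc := 𝔇.dual.sig_cell hj'.1 hj'.2
    have e : 𝔇.dual.κ = 𝔇.κ := rfl
    rw [a1, a2, e] at hc
    have f3 : (𝔇.dual.sv (SIdx.cell n)).2.2 = 1 := rfl
    rw [f3, abs_one] at a3
    rcases 𝔇.sig_wall ρ w with ⟨g, _⟩ | ⟨_, _, g⟩
    · rw [g, abs_zero, mul_zero] at a3; linarith
    · have g2 := mul_le_mul_of_nonneg_left g ht0.le
      have g3 := mul_le_mul_of_nonneg_left hc hK.le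
      nlinarith only [g2, g3, a3, hKk]
  | SIdx.cell n, SIdx.cell n', hj, hj' =>
    obtain ⟨O, -, hO1, -, hO2⟩ := (𝔇.side_item (j := SIdx.cell n) hj).reg
    obtain ⟨O', -, hO1', -, hO2'⟩ := hi'.reg
    obtain ⟨X, hX⟩ := hO2.nonempty
    obtain ⟨Y, hY⟩ := hO2'.nonempty
    have hXT := hO1 hX
    have hYT := hO1' hY
    rw [dl_TS] at hYT
    have hX2 : X ∈ 𝔇.TS ∩ 𝔇.cT n := hXT
    rw [𝔇.cell_contact hj.1 hj.2] at hX2
    have hY3 : dl 𝔇.H Y ∈ 𝔇.dual.TS ∩ 𝔇.dual.cT n' := by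
      refine ⟨?_, hYT.2⟩
      have := hYT.1
      rw [← 𝔇.dl_TS] at this
      exact this
    rw [𝔇.dual.cell_contact hj'.1 hj'.2] at hY3
    have hXz : X.2.2 < 0 := by
      rw [hX2.1]
      have := 𝔇.Ψ_pos X.1 (X.2.1 - 𝔇.hlf)
      unfold h0
      linarith
    have hYz : 𝔇.H < Y.2.2 := by
      have h1 := hY3.1
      change 𝔇.H - Y.2.2 = -𝔇.dual.Ψ Y.2.1 (Y.1 - 𝔇.dual.hlf) at h1
      have := 𝔇.dual.Ψ_pos Y.2.1 (Y.1 - 𝔇.dual.hlf)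
      linarith
    have hbX := 𝔇.T_bound hXT.1
    have hbY := 𝔇.T_bound hYT.1
    have pX : X ∈ pl (𝔇.sv (SIdx.cell n)) (𝔇.sc (SIdx.cell n)) := hX.2
    have pY : Y ∈ pl (𝔇.sv (SIdx.cell n)) (𝔇.sc (SIdx.cell n)) := by
      rw [h]; exact hY.2
    obtain ⟨s1, s2⟩ := 𝔇.slope_cell hj.1 hj.2
    have eX : -𝔇.gx n * X.1 + -𝔇.gy n * X.2.1 + 1 * X.2.2 = 𝔇.sc (SIdx.cell n) := pX
    have eY : -𝔇.gx n * Y.1 + -𝔇.gy n * Y.2.1 + 1 * Y.2.2 = 𝔇.sc (SIdx.cell n) := pY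
    have hd : Y.2.2 - X.2.2 = 𝔇.gx n * (Y.1 - X.1) + 𝔇.gy n * (Y.2.1 - X.2.1) := by linarith
    have hN := 𝔇.N_real
    have b1 : |Y.1 - X.1| ≤ 2 * 𝔇.P.N := by
      have a := abs_le.1 hbX.1
      have b := abs_le.1 hbY.1
      rw [abs_le]; constructor <;> linarith
    have b2 : |Y.2.1 - X.2.1| ≤ 2 * 𝔇.P.N := by
      have a := abs_le.1 hbX.2
      have b := abs_le.1 hbY.2
      rw [abs_le]; constructor <;> linarith
    have c1 : 𝔇.gx n * (Y.1 - X.1) ≤ 𝔇.κ * (2 * 𝔇.P.N) := by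
      refine (le_abs_self _).trans ?_
      rw [abs_mul]
      exact mul_le_mul s1 b1 (abs_nonneg _) hκ
    have c2 : 𝔇.gy n * (Y.2.1 - X.2.1) ≤ 𝔇.κ * (2 * 𝔇.P.N) := by
      refine (le_abs_self _).trans ?_
      rw [abs_mul]
      exact mul_le_mul s2 b2 (abs_nonneg _) hκ
    have hkN := 𝔇.kN
    have hkN0 : 0 ≤ 𝔇.κ * 𝔇.P.N := mul_nonneg hκ (by linarith)
    nlinarith only [hd, c1, c2, hkN, hkN0, hXz, hYz]

end Data

end Pool.Agent.DAF
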