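import Pool.Agent.DAF.Data

/-! The explicit parameters of the tile: all (in)equalities are checked exactly over the rationals
by kernel evaluation and then transferred to the reals. -/

open Set Topology

namespace Pool.Agent.DAF

namespace Par

def s : ℚ := 1000000000000000000000001
def N : ℚ := s * s - 1
def tx : ℚ := 4999999999999999999999999999999999999999999999990000000000000000000000009999999999999999999999996250499999999999999999997500000000000000000000005623999999999999999999993751/5000000000000000000000000000000000000000000000000000000000000000000000000000000000000000000000000000000000000000000000000000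
def ty : ℚ := 19999999999999999999999999999999999999999999999960000000000000000000000039999999999999999999999984999999999999999999999990001000000000000000000022496999999999999999999975003/20000000000000000000000000000000000000000000000000000000000000000000000000000000000000000000000000000000000000000000000000000
def sb : ℚ := (s - 1) / 2
def sd : ℚ := (s * s - s - 2) / 2
def ax : ℚ := (s - 1) * tx + s * (s - 2)
def bY : ℚ := (s - 1) * ty + s * (s - 2)
def adn : ℚ := tx + s - 1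
def bdn : ℚ := ty + s - 1
def u1 : ℚ := sb * ty * (bY - tx) / (ax * bY - tx * ty)
def v1 : ℚ := sb * tx * (ax - ty) / (ax * bY - tx * ty)
def u2 : ℚ := sd * (bdn - 1) / (adn * bdn - 1)
def v2 : ℚ := sd * (adn - 1) / (adn * bdn - 1)
def fa1 : ℚ := (s - 1) / 2 - v1
def fa2 : ℚ := (s + 1) / 2 + v2
def ga1 : ℚ := (s - 1) / 2 - u1
def ga2 : ℚ := (s + 1) / 2 + u2
def fpb : ℚ := -(u1 / fa1)
def fpd : ℚ := u2 / (N / 2 - fa2)
def gpb : ℚ := -(v1 / ga1)
def gpd : ℚ := v2 / (N / 2 - ga2)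
def px : ℚ := 1 / 2 + u1
def py : ℚ := 1 / 2 + v1
def rx : ℚ := 1 / 2 + u2
def ry : ℚ := -(1 / 2) - v2
def kap : ℚ := 1 / 1000000000000000000000000000000000000000000000000000000000000000000000000000000000000000000000000000000000000000000000000000000000000000000000000000
def alA : ℚ := (N * fpd - s * (fpd - fpb)) / (N * fpd * fpb - (fpd - fpb))
def pbA : ℚ := fpb / (1 - alA * fpb)
def pdA : ℚ := fpd / (1 - alA * fpd)
def beA : ℚ := (s - alA) / 2
def KZ1A : ℚ := N / 4 - py + alA * px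
def KZ2A : ℚ := N / 4 + ry - alA * rx
def D0A : ℚ := KZ1A - KZ2A
def alB : ℚ := (N * gpd - s * (gpd - gpb)) / (N * gpd * gpb - (gpd - gpb))
def pbB : ℚ := gpb / (1 - alB * gpb)
def pdB : ℚ := gpd / (1 - alB * gpd)
def beB : ℚ := (s - alB) / 2
def KZ1B : ℚ := N / 4 - px + alB * py
def KZ2B : ℚ := N / 4 + (-rx) - alB * (-ry)
def D0B : ℚ := KZ1B - KZ2B
def KA : ℚ := N / 4
def KB : ℚ := -KA * D0B / D0A
def Z1A : ℚ := KZ1A / KA
def Z2A : ℚ := KZ2A / KA
def ZloA : ℚ := Z2A - kap * N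
def ZhiA : ℚ := Z2A + kap * N
def Z1B : ℚ := KZ1B / KB
def Z2B : ℚ := KZ2B / KB
def ZloB : ℚ := Z2B - kap * N
def ZhiB : ℚ := Z2B + kap * N
def H : ℚ := Z1A + Z1B
def Hc : ℚ := -(((s - 1) * tx + (s * s - s - 2)) * (px + rx) + ((s - 1) * bY + (s * s - s - 2) * (-bdn)) * (py + ry)) / 2
def c : ℚ := D0A / (KA * Hc)
def xb : ℚ := tx * c
def xd : ℚ := c
def yb : ℚ := ty * c
def yd : ℚ := c
def ab : ℚ := ax * c
def ad : ℚ := -adn * c
def bb : ℚ := bY * c
def bd : ℚ := -bdn * c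

set_option maxRecDepth 100000

theorem t_f_a1_pos : 0 < fa1 := by decide +kernel
theorem t_f_a12 : fa1 < fa2 := by decide +kernel
theorem t_f_a2N : fa2 < N / 2 := by decide +kernel
theorem t_f_u1_pos : 0 < u1 := by decide +kernel
theorem t_f_u12 : u1 ≤ u2 := by decide +kernel
theorem t_f_u2_lt : u2 < 1 / 2 := by decide +kernel
theorem t_f_slope : (u2 - u1) / (fa2 - fa1) ≤ u1 / fa1 := by decide +kernel
theorem t_f_hm1 : u1 / fa1 ≤ 1 / 100 := by decide +kernel
theorem t_f_hm2 : u2 / (N / 2 - fa2) ≤ 1 / 100 := by decide +kernel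
theorem t_g_a1_pos : 0 < ga1 := by decide +kernel
theorem t_g_a12 : ga1 < ga2 := by decide +kernel
theorem t_g_a2N : ga2 < N / 2 := by decide +kernel
theorem t_g_u1_pos : 0 < v1 := by decide +kernel
theorem t_g_u12 : v1 ≤ v2 := by decide +kernel
theorem t_g_u2_lt : v2 < 1 / 2 := by decide +kernel
theorem t_g_slope : (v2 - v1) / (ga2 - ga1) ≤ v1 / ga1 := by decide +kernel
theorem t_g_hm1 : v1 / ga1 ≤ 1 / 100 := by decide +kernel
theorem t_g_hm2 : v2 / (N / 2 - ga2) ≤ 1 / 100 := by decide +kernel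
theorem t_pb_negA : pbA < 0 := by decide +kernel
theorem t_pd_posA : 0 < pdA := by decide +kernel
theorem t_K_posA : 0 < KA := by decide +kernel
theorem t_be_posA : 0 < beA := by decide +kernel
theorem t_be_ltA : beA < N / 4 := by decide +kernel
theorem t_relA : beA * (pdA - pbA) = pdA * N / 2 := by decide +kernel
theorem t_ZlohiA : ZloA ≤ ZhiA := by decide +kernel
theorem t_lamltA : N / 4 - beA < KA * ZloA := by decide +kernel
theorem t_KZA : KA * ZhiA < N / 4 := by decide +kernel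
theorem t_b1A : -pbA * (KA * ZhiA - (N / 4 - beA)) < 1 / 2 := by decide +kernel
theorem t_b2A : pdA * (KA * ZhiA + (N / 4 - beA)) < 1 / 2 := by decide +kernel
theorem t_al1A : alA ≤ 1 := by decide +kernel
theorem t_al2A : -1 ≤ alA := by decide +kernel
theorem t_pbsA : -pbA ≤ 1 / 50 := by decide +kernel
theorem t_smallA : 100 * kap * N * KA ≤ KA * ZloA - (N / 4 - beA) := by decide +kernel
theorem t_hbeA : 2 * beA = s - alA := by decide +kernel
theorem t_hpbA : pbA * (1 - alA * fpb) = fpb := by decide +kernel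
theorem t_hpdA : pdA * (1 - alA * fpd) = fpd := by decide +kernel
theorem t_KZ1_A : KA * Z1A = N / 4 - py + alA * px := by decide +kernel
theorem t_KZ2_A : KA * Z2A = N / 4 + ry - alA * rx := by decide +kernel
theorem t_pdNA : pdA * N ≤ 2 := by decide +kernel
theorem t_pbNA : 6 ≤ -pbA * N := by decide +kernel
theorem t_pb_negB : pbB < 0 := by decide +kernel
theorem t_pd_posB : 0 < pdB := by decide +kernel
theorem t_K_posB : 0 < KB := by decide +kernel
theorem t_be_posB : 0 < beB := by decide +kernel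
theorem t_be_ltB : beB < N / 4 := by decide +kernel
theorem t_relB : beB * (pdB - pbB) = pdB * N / 2 := by decide +kernel
theorem t_ZlohiB : ZloB ≤ ZhiB := by decide +kernel
theorem t_lamltB : N / 4 - beB < KB * ZloB := by decide +kernel
theorem t_KZB : KB * ZhiB < N / 4 := by decide +kernel
theorem t_b1B : -pbB * (KB * ZhiB - (N / 4 - beB)) < 1 / 2 := by decide +kernel
theorem t_b2B : pdB * (KB * ZhiB + (N / 4 - beB)) < 1 / 2 := by decide +kernel
theorem t_al1B : alB ≤ 1 := by decide +kernel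
theorem t_al2B : -1 ≤ alB := by decide +kernel
theorem t_pbsB : -pbB ≤ 1 / 50 := by decide +kernel
theorem t_smallB : 100 * kap * N * KB ≤ KB * ZloB - (N / 4 - beB) := by decide +kernel
theorem t_hbeB : 2 * beB = s - alB := by decide +kernel
theorem t_hpbB : pbB * (1 - alB * gpb) = gpb := by decide +kernel
theorem t_hpdB : pdB * (1 - alB * gpd) = gpd := by decide +kernel
theorem t_KZ1_B : KB * Z1B = N / 4 - px + alB * py := by decide +kernel
theorem t_KZ2_B : KB * Z2B = N / 4 + (-rx) - alB * (-ry) := by decide +kernel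
theorem t_pdNB : pdB * N ≤ 2 := by decide +kernel
theorem t_pbNB : 6 ≤ -pbB * N := by decide +kernel
theorem t_HZ1 : H - Z1A = Z1B := by decide +kernel
theorem t_HZ2 : H - Z2A = Z2B := by decide +kernel
theorem t_z1 : 1 / 2 ≤ ZloA := by decide +kernel
theorem t_z2 : ZhiA ≤ 2 := by decide +kernel
theorem t_z3 : ZhiB * N ≤ 4 := by decide +kernel
theorem t_sep : 4 * KA < KB * (pdB - pbB) / 2 := by decide +kernel
theorem t_N1000 : 1000 ≤ N := by decide +kernel
theorem t_hab : ab = (s - 1) * xb + s * (s - 2) * xd := by decide +kernel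
theorem t_had : ad = -xb - (s - 1) * xd := by decide +kernel
theorem t_hbb : bb = (s - 1) * yb + s * (s - 2) * yd := by decide +kernel
theorem t_hbd : bd = -yb - (s - 1) * yd := by decide +kernel
theorem t_nBb : xb + bb * gpb = 0 := by decide +kernel
theorem t_nBd : xd + bd * gpd = 0 := by decide +kernel
theorem t_nAb : ab * fpb + yb = 0 := by decide +kernel
theorem t_nAd : ad * fpd + yd = 0 := by decide +kernel
theorem t_height : -(((s - 1) * xb + (s * s - s - 2) * xd) / 2) * (px + rx) + -(((s - 1) * bb + (s * s - s - 2) * bd) / 2) * (py + ry) = Z1A - Z2A := by decide +kernel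
theorem t_sgn : 0 < xb * xd := by decide +kernel
theorem t_kx : (s - 1) * |xb| + s * s * |xd| ≤ kap := by decide +kernel
theorem t_ky : (s - 1) * |bb| + s * s * |bd| ≤ kap := by decide +kernel
theorem t_kZ : 2 * |Z1A - Z2A| ≤ kap := by decide +kernel
theorem t_kap_pos : 0 ≤ kap := by decide +kernel

theorem t_sZ : (((10 ^ 24 + 1 : ℤ)) : ℚ) = s := by decide +kernel

/-- real version of `s` -/
lemma sR : (((10 ^ 24 + 1 : ℤ)) : ℝ) = ((s : ℚ) : ℝ) := by
  rw [← t_sZ]; norm_cast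

lemma NR : ((N : ℚ) : ℝ) = ((s : ℚ) : ℝ) ^ 2 - 1 := by
  unfold N; push_cast; ring

/-- the saw of the walls -/
noncomputable def F : Saw where
  N := ((N : ℚ) : ℝ)
  a1 := ((fa1 : ℚ) : ℝ)
  a2 := ((fa2 : ℚ) : ℝ)
  u1 := ((u1 : ℚ) : ℝ)
  u2 := ((u2 : ℚ) : ℝ)
  m := 1 / 100
  a1_pos := by exact_mod_cast t_f_a1_pos
  a12 := by exact_mod_cast t_f_a12
  a2N := by exact_mod_cast t_f_a2N
  u1_pos := by exact_mod_cast t_f_u1_pos
  u12 := by exact_mod_cast t_f_u12
  u2_lt := by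
    have := (Rat.cast_lt (K := ℝ)).2 t_f_u2_lt
    push_cast at this; exact this
  slope := by
    have := (Rat.cast_le (K := ℝ)).2 t_f_slope
    push_cast at this; exact this
  hm1 := by
    have := (Rat.cast_le (K := ℝ)).2 t_f_hm1
    push_cast at this; exact this
  hm2 := by
    have := (Rat.cast_le (K := ℝ)).2 t_f_hm2
    push_cast at this; exact this

/-- the saw of the row lines -/
noncomputable def G : Saw where
  N := ((N : ℚ) : ℝ)
  a1 := ((ga1 : ℚ) : ℝ)
  a2 := ((ga2 : ℚ) : ℝ)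
  u1 := ((v1 : ℚ) : ℝ)
  u2 := ((v2 : ℚ) : ℝ)
  m := 1 / 100
  a1_pos := by exact_mod_cast t_g_a1_pos
  a12 := by exact_mod_cast t_g_a12
  a2N := by exact_mod_cast t_g_a2N
  u1_pos := by exact_mod_cast t_g_u1_pos
  u12 := by exact_mod_cast t_g_u12
  u2_lt := by
    have := (Rat.cast_lt (K := ℝ)).2 t_g_u2_lt
    push_cast at this; exact this
  slope := by
    have := (Rat.cast_le (K := ℝ)).2 t_g_slope
    push_cast at this; exact this
  hm1 := by
    have := (Rat.cast_le (K := ℝ)).2 t_g_hm1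
    push_cast at this; exact this
  hm2 := by
    have := (Rat.cast_le (K := ℝ)).2 t_g_hm2
    push_cast at this; exact this

/-- the plan -/
noncomputable def PP : Plan where
  s := 10 ^ 24 + 1
  f := F
  g := G
  s_odd := ⟨5 * 10 ^ 23, by norm_num⟩
  s_ge := by norm_num
  fN := by rw [sR]; exact NR
  gN := by rw [sR]; exact NR
  fa1 := by rw [sR]; show ((fa1 : ℚ) : ℝ) = _ - ((v1 : ℚ) : ℝ); unfold fa1; push_cast; rfl
  fa2 := by rw [sR]; show ((fa2 : ℚ) : ℝ) = _ + ((v2 : ℚ) : ℝ); unfold fa2; push_cast; rfl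
  ga1 := by rw [sR]; show ((ga1 : ℚ) : ℝ) = _ - ((u1 : ℚ) : ℝ); unfold ga1; push_cast; rfl
  ga2 := by rw [sR]; show ((ga2 : ℚ) : ℝ) = _ + ((u2 : ℚ) : ℝ); unfold ga2; push_cast; rfl
  fm := le_rfl
  gm := le_rfl

lemma PP_s : ((PP.s : ℤ) : ℝ) = ((s : ℚ) : ℝ) := sR
lemma PP_px : PP.px = ((px : ℚ) : ℝ) := by
  show 1 / 2 + ((u1 : ℚ) : ℝ) = _
  unfold px; push_cast; rfl
lemma PP_py : PP.py = ((py : ℚ) : ℝ) := by
  show 1 / 2 + ((v1 : ℚ) : ℝ) = _
  unfold py; push_cast; rfl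
lemma PP_rx : PP.rx = ((rx : ℚ) : ℝ) := by
  show 1 / 2 + ((u2 : ℚ) : ℝ) = _
  unfold rx; push_cast; rfl
lemma PP_ry : PP.ry = ((ry : ℚ) : ℝ) := by
  show -(1 / 2) - ((v2 : ℚ) : ℝ) = _
  unfold ry; push_cast; rfl
lemma PP_fpb : PP.f.pb = ((fpb : ℚ) : ℝ) := by
  show -(((u1 : ℚ) : ℝ) / ((fa1 : ℚ) : ℝ)) = _
  unfold fpb; push_cast; rfl
lemma PP_fpd : PP.f.pd = ((fpd : ℚ) : ℝ) := by
  show ((u2 : ℚ) : ℝ) / (((N : ℚ) : ℝ) / 2 - ((fa2 : ℚ) : ℝ)) = _
  unfold fpd; push_cast; rfl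
lemma PP_gpb : PP.g.pb = ((gpb : ℚ) : ℝ) := by
  show -(((v1 : ℚ) : ℝ) / ((ga1 : ℚ) : ℝ)) = _
  unfold gpb; push_cast; rfl
lemma PP_gpd : PP.g.pd = ((gpd : ℚ) : ℝ) := by
  show ((v2 : ℚ) : ℝ) / (((N : ℚ) : ℝ) / 2 - ((ga2 : ℚ) : ℝ)) = _
  unfold gpd; push_cast; rfl

lemma Dpx : PP.dual.px = ((py : ℚ) : ℝ) := PP_py
lemma Dpy : PP.dual.py = ((px : ℚ) : ℝ) := PP_px
lemma Drx : PP.dual.rx = -((ry : ℚ) : ℝ) := by
  rw [← PP_ry]; show 1 / 2 + ((v2 : ℚ) : ℝ) = -(-(1 / 2) - ((v2 : ℚ) : ℝ)); ring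
lemma Dry : PP.dual.ry = -((rx : ℚ) : ℝ) := by
  rw [← PP_rx]; show -(1 / 2) - ((u2 : ℚ) : ℝ) = -(1 / 2 + ((u2 : ℚ) : ℝ)); ring

/-- a layer -/
noncomputable def LA : Lay where
  N := ((N : ℚ) : ℝ)
  al := ((alA : ℚ) : ℝ)
  be := ((beA : ℚ) : ℝ)
  pb := ((pbA : ℚ) : ℝ)
  pd := ((pdA : ℚ) : ℝ)
  K := ((KA : ℚ) : ℝ)
  Zlo := ((ZloA : ℚ) : ℝ)
  Zhi := ((ZhiA : ℚ) : ℝ)
  N_pos := by
    have := (Rat.cast_le (K := ℝ)).2 t_N1000
    push_cast at this; linarith
  pb_neg := by exact_mod_cast t_pb_negA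
  pd_pos := by exact_mod_cast t_pd_posA
  K_pos := by exact_mod_cast t_K_posA
  be_pos := by exact_mod_cast t_be_posA
  be_lt := by
    have := (Rat.cast_lt (K := ℝ)).2 t_be_ltA
    push_cast at this; exact this
  rel := by
    have := congrArg (fun q : ℚ => (q : ℝ)) t_relA
    push_cast at this; exact this
  Zlohi := by exact_mod_cast t_ZlohiA
  lamlt := by
    have := (Rat.cast_lt (K := ℝ)).2 t_lamltA
    push_cast at this; exact this
  KZ := by
    have := (Rat.cast_lt (K := ℝ)).2 t_KZA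
    push_cast at this; exact this
  b1 := by
    have := (Rat.cast_lt (K := ℝ)).2 t_b1A
    push_cast at this; exact this
  b2 := by
    have := (Rat.cast_lt (K := ℝ)).2 t_b2A
    push_cast at this; exact this

/-- a layer -/
noncomputable def LB : Lay where
  N := ((N : ℚ) : ℝ)
  al := ((alB : ℚ) : ℝ)
  be := ((beB : ℚ) : ℝ)
  pb := ((pbB : ℚ) : ℝ)
  pd := ((pdB : ℚ) : ℝ)
  K := ((KB : ℚ) : ℝ)
  Zlo := ((ZloB : ℚ) : ℝ)
  Zhi := ((ZhiB : ℚ) : ℝ)
  N_pos := by
    have := (Rat.cast_le (K := ℝ)).2 t_N1000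
    push_cast at this; linarith
  pb_neg := by exact_mod_cast t_pb_negB
  pd_pos := by exact_mod_cast t_pd_posB
  K_pos := by exact_mod_cast t_K_posB
  be_pos := by exact_mod_cast t_be_posB
  be_lt := by
    have := (Rat.cast_lt (K := ℝ)).2 t_be_ltB
    push_cast at this; exact this
  rel := by
    have := congrArg (fun q : ℚ => (q : ℝ)) t_relB
    push_cast at this; exact this
  Zlohi := by exact_mod_cast t_ZlohiB
  lamlt := by
    have := (Rat.cast_lt (K := ℝ)).2 t_lamltB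
    push_cast at this; exact this
  KZ := by
    have := (Rat.cast_lt (K := ℝ)).2 t_KZB
    push_cast at this; exact this
  b1 := by
    have := (Rat.cast_lt (K := ℝ)).2 t_b1B
    push_cast at this; exact this
  b2 := by
    have := (Rat.cast_lt (K := ℝ)).2 t_b2B
    push_cast at this; exact this

lemma HZ1 : ((H : ℚ) : ℝ) - ((Z1A : ℚ) : ℝ) = ((Z1B : ℚ) : ℝ) := by
  exact_mod_cast congrArg (fun q : ℚ => (q : ℝ)) t_HZ1
lemma HZ2 : ((H : ℚ) : ℝ) - ((Z2A : ℚ) : ℝ) = ((Z2B : ℚ) : ℝ) := by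
  exact_mod_cast congrArg (fun q : ℚ => (q : ℝ)) t_HZ2

lemma smallA : LaySmall LA ((kap : ℚ) : ℝ) where
  N := by
    have := (Rat.cast_le (K := ℝ)).2 t_N1000
    push_cast at this; exact this
  al := by
    have h1 := (Rat.cast_le (K := ℝ)).2 t_al1A
    have h2 := (Rat.cast_le (K := ℝ)).2 t_al2A
    push_cast at h1 h2
    exact abs_le.2 ⟨h2, h1⟩
  pb := by
    have := (Rat.cast_le (K := ℝ)).2 t_pbsA
    push_cast at this; exact this
  kpos := by exact_mod_cast t_kap_pos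
  small := by
    have := (Rat.cast_le (K := ℝ)).2 t_smallA
    push_cast at this; exact this

lemma compatA : Compat PP LA ((Z1A : ℚ) : ℝ) ((Z2A : ℚ) : ℝ) ((kap : ℚ) : ℝ) where
  toLaySmall := smallA
  hN := by
    show ((N : ℚ) : ℝ) = (((10 ^ 24 + 1 : ℤ) ^ 2 - 1 : ℤ) : ℝ)
    rw [NR, ← sR]; push_cast; ring
  hbe := by
    show 2 * ((beA : ℚ) : ℝ) = (((10 ^ 24 + 1 : ℤ)) : ℝ) - ((alA : ℚ) : ℝ)
    rw [sR]
    exact_mod_cast congrArg (fun q : ℚ => (q : ℝ)) t_hbeA
  hpb := by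
    rw [show PP.f.pb = ((fpb : ℚ) : ℝ) from PP_fpb]
    have := congrArg (fun q : ℚ => (q : ℝ)) t_hpbA
    push_cast at this; exact this
  hpd := by
    rw [show PP.f.pd = ((fpd : ℚ) : ℝ) from PP_fpd]
    have := congrArg (fun q : ℚ => (q : ℝ)) t_hpdA
    push_cast at this; exact this
  KZ1 := by
    rw [PP_px, PP_py]
    have := congrArg (fun q : ℚ => (q : ℝ)) t_KZ1_A
    push_cast at this; exact this
  KZ2 := by
    rw [PP_rx, PP_ry]
    have := congrArg (fun q : ℚ => (q : ℝ)) t_KZ2_A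
    push_cast at this; exact this
  lo := by
    show ((ZloA : ℚ) : ℝ) + ((kap : ℚ) : ℝ) * ((N : ℚ) : ℝ) ≤ _
    unfold ZloA; push_cast; linarith
  hi := by
    show _ ≤ ((ZhiA : ℚ) : ℝ)
    show _ + ((kap : ℚ) : ℝ) * ((N : ℚ) : ℝ) ≤ ((ZhiA : ℚ) : ℝ)
    unfold ZhiA; push_cast; linarith

lemma smallB : LaySmall LB ((kap : ℚ) : ℝ) where
  N := by
    have := (Rat.cast_le (K := ℝ)).2 t_N1000
    push_cast at this; exact this
  al := by
    have h1 := (Rat.cast_le (K := ℝ)).2 t_al1B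
    have h2 := (Rat.cast_le (K := ℝ)).2 t_al2B
    push_cast at h1 h2
    exact abs_le.2 ⟨h2, h1⟩
  pb := by
    have := (Rat.cast_le (K := ℝ)).2 t_pbsB
    push_cast at this; exact this
  kpos := by exact_mod_cast t_kap_pos
  small := by
    have := (Rat.cast_le (K := ℝ)).2 t_smallB
    push_cast at this; exact this

lemma compatB : Compat PP.dual LB (((H : ℚ) : ℝ) - ((Z1A : ℚ) : ℝ)) (((H : ℚ) : ℝ) - ((Z2A : ℚ) : ℝ)) ((kap : ℚ) : ℝ) where
  toLaySmall := smallB
  hN := by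
    show ((N : ℚ) : ℝ) = (((10 ^ 24 + 1 : ℤ) ^ 2 - 1 : ℤ) : ℝ)
    rw [NR, ← sR]; push_cast; ring
  hbe := by
    show 2 * ((beB : ℚ) : ℝ) = (((10 ^ 24 + 1 : ℤ)) : ℝ) - ((alB : ℚ) : ℝ)
    rw [sR]
    exact_mod_cast congrArg (fun q : ℚ => (q : ℝ)) t_hbeB
  hpb := by
    rw [show PP.dual.f.pb = ((gpb : ℚ) : ℝ) from PP_gpb]
    have := congrArg (fun q : ℚ => (q : ℝ)) t_hpbB
    push_cast at this; exact this
  hpd := by
    rw [show PP.dual.f.pd = ((gpd : ℚ) : ℝ) from PP_gpd]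
    have := congrArg (fun q : ℚ => (q : ℝ)) t_hpdB
    push_cast at this; exact this
  KZ1 := by
    rw [HZ1, Dpx, Dpy]
    have := congrArg (fun q : ℚ => (q : ℝ)) t_KZ1_B
    push_cast at this; exact this
  KZ2 := by
    rw [HZ2, Drx, Dry]
    have := congrArg (fun q : ℚ => (q : ℝ)) t_KZ2_B
    push_cast at this; exact this
  lo := by
    rw [HZ2]
    show ((ZloB : ℚ) : ℝ) + ((kap : ℚ) : ℝ) * ((N : ℚ) : ℝ) ≤ _
    unfold ZloB; push_cast; linarith
  hi := by
    rw [HZ2]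
    show _ ≤ ((ZhiB : ℚ) : ℝ)
    show _ + ((kap : ℚ) : ℝ) * ((N : ℚ) : ℝ) ≤ ((ZhiB : ℚ) : ℝ)
    unfold ZhiB; push_cast; linarith

lemma numA : LayNum LA where
  pdN := by
    have := (Rat.cast_le (K := ℝ)).2 t_pdNA
    push_cast at this; exact this
  pbN := by
    have := (Rat.cast_le (K := ℝ)).2 t_pbNA
    push_cast at this; exact this

lemma numB : LayNum LB where
  pdN := by
    have := (Rat.cast_le (K := ℝ)).2 t_pdNB
    push_cast at this; exact this
  pbN := by
    have := (Rat.cast_le (K := ℝ)).2 t_pbNB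
    push_cast at this; exact this

lemma num : Num LA LB where
  thick := numA
  thin := numB
  z1 := by
    have := (Rat.cast_le (K := ℝ)).2 t_z1
    push_cast at this; exact this
  z2 := by
    have := (Rat.cast_le (K := ℝ)).2 t_z2
    push_cast at this; exact this
  z3 := by
    have := (Rat.cast_le (K := ℝ)).2 t_z3
    push_cast at this; exact this
  sep := by
    have := (Rat.cast_lt (K := ℝ)).2 t_sep
    push_cast at this; exact this

/-- the wave -/
noncomputable def W : Wave PP ((Z1A : ℚ) : ℝ) ((Z2A : ℚ) : ℝ) ((kap : ℚ) : ℝ) where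
  xb := ((xb : ℚ) : ℝ)
  xd := ((xd : ℚ) : ℝ)
  yb := ((yb : ℚ) : ℝ)
  yd := ((yd : ℚ) : ℝ)
  ab := ((ab : ℚ) : ℝ)
  ad := ((ad : ℚ) : ℝ)
  bb := ((bb : ℚ) : ℝ)
  bd := ((bd : ℚ) : ℝ)
  hab := by
    rw [PP_s]
    have := congrArg (fun q : ℚ => (q : ℝ)) t_hab
    push_cast at this; exact this
  had := by
    rw [PP_s]
    have := congrArg (fun q : ℚ => (q : ℝ)) t_had
    push_cast at this; exact this
  hbb := by
    rw [PP_s]
    have := congrArg (fun q : ℚ => (q : ℝ)) t_hbb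
    push_cast at this; exact this
  hbd := by
    rw [PP_s]
    have := congrArg (fun q : ℚ => (q : ℝ)) t_hbd
    push_cast at this; exact this
  nBb := by
    rw [PP_gpb]
    have := congrArg (fun q : ℚ => (q : ℝ)) t_nBb
    push_cast at this; exact this
  nBd := by
    rw [PP_gpd]
    have := congrArg (fun q : ℚ => (q : ℝ)) t_nBd
    push_cast at this; exact this
  nAb := by
    rw [PP_fpb]
    have := congrArg (fun q : ℚ => (q : ℝ)) t_nAb
    push_cast at this; exact this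
  nAd := by
    rw [PP_fpd]
    have := congrArg (fun q : ℚ => (q : ℝ)) t_nAd
    push_cast at this; exact this
  height := by
    rw [PP_s, PP_px, PP_py, PP_rx, PP_ry, pow_two]
    have := congrArg (fun q : ℚ => (q : ℝ)) t_height
    push_cast at this; exact this
  sgn := by exact_mod_cast t_sgn
  kx := by
    rw [PP_s, pow_two]
    have := (Rat.cast_le (K := ℝ)).2 t_kx
    push_cast at this; exact this
  ky := by
    rw [PP_s, pow_two]
    have := (Rat.cast_le (K := ℝ)).2 t_ky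
    push_cast at this; exact this
  kZ := by
    have := (Rat.cast_le (K := ℝ)).2 t_kZ
    push_cast at this; exact this

end Par

/-- The parameters exist. -/
theorem exists_params : ∃ (P : Plan) (Λ Λ' : Lay) (Z1 Z2 κ H : ℝ),
    P.s = 10 ^ 24 + 1 ∧ Nonempty (Wave P Z1 Z2 κ) ∧ Compat P Λ Z1 Z2 κ ∧
    Compat P.dual Λ' (H - Z1) (H - Z2) κ ∧ Num Λ Λ' :=
  ⟨Par.PP, Par.LA, Par.LB, _, _, _, ((Par.H : ℚ) : ℝ), rfl, ⟨Par.W⟩, Par.compatA, Par.compatB,
    Par.num⟩

end Pool.Agent.DAF
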