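import Pool.Agent.DAF.Data

open Set Topology

namespace Pool.Agent.DAF

namespace Plan

variable (P : Plan)

lemma ss_eq : P.s * P.s = P.N + 1 := by unfold N; ring

lemma N_cast : (P.N : ℝ) = (P.s : ℝ) ^ 2 - 1 := by unfold N; push_cast; ring

lemma N_gt : 1 < P.N := by
  have h := P.s_ge
  have h2 := P.ss_eq
  nlinarith

/-- the index `(-s n) mod N` -/
def idx (n : ℤ) : ℤ := (-P.s * n) % P.N

lemma idx_spec (n : ℤ) : ∃ m : ℤ, P.idx n = P.s * (-n) + m * P.N := by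
  refine ⟨-((-P.s * n) / P.N), ?_⟩
  have h := Int.emod_add_mul_ediv (-P.s * n) P.N
  unfold idx
  linarith

lemma dvd_of_dvd_s_mul {n : ℤ} (h : P.N ∣ P.s * n) : P.N ∣ n := by
  have h1 : P.N ∣ P.s * (P.s * n) := Dvd.dvd.mul_left h P.s
  have h2 : P.s * (P.s * n) = P.N * n + n := by
    rw [← mul_assoc, P.ss_eq]; ring
  rw [h2] at h1
  exact (Int.dvd_add_right (Dvd.intro n rfl)).1 h1

lemma idx_range {n : ℤ} (h1 : 1 ≤ n) (h2 : n ≤ P.N - 1) : 1 ≤ P.idx n ∧ P.idx n ≤ P.N - 1 := by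
  have hN := P.N_gt
  have h3 : 0 ≤ P.idx n := Int.emod_nonneg _ (by omega)
  have h4 : P.idx n < P.N := Int.emod_lt_of_pos _ (by omega)
  have h5 : P.idx n ≠ 0 := by
    intro h
    have h6 : P.N ∣ -P.s * n := Int.dvd_of_emod_eq_zero h
    have h7 : P.N ∣ P.s * n := by
      have := (dvd_neg.2 h6)
      simpa using this
    have h8 := Int.le_of_dvd (by omega) (P.dvd_of_dvd_s_mul h7)
    omega
  omega

lemma idx_inj {n n' : ℤ} (h1 : 1 ≤ n) (h2 : n ≤ P.N - 1) (h1' : 1 ≤ n') (h2' : n' ≤ P.N - 1)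
    (h : P.idx n = P.idx n') : n = n' := by
  have h3 : P.N ∣ (-P.s * n) - (-P.s * n') :=
    Int.ModEq.dvd (show (-P.s * n') ≡ (-P.s * n) [ZMOD P.N] from h.symm)
  have h4 : P.N ∣ P.s * (n' - n) := by
    have e : (-P.s * n) - (-P.s * n') = P.s * (n' - n) := by ring
    rwa [e] at h3
  have h5 := P.dvd_of_dvd_s_mul h4
  by_contra hne
  have h6 : |n' - n| < P.N := by
    rw [abs_lt]; constructor <;> omega
  exact hne (by
    have := Int.eq_zero_of_abs_lt_dvd h5 h6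
    omega)

lemma w_add (c a m : ℤ) (y b : ℝ) (hb : b = P.s * a + m * P.N) :
    P.w (c + a) (y + b) = P.w c y + a := by
  have h := P.f.f_add_N (y - P.s * c - P.s / 2) m
  rw [P.fN, ← P.N_cast] at h
  unfold w
  rw [← h, hb]
  push_cast
  have e : y + (P.s * a + m * P.N) - P.s * (c + a) - (P.s : ℝ) / 2
      = y - P.s * c - P.s / 2 + m * P.N := by ring
  rw [e]
  ring

lemma r_add (i b a m : ℤ) (x : ℝ) (hb : b = P.s * a + m * P.N) :
    P.r (i + b) (x + a) = P.r i x + b := by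
  have h := P.g.f_add_N (x - P.s * i - P.s / 2) (-(a + P.s * m))
  rw [P.gN, ← P.N_cast] at h
  unfold r
  rw [← h]
  have hs : (P.s : ℝ) * P.s = P.N + 1 := by exact_mod_cast P.ss_eq
  have hb' : (b : ℝ) = P.s * a + m * P.N := by exact_mod_cast hb
  push_cast
  have e : x + a - P.s * (i + b) - (P.s : ℝ) / 2
      = x - P.s * i - P.s / 2 + -(a + P.s * m) * P.N := by
    rw [hb']
    linear_combination (-(a : ℝ)) * hs
  rw [e]
  ring

lemma cell_add {c i a b m : ℤ} {x y : ℝ} (hb : b = P.s * a + m * P.N) (h : P.Cell c i x y) :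
    P.Cell (c + a) (i + b) (x + a) (y + b) := by
  obtain ⟨h1, h2, h3, h4⟩ := h
  have hb' : (b : ℝ) = P.s * a + m * P.N := by exact_mod_cast hb
  refine ⟨?_, ?_, ?_, ?_⟩
  · rw [show c + a - 1 = (c - 1) + a by ring, P.w_add (c - 1) a m y b hb']
    linarith
  · rw [P.w_add c a m y b hb']
    linarith
  · rw [show i + b - 1 = (i - 1) + b by ring, P.r_add (i - 1) b a m x hb]
    linarith
  · rw [P.r_add i b a m x hb]
    linarith

lemma lat_swap {a b : ℝ} (h : P.Lat a b) : P.Lat b a := by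
  obtain ⟨i, m, ha, hb⟩ := h
  refine ⟨P.s * i + m * P.N, -(i + P.s * m), ?_, ?_⟩
  · rw [hb]; push_cast; ring
  · have hs : (P.s : ℝ) * P.s = P.N + 1 := by exact_mod_cast P.ss_eq
    rw [ha]
    push_cast
    linear_combination (-(i : ℝ)) * hs

end Plan

/-- Exchange of the two coordinates and reversal of the height. -/
theorem PsiData.exists_dual (P : Plan) {Ψ : ℝ → ℝ → ℝ} {Z1 Z2 κ : ℝ} {gx gy q : ℤ → ℝ}
    (h : PsiData P Ψ Z1 Z2 κ gx gy q) (H : ℝ) :
    ∃ gx' gy' q' : ℤ → ℝ,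
      PsiData P.dual (fun x y => H - Ψ y x) (H - Z1) (H - Z2) κ gx' gy' q' := by
  refine ⟨fun n => -gy (P.idx n), fun n => -gx (P.idx n),
    fun n => H - (-gx (P.idx n) * n + gy (P.idx n) * (P.idx n : ℝ) + q (P.idx n)), ?_⟩
  constructor
  · intro a b hab x y
    have hab' : P.Lat a b := hab
    have := h.per b a (P.lat_swap hab') y x
    simp only [this]
  · intro x y
    simp only [h.even y x]
  · intro x y x' y'
    have h1 := h.lip y x y' x'
    have e : (H - Ψ y x) - (H - Ψ y' x') = -(Ψ y x - Ψ y' x') := by ring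
    show |(H - Ψ y x) - (H - Ψ y' x')| ≤ κ * (|x - x'| + |y - y'|)
    rw [e, abs_neg, add_comm |x - x'|]
    exact h1
  · intro t ht
    have h1 := h.sideN t ht
    show H - Ψ (P.dual.ry + t * (P.dual.py - P.dual.ry)) (P.dual.rx + t * (P.dual.px - P.dual.rx))
      = _
    have e1 : P.dual.ry + t * (P.dual.py - P.dual.ry) = -P.rx + t * (P.px + P.rx) := by
      simp only [Plan.ry, Plan.py, Plan.rx, Plan.px, Plan.dual]; ring
    have e2 : P.dual.rx + t * (P.dual.px - P.dual.rx) = -P.ry + t * (P.py + P.ry) := by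
      simp only [Plan.ry, Plan.py, Plan.rx, Plan.px, Plan.dual]; ring
    rw [e1, e2, h1]
    ring
  · intro t ht
    have h1 := h.sideE t ht
    show H - Ψ (-P.dual.ry + t * (P.dual.py + P.dual.ry))
      (-P.dual.rx + t * (P.dual.px + P.dual.rx)) = _
    have e1 : -P.dual.ry + t * (P.dual.py + P.dual.ry) = P.rx + t * (P.px - P.rx) := by
      simp only [Plan.ry, Plan.py, Plan.rx, Plan.px, Plan.dual]; ring
    have e2 : -P.dual.rx + t * (P.dual.px + P.dual.rx) = P.ry + t * (P.py - P.ry) := by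
      simp only [Plan.ry, Plan.py, Plan.rx, Plan.px, Plan.dual]; ring
    rw [e1, e2, h1]
    ring
  · intro n hn1 hn2 x y hc
    have hn2' : n ≤ P.N - 1 := hn2
    obtain ⟨m, hm⟩ := P.idx_spec n
    obtain ⟨hi1, hi2⟩ := P.idx_range hn1 hn2'
    have hc' : P.Cell n 0 y x := ⟨hc.2.2.1, hc.2.2.2, hc.1, hc.2.1⟩
    have h1 := P.cell_add (a := -n) (b := P.idx n) (m := m) hm hc'
    rw [show n + -n = (0 : ℤ) by ring, zero_add] at h1
    have h2 := h.cell _ hi1 hi2 _ _ h1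
    have hlat : P.Lat ((-n : ℤ) : ℝ) (P.idx n : ℝ) := ⟨-n, m, rfl, by
      rw [hm]; push_cast; ring⟩
    rw [h.per _ _ hlat] at h2
    show H - Ψ y x = _
    rw [h2]
    push_cast
    ring
  · intro n hn1 hn2
    have hn2' : n ≤ P.N - 1 := hn2
    obtain ⟨hi1, hi2⟩ := P.idx_range hn1 hn2'
    have h1 := h.slope _ hi1 hi2
    simp only [abs_neg]
    exact ⟨h1.2, h1.1⟩
  · intro n n' hn1 hn2 hn1' hn2' hne hcon
    have hn3 : n ≤ P.N - 1 := hn2
    have hn3' : n' ≤ P.N - 1 := hn2'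
    obtain ⟨hi1, hi2⟩ := P.idx_range hn1 hn3
    obtain ⟨hi1', hi2'⟩ := P.idx_range hn1' hn3'
    refine h.inj _ _ hi1 hi2 hi1' hi2' (fun e => hne (P.idx_inj hn1 hn3 hn1' hn3' e)) ?_
    simp only [neg_inj] at hcon
    exact ⟨hcon.2, hcon.1⟩

end Pool.Agent.DAF
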