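import Pool.Agent.DAF.Plan

open Set Filter Topology

namespace Pool.Agent.DAF

namespace Plan

variable (P : Plan)

/-! ### Basic facts on the pattern -/

lemma cast_N : ((P.N : ℤ) : ℝ) = (P.s : ℝ) ^ 2 - 1 := by
  unfold N; push_cast; ring

lemma s_ge' : (1000 : ℝ) ≤ (P.s : ℝ) := by exact_mod_cast P.s_ge

lemma s_pos : 0 < P.s := by have := P.s_ge; omega

lemma N_eq : P.N = P.s * P.s - 1 := by unfold N; ring

lemma N_pos : 0 < P.N := by
  have := P.s_ge; rw [N_eq]; nlinarith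

lemma s_lt_N : 2 * P.s < P.N := by
  have := P.s_ge; rw [N_eq]; nlinarith

/-- column condition -/
def Col (c : ℤ) (x y : ℝ) : Prop := P.w (c - 1) y ≤ x ∧ x ≤ P.w c y

/-- row condition -/
def Row (i : ℤ) (x y : ℝ) : Prop := P.r (i - 1) x ≤ y ∧ y ≤ P.r i x

lemma cell_iff (c i : ℤ) (x y : ℝ) : P.Cell c i x y ↔ P.Col c x y ∧ P.Row i x y := by
  unfold Cell Col Row; tauto

lemma w_lt (c : ℤ) (y : ℝ) : P.w c y < c + 1 := by
  have h := abs_le.1 (P.f.f_abs (y - P.s * c - P.s / 2))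
  have := P.f.u2_lt
  unfold w; linarith [h.2]

lemma lt_w (c : ℤ) (y : ℝ) : (c : ℝ) < P.w c y := by
  have h := abs_le.1 (P.f.f_abs (y - P.s * c - P.s / 2))
  have := P.f.u2_lt
  unfold w; linarith [h.1]

lemma r_lt (i : ℤ) (x : ℝ) : P.r i x < i + 1 := by
  have h := abs_le.1 (P.g.f_abs (x - P.s * i - P.s / 2))
  have := P.g.u2_lt
  unfold r; linarith [h.2]

lemma lt_r (i : ℤ) (x : ℝ) : (i : ℝ) < P.r i x := by
  have h := abs_le.1 (P.g.f_abs (x - P.s * i - P.s / 2))
  have := P.g.u2_lt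
  unfold r; linarith [h.1]

lemma w_lt_w {c c' : ℤ} (h : c < c') (y : ℝ) : P.w c y < P.w c' y := by
  have h1 := P.w_lt c y
  have h2 := P.lt_w c' y
  have h3 : (c : ℝ) + 1 ≤ c' := by exact_mod_cast h
  linarith

lemma r_lt_r {i i' : ℤ} (h : i < i') (x : ℝ) : P.r i x < P.r i' x := by
  have h1 := P.r_lt i x
  have h2 := P.lt_r i' x
  have h3 : (i : ℝ) + 1 ≤ i' := by exact_mod_cast h
  linarith

lemma w_shift (c k m : ℤ) (y : ℝ) : P.w (c + k) (y + (P.s * k + m * P.N)) = P.w c y + k := by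
  unfold w
  have e : y + ((P.s : ℝ) * k + m * P.N) - P.s * ((c + k : ℤ) : ℝ) - P.s / 2 =
      (y - P.s * c - P.s / 2) + m * P.f.N := by
    rw [P.cast_N, P.fN]; push_cast; ring
  rw [e, P.f.f_add_N]
  push_cast; ring

lemma r_shift (i k m : ℤ) (x : ℝ) : P.r (i + (P.s * k + m * P.N)) (x + k) =
    P.r i x + (P.s * k + m * P.N) := by
  unfold r
  have e : x + k - P.s * ((i + (P.s * k + m * P.N) : ℤ) : ℝ) - P.s / 2 =
      (x - P.s * i - P.s / 2) + ((-(k + P.s * m) : ℤ) : ℝ) * P.g.N := by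
    rw [P.gN]; push_cast; rw [P.cast_N]; ring
  rw [e, P.g.f_add_N]
  push_cast; ring

lemma w_neg (c : ℤ) (y : ℝ) : P.w (-c - 1) (-y) = -P.w c y := by
  unfold w
  have e : -y - P.s * ((-c - 1 : ℤ) : ℝ) - P.s / 2 = -(y - P.s * c - P.s / 2) := by
    push_cast; ring
  rw [e, P.f.f_neg]; push_cast; ring

lemma r_neg (i : ℤ) (x : ℝ) : P.r (-i - 1) (-x) = -P.r i x := by
  unfold r
  have e : -x - P.s * ((-i - 1 : ℤ) : ℝ) - P.s / 2 = -(x - P.s * i - P.s / 2) := by
    push_cast; ring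
  rw [e, P.g.f_neg]; push_cast; ring

lemma col_shift (c k m : ℤ) (x y : ℝ) :
    P.Col (c + k) (x + k) (y + (P.s * k + m * P.N)) ↔ P.Col c x y := by
  unfold Col
  rw [show c + k - 1 = (c - 1) + k by ring, w_shift, w_shift]
  constructor
  · rintro ⟨h1, h2⟩; exact ⟨by linarith, by linarith⟩
  · rintro ⟨h1, h2⟩; exact ⟨by linarith, by linarith⟩

lemma row_shift (i k m : ℤ) (x y : ℝ) :
    P.Row (i + (P.s * k + m * P.N)) (x + k) (y + (P.s * k + m * P.N)) ↔ P.Row i x y := by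
  unfold Row
  rw [show i + (P.s * k + m * P.N) - 1 = (i - 1) + (P.s * k + m * P.N) by ring, r_shift, r_shift]
  constructor
  · rintro ⟨h1, h2⟩; exact ⟨by linarith, by linarith⟩
  · rintro ⟨h1, h2⟩; exact ⟨by linarith, by linarith⟩

lemma col_neg (c : ℤ) (x y : ℝ) : P.Col (-c) (-x) (-y) ↔ P.Col c x y := by
  unfold Col
  have h1 := P.w_neg c y
  have h2 := P.w_neg (c - 1) y
  rw [show -(c - 1) - 1 = -c by ring] at h2
  rw [h1, h2]
  constructor
  · rintro ⟨h1, h2⟩; exact ⟨by linarith, by linarith⟩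
  · rintro ⟨h1, h2⟩; exact ⟨by linarith, by linarith⟩

lemma row_neg (i : ℤ) (x y : ℝ) : P.Row (-i) (-x) (-y) ↔ P.Row i x y := by
  unfold Row
  have h1 := P.r_neg i x
  have h2 := P.r_neg (i - 1) x
  rw [show -(i - 1) - 1 = -i by ring] at h2
  rw [h1, h2]
  constructor
  · rintro ⟨h1, h2⟩; exact ⟨by linarith, by linarith⟩
  · rintro ⟨h1, h2⟩; exact ⟨by linarith, by linarith⟩

lemma exists_col (x y : ℝ) : ∃ c : ℤ, (c = ⌊x⌋ ∨ c = ⌊x⌋ + 1) ∧ P.Col c x y := by
  have h1 := Int.floor_le x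
  have h2 := Int.lt_floor_add_one x
  rcases le_total x (P.w ⌊x⌋ y) with h | h
  · refine ⟨⌊x⌋, Or.inl rfl, ?_, h⟩
    have := P.w_lt (⌊x⌋ - 1) y
    push_cast at this
    linarith
  · refine ⟨⌊x⌋ + 1, Or.inr rfl, ?_, ?_⟩
    · rw [add_sub_cancel_right]; exact h
    · have := P.lt_w (⌊x⌋ + 1) y
      push_cast at this
      linarith

lemma exists_row (x y : ℝ) : ∃ i : ℤ, (i = ⌊y⌋ ∨ i = ⌊y⌋ + 1) ∧ P.Row i x y := by
  have h1 := Int.floor_le y
  have h2 := Int.lt_floor_add_one y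
  rcases le_total y (P.r ⌊y⌋ x) with h | h
  · refine ⟨⌊y⌋, Or.inl rfl, ?_, h⟩
    have := P.r_lt (⌊y⌋ - 1) x
    push_cast at this
    linarith
  · refine ⟨⌊y⌋ + 1, Or.inr rfl, ?_, ?_⟩
    · rw [add_sub_cancel_right]; exact h
    · have := P.lt_r (⌊y⌋ + 1) x
      push_cast at this
      linarith

lemma col_adj {c c' : ℤ} {x y : ℝ} (h : P.Col c x y) (h' : P.Col c' x y) (hlt : c < c') :
    c' = c + 1 := by
  by_contra hne
  have : c < c' - 1 := by omega
  have := P.w_lt_w this y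
  linarith [h.2, h'.1]

lemma row_adj {i i' : ℤ} {x y : ℝ} (h : P.Row i x y) (h' : P.Row i' x y) (hlt : i < i') :
    i' = i + 1 := by
  by_contra hne
  have : i < i' - 1 := by omega
  have := P.r_lt_r this x
  linarith [h.2, h'.1]

/-! ### Corners -/

lemma w0_lip (c : ℤ) (y y' : ℝ) : |P.w c y - P.w c y'| ≤ 1 / 100 * |y - y'| := by
  have h := P.f.f_lip (y - P.s * c - P.s / 2) (y' - P.s * c - P.s / 2)
  rw [show y - P.s * c - P.s / 2 - (y' - P.s * c - P.s / 2) = y - y' by ring] at h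
  unfold w
  rw [show (c : ℝ) + 1 / 2 + P.f.f (y - P.s * c - P.s / 2) -
    (c + 1 / 2 + P.f.f (y' - P.s * c - P.s / 2)) =
    P.f.f (y - P.s * c - P.s / 2) - P.f.f (y' - P.s * c - P.s / 2) by ring]
  exact h.trans (mul_le_mul_of_nonneg_right P.fm (abs_nonneg _))

lemma r_lip (i : ℤ) (x x' : ℝ) : |P.r i x - P.r i x'| ≤ 1 / 100 * |x - x'| := by
  have h := P.g.f_lip (x - P.s * i - P.s / 2) (x' - P.s * i - P.s / 2)
  rw [show x - P.s * i - P.s / 2 - (x' - P.s * i - P.s / 2) = x - x' by ring] at h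
  unfold r
  rw [show (i : ℝ) + 1 / 2 + P.g.f (x - P.s * i - P.s / 2) -
    (i + 1 / 2 + P.g.f (x' - P.s * i - P.s / 2)) =
    P.g.f (x - P.s * i - P.s / 2) - P.g.f (x' - P.s * i - P.s / 2) by ring]
  exact h.trans (mul_le_mul_of_nonneg_right P.gm (abs_nonneg _))

/-- crossing lemmas: `(a, b)` is the crossing point of the wall `c` and the row line `n`. -/
lemma cross_le {c n : ℤ} {a b x y : ℝ} (h1 : P.w c b = a) (h2 : P.r n a = b)
    (hx : x ≤ P.w c y) (hy : y = P.r n x) : x ≤ a := by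
  by_contra hcon
  push Not at hcon
  have l1 := abs_le.1 (P.w0_lip c y b)
  have l2 := P.r_lip n x a
  rw [h1] at l1
  rw [h2, ← hy] at l2
  rw [abs_of_pos (by linarith : 0 < x - a)] at l2
  linarith [l1.2, abs_nonneg (y - b)]

lemma cross_ge {c n : ℤ} {a b x y : ℝ} (h1 : P.w c b = a) (h2 : P.r n a = b)
    (hx : P.w c y ≤ x) (hy : y = P.r n x) : a ≤ x := by
  by_contra hcon
  push Not at hcon
  have l1 := abs_le.1 (P.w0_lip c y b)
  have l2 := P.r_lip n x a
  rw [h1] at l1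
  rw [h2, ← hy] at l2
  rw [abs_of_neg (by linarith : x - a < 0)] at l2
  linarith [l1.1, abs_nonneg (y - b)]

lemma cross_up {c n : ℤ} {a b x y : ℝ} (h1 : P.w c b = a) (h2 : P.r n a = b)
    (hx : x = P.w c y) (hy : P.r n x ≤ y) : b ≤ y := by
  by_contra hcon
  push Not at hcon
  have l1 := P.w0_lip c y b
  have l2 := abs_le.1 (P.r_lip n x a)
  rw [h1, ← hx] at l1
  rw [h2] at l2
  rw [abs_of_neg (by linarith : y - b < 0)] at l1
  linarith [l2.1, abs_nonneg (x - a)]

lemma cross_down {c n : ℤ} {a b x y : ℝ} (h1 : P.w c b = a) (h2 : P.r n a = b)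
    (hx : x = P.w c y) (hy : y ≤ P.r n x) : y ≤ b := by
  by_contra hcon
  push Not at hcon
  have l1 := P.w0_lip c y b
  have l2 := abs_le.1 (P.r_lip n x a)
  rw [h1, ← hx] at l1
  rw [h2] at l2
  rw [abs_of_pos (by linarith : 0 < y - b)] at l1
  linarith [l2.2, abs_nonneg (x - a)]

lemma w0_p : P.w 0 P.py = P.px := by
  unfold w py px
  have e : 1 / 2 + P.g.u1 - P.s * ((0 : ℤ) : ℝ) - P.s / 2 = -P.f.a1 := by
    rw [P.fa1]; push_cast; ring
  rw [e, P.f.f_neg, P.f.f_a1]; push_cast; ring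

lemma r0_p : P.r 0 P.px = P.py := by
  unfold r py px
  have e : 1 / 2 + P.f.u1 - P.s * ((0 : ℤ) : ℝ) - P.s / 2 = -P.g.a1 := by
    rw [P.ga1]; push_cast; ring
  rw [e, P.g.f_neg, P.g.f_a1]; push_cast; ring

lemma w0_r : P.w 0 P.ry = P.rx := by
  unfold w ry rx
  have e : -(1 / 2) - P.g.u2 - P.s * ((0 : ℤ) : ℝ) - P.s / 2 = -P.f.a2 := by
    rw [P.fa2]; push_cast; ring
  rw [e, P.f.f_neg, P.f.f_a2]; push_cast; ring

lemma r1_r : P.r (-1) P.rx = P.ry := by
  unfold r ry rx
  have e : 1 / 2 + P.f.u2 - P.s * ((-1 : ℤ) : ℝ) - P.s / 2 = P.g.a2 := by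
    rw [P.ga2]; push_cast; ring
  rw [e, P.g.f_a2]; push_cast; ring

/-- the point reflection in `(1/2, s/2)` -/
lemma w_refl (y : ℝ) : P.w 0 (P.s - y) = 1 - P.w 0 y := by
  unfold w
  have e : P.s - y - P.s * ((0 : ℤ) : ℝ) - P.s / 2 = -(y - P.s * ((0 : ℤ) : ℝ) - P.s / 2) := by
    push_cast; ring
  rw [e, P.f.f_neg]; push_cast; ring

lemma r_refl (n : ℤ) (x : ℝ) : P.r (P.s - 1 - n) (1 - x) = P.s - P.r n x := by
  have h1 := P.r_neg n x
  have h2 := P.r_shift (-n - 1) 1 0 (-x)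
  rw [h1] at h2
  rw [show P.s - 1 - n = -n - 1 + (P.s * 1 + 0 * P.N) by ring,
    show (1 : ℝ) - x = -x + ((1 : ℤ) : ℝ) by push_cast; ring, h2]
  push_cast; ring

lemma w0_p' : P.w 0 (P.s - P.py) = 1 - P.px := by rw [w_refl, w0_p]
lemma r_p' : P.r (P.s - 1) (1 - P.px) = P.s - P.py := by
  have := P.r_refl 0 P.px
  rw [sub_zero, r0_p] at this
  exact this
lemma w0_r' : P.w 0 (P.s - P.ry) = 1 - P.rx := by rw [w_refl, w0_r]
lemma r_r' : P.r P.s (1 - P.rx) = P.s - P.ry := by
  have := P.r_refl (-1) P.rx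
  rw [show P.s - 1 - (-1) = P.s by ring, r1_r] at this
  exact this

/-- the point reflection in `(0, N/2)` -/
lemma w_reflN (y : ℝ) : P.w (-1) (P.N - y) = - P.w 0 y := by
  have h1 := P.w_neg 0 y
  have h2 := P.w_shift (-1) 0 1 (-y)
  rw [show (-1 : ℤ) + 0 = -0 - 1 by ring] at h2
  rw [show ((-1 : ℤ)) = -0 - 1 by ring] at *
  rw [h1] at h2
  rw [show (P.N : ℝ) - y = -y + (P.s * ((0 : ℤ) : ℝ) + ((1 : ℤ) : ℝ) * P.N) by push_cast; ring, h2]
  push_cast; ring

lemma r_reflN (n : ℤ) (x : ℝ) : P.r (P.N - 1 - n) (-x) = P.N - P.r n x := by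
  have h1 := P.r_neg n x
  have h2 := P.r_shift (-n - 1) 0 1 (-x)
  rw [h1] at h2
  rw [show P.N - 1 - n = -n - 1 + (P.s * 0 + 1 * P.N) by ring,
    show -x = -x + ((0 : ℤ) : ℝ) by push_cast; ring, h2]
  push_cast; ring

/-! ### The row lines -/

/-- centre of the row line `k`, up to `N/2` -/
noncomputable def M (k : ℤ) : ℝ := P.s * (k + 1) - P.N * (((k + 1) / P.s : ℤ) : ℝ) - P.s / 2

/-- the affine function describing the row line `k` in column `0` -/
noncomputable def l (k : ℤ) (x : ℝ) : ℝ :=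
  if P.s ∣ k + 1 then k + 1 / 2 + P.g.pb * (x - P.M k)
  else k + 1 / 2 + P.g.pd * (x - P.M k + P.N / 2)

lemma M_shift (k : ℤ) : P.M (k - P.s) = P.M k - 1 := by
  have h : (k - P.s + 1) / P.s = (k + 1) / P.s - 1 := by
    rw [show k - P.s + 1 = (k + 1) + (-1) * P.s by ring,
      Int.add_mul_ediv_right _ _ P.s_pos.ne']; ring
  unfold M
  rw [h]
  push_cast
  rw [P.cast_N]
  ring

lemma dvd_shift (k : ℤ) : P.s ∣ (k - P.s) + 1 ↔ P.s ∣ k + 1 := by
  rw [show (k - P.s) + 1 = (k + 1) - P.s by ring]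
  exact dvd_sub_self_right

lemma dvd_reflN (k : ℤ) : P.s ∣ (P.N - 1 - k) + 1 ↔ P.s ∣ k + 1 := by
  rw [show (P.N - 1 - k) + 1 = P.s * P.s - (k + 1) by rw [N_eq]; ring]
  constructor
  · intro h
    have := dvd_sub (dvd_mul_right P.s P.s) h
    rwa [sub_sub_cancel] at this
  · intro h
    exact dvd_sub (dvd_mul_right P.s P.s) h

lemma M_refl_b {k : ℤ} (h : P.s ∣ k + 1) : P.M (P.N - 1 - k) = - P.M k := by
  obtain ⟨j, hj⟩ := h
  have h1 : (k + 1) / P.s = j := by rw [hj]; exact Int.mul_ediv_cancel_left _ P.s_pos.ne'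
  have h2 : (P.N - 1 - k + 1) / P.s = P.s - j := by
    rw [show P.N - 1 - k + 1 = P.s * (P.s - j) by rw [N_eq]; linarith]
    exact Int.mul_ediv_cancel_left _ P.s_pos.ne'
  unfold M
  rw [h1, h2]
  have hj' : (k : ℝ) + 1 = P.s * j := by exact_mod_cast hj
  push_cast
  rw [hj', P.cast_N]
  have : (k : ℝ) = P.s * j - 1 := by linarith
  rw [this]
  ring

lemma M_refl_d {k : ℤ} (h : ¬ P.s ∣ k + 1) : P.M (P.N - 1 - k) = P.N - P.M k := by
  have hs := P.s_pos
  have hm := Int.emod_nonneg (k + 1) hs.ne'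
  have hm' := Int.emod_lt_of_pos (k + 1) hs
  have hm0 : (k + 1) % P.s ≠ 0 := fun h0 => h (Int.dvd_of_emod_eq_zero h0)
  have hd := Int.emod_add_mul_ediv (k + 1) P.s
  set j := (k + 1) / P.s with hj
  set e := (k + 1) % P.s with he
  have h2 : (P.N - 1 - k + 1) / P.s = P.s - 1 - j := by
    rw [show P.N - 1 - k + 1 = (P.s - e) + P.s * (P.s - 1 - j) by rw [N_eq]; linarith,
      Int.add_mul_ediv_left _ _ hs.ne', Int.ediv_eq_zero_of_lt (by omega) (by omega)]
    ring
  unfold M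
  rw [← hj, h2]
  push_cast
  rw [P.cast_N]
  ring

lemma l_shift (k : ℤ) (x : ℝ) : P.l (k - P.s) (x - 1) + P.s = P.l k x := by
  unfold l
  by_cases h : P.s ∣ k + 1
  · rw [if_pos h, if_pos ((P.dvd_shift k).2 h), M_shift]
    push_cast; ring
  · rw [if_neg h, if_neg (fun h' => h ((P.dvd_shift k).1 h')), M_shift]
    push_cast; ring

lemma l_refl (k : ℤ) (x : ℝ) : P.l (P.N - 1 - k) (-x) = P.N - P.l k x := by
  unfold l
  by_cases h : P.s ∣ k + 1
  · rw [if_pos h, if_pos ((P.dvd_reflN k).2 h), P.M_refl_b h]; push_cast; ring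
  · rw [if_neg h, if_neg (fun h' => h ((P.dvd_reflN k).1 h')), P.M_refl_d h]; push_cast; ring

lemma ndvd_small {k : ℤ} (h1 : 1 ≤ k) (h2 : k ≤ P.s - 2) : ¬ P.s ∣ k + 1 := by
  intro h
  have := Int.le_of_dvd (by omega) h
  omega

lemma ndvd_small' {k : ℤ} (h1 : 1 ≤ k) (h2 : k ≤ P.s - 2) : ¬ P.s ∣ (k - P.s + P.N) + 1 := by
  intro h
  have h3 : P.s ∣ k := by
    rw [show k - P.s + P.N + 1 = k + P.s * (P.s - 1) by rw [N_eq]; ring] at h
    have := dvd_sub h (dvd_mul_right P.s (P.s - 1))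
    rwa [add_sub_cancel_right] at this
  have := Int.le_of_dvd (by omega) h3
  omega

lemma M_shift' {k : ℤ} (h1 : 1 ≤ k) (h2 : k ≤ P.s - 2) : P.M (k - P.s + P.N) = P.M k - 1 := by
  have hs := P.s_pos
  have e1 : (k - P.s + P.N + 1) / P.s = P.s - 1 := by
    rw [show k - P.s + P.N + 1 = k + P.s * (P.s - 1) by rw [N_eq]; ring,
      Int.add_mul_ediv_left _ _ hs.ne', Int.ediv_eq_zero_of_lt (by omega) (by omega)]
    ring
  have e2 : (k + 1) / P.s = 0 := Int.ediv_eq_zero_of_lt (by omega) (by omega)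
  unfold M
  rw [e1, e2]
  push_cast
  rw [P.cast_N]
  ring

lemma l_shift' {k : ℤ} (h1 : 1 ≤ k) (h2 : k ≤ P.s - 2) (x : ℝ) :
    P.l (k - P.s + P.N) (x - 1) + P.s - P.N = P.l k x := by
  unfold l
  rw [if_neg (P.ndvd_small h1 h2), if_neg (P.ndvd_small' h1 h2), P.M_shift' h1 h2]
  push_cast; ring

/-- `r k = l k` on the interval around the centre. -/
lemma r_eq_l_b {k : ℤ} (h : P.s ∣ k + 1) {x : ℝ} (h1 : -P.g.a1 ≤ x - P.M k)
    (h2 : x - P.M k ≤ P.g.a1) : P.r k x = P.l k x := by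
  unfold r l
  rw [if_pos h]
  have e : x - P.s * k - P.s / 2 = (x - P.M k) + ((-((k + 1) / P.s) : ℤ) : ℝ) * P.g.N := by
    unfold M; rw [P.gN]; push_cast; rw [P.cast_N]; ring
  rw [e, P.g.f_add_N, P.g.f_b h1 h2]

lemma r_eq_l_d {k : ℤ} (h : ¬ P.s ∣ k + 1) {x : ℝ} (h1 : P.g.a2 - P.N ≤ x - P.M k)
    (h2 : x - P.M k ≤ -P.g.a2) : P.r k x = P.l k x := by
  unfold r l
  rw [if_neg h]
  have e : x - P.s * k - P.s / 2 = (x - P.M k + P.N) +
      ((-((k + 1) / P.s) - 1 : ℤ) : ℝ) * P.g.N := by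
    unfold M; rw [P.gN]; push_cast; rw [P.cast_N]; ring
  rw [e, P.g.f_add_N, P.g.f_d (by linarith) (by rw [P.gN, ← P.cast_N]; linarith), P.gN,
    ← P.cast_N]
  ring

/-- In column `0`, to the left of the wall `0`, the row line stays left of its right end. -/
lemma row_right_b {k : ℤ} (h : P.s ∣ k + 1) (hk : 1 ≤ k) {x y : ℝ}
    (hx : x ≤ P.w 0 y) (hy : y = P.r k x) : x - P.M k ≤ P.g.a1 := by
  obtain ⟨j, hj⟩ := h
  have hs := P.s_pos
  have hj1 : 1 ≤ j := by
    by_contra hcon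
    have : j ≤ 0 := by omega
    nlinarith
  have h1 : (k + 1) / P.s = j := by rw [hj]; exact Int.mul_ediv_cancel_left _ P.s_pos.ne'
  have hj' : (k : ℝ) + 1 = P.s * j := by exact_mod_cast hj
  have hM : P.M k = j - P.s / 2 := by
    unfold M; rw [h1, hj', P.cast_N]; ring
  rw [hM, P.ga1]
  have hu := P.f.u2_lt
  have hu' := P.f.u12
  rcases hj1.eq_or_lt with h2 | h2
  · subst h2
    have hk' : k = P.s - 1 := by omega
    subst hk'
    have := P.cross_le P.w0_p' P.r_p' hx hy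
    unfold px at this
    push_cast
    linarith
  · have h3 : (2 : ℝ) ≤ j := by exact_mod_cast h2
    have h4 := P.w_lt 0 y
    push_cast at h4
    have hu1 := P.f.u1_pos
    linarith

lemma row_right_d {k : ℤ} (h : ¬ P.s ∣ k + 1) (hk : 1 ≤ k) {x y : ℝ}
    (hx : x ≤ P.w 0 y) (hy : y = P.r k x) : x - P.M k ≤ -P.g.a2 := by
  have hs := P.s_pos
  have hs' := P.s_ge
  have hm := Int.emod_nonneg (k + 1) hs.ne'
  have hm' := Int.emod_lt_of_pos (k + 1) hs
  have hm0 : (k + 1) % P.s ≠ 0 := fun h0 => h (Int.dvd_of_emod_eq_zero h0)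
  have hd := Int.emod_add_mul_ediv (k + 1) P.s
  set j := (k + 1) / P.s with hj
  set e := (k + 1) % P.s with he
  have hj0 : 0 ≤ j := Int.ediv_nonneg (by omega) hs.le
  have hM : P.M k = (j + e * P.s : ℤ) - P.s / 2 := by
    have : (k : ℝ) + 1 = e + P.s * j := by exact_mod_cast hd.symm
    unfold M
    rw [← hj, this, P.cast_N]
    push_cast; ring
  rw [hM, P.ga2]
  have hu := P.f.u2_lt
  have hu' := P.f.u12
  have hu1 := P.f.u1_pos
  have h4 := P.w_lt 0 y
  push_cast at h4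
  have hge : P.s + 1 ≤ j + e * P.s := by
    have he1 : 1 ≤ e := by omega
    rcases he1.eq_or_lt with h2 | h2
    · rw [← h2]
      have : 1 ≤ j := by
        by_contra hcon
        have hj00 : j = 0 := by omega
        rw [hj00, ← h2] at hd
        omega
      linarith
    · nlinarith
  rcases hge.eq_or_lt with h2 | h2
  · -- k = s
    have he1 : e = 1 := by
      by_contra hcon
      have : 2 ≤ e := by omega
      nlinarith
    have hj1 : j = 1 := by rw [he1] at h2; linarith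
    have hk' : k = P.s := by rw [he1, hj1] at hd; linarith
    rw [← h2]
    rw [hk'] at hy
    have := P.cross_le P.w0_r' P.r_r' hx hy
    unfold rx at this
    push_cast
    linarith
  · have h3 : (P.s : ℝ) + 2 ≤ ((j + e * P.s : ℤ) : ℝ) := by
      exact_mod_cast (by omega : P.s + 2 ≤ j + e * P.s)
    linarith

lemma r_eq_l {k : ℤ} (hk : 1 ≤ k) (hk' : k ≤ P.N - 2) {x y : ℝ} (hc : P.Col 0 x y)
    (hy : y = P.r k x) : P.r k x = P.l k x := by
  -- reflected point
  have hx2 : -x ≤ P.w 0 (P.N - y) := by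
    have := P.w_reflN (P.N - y)
    rw [sub_sub_cancel] at this
    have h1 := hc.1
    rw [show (0 : ℤ) - 1 = -1 by ring, this] at h1
    linarith
  have hy2 : P.N - y = P.r (P.N - 1 - k) (-x) := by rw [P.r_reflN, hy]
  by_cases h : P.s ∣ k + 1
  · refine P.r_eq_l_b h ?_ (P.row_right_b h hk hc.2 hy)
    have := P.row_right_b ((P.dvd_reflN k).2 h) (by omega) hx2 hy2
    rw [P.M_refl_b h] at this
    linarith
  · refine P.r_eq_l_d h ?_ (P.row_right_d h hk hc.2 hy)
    have := P.row_right_d (fun h' => h ((P.dvd_reflN k).1 h')) (by omega) hx2 hy2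
    rw [P.M_refl_d h] at this
    linarith

/-! ### The wall `0` -/

/-- the `b`-part of the wall `0` -/
lemma wall_b {n : ℤ} (h1 : 1 ≤ n) (h2 : n ≤ P.s - 1) {x y : ℝ} (hx : x = P.w 0 y)
    (hr : P.Row n x y) : x = 1 / 2 + P.f.pb * (y - P.s / 2) := by
  have hu := P.g.u2_lt
  have hu' := P.g.u12
  have hu1 := P.g.u1_pos
  have hlow : P.py ≤ y := by
    rcases h1.eq_or_lt with h | h
    · subst h
      have := hr.1
      rw [sub_self] at this
      exact P.cross_up P.w0_p P.r0_p hx this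
    · have h3 := P.lt_r (n - 1) x
      have h4 : (2 : ℝ) ≤ n := by exact_mod_cast h
      push_cast at h3
      have h5 := hr.1
      unfold py
      linarith
  have hup : y ≤ P.s - P.py := by
    rcases h2.eq_or_lt with h | h
    · subst h
      exact P.cross_down P.w0_p' P.r_p' hx hr.2
    · have h3 := P.r_lt n x
      have h4 : (n : ℝ) + 1 ≤ P.s - 1 := by exact_mod_cast (by omega : n + 1 ≤ P.s - 1)
      have h5 := hr.2
      unfold py
      linarith
  unfold py at hlow hup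
  rw [hx]
  unfold w
  rw [P.f.f_b (by rw [P.fa1]; push_cast; linarith) (by rw [P.fa1]; push_cast; linarith)]
  push_cast; ring

/-- the `d`-part of the wall `0` -/
lemma wall_d {n : ℤ} (h1 : P.s + 1 ≤ n) (h2 : n ≤ P.N - 1) {x y : ℝ} (hx : x = P.w 0 y)
    (hr : P.Row n x y) : x = 1 / 2 + P.f.pd * (y - (P.s + P.N) / 2) := by
  have hu := P.g.u2_lt
  have hu' := P.g.u12
  have hu1 := P.g.u1_pos
  have hlow : P.s - P.ry ≤ y := by
    rcases h1.eq_or_lt with h | h
    · subst h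
      have := hr.1
      rw [add_sub_cancel_right] at this
      exact P.cross_up P.w0_r' P.r_r' hx this
    · have h3 := P.lt_r (n - 1) x
      have h4 : (P.s : ℝ) + 2 ≤ n := by exact_mod_cast (by omega : P.s + 2 ≤ n)
      push_cast at h3
      have h5 := hr.1
      unfold ry
      linarith
  have hup : y ≤ P.N + P.ry := by
    rcases h2.eq_or_lt with h | h
    · subst h
      have e1 : P.w 0 (P.N + P.ry) = P.rx := by
        have := P.w_shift 0 0 1 P.ry
        rw [w0_r] at this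
        rw [show (P.N : ℝ) + P.ry = P.ry + (P.s * ((0 : ℤ) : ℝ) + ((1 : ℤ) : ℝ) * P.N) by
          push_cast; ring]
        rw [show (0 : ℤ) = 0 + 0 by ring]
        rw [show (0 : ℤ) + 0 = 0 by ring] at *
        rw [this]; push_cast; ring
      have e2 : P.r (P.N - 1) P.rx = P.N + P.ry := by
        have := P.r_shift (-1) 0 1 P.rx
        rw [r1_r] at this
        rw [show P.N - 1 = -1 + (P.s * 0 + 1 * P.N) by ring,
          show P.rx = P.rx + ((0 : ℤ) : ℝ) by push_cast; ring]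
        rw [this]; push_cast; ring
      exact P.cross_down e1 e2 hx hr.2
    · have h3 := P.r_lt n x
      have h4 : (n : ℝ) + 1 ≤ P.N - 1 := by exact_mod_cast (by omega : n + 1 ≤ P.N - 1)
      have h5 := hr.2
      unfold ry
      linarith
  unfold ry at hlow hup
  rw [hx]
  unfold w
  rw [P.f.f_d (by rw [P.fa2]; push_cast; linarith)
    (by rw [P.fa2, P.fN, ← P.cast_N]; push_cast; linarith), P.fN, ← P.cast_N]
  push_cast; ring

end Plan

namespace Wave

variable {P : Plan} {Z1 Z2 κ : ℝ} (W : Wave P Z1 Z2 κ)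

/-- `x`-slope of `Ψ` on the cell `(0, n)` -/
noncomputable def gx (n : ℤ) : ℝ :=
  -(((P.s - 1) * W.xb + (P.s ^ 2 - P.s - 2) * W.xd) / 2) + ((n / P.s : ℤ) : ℝ) * W.xb +
    (n - 1 - ((n / P.s : ℤ) : ℝ)) * W.xd

/-- `y`-slope of `Ψ` on the cell `(0, n)` -/
noncomputable def gy (n : ℤ) : ℝ :=
  -(((P.s - 1) * W.bb + (P.s ^ 2 - P.s - 2) * W.bd) / 2) + ((n / P.s : ℤ) : ℝ) * W.bb +
    (n - 1 - ((n / P.s : ℤ) : ℝ)) * W.bd

/-- jump of the `y`-slope across the row line `k` -/
noncomputable def β (k : ℤ) : ℝ := if P.s ∣ k + 1 then W.bb else W.bd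

/-- constant terms, by recursion -/
noncomputable def Q : ℕ → ℝ
  | 0 => Z1 - W.gx 1 * P.px - W.gy 1 * P.py
  | (m + 1) => Q m - W.β ((m : ℤ) + 1) * P.l ((m : ℤ) + 1) 0

/-- constant terms -/
noncomputable def q (n : ℤ) : ℝ := W.Q (n - 1).toNat

/-- the affine function of the cell `(0, n)` -/
noncomputable def E (n : ℤ) (x y : ℝ) : ℝ := W.gx n * x + W.gy n * y + W.q n

lemma ediv_dvd {n : ℤ} (h : P.s ∣ n + 1) : (n + 1) / P.s = n / P.s + 1 := by
  have hs := P.s_pos
  obtain ⟨j, hj⟩ := h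
  rw [hj, Int.mul_ediv_cancel_left _ hs.ne', show n = (P.s - 1) + P.s * (j - 1) by linarith,
    Int.add_mul_ediv_left _ _ hs.ne', Int.ediv_eq_zero_of_lt (by omega) (by omega)]
  ring

lemma ediv_ndvd {n : ℤ} (h : ¬ P.s ∣ n + 1) : (n + 1) / P.s = n / P.s := by
  have hs := P.s_pos
  have hm := Int.emod_nonneg (n + 1) hs.ne'
  have hm' := Int.emod_lt_of_pos (n + 1) hs
  have hm0 : (n + 1) % P.s ≠ 0 := fun h0 => h (Int.dvd_of_emod_eq_zero h0)
  have hd := Int.emod_add_mul_ediv (n + 1) P.s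
  set j := (n + 1) / P.s with hj
  set e := (n + 1) % P.s with he
  rw [show n = (e - 1) + P.s * j by linarith, Int.add_mul_ediv_left _ _ hs.ne',
    Int.ediv_eq_zero_of_lt (by omega) (by omega)]
  ring

lemma E_succ {n : ℤ} (hn : 1 ≤ n) (x y : ℝ) :
    W.E (n + 1) x y = W.E n x y + W.β n * (y - P.l n x) := by
  obtain ⟨m, hm⟩ := Int.eq_ofNat_of_zero_le (show 0 ≤ n - 1 by omega)
  have hn' : n = (m : ℤ) + 1 := by omega
  have hq : W.q (n + 1) = W.q n - W.β n * P.l n 0 := by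
    unfold q
    rw [show (n + 1 - 1).toNat = m + 1 by omega, show (n - 1).toNat = m by omega, hn']
    rfl
  unfold E
  rw [hq]
  by_cases h : P.s ∣ n + 1
  · have e1 : P.l n x = P.l n 0 + P.g.pb * x := by
      unfold Plan.l; rw [if_pos h, if_pos h]; ring
    have e2 : W.β n = W.bb := by unfold β; rw [if_pos h]
    have e3 := W.nBb
    unfold gx gy
    rw [e1, e2, ediv_dvd h]
    push_cast
    linear_combination x * e3
  · have e1 : P.l n x = P.l n 0 + P.g.pd * x := by
      unfold Plan.l; rw [if_neg h, if_neg h]; ring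
    have e2 : W.β n = W.bd := by unfold β; rw [if_neg h]
    have e3 := W.nBd
    unfold gx gy
    rw [e1, e2, ediv_ndvd h]
    push_cast
    linear_combination x * e3

lemma β_refl (k : ℤ) : W.β (P.N - 1 - k) = W.β k := by
  unfold β
  by_cases h : P.s ∣ k + 1
  · rw [if_pos h, if_pos ((P.dvd_reflN k).2 h)]
  · rw [if_neg h, if_neg (fun h' => h ((P.dvd_reflN k).1 h'))]

lemma β_shift (k : ℤ) : W.β (k - P.s) = W.β k := by
  unfold β
  by_cases h : P.s ∣ k + 1
  · rw [if_pos h, if_pos ((P.dvd_shift k).2 h)]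
  · rw [if_neg h, if_neg (fun h' => h ((P.dvd_shift k).1 h'))]

lemma β_shift' {k : ℤ} (h1 : 1 ≤ k) (h2 : k ≤ P.s - 2) : W.β (k - P.s + P.N) = W.β k := by
  unfold β
  rw [if_neg (P.ndvd_small h1 h2), if_neg (P.ndvd_small' h1 h2)]

lemma div_one : (1 : ℤ) / P.s = 0 := Int.ediv_eq_zero_of_lt (by omega) (by have := P.s_ge; omega)

lemma div_last : (P.N - 1) / P.s = P.s - 1 := by
  have hs := P.s_ge
  rw [show P.N - 1 = (P.s - 2) + P.s * (P.s - 1) by rw [P.N_eq]; ring,
    Int.add_mul_ediv_left _ _ P.s_pos.ne', Int.ediv_eq_zero_of_lt (by omega) (by omega)]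
  ring

lemma div_s : (P.s + 1) / P.s = 1 := by
  have hs := P.s_ge
  rw [show P.s + 1 = 1 + P.s * 1 by ring,
    Int.add_mul_ediv_left _ _ P.s_pos.ne', Int.ediv_eq_zero_of_lt (by omega) (by omega)]
  ring

lemma div_N : (1 - P.s + P.N) / P.s = P.s - 1 := by
  have hs := P.s_ge
  rw [show 1 - P.s + P.N = P.s * (P.s - 1) by rw [P.N_eq]; ring]
  exact Int.mul_ediv_cancel_left _ P.s_pos.ne'

lemma gx_last : W.gx (P.N - 1) = -W.gx 1 := by
  unfold gx
  rw [div_last, div_one]
  push_cast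
  rw [P.cast_N]
  ring

lemma gy_last : W.gy (P.N - 1) = -W.gy 1 := by
  unfold gy
  rw [div_last, div_one]
  push_cast
  rw [P.cast_N]
  ring

/-- (i): the point reflection in `(0, N/2)`. -/
lemma E_refl {n : ℤ} (h1 : 1 ≤ n) (h2 : n ≤ P.N - 1) (x y : ℝ) :
    W.E (P.N - n) (-x) (P.N - y) = W.E n x y := by
  have hN := P.s_lt_N
  have hs := P.s_ge
  have key : ∀ n : ℤ, 1 ≤ n → n ≤ P.N - 1 → ∀ x y : ℝ,
      W.E (P.N - n) (-x) (P.N - y) - W.E n x y =
      W.E (P.N - 1) (-x) (P.N - y) - W.E 1 x y := by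
    intro n hn
    induction n, hn using Int.leInduction with
    | base => intro _ x y; rfl
    | succ n hn ih =>
      intro h x y
      have e1 := W.E_succ (n := P.N - 1 - n) (by omega) (-x) (P.N - y)
      rw [show P.N - 1 - n + 1 = P.N - n by ring, W.β_refl, P.l_refl] at e1
      have e2 := W.E_succ hn x y
      have e3 := ih (by omega) x y
      rw [show P.N - (n + 1) = P.N - 1 - n by ring]
      linear_combination e3 - e1 - e2
  have k1 := key n h1 h2 x y
  have k2 := key (P.N - 1) (by omega) (by omega) x y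
  rw [show P.N - (P.N - 1) = 1 by ring] at k2
  have gx' := W.gx_last
  have gy' := W.gy_last
  unfold E at k1 k2 ⊢
  rw [gx', gy'] at k1 k2
  linear_combination k1 - (1 / 2) * k2

lemma yd_eq : W.yd = -W.bb - (P.s - 1) * W.bd := by
  have h1 := W.hbb
  have h2 := W.hbd
  linear_combination h1 + (P.s - 1) * h2

lemma yb_eq : W.yb = (P.s - 1) * W.bb + P.s * (P.s - 2) * W.bd := by
  have h1 := W.hbb
  have h2 := W.hbd
  linear_combination (-(P.s - 1 : ℝ)) * h1 - P.s * (P.s - 2) * h2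

/-- (ii): the jump across the `d`-part of the wall `0`. -/
lemma E_jump_d {n : ℤ} (h1 : P.s + 1 ≤ n) (h2 : n ≤ P.N - 1) (x y : ℝ) :
    W.E (n - P.s) (x - 1) (y - P.s) - W.E n x y =
      W.ad * (x - 1 / 2) + W.yd * (y - (P.s + P.N) / 2) := by
  have hN := P.s_lt_N
  have hs := P.s_ge
  have key : ∀ n : ℤ, P.s + 1 ≤ n → n ≤ P.N - 1 → ∀ x y : ℝ,
      W.E (n - P.s) (x - 1) (y - P.s) - W.E n x y =
      W.E 1 (x - 1) (y - P.s) - W.E (P.s + 1) x y := by
    intro n hn
    induction n, hn using Int.leInduction with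
    | base => intro _ x y; rw [show P.s + 1 - P.s = 1 by ring]
    | succ n hn ih =>
      intro h x y
      have e1 := W.E_succ (n := n - P.s) (by omega) (x - 1) (y - P.s)
      rw [show n - P.s + 1 = n + 1 - P.s by ring, W.β_shift] at e1
      have e2 := W.E_succ (n := n) (by omega) x y
      have e3 := ih (by omega) x y
      have e4 := P.l_shift n x
      linear_combination e3 + e1 - e2 - W.β n * e4
  have k1 := key n h1 h2 x y
  have k2 := key (P.N - 1) (by omega) (by omega) x y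
  -- oddness about the centre
  have r3 := W.E_refl (n := P.N - 1) (by omega) (by omega) x y
  rw [show P.N - (P.N - 1) = 1 by ring] at r3
  have r4 := W.E_refl (n := P.N - 1 - P.s) (by omega) (by omega) (x - 1) (y - P.s)
  rw [show P.N - (P.N - 1 - P.s) = P.s + 1 by ring] at r4
  have gx1 : W.gx 1 - W.gx (P.s + 1) = W.ad := by
    rw [W.had]; unfold gx; rw [div_one, div_s]; push_cast; ring
  have gy1 : W.gy 1 - W.gy (P.s + 1) = W.yd := by
    rw [W.yd_eq]; unfold gy; rw [div_one, div_s]; push_cast; ring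
  unfold E at k1 k2 r3 r4 ⊢
  linear_combination k1 + (1 / 2) * r3 - (1 / 2) * r4 - (1 / 2) * k2 +
    (x - 1 / 2) * gx1 + (y - (P.s + P.N) / 2) * gy1

/-- (ii'): the jump across the `b`-part of the wall `0`. -/
lemma E_jump_b {n : ℤ} (h1 : 1 ≤ n) (h2 : n ≤ P.s - 1) (x y : ℝ) :
    W.E (n - P.s + P.N) (x - 1) (y - P.s + P.N) - W.E n x y =
      W.ab * (x - 1 / 2) + W.yb * (y - P.s / 2) := by
  have hN := P.s_lt_N
  have hs := P.s_ge
  have key : ∀ n : ℤ, 1 ≤ n → n ≤ P.s - 1 → ∀ x y : ℝ,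
      W.E (n - P.s + P.N) (x - 1) (y - P.s + P.N) - W.E n x y =
      W.E (1 - P.s + P.N) (x - 1) (y - P.s + P.N) - W.E 1 x y := by
    intro n hn
    induction n, hn using Int.leInduction with
    | base => intro _ x y; rfl
    | succ n hn ih =>
      intro h x y
      have e1 := W.E_succ (n := n - P.s + P.N) (by omega) (x - 1) (y - P.s + P.N)
      rw [show n - P.s + P.N + 1 = n + 1 - P.s + P.N by ring, W.β_shift' hn (by omega)] at e1
      have e2 := W.E_succ (n := n) (by omega) x y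
      have e3 := ih (by omega) x y
      have e4 := P.l_shift' hn (by omega) x
      linear_combination e3 + e1 - e2 - W.β n * e4
  have k1 := key n h1 h2 x y
  have k2 := key (P.s - 1) (by omega) (by omega) x y
  rw [show P.s - 1 - P.s + P.N = P.N - 1 by ring] at k2
  have r3 := W.E_refl (n := P.s - 1) (by omega) (by omega) x y
  rw [show P.N - (P.s - 1) = 1 - P.s + P.N by ring] at r3
  have r4 := W.E_refl (n := P.N - 1) (by omega) (by omega) (x - 1) (y - P.s + P.N)
  rw [show P.N - (P.N - 1) = 1 by ring] at r4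
  have gx1 : W.gx (1 - P.s + P.N) - W.gx 1 = W.ab := by
    rw [W.hab]; unfold gx; rw [div_one, div_N]; push_cast; rw [P.cast_N]; ring
  have gy1 : W.gy (1 - P.s + P.N) - W.gy 1 = W.yb := by
    rw [W.yb_eq]; unfold gy; rw [div_one, div_N]; push_cast; rw [P.cast_N]; ring
  unfold E at k1 k2 r3 r4 ⊢
  linear_combination k1 + (1 / 2) * r3 - (1 / 2) * r4 - (1 / 2) * k2 +
    (x - 1 / 2) * gx1 + (y - P.s / 2) * gy1

/-- the affine functions agree along the `d`-part of the wall -/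
lemma match_d {n : ℤ} (h1 : P.s + 1 ≤ n) (h2 : n ≤ P.N - 1) {x y : ℝ}
    (hx : x = 1 / 2 + P.f.pd * (y - (P.s + P.N) / 2)) :
    W.E (n - P.s) (x - 1) (y - P.s) = W.E n x y := by
  have h := W.E_jump_d h1 h2 x y
  have h3 := W.nAd
  rw [hx] at h ⊢
  linear_combination h + (y - (P.s + P.N) / 2) * h3

/-- the affine functions agree along the `b`-part of the wall -/
lemma match_b {n : ℤ} (h1 : 1 ≤ n) (h2 : n ≤ P.s - 1) {x y : ℝ}
    (hx : x = 1 / 2 + P.f.pb * (y - P.s / 2)) :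
    W.E (n - P.s + P.N) (x - 1) (y - P.s + P.N) = W.E n x y := by
  have h := W.E_jump_b h1 h2 x y
  have h3 := W.nAb
  rw [hx] at h ⊢
  linear_combination h + (y - P.s / 2) * h3

/-! ### The hole -/

lemma E1_p : W.E 1 P.px P.py = Z1 := by
  unfold E q
  rw [show ((1 : ℤ) - 1).toNat = 0 by norm_num]
  unfold Q
  ring

lemma E1_r : W.E 1 (-P.rx) (-P.ry) = Z2 := by
  have h1 := W.E1_p
  have h2 := W.height
  unfold E at h1 ⊢
  have gx1 : W.gx 1 = -(((P.s - 1) * W.xb + (P.s ^ 2 - P.s - 2) * W.xd) / 2) := by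
    unfold gx; rw [div_one]; push_cast; ring
  have gy1 : W.gy 1 = -(((P.s - 1) * W.bb + (P.s ^ 2 - P.s - 2) * W.bd) / 2) := by
    unfold gy; rw [div_one]; push_cast; ring
  rw [← gx1, ← gy1] at h2
  linear_combination h1 - h2

end Wave

namespace Plan

variable (P : Plan)

/-- determinant of the hole -/
noncomputable def det : ℝ := P.ry * P.px - P.rx * P.py

lemma det_le : P.det ≤ -(1 / 2) := by
  have h1 := P.f.u1_pos
  have h2 := P.f.u12
  have h3 := P.g.u1_pos
  have h4 := P.g.u12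
  unfold det px py rx ry
  nlinarith [mul_pos h1 h3, mul_pos (h1.trans_le h2) (h3.trans_le h4),
    mul_pos h1 (h3.trans_le h4), mul_pos h3 (h1.trans_le h2)]

/-- the linear function with value `1` at `p` and `0` at `r` -/
noncomputable def a (x y : ℝ) : ℝ := (P.ry * x - P.rx * y) / P.det

lemma det_ne : P.det ≠ 0 := by have := P.det_le; intro h; rw [h] at this; linarith

lemma a_segE (t : ℝ) : P.a (P.rx + t * (P.px - P.rx)) (P.ry + t * (P.py - P.ry)) = t := by
  unfold a
  rw [div_eq_iff P.det_ne]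
  unfold det; ring

lemma a_segN (t : ℝ) : P.a (-P.rx + t * (P.px + P.rx)) (-P.ry + t * (P.py + P.ry)) = t := by
  unfold a
  rw [div_eq_iff P.det_ne]
  unfold det; ring

lemma a_neg (x y : ℝ) : P.a (-x) (-y) = -P.a x y := by
  unfold a; ring

lemma a_lip (x y x' y' : ℝ) : |P.a x y - P.a x' y'| ≤ 2 * (|x - x'| + |y - y'|) := by
  have h0 := P.det_le
  have e : P.a x y - P.a x' y' = (P.ry * (x - x') - P.rx * (y - y')) / P.det := by
    unfold a; ring
  rw [e, abs_div, div_le_iff₀ (abs_pos.2 P.det_ne), abs_of_nonpos (by linarith : P.det ≤ 0)]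
  have h1 : |P.ry| ≤ 1 := by
    have := P.g.u2_lt
    have := P.g.u2_pos
    unfold ry
    rw [abs_le]; constructor <;> linarith
  have h2 : |P.rx| ≤ 1 := by
    have := P.f.u2_lt
    have := P.f.u2_pos
    unfold rx
    rw [abs_le]; constructor <;> linarith
  have h3 : |P.ry * (x - x') - P.rx * (y - y')| ≤ |x - x'| + |y - y'| := by
    refine (abs_sub _ _).trans ?_
    rw [abs_mul, abs_mul]
    have a1 := mul_le_mul_of_nonneg_right h1 (abs_nonneg (x - x'))
    have a2 := mul_le_mul_of_nonneg_right h2 (abs_nonneg (y - y'))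
    linarith
  have h4 : 0 ≤ |x - x'| + |y - y'| := by positivity
  nlinarith

end Plan

namespace Wave

variable {P : Plan} {Z1 Z2 κ : ℝ} (W : Wave P Z1 Z2 κ)

/-- the function on the hole -/
noncomputable def H (_ : Wave P Z1 Z2 κ) (x y : ℝ) : ℝ := Z2 + (Z1 - Z2) * |P.a x y|

lemma H_neg (x y : ℝ) : W.H (-x) (-y) = W.H x y := by
  unfold H; rw [P.a_neg, abs_neg]

/-- north side of the hole -/
lemma H_north {x y : ℝ} (hc : P.Col 0 x y) (hy : y = P.r 0 x) : W.H x y = W.E 1 x y := by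
  have hx1 := P.cross_le P.w0_p P.r0_p hc.2 hy
  have hx2 : -P.rx ≤ x := by
    have e1 : P.w (-1) (-P.ry) = -P.rx := by
      have := P.w_neg 0 P.ry
      rw [P.w0_r] at this
      exact this
    have e2 : P.r 0 (-P.rx) = -P.ry := by
      have := P.r_neg (-1) P.rx
      rw [P.r1_r] at this
      exact this
    exact P.cross_ge e1 e2 hc.1 hy
  have hp := P.g.f_h' (t := x - P.s * ((0 : ℤ) : ℝ) - P.s / 2)
    (by rw [P.ga2]; unfold Plan.rx at hx2; push_cast; linarith)
    (by rw [P.ga1]; unfold Plan.px at hx1; push_cast; linarith)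
  have hyx : y = P.py + P.g.ph * (x - P.px) := by
    rw [hy]; unfold Plan.r; rw [hp, P.ga1]; unfold Plan.py Plan.px; push_cast; ring
  have hyr : -P.ry = P.py + P.g.ph * (-P.rx - P.px) := by
    have := P.g.ph_mul
    rw [P.ga1, P.ga2] at this
    unfold Plan.ry Plan.py Plan.px Plan.rx
    linear_combination this
  have hpos : 0 < P.px + P.rx := by
    have := P.f.u1_pos
    have := P.f.u2_pos
    unfold Plan.px Plan.rx; linarith
  set t := (x + P.rx) / (P.px + P.rx) with ht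
  have ht1 : t * (P.px + P.rx) = x + P.rx := div_mul_cancel₀ _ hpos.ne'
  have ht0 : 0 ≤ t := div_nonneg (by linarith) hpos.le
  have ex : x = -P.rx + t * (P.px + P.rx) := by rw [ht1]; ring
  have ey : y = -P.ry + t * (P.py + P.ry) := by
    have h3 : P.py + P.ry = P.g.ph * (P.px + P.rx) := by linear_combination -hyr
    rw [h3, hyx, hyr]
    linear_combination (-P.g.ph) * ht1
  have h1 := W.E1_p
  have h2 := W.E1_r
  rw [ex, ey]
  unfold H
  rw [P.a_segN, abs_of_nonneg ht0]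
  unfold E at h1 h2 ⊢
  linear_combination (-t) * h1 - (1 - t) * h2

lemma corner_p : W.E (P.N - P.s) (P.px - 1) (P.py - P.s + P.N) = Z1 := by
  have hN := P.s_lt_N
  have hs := P.s_ge
  have h1 := W.match_b (n := 1) le_rfl (by omega) (x := P.px) (y := P.py) (by
    have := P.f.pb_mul
    rw [P.fa1] at this
    unfold Plan.px Plan.py
    linear_combination this)
  rw [W.E1_p] at h1
  have h2 := W.E_succ (n := P.N - P.s) (by omega) (P.px - 1) (P.py - P.s + P.N)
  have hd : P.s ∣ P.N - P.s + 1 := ⟨P.s - 1, by rw [P.N_eq]; ring⟩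
  have hdiv : (P.N - P.s + 1) / P.s = P.s - 1 := by
    rw [show P.N - P.s + 1 = P.s * (P.s - 1) by rw [P.N_eq]; ring]
    exact Int.mul_ediv_cancel_left _ P.s_pos.ne'
  have h3 : P.l (P.N - P.s) (P.px - 1) = P.py - P.s + P.N := by
    have := P.g.pb_mul
    rw [P.ga1] at this
    unfold Plan.l Plan.M
    rw [if_pos hd, hdiv]
    unfold Plan.px Plan.py
    push_cast
    rw [P.cast_N]
    linear_combination -this
  rw [h3, sub_self, mul_zero, add_zero] at h2
  rw [← h2, show P.N - P.s + 1 = 1 - P.s + P.N by ring, h1]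

lemma corner_r : W.E (P.N - P.s) (P.rx - 1) (P.ry - P.s + P.N) = Z2 := by
  have hN := P.s_lt_N
  have hs := P.s_ge
  have h1 := W.match_d (n := P.N - 1) (by omega) le_rfl (x := P.rx) (y := P.N + P.ry) (by
    have := P.f.pd_mul
    rw [P.fa2, P.fN, ← P.cast_N] at this
    unfold Plan.rx Plan.ry
    linear_combination this)
  have h0 := W.E_refl (n := 1) le_rfl (by omega) (-P.rx) (-P.ry)
  rw [neg_neg, sub_neg_eq_add, W.E1_r] at h0
  rw [h0] at h1
  have h2 := W.E_succ (n := P.N - 1 - P.s) (by omega) (P.rx - 1) (P.N + P.ry - P.s)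
  have hd : ¬ P.s ∣ P.s + 1 := by
    intro h
    have := (Int.dvd_add_right (dvd_refl P.s)).1 h
    have := Int.le_of_dvd (by norm_num) this
    omega
  have h3 : P.l (P.N - 1 - P.s) (P.rx - 1) = P.N + P.ry - P.s := by
    have := P.g.pd_mul
    rw [P.ga2, P.gN, ← P.cast_N] at this
    unfold Plan.l
    rw [if_neg (fun h => hd ((P.dvd_reflN P.s).1 h)), P.M_refl_d hd]
    unfold Plan.M
    rw [div_s]
    unfold Plan.rx Plan.ry
    push_cast
    rw [P.cast_N] at this ⊢
    linear_combination this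
  rw [h3, sub_self, mul_zero, add_zero] at h2
  rw [show P.N - P.s = P.N - 1 - P.s + 1 by ring,
    show P.ry - P.s + P.N = P.N + P.ry - P.s by ring, h2, h1]

/-- east side of the hole -/
lemma H_east {x y : ℝ} (hx : x = P.w 0 y) (hr : P.Row 0 x y) :
    W.H x y = W.E (P.N - P.s) (x - 1) (y - P.s + P.N) := by
  have hy1 : y ≤ P.py := P.cross_down P.w0_p P.r0_p hx hr.2
  have hy2 : P.ry ≤ y := P.cross_up P.w0_r P.r1_r hx hr.1
  have hp := P.f.f_h' (t := y - P.s * ((0 : ℤ) : ℝ) - P.s / 2)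
    (by rw [P.fa2]; unfold Plan.ry at hy2; push_cast; linarith)
    (by rw [P.fa1]; unfold Plan.py at hy1; push_cast; linarith)
  have hxy : x = P.px + P.f.ph * (y - P.py) := by
    rw [hx]; unfold Plan.w; rw [hp, P.fa1]; unfold Plan.py Plan.px; push_cast; ring
  have hxr : P.rx = P.px + P.f.ph * (P.ry - P.py) := by
    have := P.f.ph_mul
    rw [P.fa1, P.fa2] at this
    unfold Plan.ry Plan.py Plan.px Plan.rx
    linear_combination this
  have hpos : 0 < P.py - P.ry := by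
    have := P.g.u1_pos
    have := P.g.u2_pos
    unfold Plan.py Plan.ry; linarith
  set t := (y - P.ry) / (P.py - P.ry) with ht
  have ht1 : t * (P.py - P.ry) = y - P.ry := div_mul_cancel₀ _ hpos.ne'
  have ht0 : 0 ≤ t := div_nonneg (by linarith) hpos.le
  have ey : y = P.ry + t * (P.py - P.ry) := by rw [ht1]; ring
  have ex : x = P.rx + t * (P.px - P.rx) := by
    have h3 : P.px - P.rx = P.f.ph * (P.py - P.ry) := by linear_combination -hxr
    rw [h3, hxy, hxr]
    linear_combination (-P.f.ph) * ht1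
  have h1 := W.corner_p
  have h2 := W.corner_r
  rw [ex, ey]
  unfold H
  rw [P.a_segE, abs_of_nonneg ht0]
  unfold E at h1 h2 ⊢
  linear_combination (-t) * h1 - (1 - t) * h2

/-! ### The functions on the cells of column `0` -/

/-- the function on the cell `(0, m)`, `0 ≤ m < N` -/
noncomputable def D0 (m : ℤ) (x y : ℝ) : ℝ := if m = 0 then W.H x y else W.E m x y

/-- the function on the cell `(0, n)` -/
noncomputable def D (n : ℤ) (x y : ℝ) : ℝ :=
  W.D0 (n % P.N) x (y - P.N * ((n / P.N : ℤ) : ℝ))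

lemma D_add (n m : ℤ) (x y : ℝ) : W.D (n + m * P.N) x (y + m * P.N) = W.D n x y := by
  have hN := P.N_pos
  unfold D
  rw [Int.add_mul_emod_self_right, Int.add_mul_ediv_right _ _ hN.ne']
  congr 1
  push_cast; ring

lemma D_zero (x y : ℝ) : W.D 0 x y = W.H x y := by
  unfold D D0; simp

lemma D_of_mem {n : ℤ} (h1 : 1 ≤ n) (h2 : n ≤ P.N - 1) (x y : ℝ) : W.D n x y = W.E n x y := by
  unfold D D0
  rw [Int.emod_eq_of_lt (by omega) (by omega), Int.ediv_eq_zero_of_lt (by omega) (by omega),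
    if_neg (by omega)]
  simp

lemma D_neg (n : ℤ) (x y : ℝ) : W.D (-n) (-x) (-y) = W.D n x y := by
  have hN := P.N_pos
  have h1 := Int.emod_nonneg n hN.ne'
  have h2 := Int.emod_lt_of_pos n hN
  have h3 := Int.emod_add_mul_ediv n P.N
  set m := n % P.N with hm
  set t := n / P.N with ht
  have e1 : W.D n x y = W.D m x (y - t * P.N) := by
    have := W.D_add m t x (y - t * P.N)
    rw [sub_add_cancel] at this
    rw [← this, ← h3]
    congr 1
    ring
  have e2 : W.D (-n) (-x) (-y) = W.D (-m) (-x) (-(y - t * P.N)) := by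
    have := W.D_add (-m) (-t) (-x) (-(y - t * P.N))
    rw [← this, ← h3]
    congr 1
    · ring
    · push_cast; ring
  rw [e1, e2]
  rcases h1.eq_or_lt with h | h
  · rw [← h, neg_zero, W.D_zero, W.D_zero, W.H_neg]
  · have e3 : W.D (-m) (-x) (-(y - t * P.N)) = W.D (P.N - m) (-x) (P.N - (y - t * P.N)) := by
      have := W.D_add (-m) 1 (-x) (-(y - t * P.N))
      rw [← this]
      congr 1
      · ring
      · push_cast; ring
    rw [e3, W.D_of_mem (by omega) (by omega), W.D_of_mem (by omega) (by omega),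
      W.E_refl (by omega) (by omega)]

lemma col0_add (m : ℤ) (x y : ℝ) : P.Col 0 x (y + m * P.N) ↔ P.Col 0 x y := by
  have := P.col_shift 0 0 m x y
  simpa using this

lemma D_vert0 {n : ℤ} (h1 : 0 ≤ n) (h2 : n ≤ P.N - 1) {x y : ℝ} (hc : P.Col 0 x y)
    (hy : y = P.r n x) : W.D n x y = W.D (n + 1) x y := by
  have hN := P.s_lt_N
  have hs := P.s_ge
  rcases h1.eq_or_lt with h | h
  · subst h
    rw [W.D_zero, zero_add, W.D_of_mem le_rfl (by omega), W.H_north hc hy]
  · rcases h2.eq_or_lt with h' | h'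
    · subst h'
      -- reflect
      have hc' : P.Col 0 (-x) (P.N - y) := by
        have := (P.col_neg 0 x y).2 hc
        rw [neg_zero] at this
        have h3 := (col0_add (P := P) 1 (-x) (-y)).2 this
        rw [show (P.N : ℝ) - y = -y + ((1 : ℤ) : ℝ) * P.N by push_cast; ring]
        exact h3
      have hy' : P.N - y = P.r 0 (-x) := by
        have := P.r_reflN (P.N - 1) x
        rw [sub_self] at this
        rw [this, hy]
      have e1 := W.H_north hc' hy'
      have e2 := W.E_refl (n := P.N - 1) (by omega) le_rfl x y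
      rw [show P.N - (P.N - 1) = 1 by ring] at e2
      have e3 : W.D (P.N - 1 + 1) x y = W.H x (y - P.N) := by
        have := W.D_add 0 1 x (y - P.N)
        rw [W.D_zero] at this
        rw [← this]
        congr 1
        · ring
        · push_cast; ring
      rw [e3, W.D_of_mem (by omega) le_rfl, ← e2, ← e1, ← W.H_neg]
      congr 1 <;> ring
    · rw [W.D_of_mem (by omega) (by omega), W.D_of_mem (by omega) (by omega),
        W.E_succ (by omega)]
      have := P.r_eq_l (k := n) (by omega) (by omega) hc hy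
      rw [← this, hy]
      ring

lemma D_horiz0 {n : ℤ} (h1 : 0 ≤ n) (h2 : n ≤ P.N - 1) {x y : ℝ} (hx : x = P.w 0 y)
    (hr : P.Row n x y) : W.D n x y = W.D (n - P.s) (x - 1) (y - P.s) := by
  have hN := P.s_lt_N
  have hs := P.s_ge
  have hlow : ∀ m : ℤ, 0 ≤ m → m ≤ P.s - 1 → ∀ x y : ℝ,
      W.D (m - P.s) (x - 1) (y - P.s) = W.E (m - P.s + P.N) (x - 1) (y - P.s + P.N) := by
    intro m hm1 hm2 x y
    have := W.D_add (m - P.s) 1 (x - 1) (y - P.s)
    rw [one_mul, W.D_of_mem (by omega) (by omega)] at this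
    rw [← this]
    congr 1
    push_cast; ring
  rcases h1.eq_or_lt with h | h
  · subst h
    rw [W.D_zero, hlow 0 le_rfl (by omega), W.H_east hx hr]
    congr 1
    ring
  rcases lt_trichotomy n P.s with h' | h' | h'
  · rw [hlow n h1 (by omega), W.D_of_mem (by omega) (by omega),
      W.match_b (by omega) (by omega) (P.wall_b (by omega) (by omega) hx hr)]
  · subst h'
    rw [sub_self, W.D_zero, W.D_of_mem (by omega) (by omega)]
    -- reflect in (1/2, s/2)
    have hx' : 1 - x = P.w 0 (P.s - y) := by rw [P.w_refl, hx]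
    have hr' : P.Row 0 (1 - x) (P.s - y) := by
      have := P.row_neg P.s x y
      have h3 := (P.row_shift (-P.s) 1 0 (-x) (-y)).2 (this.2 hr)
      rw [show -P.s + (P.s * 1 + 0 * P.N) = 0 by ring] at h3
      convert h3 using 1
      · push_cast; ring
      · push_cast; ring
    have e1 := W.H_east hx' hr'
    have e2 := W.E_refl (n := P.s) (by omega) (by omega) x y
    rw [← e2, ← W.H_neg, show -(x - 1) = 1 - x by ring, show -(y - P.s) = P.s - y by ring, e1]
    congr 1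
    · ring
    · ring
  · rw [W.D_of_mem (by omega) (by omega), W.D_of_mem (by omega) (by omega),
      W.match_d (by omega) (by omega) (P.wall_d (by omega) (by omega) hx hr)]

lemma D_decomp (n : ℤ) (x y : ℝ) :
    W.D n x y = W.D (n % P.N) x (y - ((n / P.N : ℤ) : ℝ) * P.N) := by
  have h3 := Int.emod_add_mul_ediv n P.N
  have := W.D_add (n % P.N) (n / P.N) x (y - ((n / P.N : ℤ) : ℝ) * P.N)
  rw [sub_add_cancel] at this
  rw [← this]
  congr 1
  linarith

lemma D_vert (n : ℤ) {x y : ℝ} (hc : P.Col 0 x y) (hy : y = P.r n x) :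
    W.D n x y = W.D (n + 1) x y := by
  have hN := P.N_pos
  have h1 := Int.emod_nonneg n hN.ne'
  have h2 := Int.emod_lt_of_pos n hN
  have h3 := Int.emod_add_mul_ediv n P.N
  set m := n % P.N with hm
  set t := n / P.N with ht
  have e1 : W.D n x y = W.D m x (y - t * P.N) := W.D_decomp n x y
  have e2 : W.D (n + 1) x y = W.D (m + 1) x (y - t * P.N) := by
    have := W.D_add (m + 1) t x (y - t * P.N)
    rw [sub_add_cancel] at this
    rw [← this]
    congr 1
    linarith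
  rw [e1, e2]
  apply W.D_vert0 h1 (by omega)
  · have := (col0_add (P := P) t x (y - t * P.N)).1
    rw [sub_add_cancel] at this
    exact this hc
  · have := P.r_shift m 0 t x
    rw [show m + (P.s * 0 + t * P.N) = n by linarith] at this
    have e : x + ((0 : ℤ) : ℝ) = x := by push_cast; ring
    rw [e, ← hy] at this
    rw [this]; push_cast; ring

lemma D_horiz (n : ℤ) {x y : ℝ} (hx : x = P.w 0 y) (hr : P.Row n x y) :
    W.D n x y = W.D (n - P.s) (x - 1) (y - P.s) := by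
  have hN := P.N_pos
  have h1 := Int.emod_nonneg n hN.ne'
  have h2 := Int.emod_lt_of_pos n hN
  have h3 := Int.emod_add_mul_ediv n P.N
  set m := n % P.N with hm
  set t := n / P.N with ht
  have e1 : W.D n x y = W.D m x (y - t * P.N) := W.D_decomp n x y
  have e2 : W.D (n - P.s) (x - 1) (y - P.s) = W.D (m - P.s) (x - 1) (y - t * P.N - P.s) := by
    have := W.D_add (m - P.s) t (x - 1) (y - t * P.N - P.s)
    rw [← this]
    congr 1
    · linarith
    · ring
  rw [e1, e2]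
  apply W.D_horiz0 h1 (by omega)
  · have := P.w_shift 0 0 t (y - t * P.N)
    rw [show (0 : ℤ) + 0 = 0 by ring] at this
    rw [show y - t * P.N + (P.s * ((0 : ℤ) : ℝ) + t * P.N) = y by push_cast; ring, ← hx] at this
    rw [this]; push_cast; ring
  · have := (P.row_shift m 0 t x (y - t * P.N)).1
    rw [show m + (P.s * 0 + t * P.N) = n by linarith] at this
    have e : x + ((0 : ℤ) : ℝ) = x := by push_cast; ring
    have e' : y - t * P.N + (P.s * ((0 : ℤ) : ℝ) + t * P.N) = y := by push_cast; ring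
    rw [e, e'] at this
    exact this hr

/-! ### The function `Ψ` -/

/-- the function on the cell `(c, i)` -/
noncomputable def val (c i : ℤ) (x y : ℝ) : ℝ := W.D (i - P.s * c) (x - c) (y - P.s * c)

lemma col_to0 {c : ℤ} {x y : ℝ} (h : P.Col c x y) : P.Col 0 (x - c) (y - P.s * c) := by
  have := (P.col_shift 0 c 0 (x - c) (y - P.s * c)).1
  rw [show (0 : ℤ) + c = c by ring, sub_add_cancel,
    show y - P.s * c + (P.s * c + ((0 : ℤ) : ℝ) * P.N) = y by push_cast; ring] at this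
  exact this h

lemma row_to0 {c i : ℤ} {x y : ℝ} (h : P.Row i x y) :
    P.Row (i - P.s * c) (x - c) (y - P.s * c) := by
  have := (P.row_shift (i - P.s * c) c 0 (x - c) (y - P.s * c)).1
  rw [show i - P.s * c + (P.s * c + 0 * P.N) = i by ring, sub_add_cancel,
    show y - P.s * c + (P.s * c + ((0 : ℤ) : ℝ) * P.N) = y by push_cast; ring] at this
  exact this h

lemma val_vert {c i : ℤ} {x y : ℝ} (hc : P.Col c x y) (hr : P.Row i x y)
    (hr' : P.Row (i + 1) x y) : W.val c i x y = W.val c (i + 1) x y := by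
  unfold val
  have h1 : P.Row (i - P.s * c) (x - c) (y - P.s * c) := row_to0 hr
  have h2 : P.Row (i + 1 - P.s * c) (x - c) (y - P.s * c) := row_to0 hr'
  rw [show i + 1 - P.s * c = (i - P.s * c) + 1 by ring] at h2 ⊢
  apply W.D_vert _ (col_to0 hc)
  apply le_antisymm h1.2
  have := h2.1
  rwa [add_sub_cancel_right] at this

lemma val_horiz {c i : ℤ} {x y : ℝ} (hc : P.Col c x y) (hc' : P.Col (c + 1) x y)
    (hr : P.Row i x y) : W.val c i x y = W.val (c + 1) i x y := by
  unfold val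
  have h1 : P.Row (i - P.s * c) (x - c) (y - P.s * c) := row_to0 hr
  have h2 := col_to0 hc
  have hw : x = P.w c y := by
    apply le_antisymm hc.2
    have := hc'.1
    rwa [add_sub_cancel_right] at this
  have h3 : x - c = P.w 0 (y - P.s * c) := by
    have := P.w_shift 0 c 0 (y - P.s * c)
    rw [show (0 : ℤ) + c = c by ring,
      show y - P.s * c + (P.s * c + ((0 : ℤ) : ℝ) * P.N) = y by push_cast; ring, ← hw] at this
    linarith
  rw [W.D_horiz _ h3 h1]
  congr 1
  · ring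
  · push_cast; ring
  · push_cast; ring

lemma val_eq {c c' i i' : ℤ} {x y : ℝ} (hc : P.Col c x y) (hc' : P.Col c' x y)
    (hr : P.Row i x y) (hr' : P.Row i' x y) : W.val c i x y = W.val c' i' x y := by
  have h1 : W.val c i x y = W.val c i' x y := by
    rcases lt_trichotomy i i' with h | h | h
    · have := P.row_adj hr hr' h
      subst this
      exact W.val_vert hc hr hr'
    · rw [h]
    · have := P.row_adj hr' hr h
      subst this
      exact (W.val_vert hc hr' hr).symm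
  have h2 : W.val c i' x y = W.val c' i' x y := by
    rcases lt_trichotomy c c' with h | h | h
    · have := P.col_adj hc hc' h
      subst this
      exact W.val_horiz hc hc' hr'
    · rw [h]
    · have := P.col_adj hc' hc h
      subst this
      exact (W.val_horiz hc' hc hr').symm
  rw [h1, h2]

/-- the function `Ψ` -/
noncomputable def Psi (x y : ℝ) : ℝ :=
  W.val (P.exists_col x y).choose (P.exists_row x y).choose x y

lemma Psi_eq {c i : ℤ} {x y : ℝ} (hc : P.Col c x y) (hr : P.Row i x y) :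
    W.Psi x y = W.val c i x y :=
  W.val_eq (P.exists_col x y).choose_spec.2 hc (P.exists_row x y).choose_spec.2 hr

lemma Psi_eq0 {i : ℤ} {x y : ℝ} (hc : P.Col 0 x y) (hr : P.Row i x y) :
    W.Psi x y = W.D i x y := by
  rw [W.Psi_eq hc hr]
  unfold val
  congr 1
  · ring
  · push_cast; ring
  · push_cast; ring

lemma Psi_per {a b : ℝ} (h : P.Lat a b) (x y : ℝ) : W.Psi (x + a) (y + b) = W.Psi x y := by
  obtain ⟨k, m, rfl, rfl⟩ := h
  obtain ⟨c, -, hc⟩ := P.exists_col x y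
  obtain ⟨i, -, hr⟩ := P.exists_row x y
  rw [W.Psi_eq hc hr, W.Psi_eq ((P.col_shift c k m x y).2 hc) ((P.row_shift i k m x y).2 hr)]
  unfold val
  rw [← W.D_add (i - P.s * c) m]
  congr 1
  · ring
  · push_cast; ring
  · push_cast; ring

lemma Psi_even (x y : ℝ) : W.Psi (-x) (-y) = W.Psi x y := by
  obtain ⟨c, -, hc⟩ := P.exists_col x y
  obtain ⟨i, -, hr⟩ := P.exists_row x y
  rw [W.Psi_eq hc hr, W.Psi_eq ((P.col_neg c x y).2 hc) ((P.row_neg i x y).2 hr)]
  unfold val
  rw [← W.D_neg (i - P.s * c)]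
  congr 1
  · ring
  · push_cast; ring
  · push_cast; ring

lemma Psi_sideE {t : ℝ} (ht : t ∈ Icc (0 : ℝ) 1) :
    W.Psi (P.rx + t * (P.px - P.rx)) (P.ry + t * (P.py - P.ry)) = Z2 + t * (Z1 - Z2) := by
  have g1 := P.g.u1_pos
  have g2 := P.g.u2_pos
  have hpos : 0 < P.py - P.ry := by unfold Plan.py Plan.ry; linarith
  set x := P.rx + t * (P.px - P.rx) with hx
  set y := P.ry + t * (P.py - P.ry) with hy
  have hy1 : P.ry ≤ y := by have := mul_nonneg ht.1 hpos.le; linarith
  have hy2 : y ≤ P.py := by nlinarith [ht.2]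
  have hp := P.f.f_h' (t := y - P.s * ((0 : ℤ) : ℝ) - P.s / 2)
    (by rw [P.fa2]; unfold Plan.ry at hy1; push_cast; linarith)
    (by rw [P.fa1]; unfold Plan.py at hy2; push_cast; linarith)
  have hw : P.w 0 y = x := by
    have hxr : P.rx = P.px + P.f.ph * (P.ry - P.py) := by
      have := P.f.ph_mul
      rw [P.fa1, P.fa2] at this
      unfold Plan.ry Plan.py Plan.px Plan.rx
      linear_combination this
    unfold Plan.w
    rw [hp, P.fa1, hx, hy, hxr]
    unfold Plan.py Plan.px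
    push_cast; ring
  have hcol : P.Col 0 x y := by
    refine ⟨?_, hw.ge⟩
    have := P.w_lt_w (show (0 : ℤ) - 1 < 0 by norm_num) y
    linarith
  have hrow : P.Row 0 x y := by
    constructor
    · have l1 := P.w0_lip 0 y P.ry
      have l2 := abs_le.1 (P.r_lip (0 - 1) x P.rx)
      rw [P.w0_r, hw, abs_of_nonneg (by linarith : 0 ≤ y - P.ry)] at l1
      rw [show (0 : ℤ) - 1 = -1 by ring, P.r1_r] at l2
      rw [show (0 : ℤ) - 1 = -1 by ring]
      linarith [l2.2]
    · have l1 := P.w0_lip 0 y P.py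
      have l2 := abs_le.1 (P.r_lip 0 x P.px)
      rw [P.w0_p, hw, abs_of_nonpos (by linarith : y - P.py ≤ 0)] at l1
      rw [P.r0_p] at l2
      linarith [l2.1]
  rw [W.Psi_eq0 hcol hrow, W.D_zero]
  unfold H
  rw [hx, hy, P.a_segE, abs_of_nonneg ht.1]
  ring

lemma Psi_sideN {t : ℝ} (ht : t ∈ Icc (0 : ℝ) 1) :
    W.Psi (-P.rx + t * (P.px + P.rx)) (-P.ry + t * (P.py + P.ry)) = Z2 + t * (Z1 - Z2) := by
  have g1 := P.f.u1_pos
  have g2 := P.f.u2_pos
  have hpos : 0 < P.px + P.rx := by unfold Plan.px Plan.rx; linarith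
  set x := -P.rx + t * (P.px + P.rx) with hx
  set y := -P.ry + t * (P.py + P.ry) with hy
  have hx1 : -P.rx ≤ x := by have := mul_nonneg ht.1 hpos.le; linarith
  have hx2 : x ≤ P.px := by nlinarith [ht.2]
  have hp := P.g.f_h' (t := x - P.s * ((0 : ℤ) : ℝ) - P.s / 2)
    (by rw [P.ga2]; unfold Plan.rx at hx1; push_cast; linarith)
    (by rw [P.ga1]; unfold Plan.px at hx2; push_cast; linarith)
  have hr0 : P.r 0 x = y := by
    have hyr : -P.ry = P.py + P.g.ph * (-P.rx - P.px) := by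
      have := P.g.ph_mul
      rw [P.ga1, P.ga2] at this
      unfold Plan.ry Plan.py Plan.px Plan.rx
      linear_combination this
    have hyr' : P.ry = -P.py - P.g.ph * (-P.rx - P.px) := by linear_combination -hyr
    unfold Plan.r
    rw [hp, P.ga1, hx, hy, hyr']
    unfold Plan.py Plan.px
    push_cast; ring
  have hrow : P.Row 0 x y := by
    refine ⟨?_, hr0.ge⟩
    have := P.r_lt_r (show (0 : ℤ) - 1 < 0 by norm_num) x
    linarith
  have hcol : P.Col 0 x y := by
    constructor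
    · have e1 : P.w (-1) (-P.ry) = -P.rx := by
        have := P.w_neg 0 P.ry
        rw [P.w0_r] at this
        exact this
      have e2 : P.r 0 (-P.rx) = -P.ry := by
        have := P.r_neg (-1) P.rx
        rw [P.r1_r] at this
        exact this
      have l1 := P.r_lip 0 x (-P.rx)
      have l2 := abs_le.1 (P.w0_lip (0 - 1) y (-P.ry))
      rw [e2, hr0, abs_of_nonneg (by linarith : 0 ≤ x - -P.rx)] at l1
      rw [show (0 : ℤ) - 1 = -1 by ring, e1] at l2
      rw [show (0 : ℤ) - 1 = -1 by ring]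
      linarith [l2.2]
    · have l1 := P.r_lip 0 x P.px
      have l2 := abs_le.1 (P.w0_lip 0 y P.py)
      rw [P.r0_p, hr0, abs_of_nonpos (by linarith : x - P.px ≤ 0)] at l1
      rw [P.w0_p] at l2
      linarith [l2.1]
  rw [W.Psi_eq0 hcol hrow, W.D_zero]
  unfold H
  rw [hx, hy, P.a_segN, abs_of_nonneg ht.1]
  ring

lemma Psi_cell {n : ℤ} (h1 : 1 ≤ n) (h2 : n ≤ P.N - 1) {x y : ℝ} (h : P.Cell 0 n x y) :
    W.Psi x y = W.gx n * x + W.gy n * y + W.q n := by
  rw [P.cell_iff] at h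
  rw [W.Psi_eq0 h.1 h.2, W.D_of_mem h1 h2]
  rfl

/-! ### Bounds -/

lemma div_bounds {n : ℤ} (h1 : 1 ≤ n) (h2 : n ≤ P.N - 1) :
    0 ≤ n / P.s ∧ n / P.s ≤ P.s - 1 ∧ 0 ≤ n - 1 - n / P.s ∧
      n - 1 - n / P.s ≤ P.s ^ 2 - P.s - 2 := by
  have hs := P.s_ge
  have hs0 := P.s_pos
  have hN := P.N_eq
  have hm := Int.emod_nonneg n hs0.ne'
  have hm' := Int.emod_lt_of_pos n hs0
  have hd := Int.emod_add_mul_ediv n P.s
  set j := n / P.s with hj
  set e := n % P.s with he
  have hj0 : 0 ≤ j := Int.ediv_nonneg (by omega) hs0.le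
  have hj1 : j ≤ P.s - 1 := by
    by_contra hcon
    have : P.s ≤ j := by omega
    nlinarith
  refine ⟨hj0, hj1, ?_, ?_⟩
  · rcases hj0.eq_or_lt with h | h
    · rw [← h]; omega
    · nlinarith
  · rcases hj1.eq_or_lt with h | h
    · rw [h] at hd ⊢
      nlinarith
    · have : j ≤ P.s - 2 := by omega
      nlinarith

lemma slope_aux {xb xd κ : ℝ} (hk : (P.s - 1) * |xb| + P.s ^ 2 * |xd| ≤ κ) {n : ℤ} (h1 : 1 ≤ n)
    (h2 : n ≤ P.N - 1) :
    |-(((P.s - 1) * xb + (P.s ^ 2 - P.s - 2) * xd) / 2) + ((n / P.s : ℤ) : ℝ) * xb +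
      (n - 1 - ((n / P.s : ℤ) : ℝ)) * xd| ≤ κ := by
  obtain ⟨b1, b2, b3, b4⟩ := div_bounds (P := P) h1 h2
  have c1 : (0 : ℝ) ≤ ((n / P.s : ℤ) : ℝ) := by exact_mod_cast b1
  have c2 : ((n / P.s : ℤ) : ℝ) ≤ P.s - 1 := by exact_mod_cast b2
  have c3 : (0 : ℝ) ≤ n - 1 - ((n / P.s : ℤ) : ℝ) := by exact_mod_cast b3
  have c4 : (n : ℝ) - 1 - ((n / P.s : ℤ) : ℝ) ≤ P.s ^ 2 - P.s - 2 := by exact_mod_cast b4
  have hs := P.s_ge'
  set A := ((n / P.s : ℤ) : ℝ) - (P.s - 1) / 2 with hA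
  set B := (n : ℝ) - 1 - ((n / P.s : ℤ) : ℝ) - (P.s ^ 2 - P.s - 2) / 2 with hB
  have e : -(((P.s - 1) * xb + (P.s ^ 2 - P.s - 2) * xd) / 2) + ((n / P.s : ℤ) : ℝ) * xb +
      (n - 1 - ((n / P.s : ℤ) : ℝ)) * xd = A * xb + B * xd := by rw [hA, hB]; ring
  rw [e]
  refine (abs_add_le _ _).trans (le_trans ?_ hk)
  rw [abs_mul, abs_mul]
  have hA' : |A| ≤ P.s - 1 := by rw [abs_le]; constructor <;> linarith
  have hB' : |B| ≤ P.s ^ 2 := by rw [abs_le]; constructor <;> nlinarith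
  exact add_le_add (mul_le_mul_of_nonneg_right hA' (abs_nonneg _))
    (mul_le_mul_of_nonneg_right hB' (abs_nonneg _))

lemma gx_le {n : ℤ} (h1 : 1 ≤ n) (h2 : n ≤ P.N - 1) : |W.gx n| ≤ κ := slope_aux W.kx h1 h2
lemma gy_le {n : ℤ} (h1 : 1 ≤ n) (h2 : n ≤ P.N - 1) : |W.gy n| ≤ κ := slope_aux W.ky h1 h2

lemma gx_ne {n n' : ℤ} (h : n < n') : W.gx n ≠ W.gx n' := by
  have hs := P.s_pos
  have h1 : n / P.s ≤ n' / P.s := Int.ediv_le_ediv hs h.le
  have h2 : n' / P.s - n / P.s ≤ n' - n := by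
    have a1 := Int.emod_nonneg n hs.ne'
    have a2 := Int.emod_lt_of_pos n hs
    have a3 := Int.emod_add_mul_ediv n P.s
    have b1 := Int.emod_nonneg n' hs.ne'
    have b2 := Int.emod_lt_of_pos n' hs
    have b3 := Int.emod_add_mul_ediv n' P.s
    have hs2 := P.s_ge
    rcases h1.eq_or_lt with h | h
    · omega
    · nlinarith
  have c1 : (0 : ℝ) ≤ ((n' / P.s : ℤ) : ℝ) - ((n / P.s : ℤ) : ℝ) := by
    have : ((n / P.s : ℤ) : ℝ) ≤ ((n' / P.s : ℤ) : ℝ) := by exact_mod_cast h1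
    linarith
  have c2 : ((n' / P.s : ℤ) : ℝ) - ((n / P.s : ℤ) : ℝ) ≤ n' - n := by exact_mod_cast h2
  have c3 : (0 : ℝ) < n' - n := by
    have : (n : ℝ) < n' := by exact_mod_cast h
    linarith
  have hsg := W.sgn
  have hxd : W.xd ≠ 0 := by rintro h0; rw [h0, mul_zero] at hsg; exact lt_irrefl _ hsg
  have hxd2 : 0 < W.xd * W.xd := mul_self_pos.2 hxd
  intro he
  have : 0 < W.xd * (W.gx n' - W.gx n) := by
    have e : W.xd * (W.gx n' - W.gx n) =
        (((n' / P.s : ℤ) : ℝ) - ((n / P.s : ℤ) : ℝ)) * (W.xb * W.xd) +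
        ((n' - n) - (((n' / P.s : ℤ) : ℝ) - ((n / P.s : ℤ) : ℝ))) * (W.xd * W.xd) := by
      unfold gx; ring
    rw [e]
    rcases c1.eq_or_lt with h | h
    · rw [← h]; nlinarith
    · have := mul_pos h hsg
      have := mul_nonneg (sub_nonneg.2 c2) hxd2.le
      linarith
  rw [he, sub_self, mul_zero] at this
  exact lt_irrefl _ this

lemma κ_nonneg (W : Wave P Z1 Z2 κ) : 0 ≤ κ := by
  have := W.kZ
  have := abs_nonneg (Z1 - Z2)
  linarith

lemma D_lip (n : ℤ) (x y x' y' : ℝ) : |W.D n x y - W.D n x' y'| ≤ κ * (|x - x'| + |y - y'|) := by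
  have hN := P.N_pos
  rw [W.D_decomp n x y, W.D_decomp n x' y']
  have h1 := Int.emod_nonneg n hN.ne'
  have h2 := Int.emod_lt_of_pos n hN
  set m := n % P.N with hm
  set z := y - ((n / P.N : ℤ) : ℝ) * P.N with hz
  set z' := y' - ((n / P.N : ℤ) : ℝ) * P.N with hz'
  have hzz : y - y' = z - z' := by rw [hz, hz']; ring
  rw [hzz]
  have hpos : 0 ≤ |x - x'| + |z - z'| := by positivity
  rcases h1.eq_or_lt with h | h
  · rw [← h, W.D_zero, W.D_zero]
    unfold H
    have e : Z2 + (Z1 - Z2) * |P.a x z| - (Z2 + (Z1 - Z2) * |P.a x' z'|) =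
        (Z1 - Z2) * (|P.a x z| - |P.a x' z'|) := by ring
    rw [e, abs_mul]
    have h3 := abs_abs_sub_abs_le (P.a x z) (P.a x' z')
    have h4 := P.a_lip x z x' z'
    have h5 := mul_le_mul_of_nonneg_left (h3.trans h4) (abs_nonneg (Z1 - Z2))
    have h6 := mul_le_mul_of_nonneg_right W.kZ hpos
    linarith
  · rw [W.D_of_mem (by omega) (by omega), W.D_of_mem (by omega) (by omega)]
    have g1 := W.gx_le (n := m) (by omega) (by omega)
    have g2 := W.gy_le (n := m) (by omega) (by omega)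
    unfold E
    have e : W.gx m * x + W.gy m * z + W.q m - (W.gx m * x' + W.gy m * z' + W.q m) =
        W.gx m * (x - x') + W.gy m * (z - z') := by ring
    rw [e]
    refine (abs_add_le _ _).trans ?_
    rw [abs_mul, abs_mul]
    have h3 := mul_le_mul_of_nonneg_right g1 (abs_nonneg (x - x'))
    have h4 := mul_le_mul_of_nonneg_right g2 (abs_nonneg (z - z'))
    linarith

lemma continuous_w (c : ℤ) : Continuous (P.w c) :=
  (LipschitzWith.of_dist_le' (K := 1 / 100) fun y y' => by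
    rw [Real.dist_eq, Real.dist_eq]; exact P.w0_lip c y y').continuous

lemma continuous_r (i : ℤ) : Continuous (P.r i) :=
  (LipschitzWith.of_dist_le' (K := 1 / 100) fun x x' => by
    rw [Real.dist_eq, Real.dist_eq]; exact P.r_lip i x x').continuous

lemma isClosed_col (c : ℤ) : IsClosed {p : ℝ × ℝ | P.Col c p.1 p.2} :=
  (isClosed_le ((continuous_w (P := P) (c - 1)).comp continuous_snd) continuous_fst).inter
    (isClosed_le continuous_fst ((continuous_w (P := P) c).comp continuous_snd))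

lemma isClosed_row (i : ℤ) : IsClosed {p : ℝ × ℝ | P.Row i p.1 p.2} :=
  (isClosed_le ((continuous_r (P := P) (i - 1)).comp continuous_fst) continuous_snd).inter
    (isClosed_le continuous_snd ((continuous_r (P := P) i).comp continuous_fst))

lemma eventually_floor (x0 : ℝ) : ∀ᶠ x in 𝓝 x0, ⌊x0⌋ - 1 ≤ ⌊x⌋ ∧ ⌊x⌋ ≤ ⌊x0⌋ + 1 := by
  have h1 : ∀ᶠ x in 𝓝 x0, x0 - 1 < x := lt_mem_nhds (by linarith)
  have h2 : ∀ᶠ x in 𝓝 x0, x < x0 + 1 := gt_mem_nhds (by linarith)
  filter_upwards [h1, h2] with x hx1 hx2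
  constructor
  · have := Int.floor_le_floor hx1.le
    rwa [Int.floor_sub_one] at this
  · have := Int.floor_le_floor hx2.le
    rwa [Int.floor_add_one] at this

lemma Psi_local (x0 y0 : ℝ) : ∀ᶠ p : ℝ × ℝ in 𝓝 (x0, y0),
    |W.Psi p.1 p.2 - W.Psi x0 y0| ≤ κ * (|p.1 - x0| + |p.2 - y0|) := by
  have hc : ∀ᶠ p : ℝ × ℝ in 𝓝 (x0, y0), ∀ c ∈ Finset.Icc (⌊x0⌋ - 1) (⌊x0⌋ + 2),
      P.Col c p.1 p.2 → P.Col c x0 y0 := by
    rw [Filter.eventually_all_finset]
    intro c _
    by_cases h : P.Col c x0 y0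
    · exact Eventually.of_forall fun p _ => h
    · have := (isClosed_col (P := P) c).isOpen_compl.mem_nhds (x := (x0, y0)) h
      filter_upwards [this] with p hp hp'
      exact absurd hp' hp
  have hr : ∀ᶠ p : ℝ × ℝ in 𝓝 (x0, y0), ∀ i ∈ Finset.Icc (⌊y0⌋ - 1) (⌊y0⌋ + 2),
      P.Row i p.1 p.2 → P.Row i x0 y0 := by
    rw [Filter.eventually_all_finset]
    intro i _
    by_cases h : P.Row i x0 y0
    · exact Eventually.of_forall fun p _ => h
    · have := (isClosed_row (P := P) i).isOpen_compl.mem_nhds (x := (x0, y0)) h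
      filter_upwards [this] with p hp hp'
      exact absurd hp' hp
  have h1 : ∀ᶠ p : ℝ × ℝ in 𝓝 (x0, y0), ⌊x0⌋ - 1 ≤ ⌊p.1⌋ ∧ ⌊p.1⌋ ≤ ⌊x0⌋ + 1 :=
    (continuous_fst.tendsto (x0, y0)).eventually (eventually_floor x0)
  have h2 : ∀ᶠ p : ℝ × ℝ in 𝓝 (x0, y0), ⌊y0⌋ - 1 ≤ ⌊p.2⌋ ∧ ⌊p.2⌋ ≤ ⌊y0⌋ + 1 :=
    (continuous_snd.tendsto (x0, y0)).eventually (eventually_floor y0)
  filter_upwards [hc, hr, h1, h2] with p hc hr h1 h2
  obtain ⟨c, hcf, hcol⟩ := P.exists_col p.1 p.2
  obtain ⟨i, hif, hrow⟩ := P.exists_row p.1 p.2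
  have hcol' := hc c (Finset.mem_Icc.2 (by omega)) hcol
  have hrow' := hr i (Finset.mem_Icc.2 (by omega)) hrow
  rw [W.Psi_eq hcol hrow, W.Psi_eq hcol' hrow']
  unfold val
  have := W.D_lip (i - P.s * c) (p.1 - c) (p.2 - P.s * c) (x0 - c) (y0 - P.s * c)
  rw [show p.1 - c - (x0 - c) = p.1 - x0 by ring,
    show p.2 - P.s * c - (y0 - P.s * c) = p.2 - y0 by ring] at this
  exact this

/-- A function on the line which is `K`-Lipschitz at every point is `K`-Lipschitz. -/
lemma path_lip {φ : ℝ → ℝ} {K : ℝ}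
    (h : ∀ t, ∀ᶠ t' in 𝓝 t, |φ t' - φ t| ≤ K * |t' - t|) : |φ 1 - φ 0| ≤ K := by
  have hcont : Continuous φ := by
    rw [continuous_iff_continuousAt]
    intro t
    rw [ContinuousAt, tendsto_iff_dist_tendsto_zero]
    have hlim : Tendsto (fun t' => K * |t' - t|) (𝓝 t) (𝓝 0) := by
      have : Continuous fun t' => K * |t' - t| := by fun_prop
      have h2 := this.tendsto t
      simpa using h2
    refine squeeze_zero' (Eventually.of_forall fun _ => dist_nonneg) ?_ hlim
    filter_upwards [h t] with t' ht'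
    rw [Real.dist_eq]; exact ht'
  have hsub : Icc (0 : ℝ) 1 ⊆ {t | |φ t - φ 0| ≤ K * t} := by
    apply IsClosed.Icc_subset_of_forall_exists_gt
    · have : IsClosed {t | |φ t - φ 0| ≤ K * t} :=
        isClosed_le (by fun_prop) (by fun_prop)
      exact this.inter isClosed_Icc
    · simp
    · rintro t ⟨ht, -⟩ y hy
      have hy' : t < y := hy
      have h1 := h t
      obtain ⟨ε, hε, hb⟩ := Metric.eventually_nhds_iff.1 h1
      refine ⟨min y (t + ε / 2), ?_, ?_, min_le_left _ _⟩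
      · have h2 : t < min y (t + ε / 2) := lt_min hy' (by linarith)
        have h3 : min y (t + ε / 2) ≤ t + ε / 2 := min_le_right _ _
        have h4 := hb (y := min y (t + ε / 2)) (by
          rw [Real.dist_eq, abs_of_pos (by linarith)]; linarith)
        rw [abs_of_pos (by linarith : 0 < min y (t + ε / 2) - t)] at h4
        simp only [mem_ofPred_eq] at ht ⊢
        calc |φ (min y (t + ε / 2)) - φ 0|
            ≤ |φ (min y (t + ε / 2)) - φ t| + |φ t - φ 0| := abs_sub_le _ _ _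
          _ ≤ K * (min y (t + ε / 2) - t) + K * t := add_le_add h4 ht
          _ = K * min y (t + ε / 2) := by ring
      · exact lt_min hy' (by linarith)
  have := hsub (right_mem_Icc.2 zero_le_one)
  simpa using this

lemma Psi_lip (x y x' y' : ℝ) : |W.Psi x y - W.Psi x' y'| ≤ κ * (|x - x'| + |y - y'|) := by
  have hk := W.κ_nonneg
  have := path_lip (φ := fun t => W.Psi (x' + t * (x - x')) (y' + t * (y - y')))
    (K := κ * (|x - x'| + |y - y'|)) (by
    intro t
    have h1 := W.Psi_local (x' + t * (x - x')) (y' + t * (y - y'))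
    have hc : Continuous fun t : ℝ => (x' + t * (x - x'), y' + t * (y - y')) := by fun_prop
    have h2 := (hc.tendsto t).eventually h1
    filter_upwards [h2] with t' ht'
    refine ht'.trans (le_of_eq ?_)
    rw [show x' + t' * (x - x') - (x' + t * (x - x')) = (t' - t) * (x - x') by ring,
      show y' + t' * (y - y') - (y' + t * (y - y')) = (t' - t) * (y - y') by ring,
      abs_mul, abs_mul]
    ring)
  simp only [one_mul, zero_mul, add_zero, add_sub_cancel] at this
  exact this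

end Wave

/-- MODULE C. -/
theorem exists_psi (P : Plan) {Z1 Z2 κ : ℝ} (W : Wave P Z1 Z2 κ) :
    ∃ (Ψ : ℝ → ℝ → ℝ) (gx gy q : ℤ → ℝ), PsiData P Ψ Z1 Z2 κ gx gy q := by
  refine ⟨W.Psi, W.gx, W.gy, W.q, ?_⟩
  exact
    { per := fun a b h x y => W.Psi_per h x y
      even := W.Psi_even
      lip := W.Psi_lip
      sideE := fun t ht => W.Psi_sideE ht
      sideN := fun t ht => W.Psi_sideN ht
      cell := fun n h1 h2 x y h => W.Psi_cell h1 h2 h
      slope := fun n h1 h2 => ⟨W.gx_le h1 h2, W.gy_le h1 h2⟩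
      inj := by
        intro n n' h1 h2 h1' h2' hne hcon
        rcases lt_or_gt_of_ne hne with h | h
        · exact W.gx_ne h hcon.1
        · exact W.gx_ne h hcon.1.symm }

end Pool.Agent.DAF
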