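import Pool.Agent.DAF.Assembly
import Pool.Agent.DAF.ConvexBound
import Pool.Agent.DAF.Params
import Pool.Agent.DAF.PsiExists
import Pool.Agent.DAF.PsiDual

open Set Topology MeasureTheory

namespace Pool.Agent.DAF

namespace Data

variable (𝔇 : Data)

lemma H_le (hn : Num 𝔇.Λ 𝔇.Λ') : 𝔇.H ≤ 3 := by
  have h1 := 𝔇.phi.hi 0 0
  have h2 := 𝔇.phi'.hi 0 0
  unfold Ψ' at h2
  have h3 := hn.z2
  have h4 := hn.z3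
  rw [𝔇.LNN'] at h4
  have h5 := 𝔇.N_real
  have h6 : 𝔇.Λ'.Zhi ≤ 1 := by
    by_contra! hcon
    nlinarith
  linarith

/-- the tile is not convex -/
theorem not_convex (hn : Num 𝔇.Λ 𝔇.Λ') : ¬ Convex ℝ 𝔇.TS := by
  intro hc
  have hN := 𝔇.N_real
  have hH := 𝔇.H_le hn
  have hH0 := 𝔇.H_pos
  have p0 := fun x y => 𝔇.Ψ_pos x y
  have p1 := fun x y => 𝔇.Ψ_lt x y
  -- the origin
  have h1 : ((0, 0, 0) : ℝ × ℝ × ℝ) ∈ 𝔇.TS := by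
    left
    have hz : |(0 : ℝ)| ≤ 𝔇.Λ.Zhi := by rw [abs_zero]; exact 𝔇.Λ.Zhi_pos.le
    have a1 := abs_lt.1 (𝔇.Λ.F_abs_lt (0 - 𝔇.Λ.al * 0 + 𝔇.Λ.be) hz)
    have a2 := abs_lt.1 (𝔇.Λ.F_abs_lt (0 - 𝔇.Λ.al * 0 - 𝔇.Λ.be) hz)
    refine ⟨?_, (p0 0 0).le, ?_, ?_, ?_⟩
    · have := p0 0 (0 - 𝔇.Λ.N / 2)
      change -𝔇.Ψ 0 (0 - 𝔇.Λ.N / 2) ≤ 0
      linarith
    · change -(1 / 2) + 𝔇.Λ.F (0 - 𝔇.Λ.al * 0 + 𝔇.Λ.be) 0 ≤ 0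
      linarith
    · change 0 ≤ 1 / 2 + 𝔇.Λ.F (0 - 𝔇.Λ.al * 0 - 𝔇.Λ.be) 0
      linarith
    · change |0 - 𝔇.Λ.al * 0| ≤ 𝔇.Λ.N / 4 - 𝔇.Λ.K * 0
      rw [mul_zero, mul_zero, sub_zero, sub_zero, abs_zero, 𝔇.LNN]
      linarith
  -- a point of the arm
  have h2 : ((𝔇.P.N / 8, 0, 𝔇.H) : ℝ × ℝ × ℝ) ∈ 𝔇.TS := by
    right
    change 𝔇.Λ'.LB 𝔇.Ψ' 0 (𝔇.P.N / 8) (𝔇.H - 𝔇.H)
    rw [sub_self]
    have hz : |(0 : ℝ)| ≤ 𝔇.Λ'.Zhi := by rw [abs_zero]; exact 𝔇.Λ'.Zhi_pos.le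
    have a1 := abs_lt.1 (𝔇.Λ'.F_abs_lt (𝔇.P.N / 8 - 𝔇.Λ'.al * 0 + 𝔇.Λ'.be) hz)
    have a2 := abs_lt.1 (𝔇.Λ'.F_abs_lt (𝔇.P.N / 8 - 𝔇.Λ'.al * 0 - 𝔇.Λ'.be) hz)
    refine ⟨?_, ?_, ?_, ?_, ?_⟩
    · unfold Ψ'
      have := p1 (𝔇.P.N / 8 - 𝔇.Λ'.N / 2) 0
      linarith
    · unfold Ψ'
      have := p1 (𝔇.P.N / 8) 0
      linarith
    · linarith
    · linarith
    · rw [mul_zero, mul_zero, sub_zero, sub_zero, abs_of_nonneg (by linarith), 𝔇.LNN']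
      linarith
  have h3 := hc h1 h2 (by norm_num : (0 : ℝ) ≤ 7 / 8) (by norm_num : (0 : ℝ) ≤ 1 / 8)
    (by norm_num)
  have h4 : 𝔇.T (𝔇.P.N / 64) 0 (𝔇.H / 8) := by
    have e : (7 / 8 : ℝ) • ((0, 0, 0) : ℝ × ℝ × ℝ) +
        (1 / 8 : ℝ) • (((𝔇.P.N : ℝ) / 8, 0, 𝔇.H) : ℝ × ℝ × ℝ) =
        (((𝔇.P.N : ℝ) / 64, 0, 𝔇.H / 8) : ℝ × ℝ × ℝ) := by
      simp only [Prod.smul_mk, Prod.mk_add_mk, smul_eq_mul]
      refine Prod.ext ?_ (Prod.ext ?_ ?_)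
      · change 7 / 8 * 0 + 1 / 8 * ((𝔇.P.N : ℝ) / 8) = 𝔇.P.N / 64; ring
      · change 7 / 8 * 0 + 1 / 8 * 0 = (0 : ℝ); ring
      · change 7 / 8 * 0 + 1 / 8 * 𝔇.H = 𝔇.H / 8; ring
    rw [e] at h3
    exact h3
  have h5 := 𝔇.T_low h4 (by
    have := 𝔇.phi.lo (𝔇.P.N / 64) 0
    have := hn.z1
    linarith)
  have h6 := (abs_lt.1 (Lay.LB_xabs 𝔇.phi h5)).2
  linarith

/-- the boundary consists of listed pieces -/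
theorem frontier_piece (hn : Num 𝔇.Λ 𝔇.Λ') : ∀ X ∈ frontier 𝔇.TS,
    (|X.1| ≤ 1 ∧ |X.2.1| ≤ 𝔇.Λ.N ∧ |X.2.2| ≤ 2 ∧ LPiece 𝔇.Λ 𝔇.Ψ X.1 X.2.1 X.2.2) ∨
    (|X.2.1| ≤ 1 ∧ |X.1| ≤ 𝔇.Λ.N ∧ |𝔇.H - X.2.2| ≤ 4 / 𝔇.Λ.N ∧
      LPiece 𝔇.Λ' 𝔇.Ψ' X.2.1 X.1 (𝔇.H - X.2.2)) := by
  intro X hX
  rw [(𝔇.contactData hn).frontier_eq] at hX
  simp only [mem_iUnion] at hX
  obtain ⟨S, ⟨⟨b, j⟩, hi, rfl⟩, hX⟩ := hX
  have hN := 𝔇.N_real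
  cases b with
  | false =>
    left
    obtain ⟨h1, h2⟩ := 𝔇.side_piece hi hX
    obtain ⟨a, b, c⟩ := 𝔇.Bd_bound h1
    exact ⟨a, by rw [𝔇.LNN]; exact b, c.trans hn.z2, h2⟩
  | true =>
    right
    have hX' : dl 𝔇.H X ∈ 𝔇.dual.TS ∩ 𝔇.dual.sT j := by
      refine ⟨?_, hX.2⟩
      have := hX.1
      rw [← 𝔇.dl_TS] at this
      exact this
    obtain ⟨h1, h2⟩ := 𝔇.dual.side_piece (𝔇.okf_dual (b := true).1 hi) hX'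
    obtain ⟨a, b, c⟩ := 𝔇.dual.Bd_bound h1
    refine ⟨a, by rw [𝔇.LNN]; exact b, ?_, h2⟩
    refine c.trans ?_
    have h3 := hn.z3
    rw [𝔇.LNN'] at h3
    rw [𝔇.LNN, le_div_iff₀ (by linarith)]
    exact h3

/-- the volume is at least `N / 192` -/
theorem volume_ge (hn : Num 𝔇.Λ 𝔇.Λ') : ENNReal.ofReal (𝔇.P.N / 192) ≤ volume 𝔇.TS := by
  have hN := 𝔇.N_real
  have hsub : Icc (-(1 / 8) : ℝ) (1 / 8) ×ˢ (Icc (-(𝔇.P.N / 16) : ℝ) (𝔇.P.N / 16) ×ˢ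
      Icc (-(1 / 12) : ℝ) (1 / 12)) ⊆ 𝔇.TS := by
    rintro ⟨x, y, z⟩ ⟨hx, hy, hz⟩
    left
    exact LB_box 𝔇.phi 𝔇.comp.toLaySmall hn (abs_le.2 hx) (by rw [𝔇.LNN]; exact abs_le.2 hy)
      (abs_le.2 hz)
  refine le_trans (le_of_eq ?_) (measure_mono hsub)
  rw [Measure.volume_eq_prod, Measure.prod_prod, Measure.volume_eq_prod, Measure.prod_prod,
    Real.volume_Icc, Real.volume_Icc, Real.volume_Icc, ← ENNReal.ofReal_mul (by linarith),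
    ← ENNReal.ofReal_mul (by norm_num)]
  congr 1
  ring

/-- the unit-volume copy of the tile -/
theorem exists_tile (hn : Num 𝔇.Λ 𝔇.Λ') : ∃ T : Set E3, IsTile 𝔇.Nb.ncard T ∧ volume T = 1 ∧
    ¬ Convex ℝ T ∧ area T ≤ ENNReal.ofReal 360000 := by
  have hN := 𝔇.N_real
  have hN0 : (0 : ℝ) < 𝔇.P.N := by linarith
  have hcd := 𝔇.contactData hn
  have hfin : volume 𝔇.TS ≠ ⊤ := hcd.compact.measure_lt_top.ne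
  have hge := 𝔇.volume_ge hn
  set V := (volume 𝔇.TS).toReal with hV
  have hVe : volume 𝔇.TS = ENNReal.ofReal V := (ENNReal.ofReal_toReal hfin).symm
  have hVge : 𝔇.P.N / 192 ≤ V := by
    rw [hVe] at hge
    exact (ENNReal.ofReal_le_ofReal_iff (ENNReal.toReal_nonneg)).1 hge
  have hV0 : 0 < V := by linarith [div_pos hN0 (by norm_num : (0 : ℝ) < 192)]
  -- the scaling factor
  have hq0 : 0 < 𝔇.P.N / V := div_pos hN0 hV0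
  set k : ℝ := (𝔇.P.N / V) ^ ((1 : ℝ) / 3) with hk
  have hk0 : 0 < k := Real.rpow_pos_of_pos hq0 _
  have hk3 : k ^ 3 = 𝔇.P.N / V := by
    rw [hk, ← Real.rpow_natCast, ← Real.rpow_mul hq0.le]
    norm_num
  have hk6 : k ≤ 6 := by
    by_contra! hcon
    have h1 : (6 : ℝ) ^ 3 < k ^ 3 := pow_lt_pow_left₀ hcon (by norm_num) (by norm_num)
    rw [hk3] at h1
    have h2 : 𝔇.P.N / V ≤ 192 := by
      rw [div_le_iff₀ hV0]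
      linarith
    norm_num at h1
    linarith
  have hΛN : 0 < 𝔇.Λ.N := 𝔇.Λ.N_pos
  obtain ⟨φ, hφ⟩ := exists_phi hk0 hΛN
  refine ⟨φ '' 𝔇.TS, isTile_of_contact hcd φ, ?_, ?_, ?_⟩
  · rw [volume_phi hk0 hΛN φ hφ, hVe, ← ENNReal.ofReal_mul (by positivity), hk3, 𝔇.LNN]
    rw [show (𝔇.P.N : ℝ) / V / 𝔇.P.N * V = 1 by field_simp]
    exact ENNReal.ofReal_one
  · intro hc
    apply 𝔇.not_convex hn
    have := hc.linear_preimage (φ : (ℝ × ℝ × ℝ) →L[ℝ] E3).toLinearMap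
    have e : (φ : (ℝ × ℝ × ℝ) →L[ℝ] E3).toLinearMap ⁻¹' (φ '' 𝔇.TS) = 𝔇.TS :=
      preimage_image_eq _ φ.injective
    rwa [e] at this
  · unfold area
    have e : frontier (φ '' 𝔇.TS) = φ '' frontier 𝔇.TS :=
      (φ.toHomeomorph.image_frontier 𝔇.TS).symm
    rw [e]
    refine (area_bound 𝔇.phi 𝔇.phi' 𝔇.comp.toLaySmall 𝔇.comp'.toLaySmall hn
      (by rw [𝔇.LNN', 𝔇.LNN]) hk0 φ hφ (frontier 𝔇.TS) (𝔇.frontier_piece hn)).trans ?_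
    apply ENNReal.ofReal_le_ofReal
    nlinarith

end Data

/-- the data exist -/
theorem exists_data : ∃ 𝔇 : Data, Num 𝔇.Λ 𝔇.Λ' ∧ 𝔇.P.s = 10 ^ 24 + 1 := by
  obtain ⟨P, Λ, Λ', Z1, Z2, κ, H, hs, ⟨W⟩, hc, hc', hn⟩ := exists_params
  obtain ⟨Ψ, gx, gy, q, hp⟩ := exists_psi P W
  obtain ⟨gx', gy', q', hp'⟩ := PsiData.exists_dual P hp H
  exact ⟨⟨P, Λ, Λ', Z1, Z2, κ, H, Ψ, gx, gy, q, gx', gy', q', hc, hc', hp, hp'⟩, hn, hs⟩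

/-- the main theorem -/
theorem main : ∃ n : ℕ, 4 ≤ n ∧
    (∃ T : Set E3, IsTile n T ∧ volume T = 1 ∧ ¬ Convex ℝ T ∧
      ∀ Q : Set E3, IsTile n Q → volume Q = 1 → Convex ℝ Q → area T < area Q) ∧
    ∀ P : Set E3, IsLeastArea n P → ¬ Convex ℝ P := by
  obtain ⟨𝔇, hn, hs⟩ := exists_data
  obtain ⟨T, hT, hvol, hconv, harea⟩ := 𝔇.exists_tile hn
  have hcard := 𝔇.Nb_ncard hn
  have hN : 𝔇.P.N = (10 ^ 24 + 1) ^ 2 - 1 := by unfold Plan.N; rw [hs]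
  rw [hN] at hcard
  have hlt : ∀ Q : Set E3, IsTile 𝔇.Nb.ncard Q → volume Q = 1 → Convex ℝ Q → area T < area Q := by
    intro Q hQ hQv hQc
    by_contra! hcon
    have h1 := convex_bound _ Q hQ hQv hQc
    have h2 : area Q ≤ ENNReal.ofReal 360000 := hcon.trans harea
    have h3 : ((𝔇.Nb.ncard : ℕ) : ENNReal) ≤ 2 ^ 30 * (ENNReal.ofReal 360000) ^ 6 := by
      refine h1.trans ?_
      gcongr
    have h4 : (2 : ENNReal) ^ 30 * (ENNReal.ofReal 360000) ^ 6 =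
        ((2 ^ 30 * 360000 ^ 6 : ℕ) : ENNReal) := by
      rw [show ENNReal.ofReal 360000 = ((360000 : ℕ) : ENNReal) by
        rw [← ENNReal.ofReal_natCast]; norm_num]
      push_cast
      ring
    rw [h4] at h3
    have h5 : 𝔇.Nb.ncard ≤ 2 ^ 30 * 360000 ^ 6 := by exact_mod_cast h3
    have h6 : (𝔇.Nb.ncard : ℤ) ≤ 2 ^ 30 * 360000 ^ 6 := by exact_mod_cast h5
    norm_num at hcard h6
    omega
  refine ⟨𝔇.Nb.ncard, ?_, ⟨T, hT, hvol, hconv, hlt⟩, ?_⟩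
  · norm_num at hcard
    omega
  · intro P hP hc
    have h1 := hlt P hP.1 hP.2.1 hc
    have h2 := hP.2.2 T hT hvol
    exact absurd h2 (not_le.2 h1)

end Pool.Agent.DAF
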