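import Mathlib

open Set

namespace Pool.Agent.DAF

/-- Functions monotone on consecutive intervals of length `h` are monotone. -/
lemma monotone_of_intervals {h : ℝ} (hh : 0 < h) {f : ℝ → ℝ}
    (H : ∀ k : ℤ, MonotoneOn f (Icc (k * h) ((k + 1) * h))) : Monotone f := by
  have step : ∀ (k : ℤ) (n : ℕ), f (k * h) ≤ f ((k + n) * h) := by
    intro k n
    induction n with
    | zero => simp
    | succ n ih =>
      refine ih.trans ?_
      have := H (k + n) (a := ((k + n : ℤ) : ℝ) * h) (b := (((k + n : ℤ) : ℝ) + 1) * h)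
        ⟨le_refl _, by nlinarith⟩ ⟨by nlinarith, le_refl _⟩ (by nlinarith)
      push_cast at this ⊢
      have e : ((k : ℝ) + n + 1) * h = ((k : ℝ) + (n + 1)) * h := by ring
      rw [e] at this
      exact this
  intro x y hxy
  set k := ⌊x / h⌋ with hk
  set l := ⌊y / h⌋ with hl
  have hkl : k ≤ l := Int.floor_le_floor (by gcongr)
  have hx1 : (k : ℝ) * h ≤ x := by
    have := Int.floor_le (x / h)
    rwa [le_div_iff₀ hh] at this
  have hx2 : x < ((k : ℝ) + 1) * h := by
    have := Int.lt_floor_add_one (x / h)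
    rwa [div_lt_iff₀ hh] at this
  have hy1 : (l : ℝ) * h ≤ y := by
    have := Int.floor_le (y / h)
    rwa [le_div_iff₀ hh] at this
  have hy2 : y < ((l : ℝ) + 1) * h := by
    have := Int.lt_floor_add_one (y / h)
    rwa [div_lt_iff₀ hh] at this
  rcases hkl.eq_or_lt with hkl | hkl
  · exact H k ⟨hx1, hx2.le⟩ ⟨by rw [hkl]; exact hy1, by rw [hkl]; exact hy2.le⟩ hxy
  · have h1 : f x ≤ f (((k : ℝ) + 1) * h) := H k ⟨hx1, hx2.le⟩ ⟨by nlinarith, le_refl _⟩ hx2.le
    obtain ⟨n, hn⟩ := Int.eq_ofNat_of_zero_le (show 0 ≤ l - (k + 1) by omega)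
    have h2 := step (k + 1) n
    have e : (((k + 1 : ℤ) : ℝ) + n) * h = (l : ℝ) * h := by
      have : l = k + 1 + (n : ℤ) := by omega
      rw [this]; push_cast; ring
    rw [e] at h2
    push_cast at h2
    have h3 : f ((l : ℝ) * h) ≤ f y := H l ⟨le_refl _, by nlinarith⟩ ⟨hy1, hy2.le⟩ hy1
    exact h1.trans (h2.trans h3)

/-- Glue `A` on the half periods `[kh,(k+1)h]` with `k` even and `B` on those with `k` odd. -/
noncomputable def glue (h : ℝ) (A B : ℝ → ℝ) (t : ℝ) : ℝ :=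
  if Even ⌊t / h⌋ then A (t - ⌊t / h⌋ * h) else B (t - ⌊t / h⌋ * h)

section glue

variable {h : ℝ} {A B : ℝ → ℝ}

lemma glue_swap_add (hh : 0 < h) (t : ℝ) : glue h A B (t + h) = glue h B A t := by
  have e : (t + h) / h = t / h + 1 := by field_simp
  unfold glue
  rw [e, Int.floor_add_one]
  have e2 : t + h - ((⌊t / h⌋ + 1 : ℤ) : ℝ) * h = t - ⌊t / h⌋ * h := by push_cast; ring
  rw [e2]
  by_cases hE : Even ⌊t / h⌋
  · have : ¬ Even (⌊t / h⌋ + 1) := by
      rw [Int.even_add_one]; exact not_not.mpr hE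
    simp [hE, this]
  · have : Even (⌊t / h⌋ + 1) := by
      rw [Int.even_add_one]; exact hE
    simp [hE, this]

lemma glue_add_period (hh : 0 < h) (t : ℝ) : glue h A B (t + 2 * h) = glue h A B t := by
  have : t + 2 * h = (t + h) + h := by ring
  rw [this, glue_swap_add hh, glue_swap_add hh]

lemma glue_add_int_period (hh : 0 < h) (t : ℝ) (k : ℤ) :
    glue h A B (t + k * (2 * h)) = glue h A B t := by
  induction k using Int.induction_on with
  | zero => simp
  | succ i ih =>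
    have : t + ((i : ℤ) + 1 : ℤ) * (2 * h) = (t + (i : ℤ) * (2 * h)) + 2 * h := by push_cast; ring
    rw [this, glue_add_period hh, ih]
  | pred i ih =>
    have : t + (-(i : ℤ) - 1 : ℤ) * (2 * h) + 2 * h = (t + (-(i : ℤ) : ℤ) * (2 * h)) := by
      push_cast; ring
    rw [← glue_add_period hh, this, ih]

lemma glue_of_mem (hh : 0 < h) (hB0 : B 0 = 0) (hAh : A h = 0) {t : ℝ} (ht : t ∈ Icc 0 h) :
    glue h A B t = A t := by
  rcases ht.2.eq_or_lt with he | hlt
  · subst he
    have e : t / t = 1 := div_self hh.ne'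
    unfold glue
    rw [e]
    simp [hB0, hAh]
  · have e : ⌊t / h⌋ = 0 := by
      rw [Int.floor_eq_zero_iff]
      exact ⟨div_nonneg ht.1 hh.le, (div_lt_one hh).2 hlt⟩
    unfold glue
    rw [e]
    simp

lemma glue_of_mem_even (hh : 0 < h) (hB0 : B 0 = 0) (hAh : A h = 0) {t : ℝ} (k : ℤ)
    (ht : t ∈ Icc (k * (2 * h)) (k * (2 * h) + h)) : glue h A B t = A (t - k * (2 * h)) := by
  have e : t = (t - k * (2 * h)) + k * (2 * h) := by ring
  have h1 : glue h A B t = glue h A B (t - k * (2 * h)) := by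
    conv_lhs => rw [e]
    exact glue_add_int_period hh _ k
  rw [h1]
  exact glue_of_mem hh hB0 hAh ⟨by linarith [ht.1], by linarith [ht.2]⟩

lemma glue_of_mem_odd (hh : 0 < h) (hA0 : A 0 = 0) (hBh : B h = 0) {t : ℝ} (k : ℤ)
    (ht : t ∈ Icc (k * (2 * h) - h) (k * (2 * h))) :
    glue h A B t = B (t - k * (2 * h) + h) := by
  have h1 : glue h A B t = glue h B A (t - h) := by
    have := glue_swap_add (A := A) (B := B) hh (t - h)
    rwa [sub_add_cancel] at this
  rw [h1, glue_of_mem_even hh hA0 hBh (k - 1) (t := t - h)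
    ⟨by push_cast; linarith [ht.1], by push_cast; linarith [ht.2]⟩]
  congr 1
  push_cast; ring

lemma glue_cases (hh : 0 < h) (t : ℝ) : (∃ k : ℤ, t ∈ Icc (k * (2 * h)) (k * (2 * h) + h)) ∨
    (∃ k : ℤ, t ∈ Icc (k * (2 * h) - h) (k * (2 * h))) := by
  have h1 := Int.floor_le (t / h)
  have h2 := Int.lt_floor_add_one (t / h)
  rw [le_div_iff₀ hh] at h1
  rw [div_lt_iff₀ hh] at h2
  rcases Int.even_or_odd ⌊t / h⌋ with ⟨k, hk⟩ | ⟨k, hk⟩
  · left
    refine ⟨k, ?_⟩
    rw [hk] at h1 h2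
    push_cast at h1 h2
    exact ⟨by linarith, by linarith⟩
  · right
    refine ⟨k + 1, ?_⟩
    rw [hk] at h1 h2
    push_cast at h1 h2 ⊢
    exact ⟨by linarith, by linarith⟩

lemma glue_neg (hh : 0 < h) (hA0 : A 0 = 0) (hAh : A h = 0) (hB0 : B 0 = 0) (hBh : B h = 0)
    (hAB : ∀ t ∈ Icc 0 h, B (h - t) = - A t) (t : ℝ) : glue h A B (-t) = - glue h A B t := by
  rcases glue_cases hh t with ⟨k, hk⟩ | ⟨k, hk⟩
  · rw [glue_of_mem_even hh hB0 hAh k hk,
      glue_of_mem_odd hh hA0 hBh (-k) (t := -t)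
        ⟨by push_cast; linarith [hk.2], by push_cast; linarith [hk.1]⟩, ← hAB]
    · congr 1; push_cast; ring
    · exact ⟨by linarith [hk.1], by linarith [hk.2]⟩
  · rw [glue_of_mem_odd hh hA0 hBh k hk,
      glue_of_mem_even hh hB0 hAh (-k) (t := -t)
        ⟨by push_cast; linarith [hk.2], by push_cast; linarith [hk.1]⟩]
    have := hAB (-t - ((-k : ℤ) : ℝ) * (2 * h))
      ⟨by push_cast; linarith [hk.2], by push_cast; linarith [hk.1]⟩
    rw [← neg_eq_iff_eq_neg.mpr this]
    congr 2; push_cast; ring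

lemma glue_abs_le (hh : 0 < h) (hA0 : A 0 = 0) (hAh : A h = 0) (hB0 : B 0 = 0) (hBh : B h = 0)
    {C : ℝ} (hA : ∀ t ∈ Icc 0 h, |A t| ≤ C) (hB : ∀ t ∈ Icc 0 h, |B t| ≤ C) (t : ℝ) :
    |glue h A B t| ≤ C := by
  rcases glue_cases hh t with ⟨k, hk⟩ | ⟨k, hk⟩
  · rw [glue_of_mem_even hh hB0 hAh k hk]
    exact hA _ ⟨by linarith [hk.1], by linarith [hk.2]⟩
  · rw [glue_of_mem_odd hh hA0 hBh k hk]
    exact hB _ ⟨by linarith [hk.1], by linarith [hk.2]⟩

lemma glue_lip (hh : 0 < h) (hA0 : A 0 = 0) (hAh : A h = 0) (hB0 : B 0 = 0) (hBh : B h = 0)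
    {m : ℝ} (hA : ∀ t ∈ Icc 0 h, ∀ t' ∈ Icc 0 h, |A t - A t'| ≤ m * |t - t'|)
    (hB : ∀ t ∈ Icc 0 h, ∀ t' ∈ Icc 0 h, |B t - B t'| ≤ m * |t - t'|) (t t' : ℝ) :
    |glue h A B t - glue h A B t'| ≤ m * |t - t'| := by
  have key : ∀ k : ℤ, ∀ x ∈ Icc ((k : ℝ) * h) ((k + 1) * h), ∀ y ∈ Icc ((k : ℝ) * h) ((k + 1) * h),
      |glue h A B x - glue h A B y| ≤ m * |x - y| := by
    intro k x hx y hy
    rcases Int.even_or_odd k with ⟨l, hl⟩ | ⟨l, hl⟩
    · subst hl
      push_cast at hx hy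
      rw [glue_of_mem_even hh hB0 hAh l (t := x) ⟨by linarith [hx.1], by linarith [hx.2]⟩,
        glue_of_mem_even hh hB0 hAh l (t := y) ⟨by linarith [hy.1], by linarith [hy.2]⟩]
      refine (hA _ ⟨by linarith [hx.1], by linarith [hx.2]⟩ _
        ⟨by linarith [hy.1], by linarith [hy.2]⟩).trans (le_of_eq ?_)
      congr 2; ring
    · subst hl
      push_cast at hx hy
      rw [glue_of_mem_odd hh hA0 hBh (l + 1) (t := x)
          ⟨by push_cast; linarith [hx.1], by push_cast; linarith [hx.2]⟩,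
        glue_of_mem_odd hh hA0 hBh (l + 1) (t := y)
          ⟨by push_cast; linarith [hy.1], by push_cast; linarith [hy.2]⟩]
      refine (hB _ ⟨by push_cast; linarith [hx.1], by push_cast; linarith [hx.2]⟩ _
        ⟨by push_cast; linarith [hy.1], by push_cast; linarith [hy.2]⟩).trans (le_of_eq ?_)
      congr 2; ring
  have m1 : Monotone (fun x => m * x - glue h A B x) := by
    refine monotone_of_intervals hh fun k x hx y hy hxy => ?_
    have := abs_le.1 (key k y hy x hx)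
    rw [abs_of_nonneg (by linarith : 0 ≤ y - x)] at this
    nlinarith [this.2]
  have m2 : Monotone (fun x => m * x + glue h A B x) := by
    refine monotone_of_intervals hh fun k x hx y hy hxy => ?_
    have := abs_le.1 (key k y hy x hx)
    rw [abs_of_nonneg (by linarith : 0 ≤ y - x)] at this
    nlinarith [this.1]
  rcases le_total t t' with hle | hle
  · have a := m1 hle
    have b := m2 hle
    simp only at a b
    rw [abs_of_nonpos (by linarith : t - t' ≤ 0), abs_le]
    constructor <;> nlinarith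
  · have a := m1 hle
    have b := m2 hle
    simp only at a b
    rw [abs_of_nonneg (by linarith : 0 ≤ t - t'), abs_le]
    constructor <;> nlinarith

end glue

end Pool.Agent.DAF
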