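import Pool.Agent.DAF.Data

open Set Topology

namespace Pool.Agent.DAF

/-- comparison with the fixed point of a contraction -/
lemma compare_fix {W x ξ c : ℝ} (hc : c < 1) (h : |W - ξ| ≤ c * |x - ξ|) :
    (x ≤ W ↔ x ≤ ξ) ∧ (W ≤ x ↔ ξ ≤ x) := by
  have h' := abs_le.1 h
  have h0 := abs_nonneg (x - ξ)
  rcases lt_trichotomy x ξ with hx | hx | hx
  · rw [abs_of_neg (by linarith)] at h'
    refine ⟨⟨fun _ => hx.le, fun _ => by nlinarith⟩, ⟨fun hh => ?_, fun hh => by linarith⟩⟩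
    nlinarith
  · subst hx
    rw [sub_self, abs_zero, mul_zero] at h'
    have : W = x := by linarith
    rw [this]
    exact ⟨Iff.rfl, Iff.rfl⟩
  · rw [abs_of_pos (by linarith)] at h'
    refine ⟨⟨fun hh => by nlinarith, fun hh => by linarith⟩, ⟨fun hh => hx.le, fun hh => ?_⟩⟩
    nlinarith

namespace Plan

variable (P : Plan)

lemma Nc_cast : (P.N : ℝ) = (P.s : ℝ) ^ 2 - 1 := by unfold N; push_cast; ring
lemma fN' : P.f.N = P.N := by rw [P.fN, P.Nc_cast]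
lemma gN' : P.g.N = P.N := by rw [P.gN, P.Nc_cast]
lemma sR : (1000 : ℝ) ≤ P.s := by exact_mod_cast P.s_ge
lemma N_big : (P.s : ℝ) * 999 ≤ P.N := by
  have := P.sR; rw [P.Nc_cast]; nlinarith

lemma wc_neg (y : ℝ) : P.w (-1) y = -P.w 0 (-y) := by
  unfold w
  have : P.f.f (-y - P.s * ((0 : ℤ) : ℝ) - P.s / 2) = -P.f.f (y + P.s / 2) := by
    rw [← P.f.f_neg]; congr 1; push_cast; ring
  rw [this]
  rw [show y - P.s * ((-1 : ℤ) : ℝ) - P.s / 2 = y + P.s / 2 by push_cast; ring]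
  push_cast; ring

lemma rc_neg (x : ℝ) : P.r (-1) x = -P.r 0 (-x) := by
  have := P.dual.wc_neg x
  exact this

lemma wc_lip (c : ℤ) (y y' : ℝ) : |P.w c y - P.w c y'| ≤ 1 / 100 * |y - y'| := by
  unfold w
  have h := P.f.f_lip (y - P.s * c - P.s / 2) (y' - P.s * c - P.s / 2)
  rw [show y - P.s * c - P.s / 2 - (y' - P.s * c - P.s / 2) = y - y' by ring] at h
  rw [show (c : ℝ) + 1 / 2 + P.f.f (y - P.s * c - P.s / 2) -
    (c + 1 / 2 + P.f.f (y' - P.s * c - P.s / 2)) =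
    P.f.f (y - P.s * c - P.s / 2) - P.f.f (y' - P.s * c - P.s / 2) by ring]
  refine h.trans ?_
  exact mul_le_mul_of_nonneg_right P.fm (abs_nonneg _)

lemma rc_lip (c : ℤ) (y y' : ℝ) : |P.r c y - P.r c y'| ≤ 1 / 100 * |y - y'| :=
  P.dual.wc_lip c y y'

lemma w_abs (c : ℤ) (y : ℝ) : |P.w c y - (c + 1 / 2)| < 1 / 2 := by
  unfold w
  rw [show (c : ℝ) + 1 / 2 + P.f.f (y - P.s * c - P.s / 2) - (c + 1 / 2) =
    P.f.f (y - P.s * c - P.s / 2) by ring]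
  exact (P.f.f_abs _).trans_lt P.f.u2_lt

lemma r_abs (c : ℤ) (y : ℝ) : |P.r c y - (c + 1 / 2)| < 1 / 2 := P.dual.w_abs c y

lemma wc_lt {c c' : ℤ} (h : c < c') (y : ℝ) : P.w c y < P.w c' y := by
  have h1 := abs_lt.1 (P.w_abs c y)
  have h2 := abs_lt.1 (P.w_abs c' y)
  have : (c : ℝ) + 1 ≤ c' := by exact_mod_cast h
  linarith

lemma rc_lt {c c' : ℤ} (h : c < c') (y : ℝ) : P.r c y < P.r c' y := P.dual.wc_lt h y

lemma w_lat {a : ℤ} {b : ℝ} (h : P.Lat a b) (c : ℤ) (y : ℝ) :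
    P.w (c + a) (y + b) = P.w c y + a := by
  obtain ⟨i, m, h1, h2⟩ := h
  have h1' : a = i := by exact_mod_cast h1
  subst h1'
  unfold w
  have e : y + b - P.s * ((c + a : ℤ) : ℝ) - P.s / 2 =
      (y - P.s * c - P.s / 2) + m * P.f.N := by
    rw [h2, P.fN']; push_cast; ring
  rw [e, P.f.f_add_N]
  push_cast; ring

lemma Lat_dual {a b : ℝ} : P.dual.Lat a b ↔ P.Lat b a := by
  have key : ∀ (P : Plan) {a b : ℝ}, P.Lat a b → P.dual.Lat b a := by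
    intro P a b h
    obtain ⟨i, m, h1, h2⟩ := h
    refine ⟨P.s * i + m * P.N, -i - P.s * m, ?_, ?_⟩
    · rw [h2]; push_cast; ring
    · rw [h1]
      have : ((P.dual.N : ℤ) : ℝ) = (P.s : ℝ) ^ 2 - 1 := P.dual.Nc_cast
      rw [this, show ((P.dual.s : ℤ) : ℝ) = P.s from rfl]
      push_cast
      rw [P.Nc_cast]; ring
  exact ⟨fun h => key P.dual h, fun h => key P h⟩

lemma r_lat {a : ℝ} {b : ℤ} (h : P.Lat a b) (c : ℤ) (x : ℝ) :
    P.r (c + b) (x + a) = P.r c x + b :=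
  P.dual.w_lat (P.Lat_dual.2 h) c x

lemma Lat.add {a b a' b' : ℝ} (h : P.Lat a b) (h' : P.Lat a' b') : P.Lat (a + a') (b + b') := by
  obtain ⟨i, m, h1, h2⟩ := h
  obtain ⟨i', m', h1', h2'⟩ := h'
  exact ⟨i + i', m + m', by rw [h1, h1']; push_cast; ring, by rw [h2, h2']; push_cast; ring⟩

lemma Lat.neg {a b : ℝ} (h : P.Lat a b) : P.Lat (-a) (-b) := by
  obtain ⟨i, m, h1, h2⟩ := h
  exact ⟨-i, -m, by rw [h1]; push_cast; ring, by rw [h2]; push_cast; ring⟩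

lemma Lat.sub {a b a' b' : ℝ} (h : P.Lat a b) (h' : P.Lat a' b') : P.Lat (a - a') (b - b') := by
  have := Lat.add P h (Lat.neg P h')
  rwa [← sub_eq_add_neg, ← sub_eq_add_neg] at this

lemma Lat_zero : P.Lat 0 0 := ⟨0, 0, by simp, by simp⟩

/-- `(N/2, -N/2)` is a lattice vector since `s` is odd. -/
lemma Lat_half : P.Lat (P.N / 2) (-(P.N / 2)) := by
  obtain ⟨j, hj⟩ := P.s_odd
  -- N = 4 j (j+1)
  have hN : P.N = 4 * (j * (j + 1)) := by unfold N; rw [hj]; ring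
  refine ⟨2 * (j * (j + 1)), -(j + 1), ?_, ?_⟩
  · rw [hN]; push_cast; ring
  · rw [hN, hj]; push_cast; ring

lemma px_eq : P.px = P.w 0 P.py := by
  unfold px py w
  rw [show 1 / 2 + P.g.u1 - P.s * ((0 : ℤ) : ℝ) - P.s / 2 = -P.f.a1 by
    rw [P.fa1]; push_cast; ring, P.f.f_neg, P.f.f_a1]
  push_cast; ring

lemma rx_eq : P.rx = P.w 0 P.ry := by
  unfold rx ry w
  rw [show -(1 / 2) - P.g.u2 - P.s * ((0 : ℤ) : ℝ) - P.s / 2 = -P.f.a2 by
    rw [P.fa2]; push_cast; ring, P.f.f_neg, P.f.f_a2]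
  push_cast; ring

lemma py_eq : P.py = P.r 0 P.px := P.dual.px_eq

lemma ry_eq : -P.ry = P.r 0 (-P.rx) := by
  have h := P.dual.rx_eq
  have e1 : P.dual.rx = -P.ry := by unfold rx ry dual; ring
  have e2 : P.dual.ry = -P.rx := by unfold rx ry dual; ring
  rw [e1, e2] at h
  exact h

end Plan

section

variable {P : Plan} {Λ : Lay} {Ψ : ℝ → ℝ → ℝ} {Z1 Z2 κ : ℝ} {gx gy q : ℤ → ℝ}

theorem PsiData.near (hp : PsiData P Ψ Z1 Z2 κ gx gy q) (hκ : 0 ≤ κ) (x y : ℝ) :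
    |Ψ x y - Z2| ≤ κ * P.N := by
  have hN := P.N_big
  have hs := P.sR
  have hN0 : (0 : ℝ) < P.N := by linarith
  have h0 := hp.sideE 0 ⟨le_rfl, zero_le_one⟩
  rw [zero_mul, zero_mul, zero_mul, add_zero, add_zero, add_zero] at h0
  set a : ℤ := round (x - P.rx) with ha
  set m : ℤ := round ((y - P.s * a - P.ry) / P.N) with hm
  have h1 := abs_sub_round (x - P.rx)
  have h2 := abs_sub_round ((y - P.s * a - P.ry) / P.N)
  rw [← ha] at h1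
  rw [← hm] at h2
  have h2' : |y - P.s * a - m * P.N - P.ry| ≤ P.N / 2 := by
    have : y - P.s * a - m * P.N - P.ry = ((y - P.s * a - P.ry) / P.N - m) * P.N := by
      field_simp; ring
    rw [this, abs_mul, abs_of_pos hN0]
    nlinarith
  have h3 := hp.per (-(a : ℝ)) (-(P.s * a + m * P.N)) (Plan.Lat.neg P ⟨a, m, rfl, rfl⟩) x y
  rw [← h3, ← h0]
  refine (hp.lip _ _ _ _).trans ?_
  apply mul_le_mul_of_nonneg_left _ hκ
  rw [show x + -(a : ℝ) - P.rx = x - P.rx - a by ring,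
    show y + -(P.s * a + m * P.N) - P.ry = y - P.s * a - m * P.N - P.ry by ring]
  linarith

theorem layPhi (hc : Compat P Λ Z1 Z2 κ) (hp : PsiData P Ψ Z1 Z2 κ gx gy q) : LayPhi Λ Ψ κ where
  per a m x y := by
    have : P.Lat a ((2 * Λ.be + Λ.al) * a + m * Λ.N) := by
      refine ⟨a, m, rfl, ?_⟩
      rw [hc.hbe, hc.hN]; ring
    exact hp.per _ _ this x y
  even := hp.even
  lo x y := by
    have := abs_le.1 (hp.near hc.kpos x y)
    have := hc.lo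
    rw [hc.hN] at this
    linarith
  hi x y := by
    have := abs_le.1 (hp.near hc.kpos x y)
    have := hc.hi
    rw [hc.hN] at this
    linarith
  lip := hp.lip

theorem Compat.Kk (hc : Compat P Λ Z1 Z2 κ) : Λ.K * κ ≤ 1 / 400 := by
  have h := hc.small
  have h1 : Λ.K * Λ.Zlo ≤ Λ.K * Λ.Zhi := mul_le_mul_of_nonneg_left Λ.Zlohi Λ.K_pos.le
  have h2 := Λ.KZ
  have h3 := Λ.l_pos
  have h4 := hc.toLaySmall.N
  have h5 : 100 * (κ * Λ.K) * Λ.N ≤ Λ.N / 4 := by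
    have : 100 * (κ * Λ.K) * Λ.N = 100 * κ * Λ.N * Λ.K := by ring
    rw [this]; linarith
  by_contra! hcon
  nlinarith

theorem Compat.sigk (hc : Compat P Λ Z1 Z2 κ) : Λ.sig * κ ≤ 1 / 400 := by
  have h := hc.Kk
  have h1 := Λ.pd_lt
  have h2 := hc.pb
  have h3 := hc.kpos
  have h4 := Λ.K_pos
  have h5 : Λ.sig ≤ Λ.K := by
    unfold Lay.sig
    nlinarith
  nlinarith

theorem Compat.ab (hc : Compat P Λ Z1 Z2 κ) : |Λ.al * P.f.pb| ≤ 1 / 100 := by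
  rw [abs_mul]
  have h1 := hc.al
  have h2 := P.f.abs_pb_le.trans P.fm
  have := abs_nonneg Λ.al
  have := abs_nonneg P.f.pb
  nlinarith

theorem Compat.ad (hc : Compat P Λ Z1 Z2 κ) : |Λ.al * P.f.pd| ≤ 1 / 100 := by
  rw [abs_mul]
  have h1 := hc.al
  have h2 := P.f.abs_pd_le.trans P.fm
  have := abs_nonneg Λ.al
  have := abs_nonneg P.f.pd
  nlinarith

/-- `K z` changes little -/
lemma Compat.Kz_ge (hc : Compat P Λ Z1 Z2 κ) {z Z d : ℝ} (hd : 0 ≤ d) (h : |z - Z| ≤ κ * d) :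
    Λ.K * Z - 1 / 400 * d ≤ Λ.K * z := by
  have h1 := (abs_le.1 h).1
  have t1 : Λ.K * (Z - κ * d) ≤ Λ.K * z :=
    mul_le_mul_of_nonneg_left (by linarith) Λ.K_pos.le
  have t2 : Λ.K * κ * d ≤ 1 / 400 * d := mul_le_mul_of_nonneg_right hc.Kk hd
  have e : Λ.K * (Z - κ * d) = Λ.K * Z - Λ.K * κ * d := by ring
  rw [e] at t1
  linarith

lemma Compat.fN (hc : Compat P Λ Z1 Z2 κ) : P.f.N = Λ.N := by rw [P.fN', hc.hN]

lemma Compat.pdm (hc : Compat P Λ Z1 Z2 κ) : P.f.pd * (P.f.a2 - Λ.N / 2) = -P.f.u2 := by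
  have := P.f.pd_mul
  rwa [hc.fN] at this

lemma Compat.K1 (hc : Compat P Λ Z1 Z2 κ) :
    Λ.K * Z1 - Λ.l = P.f.a1 * (1 - Λ.al * P.f.pb) := by
  have hpbm := P.f.pb_mul
  have hpx : P.px = 1 / 2 + P.f.u1 := rfl
  have hpy : P.py = 1 / 2 + P.g.u1 := rfl
  have hl : Λ.l = Λ.N / 4 - Λ.be := rfl
  have : P.f.a1 * (1 - Λ.al * P.f.pb) = P.f.a1 - Λ.al * (P.f.pb * P.f.a1) := by ring
  rw [this, hpbm, hc.KZ1, hl, hpx, hpy, P.fa1]
  linear_combination (1 / 2 : ℝ) * hc.hbe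

lemma Compat.K2 (hc : Compat P Λ Z1 Z2 κ) :
    Λ.K * Z2 + Λ.l = (Λ.N / 2 - P.f.a2) * (1 - Λ.al * P.f.pd) := by
  have hpdm := hc.pdm
  have hrx : P.rx = 1 / 2 + P.f.u2 := rfl
  have hry : P.ry = -(1 / 2) - P.g.u2 := rfl
  have hl : Λ.l = Λ.N / 4 - Λ.be := rfl
  have : (Λ.N / 2 - P.f.a2) * (1 - Λ.al * P.f.pd) =
    Λ.N / 2 - P.f.a2 + Λ.al * (P.f.pd * (P.f.a2 - Λ.N / 2)) := by ring
  rw [this, hpdm, hc.KZ2, hl, hrx, hry, P.fa2]
  linear_combination (-1 / 2 : ℝ) * hc.hbe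

lemma Compat.K1' (hc : Compat P Λ Z1 Z2 κ) :
    Λ.K * Z1 - Λ.l = P.f.a1 + Λ.al * P.f.u1 := by
  rw [hc.K1]; linear_combination (-Λ.al) * P.f.pb_mul

lemma Compat.K2' (hc : Compat P Λ Z1 Z2 κ) :
    Λ.K * Z2 + Λ.l = Λ.N / 2 - (P.f.a2 + Λ.al * P.f.u2) := by
  rw [hc.K2]; linear_combination Λ.al * hc.pdm

lemma PsiData.refl_s (hp : PsiData P Ψ Z1 Z2 κ gx gy q) (x y : ℝ) :
    Ψ x y = Ψ (1 - x) (P.s - y) := by
  have := hp.per (-1) (-P.s) ⟨-1, 0, by push_cast; ring, by push_cast; ring⟩ x y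
  rw [← this, ← hp.even]; congr 1 <;> ring

lemma PsiData.at_p (hp : PsiData P Ψ Z1 Z2 κ gx gy q) : Ψ P.px P.py = Z1 := by
  have h := hp.sideE 1 ⟨zero_le_one, le_rfl⟩
  rw [show P.rx + 1 * (P.px - P.rx) = P.px by ring,
    show P.ry + 1 * (P.py - P.ry) = P.py by ring] at h
  rw [h]; ring

lemma PsiData.at_r (hp : PsiData P Ψ Z1 Z2 κ gx gy q) : Ψ P.rx P.ry = Z2 := by
  have h := hp.sideE 0 ⟨le_rfl, zero_le_one⟩
  rwa [zero_mul, zero_mul, zero_mul, add_zero, add_zero, add_zero] at h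

/-- the height on the wall -/
noncomputable def wallZ (P : Plan) (Ψ : ℝ → ℝ → ℝ) (τ : ℝ) : ℝ :=
  Ψ (1 / 2 + P.f.f τ) (τ + P.s / 2)

lemma wallZ_a1 (hp : PsiData P Ψ Z1 Z2 κ gx gy q) : wallZ P Ψ P.f.a1 = Z1 := by
  unfold wallZ
  rw [hp.refl_s, P.f.f_a1, ← hp.at_p]
  have hpx : P.px = 1 / 2 + P.f.u1 := rfl
  have hpy : P.py = 1 / 2 + P.g.u1 := rfl
  congr 1
  · rw [hpx]; ring
  · rw [hpy, P.fa1]; ring

lemma wallZ_a2 (hp : PsiData P Ψ Z1 Z2 κ gx gy q) : wallZ P Ψ P.f.a2 = Z2 := by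
  unfold wallZ
  rw [hp.refl_s, P.f.f_a2, ← hp.at_r]
  have hrx : P.rx = 1 / 2 + P.f.u2 := rfl
  have hry : P.ry = -(1 / 2) - P.g.u2 := rfl
  congr 1
  · rw [hrx]; ring
  · rw [hry, P.fa2]; ring

lemma wallZ_lip (hc : Compat P Λ Z1 Z2 κ) (hp : PsiData P Ψ Z1 Z2 κ gx gy q) (τ τ' : ℝ) :
    |wallZ P Ψ τ - wallZ P Ψ τ'| ≤ κ * (101 / 100 * |τ - τ'|) := by
  unfold wallZ
  refine (hp.lip _ _ _ _).trans ?_
  apply mul_le_mul_of_nonneg_left _ hc.kpos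
  have h1 := P.f.f_lip τ τ'
  have h2 : P.f.m * |τ - τ'| ≤ 1 / 100 * |τ - τ'| :=
    mul_le_mul_of_nonneg_right P.fm (abs_nonneg _)
  rw [show 1 / 2 + P.f.f τ - (1 / 2 + P.f.f τ') = P.f.f τ - P.f.f τ' by ring,
    show τ + P.s / 2 - (τ' + P.s / 2) = τ - τ' by ring]
  linarith

lemma wallZ_abs (hc : Compat P Λ Z1 Z2 κ) (hp : PsiData P Ψ Z1 Z2 κ gx gy q) (τ : ℝ) :
    |wallZ P Ψ τ| ≤ Λ.Zhi := by
  have hΦ := layPhi hc hp
  have h1 := hΦ.lo (1 / 2 + P.f.f τ) (τ + P.s / 2)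
  have h2 := hΦ.hi (1 / 2 + P.f.f τ) (τ + P.s / 2)
  have h3 := Λ.Zlo_pos
  unfold wallZ
  rw [abs_le]; constructor <;> linarith

lemma base_b (hc : Compat P Λ Z1 Z2 κ) (hp : PsiData P Ψ Z1 Z2 κ gx gy q) {τ : ℝ}
    (h0 : 0 ≤ τ) (hb : τ ≤ P.f.a1) :
    Λ.F (τ - Λ.al * P.f.f τ) (wallZ P Ψ τ) = P.f.f τ := by
  have a1p := P.f.a1_pos
  have hab := abs_le.1 hc.ab
  have hf := P.f.f_b (by linarith : -P.f.a1 ≤ τ) hb
  have hd := wallZ_lip hc hp τ P.f.a1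
  rw [wallZ_a1 hp, show |τ - P.f.a1| = P.f.a1 - τ by rw [abs_of_nonpos (by linarith)]; ring] at hd
  have hKz := hc.Kz_ge (by linarith) hd
  have K1 := hc.K1
  have hθ : τ - Λ.al * P.f.f τ = τ * (1 - Λ.al * P.f.pb) := by rw [hf]; ring
  have hθ0 : 0 ≤ τ * (1 - Λ.al * P.f.pb) := mul_nonneg h0 (by linarith)
  have hθ1 : |τ * (1 - Λ.al * P.f.pb)| ≤ Λ.K * wallZ P Ψ τ - Λ.l := by
    rw [abs_of_nonneg hθ0]
    have h3 : (P.f.a1 - τ) * (99 / 100) ≤ (P.f.a1 - τ) * (1 - Λ.al * P.f.pb) :=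
      mul_le_mul_of_nonneg_left (by linarith) (by linarith)
    have h4 : (P.f.a1 - τ) * (1 - Λ.al * P.f.pb) =
      P.f.a1 * (1 - Λ.al * P.f.pb) - τ * (1 - Λ.al * P.f.pb) := by ring
    rw [h4, ← K1] at h3
    linarith
  rw [hθ, Λ.F_b (wallZ_abs hc hp τ) hθ1, hf]
  linear_combination τ * hc.hpb

lemma base_d (hc : Compat P Λ Z1 Z2 κ) (hp : PsiData P Ψ Z1 Z2 κ gx gy q) {τ : ℝ}
    (ha : P.f.a2 ≤ τ) (h1 : τ ≤ Λ.N / 2) :
    Λ.F (τ - Λ.al * P.f.f τ) (wallZ P Ψ τ) = P.f.f τ := by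
  have hNN := hc.fN
  have a1p := P.f.a1_pos
  have a2N := P.f.a2N
  rw [hNN] at a2N
  have had := abs_le.1 hc.ad
  have hf := P.f.f_d ha (by rw [hNN]; linarith)
  rw [hNN] at hf
  have hd := wallZ_lip hc hp τ P.f.a2
  rw [wallZ_a2 hp, show |τ - P.f.a2| = τ - P.f.a2 from abs_of_nonneg (by linarith)] at hd
  have hKz := hc.Kz_ge (by linarith) hd
  have K2 := hc.K2
  have hθ : τ - Λ.al * P.f.f τ = (-((Λ.N / 2 - τ) * (1 - Λ.al * P.f.pd))) + Λ.N / 2 := by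
    rw [hf]; ring
  have hθ0 : 0 ≤ (Λ.N / 2 - τ) * (1 - Λ.al * P.f.pd) :=
    mul_nonneg (by linarith) (by linarith)
  have hθ1 : |-((Λ.N / 2 - τ) * (1 - Λ.al * P.f.pd))| ≤ Λ.l - Λ.K * -(wallZ P Ψ τ) := by
    rw [abs_neg, abs_of_nonneg hθ0]
    have h3 : (τ - P.f.a2) * (99 / 100) ≤ (τ - P.f.a2) * (1 - Λ.al * P.f.pd) :=
      mul_le_mul_of_nonneg_left (by linarith) (by linarith)
    have h4 : (τ - P.f.a2) * (1 - Λ.al * P.f.pd) =
      (Λ.N / 2 - P.f.a2) * (1 - Λ.al * P.f.pd) - (Λ.N / 2 - τ) * (1 - Λ.al * P.f.pd) := by ring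
    rw [h4, ← K2] at h3
    linarith
  have hza := wallZ_abs hc hp τ
  rw [hθ, Λ.F_add_half, Λ.F_d (by rwa [abs_neg]) hθ1, hf]
  linear_combination (τ - Λ.N / 2) * hc.hpd

lemma Z_diff (hc : Compat P Λ Z1 Z2 κ) (hp : PsiData P Ψ Z1 Z2 κ gx gy q) :
    |Λ.K * Z1 - Λ.K * Z2| ≤ 1 / 100 := by
  have hu1 := P.f.u1_pos
  have hu12 := P.f.u12
  have hu2 := P.f.u2_lt
  have hv1 := P.g.u1_pos
  have hv12 := P.g.u12
  have hv2 := P.g.u2_lt
  have hpx : P.px = 1 / 2 + P.f.u1 := rfl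
  have hpy : P.py = 1 / 2 + P.g.u1 := rfl
  have hrx : P.rx = 1 / 2 + P.f.u2 := rfl
  have hry : P.ry = -(1 / 2) - P.g.u2 := rfl
  have hdist := hp.lip P.px P.py P.rx P.ry
  rw [hp.at_p, hp.at_r] at hdist
  have hx1 : |P.px - P.rx| ≤ 1 / 2 := by
    rw [hpx, hrx, abs_le]; constructor <;> linarith
  have hy1 : |P.py - P.ry| ≤ 2 := by
    rw [hpy, hry, abs_le]; constructor <;> linarith
  have h1 : |Z1 - Z2| ≤ κ * (5 / 2) :=
    hdist.trans (mul_le_mul_of_nonneg_left (by linarith) hc.kpos)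
  rw [← mul_sub, abs_mul, abs_of_pos Λ.K_pos]
  have h2 : Λ.K * |Z1 - Z2| ≤ Λ.K * (κ * (5 / 2)) :=
    mul_le_mul_of_nonneg_left h1 Λ.K_pos.le
  have h3 : Λ.K * κ * (5 / 2) ≤ 1 / 400 * (5 / 2) :=
    mul_le_mul_of_nonneg_right hc.Kk (by norm_num)
  have h4 : Λ.K * (κ * (5 / 2)) = Λ.K * κ * (5 / 2) := by ring
  linarith

lemma X_p (hc : Compat P Λ Z1 Z2 κ) : Λ.X (P.f.a1 + Λ.al * P.f.u1) Z1 = -P.f.u1 := by
  have h := Λ.X_sub_pb (P.f.a1 + Λ.al * P.f.u1) Z1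
  have h' : Λ.pb * (P.f.a1 + Λ.al * P.f.u1) = -P.f.u1 := by
    have e : P.f.a1 + Λ.al * P.f.u1 = P.f.a1 * (1 - Λ.al * P.f.pb) := by
      linear_combination Λ.al * P.f.pb_mul
    rw [e]
    linear_combination P.f.a1 * hc.hpb + P.f.pb_mul
  rw [h'] at h
  have : Λ.l - Λ.K * Z1 + (P.f.a1 + Λ.al * P.f.u1) = 0 := by linarith [hc.K1']
  rw [this] at h
  linarith

lemma X_r (hc : Compat P Λ Z1 Z2 κ) : Λ.X (P.f.a2 + Λ.al * P.f.u2) Z2 = -P.f.u2 := by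
  have h := Λ.X_sub_pd' (P.f.a2 + Λ.al * P.f.u2) Z2
  have h' : Λ.pd * (P.f.a2 + Λ.al * P.f.u2 - Λ.N / 2) = -P.f.u2 := by
    have e : P.f.a2 + Λ.al * P.f.u2 - Λ.N / 2 =
        (P.f.a2 - Λ.N / 2) * (1 - Λ.al * P.f.pd) := by
      linear_combination Λ.al * hc.pdm
    rw [e]
    linear_combination (P.f.a2 - Λ.N / 2) * hc.hpd + hc.pdm
  rw [h'] at h
  have : Λ.N / 2 - (Λ.K * Z2 + Λ.l) - (P.f.a2 + Λ.al * P.f.u2) = 0 := by linarith [hc.K2']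
  rw [this] at h
  linarith

lemma base_h (hc : Compat P Λ Z1 Z2 κ) (hp : PsiData P Ψ Z1 Z2 κ gx gy q) {τ : ℝ}
    (hb : P.f.a1 ≤ τ) (ha : τ ≤ P.f.a2) :
    Λ.F (τ - Λ.al * P.f.f τ) (wallZ P Ψ τ) = P.f.f τ := by
  have hf := P.f.f_h hb ha
  have hphm := P.f.ph_mul
  have a12 := P.f.a12
  obtain ⟨t, ht0, ht1, htm⟩ : ∃ t : ℝ, 0 ≤ t ∧ t ≤ 1 ∧ t * (P.f.a2 - P.f.a1) = P.f.a2 - τ := by
    have hden : 0 < P.f.a2 - P.f.a1 := by linarith
    refine ⟨(P.f.a2 - τ) / (P.f.a2 - P.f.a1), div_nonneg (by linarith) hden.le, ?_, ?_⟩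
    · rw [div_le_one hden]; linarith
    · field_simp
  have hf' : P.f.f τ = -P.f.u2 + t * (P.f.u2 - P.f.u1) := by
    rw [hf]
    have e : τ - P.f.a1 = (1 - t) * (P.f.a2 - P.f.a1) := by linarith
    rw [e]
    linear_combination (1 - t) * hphm
  have hpx : P.px = 1 / 2 + P.f.u1 := rfl
  have hpy : P.py = 1 / 2 + P.g.u1 := rfl
  have hrx : P.rx = 1 / 2 + P.f.u2 := rfl
  have hry : P.ry = -(1 / 2) - P.g.u2 := rfl
  have hzt : wallZ P Ψ τ = Z2 + t * (Z1 - Z2) := by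
    rw [← hp.sideE t ⟨ht0, ht1⟩]
    unfold wallZ
    rw [hp.refl_s, hf']
    congr 1
    · rw [hpx, hrx]; ring
    · have e3 : P.py - P.ry = P.f.a2 - P.f.a1 := by rw [hpy, hry, P.fa1, P.fa2]; ring
      rw [e3, htm, hry, P.fa2]; ring
  have hza := wallZ_abs hc hp τ
  have hzlo : Λ.Zlo ≤ wallZ P Ψ τ := (layPhi hc hp).lo _ _
  have hKzt : Λ.K * wallZ P Ψ τ = Λ.K * Z2 + t * (Λ.K * Z1 - Λ.K * Z2) := by rw [hzt]; ring
  have hθt : τ - Λ.al * P.f.f τ = (P.f.a2 + Λ.al * P.f.u2) +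
      t * ((P.f.a1 + Λ.al * P.f.u1) - (P.f.a2 + Λ.al * P.f.u2)) := by
    rw [hf']
    linear_combination htm
  have K1 := hc.K1'
  have K2 := hc.K2'
  have hZ := abs_le.1 (Z_diff hc hp)
  have hX : Λ.X (τ - Λ.al * P.f.f τ) (wallZ P Ψ τ) = P.f.f τ := by
    have : Λ.X (τ - Λ.al * P.f.f τ) (wallZ P Ψ τ) =
        (1 - t) * Λ.X (P.f.a2 + Λ.al * P.f.u2) Z2 +
          t * Λ.X (P.f.a1 + Λ.al * P.f.u1) Z1 := by
      rw [hθt, hzt]; unfold Lay.X; ring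
    rw [this, X_p hc, X_r hc, hf']; ring
  have ha12' : P.f.a1 + 1 ≤ P.f.a2 := by
    have hv1 := P.g.u1_pos
    have hv2 := P.g.u2_pos
    rw [P.fa1, P.fa2]; linarith
  have hl0 := Λ.l_pos
  have halu : |Λ.al * P.f.u1 - Λ.al * P.f.u2| ≤ 1 / 2 := by
    have hu1 := P.f.u1_pos
    have hu12 := P.f.u12
    have hu2 := P.f.u2_lt
    rw [← mul_sub, abs_mul]
    have e : |P.f.u1 - P.f.u2| ≤ 1 / 2 := by rw [abs_le]; constructor <;> linarith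
    calc |Λ.al| * |P.f.u1 - P.f.u2| ≤ 1 * (1 / 2) :=
          mul_le_mul hc.al e (abs_nonneg _) zero_le_one
      _ = 1 / 2 := by norm_num
  have halu' := abs_le.1 halu
  have hKz : 0 < Λ.K * wallZ P Ψ τ - Λ.l := by
    have h1 := Λ.lamlt
    have h2 := mul_le_mul_of_nonneg_left hzlo Λ.K_pos.le
    have hl : Λ.l = Λ.N / 4 - Λ.be := rfl
    rw [hl]; linarith
  -- abbreviations
  set A1 := P.f.a1 + Λ.al * P.f.u1 with hA1
  set A2 := P.f.a2 + Λ.al * P.f.u2 with hA2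
  have c1 : Λ.K * wallZ P Ψ τ - Λ.l ≤ τ - Λ.al * P.f.f τ := by
    rw [hKzt, hθt]
    have h1 : 0 ≤ (1 - t) * (A2 - (Λ.K * Z2 - Λ.l)) :=
      mul_nonneg (by linarith) (by linarith)
    have h2 : t * (A1 - (Λ.K * Z1 - Λ.l)) = 0 := by rw [K1]; ring
    nlinarith only [h1, h2]
  have c2 : τ - Λ.al * P.f.f τ ≤ Λ.N / 2 - (Λ.K * wallZ P Ψ τ + Λ.l) := by
    rw [hKzt, hθt]
    have h1 : 0 ≤ t * ((Λ.N / 2 - (Λ.K * Z1 + Λ.l)) - A1) :=
      mul_nonneg ht0 (by linarith)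
    have h2 : (1 - t) * ((Λ.N / 2 - (Λ.K * Z2 + Λ.l)) - A2) = 0 := by rw [K2]; ring
    nlinarith only [h1, h2]
  have hθ0 : 0 ≤ τ - Λ.al * P.f.f τ := by linarith
  have hθN : τ - Λ.al * P.f.f τ ≤ Λ.N / 2 := by linarith
  rw [Λ.F_of_mem hθ0 hθN, Lay.G_e hθ0 hθN (by linarith) c1 c2 (by linarith)]
  exact hX

/-- the wall identity -/
theorem wall_id (hc : Compat P Λ Z1 Z2 κ) (hp : PsiData P Ψ Z1 Z2 κ gx gy q) (τ : ℝ) :
    Λ.F (τ - Λ.al * P.f.f τ) (wallZ P Ψ τ) = P.f.f τ := by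
  have hΦ := layPhi hc hp
  have hN0 := Λ.N_pos
  have hNN := hc.fN
  -- periodicity
  have hfp : ∀ (k : ℤ) (τ : ℝ), P.f.f (τ + k * Λ.N) = P.f.f τ := by
    intro k τ
    have := P.f.f_add_N τ k
    rwa [hNN] at this
  have hzp : ∀ (k : ℤ) (τ : ℝ), wallZ P Ψ (τ + k * Λ.N) = wallZ P Ψ τ := by
    intro k τ
    unfold wallZ
    rw [hfp]
    have := hΦ.per 0 k (1 / 2 + P.f.f τ) (τ + P.s / 2)
    rw [← this]; push_cast; congr 1 <;> ring
  have hzo : ∀ τ : ℝ, wallZ P Ψ (-τ) = wallZ P Ψ τ := by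
    intro τ
    unfold wallZ
    rw [hp.refl_s, P.f.f_neg]; congr 1 <;> ring
  have hbase : ∀ τ : ℝ, 0 ≤ τ → τ ≤ Λ.N / 2 →
      Λ.F (τ - Λ.al * P.f.f τ) (wallZ P Ψ τ) = P.f.f τ := by
    intro τ h0 h1
    rcases le_total τ P.f.a1 with hb | hb
    · exact base_b hc hp h0 hb
    rcases le_total τ P.f.a2 with ha | ha
    · exact base_h hc hp hb ha
    · exact base_d hc hp ha h1
  have hsym : ∀ τ : ℝ, |τ| ≤ Λ.N / 2 →
      Λ.F (τ - Λ.al * P.f.f τ) (wallZ P Ψ τ) = P.f.f τ := by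
    intro τ hτ
    rcases le_total 0 τ with h | h
    · rw [abs_of_nonneg h] at hτ
      exact hbase _ h hτ
    · rw [abs_of_nonpos h] at hτ
      have h1 := hbase _ (by linarith : 0 ≤ -τ) hτ
      rw [hzo, P.f.f_neg, show -τ - Λ.al * -P.f.f τ = -(τ - Λ.al * P.f.f τ) by ring,
        Λ.F_neg] at h1
      linarith
  -- reduction
  set k : ℤ := round (τ / Λ.N) with hk
  have hr := abs_sub_round (τ / Λ.N)
  rw [← hk] at hr
  have hτ' : |τ - k * Λ.N| ≤ Λ.N / 2 := by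
    have : τ - k * Λ.N = (τ / Λ.N - k) * Λ.N := by field_simp
    rw [this, abs_mul, abs_of_pos hN0]
    have := mul_le_mul_of_nonneg_right hr hN0.le
    linarith
  have hmain := hsym _ hτ'
  have e1 := hfp k (τ - k * Λ.N)
  have e2 := hzp k (τ - k * Λ.N)
  rw [sub_add_cancel] at e1 e2
  rw [← e1, ← e2] at hmain
  have e3 := Λ.F_add_int (τ - k * Λ.N - Λ.al * P.f.f τ) (wallZ P Ψ τ) k
  rw [show τ - k * Λ.N - Λ.al * P.f.f τ + k * Λ.N = τ - Λ.al * P.f.f τ by ring] at e3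
  rw [e3, hmain]

/-- the right wall at the interface -/
theorem right_iff (hc : Compat P Λ Z1 Z2 κ) (hp : PsiData P Ψ Z1 Z2 κ gx gy q) (x y : ℝ) :
    (x ≤ 1 / 2 + Λ.F (y - Λ.al * x - Λ.be) (Ψ x y) ↔ x ≤ P.w 0 y) ∧
    (1 / 2 + Λ.F (y - Λ.al * x - Λ.be) (Ψ x y) ≤ x ↔ P.w 0 y ≤ x) := by
  apply compare_fix (c := 1 / 4) (by norm_num)
  have hw : P.w 0 y = 1 / 2 + P.f.f (y - P.s / 2) := by
    unfold Plan.w
    rw [show y - P.s * ((0 : ℤ) : ℝ) - P.s / 2 = y - P.s / 2 by push_cast; ring]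
    push_cast; ring
  have hid := wall_id hc hp (y - P.s / 2)
  unfold wallZ at hid
  rw [← hw, show y - P.s / 2 + P.s / 2 = y by ring] at hid
  have e : y - P.s / 2 - Λ.al * P.f.f (y - P.s / 2) = y - Λ.al * P.w 0 y - Λ.be := by
    rw [hw]; linear_combination (1 / 2 : ℝ) * hc.hbe
  rw [e] at hid
  have e2 : 1 / 2 + Λ.F (y - Λ.al * x - Λ.be) (Ψ x y) - P.w 0 y =
      Λ.F (y - Λ.al * x - Λ.be) (Ψ x y) -
        Λ.F (y - Λ.al * P.w 0 y - Λ.be) (Ψ (P.w 0 y) y) := by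
    rw [hid, hw]; ring
  rw [e2]
  refine (Λ.F_lip _ _ _ _).trans ?_
  rw [show y - Λ.al * x - Λ.be - (y - Λ.al * P.w 0 y - Λ.be) = -(Λ.al * (x - P.w 0 y)) by ring,
    abs_neg, abs_mul]
  have h1 := hp.lip x y (P.w 0 y) y
  rw [sub_self, abs_zero, add_zero] at h1
  have h0 := abs_nonneg (x - P.w 0 y)
  have h2 : |Λ.al| * |x - P.w 0 y| ≤ 1 * |x - P.w 0 y| := mul_le_mul_of_nonneg_right hc.al h0
  have h3 : -Λ.pb * (|Λ.al| * |x - P.w 0 y|) ≤ 1 / 50 * (1 * |x - P.w 0 y|) :=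
    mul_le_mul hc.pb h2 (mul_nonneg (abs_nonneg _) h0) (by norm_num)
  have h4 : Λ.sig * |Ψ x y - Ψ (P.w 0 y) y| ≤ Λ.sig * (κ * |x - P.w 0 y|) :=
    mul_le_mul_of_nonneg_left h1 Λ.sig_pos.le
  have h5 : Λ.sig * κ * |x - P.w 0 y| ≤ 1 / 400 * |x - P.w 0 y| :=
    mul_le_mul_of_nonneg_right hc.sigk h0
  have h6 : Λ.sig * (κ * |x - P.w 0 y|) = Λ.sig * κ * |x - P.w 0 y| := by ring
  linarith

/-- the left wall at the interface -/
theorem left_iff (hc : Compat P Λ Z1 Z2 κ) (hp : PsiData P Ψ Z1 Z2 κ gx gy q) (x y : ℝ) :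
    (-(1 / 2) + Λ.F (y - Λ.al * x + Λ.be) (Ψ x y) ≤ x ↔ P.w (-1) y ≤ x) ∧
    (x ≤ -(1 / 2) + Λ.F (y - Λ.al * x + Λ.be) (Ψ x y) ↔ x ≤ P.w (-1) y) := by
  have h := right_iff hc hp (-x) (-y)
  rw [hp.even, show -y - Λ.al * -x - Λ.be = -(y - Λ.al * x + Λ.be) by ring, Λ.F_neg] at h
  rw [P.wc_neg]
  constructor
  · rw [show P.w 0 (-y) = P.w 0 (-y) from rfl]
    constructor
    · intro h'
      have := h.1.1 (by linarith)
      linarith
    · intro h'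
      have := h.1.2 (by linarith)
      linarith
  · constructor
    · intro h'
      have := h.2.1 (by linarith)
      linarith
    · intro h'
      have := h.2.2 (by linarith)
      linarith

/-- the top line of the hole -/
lemma r0_side (P : Plan) {x : ℝ} (h1 : -P.rx ≤ x) (h2 : x ≤ P.px) :
    ∃ t ∈ Icc (0 : ℝ) 1, x = -P.rx + t * (P.px + P.rx) ∧
      P.r 0 x = -P.ry + t * (P.py + P.ry) := by
  have hpx : P.px = 1 / 2 + P.f.u1 := rfl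
  have hpy : P.py = 1 / 2 + P.g.u1 := rfl
  have hrx : P.rx = 1 / 2 + P.f.u2 := rfl
  have hry : P.ry = -(1 / 2) - P.g.u2 := rfl
  have h3 := P.f.u1_pos
  have h4 := P.f.u2_pos
  have hpos : 0 < P.px + P.rx := by rw [hpx, hrx]; linarith
  have hr : P.r 0 x = 1 / 2 + P.g.f (x - P.s / 2) := by
    unfold Plan.r
    rw [show x - P.s * ((0 : ℤ) : ℝ) - P.s / 2 = x - P.s / 2 by push_cast; ring]
    push_cast; ring
  have hga1 := P.ga1
  have hga2 := P.ga2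
  have hf := P.g.f_h' (t := x - P.s / 2) (by rw [hga2]; linarith) (by rw [hga1]; linarith)
  have hphm := P.g.ph_mul
  have hden : P.g.a2 - P.g.a1 = P.px + P.rx := by rw [hga1, hga2, hpx, hrx]; ring
  refine ⟨(x + P.rx) / (P.px + P.rx), ⟨div_nonneg (by linarith) hpos.le, ?_⟩, ?_, ?_⟩
  · rw [div_le_one hpos]; linarith
  · field_simp; ring
  · rw [hr, hf]
    set t := (x + P.rx) / (P.px + P.rx) with ht
    have htm : t * (P.px + P.rx) = x + P.rx := by rw [ht]; field_simp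
    rw [hden] at hphm
    have e : x - P.s / 2 + P.g.a1 = -((1 - t) * (P.px + P.rx)) := by
      rw [hga1]
      linear_combination (-1 : ℝ) * htm + hpx
    rw [e, hpy, hry]
    linear_combination (-(1 - t)) * hphm

/-- the top line of the hole at the interface, inside column `0` -/
theorem top_iff (hc : Compat P Λ Z1 Z2 κ) (hp : PsiData P Ψ Z1 Z2 κ gx gy q) {x y : ℝ}
    (hl : P.w (-1) y ≤ x) (hr : x ≤ P.w 0 y) :
    (y - Λ.al * x ≤ Λ.N / 4 - Λ.K * Ψ x y ↔ y ≤ P.r 0 x) ∧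
    (Λ.N / 4 - Λ.K * Ψ x y ≤ y - Λ.al * x ↔ P.r 0 x ≤ y) := by
  have hKk := hc.Kk
  have hK := Λ.K_pos
  have hk := hc.kpos
  have hal := hc.al
  -- the fixed point function
  have key : ∀ ξ : ℝ, |(Λ.N / 4 - Λ.K * Ψ x y + Λ.al * x) - ξ| ≤ 1 / 4 * |y - ξ| →
      |P.r 0 x - ξ| ≤ 1 / 4 * |y - ξ| →
      (y - Λ.al * x ≤ Λ.N / 4 - Λ.K * Ψ x y ↔ y ≤ P.r 0 x) ∧
      (Λ.N / 4 - Λ.K * Ψ x y ≤ y - Λ.al * x ↔ P.r 0 x ≤ y) := by
    intro ξ h1 h2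
    have c1 := compare_fix (by norm_num : (1 / 4 : ℝ) < 1) h1
    have c2 := compare_fix (by norm_num : (1 / 4 : ℝ) < 1) h2
    constructor
    · rw [c2.1, ← c1.1]; constructor <;> intro h <;> linarith
    · rw [c2.2, ← c1.2]; constructor <;> intro h <;> linarith
  have hKlip : ∀ x' y' : ℝ, |Λ.K * Ψ x y - Λ.K * Ψ x' y'| ≤ 1 / 400 * (|x - x'| + |y - y'|) := by
    intro x' y'
    rw [← mul_sub, abs_mul, abs_of_pos hK]
    have h1 := mul_le_mul_of_nonneg_left (hp.lip x y x' y') hK.le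
    have h2 : Λ.K * κ * (|x - x'| + |y - y'|) ≤ 1 / 400 * (|x - x'| + |y - y'|) :=
      mul_le_mul_of_nonneg_right hKk (by positivity)
    have h3 : Λ.K * (κ * (|x - x'| + |y - y'|)) = Λ.K * κ * (|x - x'| + |y - y'|) := by ring
    linarith
  -- near a corner
  have corner : ∀ cx cy Z : ℝ, Ψ cx cy = Z → Λ.K * Z = Λ.N / 4 - cy + Λ.al * cx →
      P.r 0 cx = cy → |x - cx| ≤ 1 / 100 * |y - cy| →
      (y - Λ.al * x ≤ Λ.N / 4 - Λ.K * Ψ x y ↔ y ≤ P.r 0 x) ∧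
      (Λ.N / 4 - Λ.K * Ψ x y ≤ y - Λ.al * x ↔ P.r 0 x ≤ y) := by
    intro cx cy Z h1 h2 h3 h4
    have h0 := abs_nonneg (y - cy)
    have hx0 := abs_nonneg (x - cx)
    apply key cy
    · have h5 := hKlip cx cy
      rw [h1] at h5
      have e : Λ.N / 4 - Λ.K * Ψ x y + Λ.al * x - cy =
          -(Λ.K * Ψ x y - Λ.K * Z) + Λ.al * (x - cx) := by rw [h2]; ring
      rw [e]
      refine (abs_add_le _ _).trans ?_
      rw [abs_neg, abs_mul]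
      have h6 : |Λ.al| * |x - cx| ≤ 1 * |x - cx| := mul_le_mul_of_nonneg_right hal hx0
      linarith
    · rw [← h3]
      refine (P.rc_lip 0 x cx).trans ?_
      rw [h3]
      linarith
  rcases lt_or_ge P.px x with hx | hx
  · apply corner P.px P.py Z1 hp.at_p hc.KZ1 P.py_eq.symm
    have h1 := P.wc_lip 0 y P.py
    rw [← P.px_eq] at h1
    rw [abs_of_pos (by linarith)]
    have h2 := le_abs_self (P.w 0 y - P.px)
    linarith
  rcases lt_or_ge x (-P.rx) with hx' | hx'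
  · apply corner (-P.rx) (-P.ry) Z2 (by rw [hp.even]; exact hp.at_r) (by rw [hc.KZ2]; ring)
      P.ry_eq.symm
    have h1 := P.wc_lip (-1) y (-P.ry)
    have h3 : P.w (-1) (-P.ry) = -P.rx := by rw [P.wc_neg, neg_neg, ← P.rx_eq]
    rw [h3] at h1
    have h2 := neg_abs_le (P.w (-1) y - -P.rx)
    rw [abs_of_nonpos (by linarith : x - -P.rx ≤ 0)]
    linarith
  · obtain ⟨t, ht, hxt, hrt⟩ := r0_side P hx' hx
    have hside := hp.sideN t ht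
    rw [← hxt, ← hrt] at hside
    apply key (P.r 0 x)
    · have h5 := hKlip x (P.r 0 x)
      rw [sub_self, abs_zero, zero_add, hside] at h5
      have e : Λ.N / 4 - Λ.K * Ψ x y + Λ.al * x - P.r 0 x =
          -(Λ.K * Ψ x y - Λ.K * (Z2 + t * (Z1 - Z2))) := by
        have h1 := hc.KZ1
        have h2 := hc.KZ2
        rw [hrt]
        have e1 : Λ.K * (Z2 + t * (Z1 - Z2)) = Λ.K * Z2 + t * (Λ.K * Z1 - Λ.K * Z2) := by ring
        rw [e1]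
        linear_combination Λ.al * hxt - t * h1 - (1 - t) * h2
      rw [e, abs_neg]
      have := abs_nonneg (y - P.r 0 x)
      linarith
    · rw [sub_self, abs_zero]
      positivity

/-- the bottom line of the hole at the interface, inside column `0` -/
theorem bot_iff (hc : Compat P Λ Z1 Z2 κ) (hp : PsiData P Ψ Z1 Z2 κ gx gy q) {x y : ℝ}
    (hl : P.w (-1) y ≤ x) (hr : x ≤ P.w 0 y) :
    (-(Λ.N / 4 - Λ.K * Ψ x y) ≤ y - Λ.al * x ↔ P.r (-1) x ≤ y) ∧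
    (y - Λ.al * x ≤ -(Λ.N / 4 - Λ.K * Ψ x y) ↔ y ≤ P.r (-1) x) := by
  have h1 : P.w (-1) (-y) ≤ -x := by rw [P.wc_neg, neg_neg]; linarith
  have h2 : -x ≤ P.w 0 (-y) := by
    have := P.wc_neg y
    linarith
  have h := top_iff hc hp h1 h2
  rw [hp.even] at h
  rw [P.rc_neg]
  constructor
  · constructor
    · intro h'
      have := h.1.1 (by linarith)
      linarith
    · intro h'
      have := h.1.2 (by linarith)
      linarith
  · constructor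
    · intro h'
      have := h.2.1 (by linarith)
      linarith
    · intro h'
      have := h.2.2 (by linarith)
      linarith

/-- the top of the body is the hole -/
theorem LB_top (hc : Compat P Λ Z1 Z2 κ) (hp : PsiData P Ψ Z1 Z2 κ gx gy q) (x y : ℝ) :
    Λ.LB Ψ x y (Ψ x y) ↔ P.Cell 0 0 x y := by
  have hΦ := layPhi hc hp
  have hpos : -Ψ x (y - Λ.N / 2) ≤ Ψ x y := by
    have h1 := hΦ.lo x (y - Λ.N / 2)
    have h2 := hΦ.lo x y
    have h3 := Λ.Zlo_pos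
    linarith
  have h1 := right_iff hc hp x y
  have h2 := left_iff hc hp x y
  unfold Lay.LB Plan.Cell
  rw [show (0 : ℤ) - 1 = -1 by norm_num]
  constructor
  · rintro ⟨-, -, a, b, c⟩
    have a' := h2.1.1 a
    have b' := h1.1.1 b
    have c' := abs_le.1 c
    exact ⟨a', b', (bot_iff hc hp a' b').1.1 (by linarith), (top_iff hc hp a' b').1.1 c'.2⟩
  · rintro ⟨a, b, c, d⟩
    refine ⟨hpos, le_rfl, h2.1.2 a, h1.1.2 b, ?_⟩
    rw [abs_le]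
    exact ⟨(bot_iff hc hp a b).1.2 c, (top_iff hc hp a b).1.2 d⟩

/-- the bottom of the body, in inverted coordinates -/
theorem LB_bot (hc : Compat P Λ Z1 Z2 κ) (hp : PsiData P Ψ Z1 Z2 κ gx gy q) (x y : ℝ) :
    Λ.LB Ψ x y (-Ψ x (y - Λ.N / 2)) ↔
      P.w (-1) (P.N / 2 - y) ≤ -x ∧ -x ≤ P.w 0 (P.N / 2 - y) ∧
      P.r 0 (-x) ≤ P.N / 2 - y ∧ P.N / 2 - y ≤ P.r (P.N - 1) (-x) := by
  have hΦ := layPhi hc hp
  have hNN := hc.hN
  have hpos : -Ψ x (y - Λ.N / 2) ≤ Ψ x y := by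
    have h1 := hΦ.lo x (y - Λ.N / 2)
    have h2 := hΦ.lo x y
    have h3 := Λ.Zlo_pos
    linarith
  rw [← hNN]
  set x' := -x with hx'
  set y' := Λ.N / 2 - y with hy'
  have hΨ : Ψ x (y - Λ.N / 2) = Ψ x' y' := by
    rw [← hp.even]; congr 1; rw [hy']; ring
  have hx : x = -x' := by rw [hx']; ring
  have hy : y = Λ.N / 2 - y' := by rw [hy']; ring
  rw [hΨ] at hpos
  have h1 := right_iff hc hp x' y'
  have h2 := left_iff hc hp x' y'
  have hrN : P.r (P.N - 1) x' = P.r (-1) x' + Λ.N := by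
    have h := P.r_lat (a := 0) (b := P.N) ⟨0, 1, by simp, by push_cast; ring⟩ (-1) x'
    rw [add_zero] at h
    rw [show P.N - 1 = -1 + P.N by ring, h, hNN]
  rw [hrN]
  unfold Lay.LB
  rw [hΨ]
  have e1 : Λ.F (y - Λ.al * x + Λ.be) (-Ψ x' y') = -Λ.F (y' - Λ.al * x' - Λ.be) (Ψ x' y') := by
    have := Lay.F_refl (Λ := Λ) (y' - Λ.al * x' - Λ.be) (Ψ x' y') 0
    rw [← this]; congr 1; rw [hx, hy]; push_cast; ring
  have e2 : Λ.F (y - Λ.al * x - Λ.be) (-Ψ x' y') = -Λ.F (y' - Λ.al * x' + Λ.be) (Ψ x' y') := by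
    have := Lay.F_refl (Λ := Λ) (y' - Λ.al * x' + Λ.be) (Ψ x' y') 0
    rw [← this]; congr 1; rw [hx, hy]; push_cast; ring
  rw [e1, e2]
  have hw : ∀ c, P.w c (y' - Λ.N) = P.w c y' := by
    intro c
    have h := P.w_lat (a := 0) (b := -P.N) ⟨0, -1, by simp, by push_cast; ring⟩ c y'
    rw [add_zero] at h
    rw [hNN, sub_eq_add_neg, h]; simp
  have hΨN : Ψ x' (y' - Λ.N) = Ψ x' y' := Lay.perN hΦ x' y'
  constructor
  · rintro ⟨-, -, a, b, c⟩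
    have a' := h1.1.1 (by linarith)
    have b' := h2.1.1 (by linarith)
    have c' := abs_le.1 c
    have t1 := (top_iff hc hp b' a').2.1 (by rw [hx, hy] at c'; linarith)
    have t2 := (bot_iff hc hp (x := x') (y := y' - Λ.N) (by rw [hw]; exact b')
      (by rw [hw]; exact a')).2.1 (by rw [hx, hy] at c'; rw [hΨN]; linarith)
    exact ⟨b', a', t1, by linarith⟩
  · rintro ⟨a, b, c, d⟩
    have t1 := (top_iff hc hp a b).2.2 c
    have t2 := (bot_iff hc hp (x := x') (y := y' - Λ.N) (by rw [hw]; exact a)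
      (by rw [hw]; exact b)).2.2 (by linarith)
    rw [hΨN] at t2
    have a' := h2.1.2 a
    have b' := h1.1.2 b
    refine ⟨le_rfl, hpos, by linarith, by linarith, ?_⟩
    rw [abs_le, hx, hy]
    constructor <;> linarith

end

end Pool.Agent.DAF
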