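import Pool.Agent.DAF.PsiExists
import Pool.Agent.DAF.Data

open Set Topology

namespace Pool.Agent.DAF

lemma reg_of_contract {E : Type*} [TopologicalSpace E] {D H O : Set E} {c : E} (hO : IsOpen O)
    (hc : c ∈ O ∩ H) (hsub : O ∩ H ⊆ D)
    (h : ∀ q ∈ D, ∃ γ : ℝ → E, Continuous γ ∧ γ 0 = q ∧ γ 1 = c ∧
      ∀ t, 0 < t → t ≤ 1 → γ t ∈ O ∩ H) : Reg D H := by
  refine ⟨O, hO, hsub, ?_, ⟨c, hc⟩, ?_⟩
  · intro q hq
    obtain ⟨γ, hγ, h0, -, h2⟩ := h q hq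
    have ht : Filter.Tendsto γ (𝓝[>] (0 : ℝ)) (𝓝 q) := by
      rw [← h0]; exact (hγ.tendsto 0).mono_left nhdsWithin_le_nhds
    refine mem_closure_of_tendsto ht ?_
    filter_upwards [Ioc_mem_nhdsGT (show (0 : ℝ) < 1 by norm_num)] with t ht
    exact h2 t ht.1 ht.2
  · apply isPreconnected_of_forall c
    intro q hq
    obtain ⟨γ, hγ, h0, h1, h2⟩ := h q (hsub hq)
    refine ⟨γ '' Icc 0 1, ?_, ⟨1, by simp, h1⟩, ⟨0, by simp, h0⟩, ?_⟩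
    · rintro _ ⟨t, ht, rfl⟩
      rcases eq_or_lt_of_le ht.1 with h' | h'
      · rw [← h', h0]; exact hq
      · exact h2 t h' ht.2
    · exact isPreconnected_Icc.image _ hγ.continuousOn

variable {Λ : Lay} {Φ : ℝ → ℝ → ℝ} {κ : ℝ}

lemma LayPhi.cont (hΦ : LayPhi Λ Φ κ) : Continuous (fun p : ℝ × ℝ => Φ p.1 p.2) := by
  rw [continuous_iff_continuousAt]
  intro p
  rw [ContinuousAt, tendsto_iff_dist_tendsto_zero]
  have hb : ∀ q : ℝ × ℝ, dist (Φ q.1 q.2) (Φ p.1 p.2) ≤ κ * (|q.1 - p.1| + |q.2 - p.2|) := by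
    intro q; rw [Real.dist_eq]; exact hΦ.lip _ _ _ _
  refine squeeze_zero (fun _ => dist_nonneg) hb ?_
  have : Continuous (fun q : ℝ × ℝ => κ * (|q.1 - p.1| + |q.2 - p.2|)) := by fun_prop
  have h2 := this.tendsto p
  simpa using h2

lemma Lay.F_cont (Λ : Lay) : Continuous (fun p : ℝ × ℝ => Λ.F p.1 p.2) := by
  rw [continuous_iff_continuousAt]
  intro p
  rw [ContinuousAt, tendsto_iff_dist_tendsto_zero]
  have hb : ∀ q : ℝ × ℝ, dist (Λ.F q.1 q.2) (Λ.F p.1 p.2) ≤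
      -Λ.pb * |q.1 - p.1| + Λ.sig * |q.2 - p.2| := by
    intro q; rw [Real.dist_eq]; exact Λ.F_lip _ _ _ _
  refine squeeze_zero (fun _ => dist_nonneg) hb ?_
  have : Continuous (fun q : ℝ × ℝ => -Λ.pb * |q.1 - p.1| + Λ.sig * |q.2 - p.2|) := by fun_prop
  have h2 := this.tendsto p
  simpa using h2

lemma zconstr (hΦ : LayPhi Λ Φ κ) {x y z x' y' zc t C : ℝ} (ht0 : 0 < t) (ht1 : t ≤ 1)
    (hκC : 0 ≤ κ * C) (hκ : 0 ≤ κ)
    (hz : -Φ x y ≤ z) (hd : |x' - x| + |y' - y| ≤ t * C) (hC : κ * C < Λ.Zlo + zc) :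
    -Φ x' y' < (1 - t) * z + t * zc := by
  by_cases h : -Λ.Zlo < (1 - t) * z + t * zc
  · linarith [hΦ.lo x' y']
  · push Not at h
    have h1 := (abs_le.1 (hΦ.lip x' y' x y)).1
    have h2 := mul_le_mul_of_nonneg_left hd hκ
    have h3 : κ * C < zc - z := by
      by_contra! hcon
      have : -Λ.Zlo < z := by linarith
      have h5 : (1 - t) * (-Λ.Zlo) ≤ (1 - t) * z := mul_le_mul_of_nonneg_left this.le (by linarith)
      have h6 : t * (-Λ.Zlo) < t * zc := mul_lt_mul_of_pos_left (by linarith) ht0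
      linarith
    have h4 : t * (κ * C) < t * (zc - z) := mul_lt_mul_of_pos_left h3 ht0
    nlinarith

lemma zconstr' (hΦ : LayPhi Λ Φ κ) {x y z x' y' zc t C : ℝ} (ht0 : 0 < t) (ht1 : t ≤ 1)
    (hκC : 0 ≤ κ * C) (hκ : 0 ≤ κ)
    (hz : z ≤ Φ x y) (hd : |x' - x| + |y' - y| ≤ t * C) (hC : κ * C < Λ.Zlo - zc) :
    (1 - t) * z + t * zc < Φ x' y' := by
  have := zconstr hΦ (z := -z) (zc := -zc) ht0 ht1 hκC hκ (by linarith) hd (by linarith)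
  linarith

namespace LaySmall

variable (hs : LaySmall Λ κ)
include hs

lemma kN : 100 * (κ * Λ.N) ≤ Λ.Zlo - Λ.l / Λ.K := by
  have hK := Λ.K_pos
  have h := hs.small
  rw [le_sub_iff_add_le, ← le_sub_iff_add_le']
  rw [div_le_iff₀ hK]
  nlinarith

lemma kN_lt : κ * Λ.N < Λ.Zlo := by
  have h := hs.kN
  have h1 : 0 < Λ.l / Λ.K := div_pos Λ.l_pos Λ.K_pos
  have h2 : 0 ≤ κ * Λ.N := mul_nonneg hs.kpos Λ.N_pos.le
  linarith

lemma kN0 : 0 ≤ κ * Λ.N := mul_nonneg hs.kpos Λ.N_pos.le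

lemma kN_lt2 : κ * Λ.N < Λ.Zlo + -(Λ.l / Λ.K + Λ.Zlo) / 2 := by
  have h := hs.kN
  have hK := Λ.K_pos
  have h3 : Λ.l / Λ.K < Λ.Zlo := by
    rw [div_lt_iff₀ hK]
    have := Λ.lamlt
    have hl : Λ.l = Λ.N / 4 - Λ.be := rfl
    nlinarith
  have h2 : 0 ≤ κ * Λ.N := hs.kN0
  linarith

lemma pdle : Λ.pd ≤ 1 / 50 := by have := Λ.pd_lt; linarith [hs.pb]

lemma al_mul (u : ℝ) : |Λ.al * u| ≤ |u| := by
  rw [abs_mul]; exact mul_le_of_le_one_left (abs_nonneg _) hs.al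

end LaySmall

/-- the distance bound along a segment -/
lemma seg_dist {x y xc yc t C : ℝ} (ht0 : 0 < t) (h : |xc - x| + |yc - y| ≤ C) :
    |((1 - t) * x + t * xc) - x| + |((1 - t) * y + t * yc) - y| ≤ t * C := by
  rw [show (1 - t) * x + t * xc - x = t * (xc - x) by ring,
    show (1 - t) * y + t * yc - y = t * (yc - y) by ring, abs_mul, abs_mul, abs_of_pos ht0]
  nlinarith

lemma seg_abs {a b A B t : ℝ} (ht0 : 0 < t) (ht1 : t ≤ 1) (h : |a| ≤ A) (h' : |b| < B) :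
    |(1 - t) * a + t * b| < (1 - t) * A + t * B := by
  refine (abs_add_le _ _).trans_lt ?_
  rw [abs_mul, abs_mul, abs_of_pos ht0, abs_of_nonneg (by linarith : 0 ≤ 1 - t)]
  have h1 := mul_le_mul_of_nonneg_left h (by linarith : 0 ≤ 1 - t)
  have h2 := mul_lt_mul_of_pos_left h' ht0
  linarith

/-- the segment -/
def seg (q c : ℝ × ℝ × ℝ) (t : ℝ) : ℝ × ℝ × ℝ :=
  ((1 - t) * q.1 + t * c.1, (1 - t) * q.2.1 + t * c.2.1, (1 - t) * q.2.2 + t * c.2.2)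

lemma seg_cont (q c : ℝ × ℝ × ℝ) : Continuous (seg q c) := by unfold seg; fun_prop
lemma seg_zero (q c : ℝ × ℝ × ℝ) : seg q c 0 = q := by unfold seg; simp
lemma seg_one (q c : ℝ × ℝ × ℝ) : seg q c 1 = c := by unfold seg; simp

theorem DA1_reg (hΦ : LayPhi Λ Φ κ) (hs : LaySmall Λ κ) :
    Reg {X : ℝ × ℝ × ℝ | Λ.DA1 Φ X.1 X.2.1 X.2.2}
      {X | X.1 = 1 / 2 + Λ.pd * (X.2.1 - Λ.al * X.1 - Λ.be)} := by
  have hκ := hs.kpos
  have hcΦ := hΦ.cont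
  have hl := Λ.l_pos
  have hl4 := Λ.l_lt
  have hK := Λ.K_pos
  have hN := Λ.N_pos
  set c : ℝ × ℝ × ℝ := (1 / 2, Λ.be + Λ.al / 2, 0) with hcdef
  have key : ∀ q : ℝ × ℝ × ℝ, Λ.DA1 Φ q.1 q.2.1 q.2.2 → ∀ t, 0 < t → t ≤ 1 →
      seg q c t ∈ ({X | |X.2.1 - Λ.al * X.1 - Λ.be| < Λ.l - Λ.K * X.2.2} ∩
        {X | -Φ X.1 (X.2.1 - Λ.N / 2) < X.2.2}) ∩
        {X : ℝ × ℝ × ℝ | X.1 = 1 / 2 + Λ.pd * (X.2.1 - Λ.al * X.1 - Λ.be)} := by
    rintro ⟨x, y, z⟩ ⟨h1, h2, h3⟩ t ht0 ht1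
    simp only at h1 h2 h3
    have hz : -Λ.Zhi ≤ z := by linarith [hΦ.hi x (y - Λ.N / 2)]
    have hKz : -(Λ.N / 4) < Λ.K * z := by
      have := mul_le_mul_of_nonneg_left hz hK.le
      linarith [Λ.KZ]
    have hθ : |y - Λ.al * x - Λ.be| ≤ Λ.N / 2 := by linarith
    have hx : |1 / 2 - x| ≤ Λ.N / 100 := by
      rw [h1, show 1 / 2 - (1 / 2 + Λ.pd * (y - Λ.al * x - Λ.be)) =
        -(Λ.pd * (y - Λ.al * x - Λ.be)) by ring, abs_neg, abs_mul, abs_of_pos Λ.pd_pos]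
      have := mul_le_mul hs.pdle hθ (abs_nonneg _) (by norm_num)
      linarith
    have hy : |Λ.be + Λ.al / 2 - y| ≤ Λ.N / 2 + Λ.N / 100 := by
      rw [show Λ.be + Λ.al / 2 - y = -(y - Λ.al * x - Λ.be) + Λ.al * (1 / 2 - x) by ring]
      refine (abs_add_le _ _).trans ?_
      rw [abs_neg]
      linarith [hs.al_mul (1 / 2 - x)]
    refine ⟨⟨?_, ?_⟩, ?_⟩
    · show |((1 - t) * y + t * (Λ.be + Λ.al / 2)) - Λ.al * ((1 - t) * x + t * (1 / 2)) - Λ.be| <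
        Λ.l - Λ.K * ((1 - t) * z + t * 0)
      have := seg_abs (b := 0) (B := Λ.l) ht0 ht1 h2 (by simpa using hl)
      rw [show ((1 - t) * y + t * (Λ.be + Λ.al / 2)) - Λ.al * ((1 - t) * x + t * (1 / 2)) - Λ.be =
        (1 - t) * (y - Λ.al * x - Λ.be) + t * 0 by ring]
      linarith
    · show -Φ ((1 - t) * x + t * (1 / 2)) ((1 - t) * y + t * (Λ.be + Λ.al / 2) - Λ.N / 2) <
        (1 - t) * z + t * 0
      refine zconstr hΦ (C := Λ.N) ht0 ht1 hs.kN0 hκ h3 ?_ (by linarith [hs.kN_lt])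
      have := seg_dist (C := Λ.N) ht0 (show |1 / 2 - x| + |Λ.be + Λ.al / 2 - y| ≤ Λ.N by linarith)
      rw [show (1 - t) * y + t * (Λ.be + Λ.al / 2) - Λ.N / 2 - (y - Λ.N / 2) =
        (1 - t) * y + t * (Λ.be + Λ.al / 2) - y by ring]
      exact this
    · show (1 - t) * x + t * (1 / 2) = 1 / 2 + Λ.pd *
        ((1 - t) * y + t * (Λ.be + Λ.al / 2) - Λ.al * ((1 - t) * x + t * (1 / 2)) - Λ.be)
      linear_combination (1 - t) * h1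
  have hc : Λ.DA1 Φ c.1 c.2.1 c.2.2 := by
    refine ⟨?_, ?_, ?_⟩
    · show (1 : ℝ) / 2 = 1 / 2 + Λ.pd * (Λ.be + Λ.al / 2 - Λ.al * (1 / 2) - Λ.be); ring
    · show |Λ.be + Λ.al / 2 - Λ.al * (1 / 2) - Λ.be| ≤ Λ.l - Λ.K * 0
      rw [show Λ.be + Λ.al / 2 - Λ.al * (1 / 2) - Λ.be = 0 by ring]
      simpa using hl.le
    · show -Φ _ _ ≤ 0
      linarith [hΦ.lo (1 / 2) (Λ.be + Λ.al / 2 - Λ.N / 2), Λ.Zlo_pos]
  refine reg_of_contract (O := {X | |X.2.1 - Λ.al * X.1 - Λ.be| < Λ.l - Λ.K * X.2.2} ∩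
        {X | -Φ X.1 (X.2.1 - Λ.N / 2) < X.2.2}) (c := c) ?_ ?_ ?_ ?_
  · refine (isOpen_lt (by fun_prop) (by fun_prop)).inter (isOpen_lt ?_ (by fun_prop))
    exact (hcΦ.comp (f := fun X : ℝ × ℝ × ℝ => (X.1, X.2.1 - Λ.N / 2)) (by fun_prop)).neg
  · have := key c hc 1 one_pos le_rfl
    rwa [seg_one] at this
  · rintro X ⟨⟨h1, h2⟩, h3⟩
    exact ⟨h3, h1.le, h2.le⟩
  · intro q hq
    exact ⟨seg q c, seg_cont q c, seg_zero q c, seg_one q c, key q hq⟩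

theorem DA2_reg (hΦ : LayPhi Λ Φ κ) (hs : LaySmall Λ κ) :
    Reg {X : ℝ × ℝ × ℝ | Λ.DA2 Φ X.1 X.2.1 X.2.2}
      {X | X.1 = 1 / 2 + Λ.pb * (X.2.1 - Λ.al * X.1 - Λ.be + Λ.N / 2)} := by
  have hκ := hs.kpos
  have hcΦ := hΦ.cont
  have hl := Λ.l_pos
  have hl4 := Λ.l_lt
  have hK := Λ.K_pos
  have hN := Λ.N_pos
  have hpb := Λ.pb_neg
  set zc : ℝ := -(Λ.l / Λ.K + Λ.Zlo) / 2 with hzc
  have hKzc : Λ.K * zc + Λ.l < 0 := by
    have h1 : Λ.K * (Λ.l / Λ.K) = Λ.l := by field_simp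
    have h2 := Λ.lamlt
    have h3 : Λ.l = Λ.N / 4 - Λ.be := rfl
    have : Λ.K * zc = -(Λ.K * (Λ.l / Λ.K) + Λ.K * Λ.Zlo) / 2 := by rw [hzc]; ring
    rw [this, h1]; linarith
  have hk2 : κ * Λ.N < Λ.Zlo + zc := hs.kN_lt2
  have hk0 := hs.kN0
  set c : ℝ × ℝ × ℝ := (1 / 2, Λ.be + Λ.al / 2 - Λ.N / 2, zc) with hcdef
  have key : ∀ q : ℝ × ℝ × ℝ, Λ.DA2 Φ q.1 q.2.1 q.2.2 → ∀ t, 0 < t → t ≤ 1 →
      seg q c t ∈ ({X | |X.2.1 - Λ.al * X.1 - Λ.be + Λ.N / 2| < -(Λ.K * X.2.2 + Λ.l)} ∩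
        {X | -Φ X.1 (X.2.1 - Λ.N / 2) < X.2.2}) ∩
        {X : ℝ × ℝ × ℝ | X.1 = 1 / 2 + Λ.pb * (X.2.1 - Λ.al * X.1 - Λ.be + Λ.N / 2)} := by
    rintro ⟨x, y, z⟩ ⟨h1, h2, h3⟩ t ht0 ht1
    simp only at h1 h2 h3
    have hz : -Λ.Zhi ≤ z := by linarith [hΦ.hi x (y - Λ.N / 2)]
    have hKz : -(Λ.N / 4) < Λ.K * z := by
      have := mul_le_mul_of_nonneg_left hz hK.le
      linarith [Λ.KZ]
    have hθ : |y - Λ.al * x - Λ.be + Λ.N / 2| ≤ Λ.N / 2 := by linarith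
    have hx : |1 / 2 - x| ≤ Λ.N / 100 := by
      rw [h1, show 1 / 2 - (1 / 2 + Λ.pb * (y - Λ.al * x - Λ.be + Λ.N / 2)) =
        -(Λ.pb * (y - Λ.al * x - Λ.be + Λ.N / 2)) by ring, abs_neg, abs_mul, abs_of_neg hpb]
      have := mul_le_mul hs.pb hθ (abs_nonneg _) (by norm_num)
      linarith
    have hy : |Λ.be + Λ.al / 2 - Λ.N / 2 - y| ≤ Λ.N / 2 + Λ.N / 100 := by
      rw [show Λ.be + Λ.al / 2 - Λ.N / 2 - y =
        -(y - Λ.al * x - Λ.be + Λ.N / 2) + Λ.al * (1 / 2 - x) by ring]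
      refine (abs_add_le _ _).trans ?_
      rw [abs_neg]
      linarith [hs.al_mul (1 / 2 - x)]
    refine ⟨⟨?_, ?_⟩, ?_⟩
    · show |((1 - t) * y + t * (Λ.be + Λ.al / 2 - Λ.N / 2)) -
        Λ.al * ((1 - t) * x + t * (1 / 2)) - Λ.be + Λ.N / 2| < -(Λ.K * ((1 - t) * z + t * zc) + Λ.l)
      have := seg_abs (b := 0) (B := -(Λ.K * zc + Λ.l)) ht0 ht1 h2
        (by rw [abs_zero]; linarith)
      rw [show ((1 - t) * y + t * (Λ.be + Λ.al / 2 - Λ.N / 2)) -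
        Λ.al * ((1 - t) * x + t * (1 / 2)) - Λ.be + Λ.N / 2 =
        (1 - t) * (y - Λ.al * x - Λ.be + Λ.N / 2) + t * 0 by ring]
      linarith
    · show -Φ ((1 - t) * x + t * (1 / 2))
        ((1 - t) * y + t * (Λ.be + Λ.al / 2 - Λ.N / 2) - Λ.N / 2) < (1 - t) * z + t * zc
      refine zconstr hΦ (C := Λ.N) ht0 ht1 hk0 hκ h3 ?_ hk2
      have := seg_dist (C := Λ.N) ht0
        (show |1 / 2 - x| + |Λ.be + Λ.al / 2 - Λ.N / 2 - y| ≤ Λ.N by linarith)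
      rw [show (1 - t) * y + t * (Λ.be + Λ.al / 2 - Λ.N / 2) - Λ.N / 2 - (y - Λ.N / 2) =
        (1 - t) * y + t * (Λ.be + Λ.al / 2 - Λ.N / 2) - y by ring]
      exact this
    · show (1 - t) * x + t * (1 / 2) = 1 / 2 + Λ.pb *
        ((1 - t) * y + t * (Λ.be + Λ.al / 2 - Λ.N / 2) - Λ.al * ((1 - t) * x + t * (1 / 2)) -
          Λ.be + Λ.N / 2)
      linear_combination (1 - t) * h1
  have hc : Λ.DA2 Φ c.1 c.2.1 c.2.2 := by
    refine ⟨?_, ?_, ?_⟩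
    · show (1 : ℝ) / 2 = 1 / 2 + Λ.pb *
        (Λ.be + Λ.al / 2 - Λ.N / 2 - Λ.al * (1 / 2) - Λ.be + Λ.N / 2)
      ring
    · show |Λ.be + Λ.al / 2 - Λ.N / 2 - Λ.al * (1 / 2) - Λ.be + Λ.N / 2| ≤ -(Λ.K * zc + Λ.l)
      rw [show Λ.be + Λ.al / 2 - Λ.N / 2 - Λ.al * (1 / 2) - Λ.be + Λ.N / 2 = 0 by ring]
      rw [abs_zero]; linarith
    · show -Φ _ _ ≤ zc
      linarith [hΦ.lo (1 / 2) (Λ.be + Λ.al / 2 - Λ.N / 2 - Λ.N / 2), Λ.Zlo_pos]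
  refine reg_of_contract
    (O := {X | |X.2.1 - Λ.al * X.1 - Λ.be + Λ.N / 2| < -(Λ.K * X.2.2 + Λ.l)} ∩
        {X | -Φ X.1 (X.2.1 - Λ.N / 2) < X.2.2}) (c := c) ?_ ?_ ?_ ?_
  · refine (isOpen_lt (by fun_prop) (by fun_prop)).inter (isOpen_lt ?_ (by fun_prop))
    exact (hcΦ.comp (f := fun X : ℝ × ℝ × ℝ => (X.1, X.2.1 - Λ.N / 2)) (by fun_prop)).neg
  · have := key c hc 1 one_pos le_rfl
    rwa [seg_one] at this
  · rintro X ⟨⟨h1, h2⟩, h3⟩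
    exact ⟨h3, h1.le, h2.le⟩
  · intro q hq
    exact ⟨seg q c, seg_cont q c, seg_zero q c, seg_one q c, key q hq⟩

theorem DBE_reg (hΦ : LayPhi Λ Φ κ) (hs : LaySmall Λ κ) :
    Reg {X : ℝ × ℝ × ℝ | Λ.DBE Φ X.1 X.2.1 X.2.2}
      {X | X.1 = 1 / 2 + Λ.rho * (X.2.1 - Λ.al * X.1 - Λ.be + Λ.N / 4) + Λ.sig * X.2.2} := by
  have hκ := hs.kpos
  have hcΦ := hΦ.cont
  have hl := Λ.l_pos
  have hl4 := Λ.l_lt
  have hK := Λ.K_pos
  have hN := Λ.N_pos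
  have hpb := Λ.pb_neg
  have hpd := Λ.pd_pos
  have hpd2 := hs.pdle
  have hpb2 := hs.pb
  have hρ := Λ.rho_neg
  have hk0 := hs.kN0
  have hk1 := hs.kN_lt
  set c : ℝ × ℝ × ℝ := (1 / 2, Λ.be + Λ.al / 2 - Λ.N / 4, 0) with hcdef
  have key : ∀ q : ℝ × ℝ × ℝ, Λ.DBE Φ q.1 q.2.1 q.2.2 → ∀ t, 0 < t → t ≤ 1 →
      seg q c t ∈ ((({X | |Λ.K * X.2.2 + Λ.l| < X.2.1 - Λ.al * X.1 - Λ.be + Λ.N / 2} ∩
        {X | |Λ.K * X.2.2 - Λ.l| < -(X.2.1 - Λ.al * X.1 - Λ.be)}) ∩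
        {X | -Φ X.1 (X.2.1 - Λ.N / 2) < X.2.2}) ∩ {X | X.2.2 < Φ X.1 X.2.1}) ∩
        {X : ℝ × ℝ × ℝ | X.1 = 1 / 2 + Λ.rho * (X.2.1 - Λ.al * X.1 - Λ.be + Λ.N / 4) +
          Λ.sig * X.2.2} := by
    rintro ⟨x, y, z⟩ ⟨h1, h2, h2', h3, h4⟩ t ht0 ht1
    simp only at h1 h2 h2' h3 h4
    have hz := Lay.zabs hΦ h3 h4
    have hKz := Λ.Kz_abs hz
    have a1 := abs_nonneg (Λ.K * z + Λ.l)
    have a2 := abs_nonneg (Λ.K * z - Λ.l)
    have hθ : |y - Λ.al * x - Λ.be + Λ.N / 4| ≤ Λ.N / 4 := by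
      rw [abs_le]; constructor <;> linarith
    have hx : |1 / 2 - x| ≤ Λ.N / 100 := by
      rw [h1, show 1 / 2 - (1 / 2 + Λ.rho * (y - Λ.al * x - Λ.be + Λ.N / 4) + Λ.sig * z) =
        -(Λ.rho * (y - Λ.al * x - Λ.be + Λ.N / 4) + (Λ.pd - Λ.pb) / 2 * (Λ.K * z)) by
          unfold Lay.sig; ring, abs_neg]
      refine (abs_add_le _ _).trans ?_
      rw [abs_mul, abs_mul, abs_of_neg hρ, abs_of_pos (by linarith : 0 < (Λ.pd - Λ.pb) / 2)]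
      have e1 : -Λ.rho ≤ 1 / 50 := by unfold Lay.rho; linarith
      have e2 : (Λ.pd - Λ.pb) / 2 ≤ 1 / 50 := by linarith
      have f1 := mul_le_mul e1 hθ (abs_nonneg _) (by norm_num)
      have f2 := mul_le_mul e2 hKz.le (abs_nonneg _) (by norm_num)
      linarith
    have hy : |Λ.be + Λ.al / 2 - Λ.N / 4 - y| ≤ Λ.N / 2 := by
      rw [show Λ.be + Λ.al / 2 - Λ.N / 4 - y =
        -(y - Λ.al * x - Λ.be + Λ.N / 4) + Λ.al * (1 / 2 - x) by ring]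
      refine (abs_add_le _ _).trans ?_
      rw [abs_neg]
      linarith [hs.al_mul (1 / 2 - x)]
    have hd := seg_dist (C := Λ.N) ht0
        (show |1 / 2 - x| + |Λ.be + Λ.al / 2 - Λ.N / 4 - y| ≤ Λ.N by linarith)
    refine ⟨⟨⟨⟨?_, ?_⟩, ?_⟩, ?_⟩, ?_⟩
    · show |Λ.K * ((1 - t) * z + t * 0) + Λ.l| <
        ((1 - t) * y + t * (Λ.be + Λ.al / 2 - Λ.N / 4)) -
        Λ.al * ((1 - t) * x + t * (1 / 2)) - Λ.be + Λ.N / 2
      have := seg_abs (a := Λ.K * z + Λ.l) (b := Λ.l) (B := Λ.N / 4) ht0 ht1 le_rfl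
        (by rwa [abs_of_pos hl])
      rw [show Λ.K * ((1 - t) * z + t * 0) + Λ.l = (1 - t) * (Λ.K * z + Λ.l) + t * Λ.l by ring]
      have h5 := mul_le_mul_of_nonneg_left h2 (by linarith : 0 ≤ 1 - t)
      linarith
    · show |Λ.K * ((1 - t) * z + t * 0) - Λ.l| <
        -(((1 - t) * y + t * (Λ.be + Λ.al / 2 - Λ.N / 4)) -
        Λ.al * ((1 - t) * x + t * (1 / 2)) - Λ.be)
      have := seg_abs (a := Λ.K * z - Λ.l) (b := -Λ.l) (B := Λ.N / 4) ht0 ht1 le_rfl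
        (by rwa [abs_neg, abs_of_pos hl])
      rw [show Λ.K * ((1 - t) * z + t * 0) - Λ.l = (1 - t) * (Λ.K * z - Λ.l) + t * -Λ.l by ring]
      have h5 := mul_le_mul_of_nonneg_left h2' (by linarith : 0 ≤ 1 - t)
      linarith
    · show -Φ ((1 - t) * x + t * (1 / 2))
        ((1 - t) * y + t * (Λ.be + Λ.al / 2 - Λ.N / 4) - Λ.N / 2) < (1 - t) * z + t * 0
      refine zconstr hΦ (C := Λ.N) ht0 ht1 hk0 hκ h3 ?_ (by linarith)
      rw [show (1 - t) * y + t * (Λ.be + Λ.al / 2 - Λ.N / 4) - Λ.N / 2 - (y - Λ.N / 2) =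
        (1 - t) * y + t * (Λ.be + Λ.al / 2 - Λ.N / 4) - y by ring]
      exact hd
    · show (1 - t) * z + t * 0 < Φ ((1 - t) * x + t * (1 / 2))
        ((1 - t) * y + t * (Λ.be + Λ.al / 2 - Λ.N / 4))
      exact zconstr' hΦ (C := Λ.N) ht0 ht1 hk0 hκ h4 hd (by linarith)
    · show (1 - t) * x + t * (1 / 2) = 1 / 2 + Λ.rho *
        ((1 - t) * y + t * (Λ.be + Λ.al / 2 - Λ.N / 4) - Λ.al * ((1 - t) * x + t * (1 / 2)) -
          Λ.be + Λ.N / 4) + Λ.sig * ((1 - t) * z + t * 0)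
      linear_combination (1 - t) * h1
  have hc : Λ.DBE Φ c.1 c.2.1 c.2.2 := by
    refine ⟨?_, ?_, ?_, ?_, ?_⟩
    · show (1 : ℝ) / 2 = 1 / 2 + Λ.rho *
        (Λ.be + Λ.al / 2 - Λ.N / 4 - Λ.al * (1 / 2) - Λ.be + Λ.N / 4) + Λ.sig * 0
      ring
    · show -(Λ.N / 2) + |Λ.K * 0 + Λ.l| ≤ Λ.be + Λ.al / 2 - Λ.N / 4 - Λ.al * (1 / 2) - Λ.be
      rw [mul_zero, zero_add, abs_of_pos hl]; linarith
    · show Λ.be + Λ.al / 2 - Λ.N / 4 - Λ.al * (1 / 2) - Λ.be ≤ -|Λ.K * 0 - Λ.l|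
      rw [mul_zero, zero_sub, abs_neg, abs_of_pos hl]; linarith
    · show -Φ _ _ ≤ 0
      linarith [hΦ.lo (1 / 2) (Λ.be + Λ.al / 2 - Λ.N / 4 - Λ.N / 2), Λ.Zlo_pos]
    · show 0 ≤ Φ _ _
      linarith [hΦ.lo (1 / 2) (Λ.be + Λ.al / 2 - Λ.N / 4), Λ.Zlo_pos]
  refine reg_of_contract
    (O := (({X | |Λ.K * X.2.2 + Λ.l| < X.2.1 - Λ.al * X.1 - Λ.be + Λ.N / 2} ∩
        {X | |Λ.K * X.2.2 - Λ.l| < -(X.2.1 - Λ.al * X.1 - Λ.be)}) ∩
        {X | -Φ X.1 (X.2.1 - Λ.N / 2) < X.2.2}) ∩ {X | X.2.2 < Φ X.1 X.2.1}) (c := c) ?_ ?_ ?_ ?_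
  · refine (((isOpen_lt (by fun_prop) (by fun_prop)).inter
      (isOpen_lt (by fun_prop) (by fun_prop))).inter (isOpen_lt ?_ (by fun_prop))).inter
      (isOpen_lt (by fun_prop) ?_)
    · exact (hcΦ.comp (f := fun X : ℝ × ℝ × ℝ => (X.1, X.2.1 - Λ.N / 2)) (by fun_prop)).neg
    · exact (hcΦ.comp (f := fun X : ℝ × ℝ × ℝ => (X.1, X.2.1)) (by fun_prop))
  · have := key c hc 1 one_pos le_rfl
    rwa [seg_one] at this
  · rintro X ⟨⟨⟨⟨h1, h1'⟩, h2⟩, h2'⟩, h3⟩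
    simp only [mem_ofPred_eq] at h1 h1' h2 h2' h3
    exact ⟨h3, by linarith, by linarith, h2.le, h2'.le⟩
  · intro q hq
    exact ⟨seg q c, seg_cont q c, seg_zero q c, seg_one q c, key q hq⟩

namespace Lay

variable (Λ : Lay)

/-- left wall -/
noncomputable def wl (η z : ℝ) : ℝ := -(1 / 2) + Λ.F (η + Λ.be) z
/-- right wall -/
noncomputable def wr (η z : ℝ) : ℝ := 1 / 2 + Λ.F (η - Λ.be) z
/-- the `x` coordinate of the fibre point -/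
noncomputable def fx (η z ρ : ℝ) : ℝ := (1 - ρ) * Λ.wl η z + ρ * Λ.wr η z

lemma wl_cont : Continuous (fun p : ℝ × ℝ => Λ.wl p.1 p.2) := by
  unfold wl
  exact continuous_const.add
    (Λ.F_cont.comp (f := fun p : ℝ × ℝ => (p.1 + Λ.be, p.2)) (by fun_prop))
lemma wr_cont : Continuous (fun p : ℝ × ℝ => Λ.wr p.1 p.2) := by
  unfold wr
  exact continuous_const.add
    (Λ.F_cont.comp (f := fun p : ℝ × ℝ => (p.1 - Λ.be, p.2)) (by fun_prop))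

lemma wl_lt_wr (η : ℝ) {z : ℝ} (hz : |z| ≤ Λ.Zhi) : Λ.wl η z < Λ.wr η z := by
  have a1 := abs_lt.1 (Λ.F_abs_lt (η + Λ.be) hz)
  have a2 := abs_lt.1 (Λ.F_abs_lt (η - Λ.be) hz)
  unfold wl wr; linarith

lemma wl_abs (η : ℝ) {z : ℝ} (hz : |z| ≤ Λ.Zhi) : -1 < Λ.wl η z ∧ Λ.wl η z < 0 := by
  have a1 := abs_lt.1 (Λ.F_abs_lt (η + Λ.be) hz)
  unfold wl; constructor <;> linarith

lemma wr_abs (η : ℝ) {z : ℝ} (hz : |z| ≤ Λ.Zhi) : 0 < Λ.wr η z ∧ Λ.wr η z < 1 := by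
  have a1 := abs_lt.1 (Λ.F_abs_lt (η - Λ.be) hz)
  unfold wr; constructor <;> linarith

end Lay

/-- a path in a fibred set: existence of a path to the centre with all estimates -/
lemma fibre_path (hs : LaySmall Λ κ) {x η z ηc : ℝ} (hz : |z| ≤ Λ.Zhi)
    (hη : |ηc - η| ≤ Λ.N / 2) (h1 : Λ.wl η z ≤ x) (h2 : x ≤ Λ.wr η z) :
    ∃ ξ : ℝ → ℝ, Continuous ξ ∧ ξ 0 = x ∧ ξ 1 = Λ.fx ηc 0 (1 / 2) ∧
      ∀ t, 0 < t → t ≤ 1 →
        Λ.wl ((1 - t) * η + t * ηc) ((1 - t) * z) < ξ t ∧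
        ξ t < Λ.wr ((1 - t) * η + t * ηc) ((1 - t) * z) ∧
        |ξ t - x| ≤ t * (Λ.N / 20) := by
  have hlt := Λ.wl_lt_wr η hz
  set ρ : ℝ := (x - Λ.wl η z) / (Λ.wr η z - Λ.wl η z) with hρ
  have hρ0 : 0 ≤ ρ := div_nonneg (by linarith) (by linarith)
  have hρ1 : ρ ≤ 1 := by rw [hρ, div_le_one (by linarith)]; linarith
  have hx : x = (1 - ρ) * Λ.wl η z + ρ * Λ.wr η z := by
    have : ρ * (Λ.wr η z - Λ.wl η z) = x - Λ.wl η z := by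
      rw [hρ, div_mul_cancel₀ _ (sub_pos.2 hlt).ne']
    linarith
  have hK := Λ.K_pos
  have hN := Λ.N_pos
  have hN1 := hs.N
  have hpb := Λ.pb_neg
  have hpd := Λ.pd_pos
  have hpd2 := hs.pdle
  have hpb2 := hs.pb
  have hsig := Λ.sig_pos
  have hKz := Λ.Kz_abs hz
  have hsz : Λ.sig * |z| ≤ 1 / 50 * (Λ.N / 4) := by
    have e : Λ.sig * |z| = (Λ.pd - Λ.pb) / 2 * |Λ.K * z| := by
      rw [abs_mul, abs_of_pos hK]; unfold Lay.sig; ring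
    rw [e]
    exact mul_le_mul (by linarith) hKz.le (abs_nonneg _) (by norm_num)
  have hbη : -Λ.pb * |ηc - η| ≤ 1 / 50 * (Λ.N / 2) :=
    mul_le_mul hpb2 hη (abs_nonneg _) (by norm_num)
  refine ⟨fun t => Λ.fx ((1 - t) * η + t * ηc) ((1 - t) * z) ((1 - t) * ρ + t / 2), ?_, ?_, ?_, ?_⟩
  · unfold Lay.fx
    have c1 := Λ.wl_cont.comp (f := fun t : ℝ => ((1 - t) * η + t * ηc, (1 - t) * z))
      (by fun_prop)
    have c2 := Λ.wr_cont.comp (f := fun t : ℝ => ((1 - t) * η + t * ηc, (1 - t) * z))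
      (by fun_prop)
    have c3 : Continuous (fun t : ℝ => (1 - t) * ρ + t / 2) := by fun_prop
    exact ((continuous_const.sub c3).mul c1).add (c3.mul c2)
  · simp only [Lay.fx, sub_zero, one_mul, zero_mul, add_zero, zero_div]
    exact hx.symm
  · simp only [sub_self, zero_mul, zero_add, one_mul]
  · intro t ht0 ht1
    have hzt : |(1 - t) * z| ≤ Λ.Zhi := by
      rw [abs_mul, abs_of_nonneg (by linarith : 0 ≤ 1 - t)]
      exact (mul_le_of_le_one_left (abs_nonneg _) (by linarith)).trans hz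
    have hlt' := Λ.wl_lt_wr ((1 - t) * η + t * ηc) hzt
    have hla := Λ.wl_abs ((1 - t) * η + t * ηc) hzt
    have hra := Λ.wr_abs ((1 - t) * η + t * ηc) hzt
    have hr0 : 0 < (1 - t) * ρ + t / 2 := by
      have := mul_nonneg (by linarith : 0 ≤ 1 - t) hρ0
      linarith
    have hr1 : (1 - t) * ρ + t / 2 < 1 := by
      have := mul_le_mul_of_nonneg_left hρ1 (by linarith : 0 ≤ 1 - t)
      linarith
    have hl : |Λ.wl ((1 - t) * η + t * ηc) ((1 - t) * z) - Λ.wl η z| ≤ t * (Λ.N * (3 / 200)) := by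
      have := Λ.F_lip ((1 - t) * η + t * ηc + Λ.be) (η + Λ.be) ((1 - t) * z) z
      rw [show (1 - t) * η + t * ηc + Λ.be - (η + Λ.be) = t * (ηc - η) by ring,
        show (1 - t) * z - z = -(t * z) by ring, abs_neg, abs_mul, abs_mul, abs_of_pos ht0] at this
      unfold Lay.wl
      rw [show -(1 / 2) + Λ.F ((1 - t) * η + t * ηc + Λ.be) ((1 - t) * z) -
        (-(1 / 2) + Λ.F (η + Λ.be) z) = Λ.F ((1 - t) * η + t * ηc + Λ.be) ((1 - t) * z) -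
          Λ.F (η + Λ.be) z by ring]
      refine this.trans ?_
      have f1 := mul_le_mul_of_nonneg_left hbη ht0.le
      have f2 := mul_le_mul_of_nonneg_left hsz ht0.le
      linarith
    have hr : |Λ.wr ((1 - t) * η + t * ηc) ((1 - t) * z) - Λ.wr η z| ≤ t * (Λ.N * (3 / 200)) := by
      have := Λ.F_lip ((1 - t) * η + t * ηc - Λ.be) (η - Λ.be) ((1 - t) * z) z
      rw [show (1 - t) * η + t * ηc - Λ.be - (η - Λ.be) = t * (ηc - η) by ring,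
        show (1 - t) * z - z = -(t * z) by ring, abs_neg, abs_mul, abs_mul, abs_of_pos ht0] at this
      unfold Lay.wr
      rw [show 1 / 2 + Λ.F ((1 - t) * η + t * ηc - Λ.be) ((1 - t) * z) -
        (1 / 2 + Λ.F (η - Λ.be) z) = Λ.F ((1 - t) * η + t * ηc - Λ.be) ((1 - t) * z) -
          Λ.F (η - Λ.be) z by ring]
      refine this.trans ?_
      have f1 := mul_le_mul_of_nonneg_left hbη ht0.le
      have f2 := mul_le_mul_of_nonneg_left hsz ht0.le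
      linarith
    unfold Lay.fx
    refine ⟨by nlinarith, by nlinarith, ?_⟩
    show |(1 - ((1 - t) * ρ + t / 2)) * Λ.wl ((1 - t) * η + t * ηc) ((1 - t) * z) +
      ((1 - t) * ρ + t / 2) * Λ.wr ((1 - t) * η + t * ηc) ((1 - t) * z) - x| ≤ t * (Λ.N / 20)
    generalize Λ.wl ((1 - t) * η + t * ηc) ((1 - t) * z) = A at *
    generalize Λ.wr ((1 - t) * η + t * ηc) ((1 - t) * z) = B at *
    rw [show (1 - ((1 - t) * ρ + t / 2)) * A + ((1 - t) * ρ + t / 2) * B - x =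
      ((1 - ρ) * (A - Λ.wl η z) + ρ * (B - Λ.wr η z)) + t * ((1 / 2 - ρ) * (B - A)) by
        rw [hx]; ring]
    refine (abs_add_le _ _).trans ((add_le_add_left (abs_add_le _ _) _).trans ?_)
    rw [abs_mul, abs_mul, abs_mul, abs_mul, abs_of_pos ht0, abs_of_nonneg hρ0,
      abs_of_nonneg (by linarith : 0 ≤ 1 - ρ), abs_of_pos (sub_pos.2 hlt')]
    have g1 := mul_le_mul_of_nonneg_left hl (by linarith : 0 ≤ 1 - ρ)
    have g2 := mul_le_mul_of_nonneg_left hr hρ0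
    have g3 : |1 / 2 - ρ| * (B - A) ≤ 1 / 2 * 2 :=
      mul_le_mul (abs_le.2 ⟨by linarith, by linarith⟩) (by linarith) (by linarith) (by norm_num)
    have g4 := mul_le_mul_of_nonneg_left g3 ht0.le
    have g5 := mul_le_mul_of_nonneg_left hN1 ht0.le
    nlinarith

/-- the walls in terms of `x`, `y` -/
lemma walls_iff (x y z : ℝ) :
    (-(1 / 2) + Λ.F (y - Λ.al * x + Λ.be) z ≤ x ↔ Λ.wl (y - Λ.al * x) z ≤ x) ∧
    (x ≤ 1 / 2 + Λ.F (y - Λ.al * x - Λ.be) z ↔ x ≤ Λ.wr (y - Λ.al * x) z) := ⟨Iff.rfl, Iff.rfl⟩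

/-- the open region between the walls and between the two height functions -/
def Opn (Λ : Lay) (Φ : ℝ → ℝ → ℝ) : Set (ℝ × ℝ × ℝ) :=
  (({X | Λ.wl (X.2.1 - Λ.al * X.1) X.2.2 < X.1} ∩ {X | X.1 < Λ.wr (X.2.1 - Λ.al * X.1) X.2.2}) ∩
    {X | -Φ X.1 (X.2.1 - Λ.N / 2) < X.2.2}) ∩ {X | X.2.2 < Φ X.1 X.2.1}

lemma Opn_open (hΦ : LayPhi Λ Φ κ) : IsOpen (Opn Λ Φ) := by
  have hcΦ := hΦ.cont
  refine (((isOpen_lt ?_ (by fun_prop)).inter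
      (isOpen_lt (by fun_prop) ?_)).inter (isOpen_lt ?_ (by fun_prop))).inter
      (isOpen_lt (by fun_prop) ?_)
  · exact Λ.wl_cont.comp (f := fun X : ℝ × ℝ × ℝ => (X.2.1 - Λ.al * X.1, X.2.2)) (by fun_prop)
  · exact Λ.wr_cont.comp (f := fun X : ℝ × ℝ × ℝ => (X.2.1 - Λ.al * X.1, X.2.2)) (by fun_prop)
  · exact (hcΦ.comp (f := fun X : ℝ × ℝ × ℝ => (X.1, X.2.1 - Λ.N / 2)) (by fun_prop)).neg
  · exact (hcΦ.comp (f := fun X : ℝ × ℝ × ℝ => (X.1, X.2.1)) (by fun_prop))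

lemma path_in_Opn (hΦ : LayPhi Λ Φ κ) (hs : LaySmall Λ κ) {x y z ηc : ℝ}
    (hη : |ηc - (y - Λ.al * x)| ≤ Λ.N / 2)
    (h1 : Λ.wl (y - Λ.al * x) z ≤ x) (h2 : x ≤ Λ.wr (y - Λ.al * x) z)
    (h3 : -Φ x (y - Λ.N / 2) ≤ z) (h4 : z ≤ Φ x y) :
    ∃ γ : ℝ → ℝ × ℝ × ℝ, Continuous γ ∧ γ 0 = (x, y, z) ∧
      γ 1 = (Λ.fx ηc 0 (1 / 2), ηc + Λ.al * Λ.fx ηc 0 (1 / 2), 0) ∧
      ∀ t, 0 < t → t ≤ 1 → γ t ∈ Opn Λ Φ ∧ (γ t).2.2 = (1 - t) * z ∧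
        (γ t).2.1 - Λ.al * (γ t).1 = (1 - t) * (y - Λ.al * x) + t * ηc := by
  have hz := Lay.zabs hΦ h3 h4
  obtain ⟨ξ, hξ, e0, e1, hp⟩ := fibre_path hs hz hη h1 h2
  have hN := Λ.N_pos
  refine ⟨fun t => (ξ t, (1 - t) * (y - Λ.al * x) + t * ηc + Λ.al * ξ t, (1 - t) * z), ?_, ?_,
    ?_, ?_⟩
  · fun_prop
  · simp only [e0, sub_zero, one_mul, zero_mul, add_zero]
    congr 2; ring
  · simp only [e1, sub_self, zero_mul, one_mul, zero_add]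
  · intro t ht0 ht1
    obtain ⟨p1, p2, p3⟩ := hp t ht0 ht1
    have hy : |(1 - t) * (y - Λ.al * x) + t * ηc + Λ.al * ξ t - y| ≤
        t * (Λ.N / 2) + t * (Λ.N / 20) := by
      rw [show (1 - t) * (y - Λ.al * x) + t * ηc + Λ.al * ξ t - y =
        t * (ηc - (y - Λ.al * x)) + Λ.al * (ξ t - x) by ring]
      refine (abs_add_le _ _).trans ?_
      rw [abs_mul, abs_of_pos ht0]
      have g1 := mul_le_mul_of_nonneg_left hη ht0.le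
      have g2 := hs.al_mul (ξ t - x)
      linarith
    have hd : |ξ t - x| + |(1 - t) * (y - Λ.al * x) + t * ηc + Λ.al * ξ t - y| ≤ t * Λ.N := by
      have := mul_pos ht0 hN
      linarith
    have e : (1 - t) * (y - Λ.al * x) + t * ηc + Λ.al * ξ t - Λ.al * ξ t =
      (1 - t) * (y - Λ.al * x) + t * ηc := by ring
    refine ⟨⟨⟨⟨?_, ?_⟩, ?_⟩, ?_⟩, rfl, e⟩
    · show Λ.wl ((1 - t) * (y - Λ.al * x) + t * ηc + Λ.al * ξ t - Λ.al * ξ t) ((1 - t) * z) < ξ t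
      rw [e]; exact p1
    · show ξ t < Λ.wr ((1 - t) * (y - Λ.al * x) + t * ηc + Λ.al * ξ t - Λ.al * ξ t) ((1 - t) * z)
      rw [e]; exact p2
    · show -Φ (ξ t) ((1 - t) * (y - Λ.al * x) + t * ηc + Λ.al * ξ t - Λ.N / 2) < (1 - t) * z
      have := zconstr hΦ (zc := 0) (C := Λ.N) ht0 ht1 hs.kN0 hs.kpos h3
        (x' := ξ t) (y' := (1 - t) * (y - Λ.al * x) + t * ηc + Λ.al * ξ t - Λ.N / 2) (by
          rw [show (1 - t) * (y - Λ.al * x) + t * ηc + Λ.al * ξ t - Λ.N / 2 - (y - Λ.N / 2) =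
            (1 - t) * (y - Λ.al * x) + t * ηc + Λ.al * ξ t - y by ring]
          exact hd) (by linarith [hs.kN_lt])
      linarith
    · show (1 - t) * z < Φ (ξ t) ((1 - t) * (y - Λ.al * x) + t * ηc + Λ.al * ξ t)
      have := zconstr' hΦ (zc := 0) (C := Λ.N) ht0 ht1 hs.kN0 hs.kpos h4 hd
        (by linarith [hs.kN_lt])
      linarith

/-- the central fibre point lies in the open region -/
lemma centre_mem (hΦ : LayPhi Λ Φ κ) (ηc : ℝ) :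
    ((Λ.fx ηc 0 (1 / 2), ηc + Λ.al * Λ.fx ηc 0 (1 / 2), 0) : ℝ × ℝ × ℝ) ∈ Opn Λ Φ := by
  have h0 : |(0 : ℝ)| ≤ Λ.Zhi := by rw [abs_zero]; exact Λ.Zhi_pos.le
  have hlt := Λ.wl_lt_wr ηc h0
  have hZ := Λ.Zlo_pos
  have e : ηc + Λ.al * Λ.fx ηc 0 (1 / 2) - Λ.al * Λ.fx ηc 0 (1 / 2) = ηc := by ring
  refine ⟨⟨⟨?_, ?_⟩, ?_⟩, ?_⟩
  · show Λ.wl (ηc + Λ.al * Λ.fx ηc 0 (1 / 2) - Λ.al * Λ.fx ηc 0 (1 / 2)) 0 < Λ.fx ηc 0 (1 / 2)
    rw [e]; unfold Lay.fx; linarith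
  · show Λ.fx ηc 0 (1 / 2) < Λ.wr (ηc + Λ.al * Λ.fx ηc 0 (1 / 2) - Λ.al * Λ.fx ηc 0 (1 / 2)) 0
    rw [e]; unfold Lay.fx; linarith
  · show -Φ _ _ < 0
    linarith [hΦ.lo (Λ.fx ηc 0 (1 / 2)) (ηc + Λ.al * Λ.fx ηc 0 (1 / 2) - Λ.N / 2)]
  · show 0 < Φ _ _
    linarith [hΦ.lo (Λ.fx ηc 0 (1 / 2)) (ηc + Λ.al * Λ.fx ηc 0 (1 / 2))]

theorem DBN_reg (hΦ : LayPhi Λ Φ κ) (hs : LaySmall Λ κ) :
    Reg {X : ℝ × ℝ × ℝ | Λ.DBN Φ X.1 X.2.1 X.2.2}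
      {X | X.2.1 - Λ.al * X.1 = Λ.N / 4 - Λ.K * X.2.2} := by
  have hN := Λ.N_pos
  refine reg_of_contract (O := Opn Λ Φ)
    (c := (Λ.fx (Λ.N / 4) 0 (1 / 2), Λ.N / 4 + Λ.al * Λ.fx (Λ.N / 4) 0 (1 / 2), 0))
    (Opn_open hΦ) ?_ ?_ ?_
  · refine ⟨centre_mem hΦ _, ?_⟩
    show Λ.N / 4 + Λ.al * Λ.fx (Λ.N / 4) 0 (1 / 2) - Λ.al * Λ.fx (Λ.N / 4) 0 (1 / 2) =
      Λ.N / 4 - Λ.K * 0
    ring
  · rintro X ⟨⟨⟨⟨h1, h2⟩, h3⟩, h4⟩, h5⟩
    exact ⟨h5, h3.le, h4.le, h1.le, h2.le⟩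
  · rintro ⟨x, y, z⟩ ⟨h5, h3, h4, h1, h2⟩
    simp only at h1 h2 h3 h4 h5
    have hz := Lay.zabs hΦ h3 h4
    have hKz := abs_lt.1 (Λ.Kz_abs hz)
    have hη : |Λ.N / 4 - (y - Λ.al * x)| ≤ Λ.N / 2 := by
      rw [abs_le]; constructor <;> linarith
    obtain ⟨γ, g1, g2, g3, g4⟩ := path_in_Opn hΦ hs hη h1 h2 h3 h4
    refine ⟨γ, g1, g2, g3, ?_⟩
    intro t ht0 ht1
    obtain ⟨k1, k2, k3⟩ := g4 t ht0 ht1
    refine ⟨k1, ?_⟩
    show (γ t).2.1 - Λ.al * (γ t).1 = Λ.N / 4 - Λ.K * (γ t).2.2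
    rw [k3, k2, h5]; ring

theorem LB_reg (hΦ : LayPhi Λ Φ κ) (hs : LaySmall Λ κ) :
    Reg {X : ℝ × ℝ × ℝ | Λ.LB Φ X.1 X.2.1 X.2.2} univ := by
  have hN := Λ.N_pos
  refine reg_of_contract
    (O := Opn Λ Φ ∩ {X | |X.2.1 - Λ.al * X.1| < Λ.N / 4 - Λ.K * X.2.2})
    (c := (Λ.fx 0 0 (1 / 2), 0 + Λ.al * Λ.fx 0 0 (1 / 2), 0))
    ((Opn_open hΦ).inter (isOpen_lt (by fun_prop) (by fun_prop))) ?_ ?_ ?_
  · refine ⟨⟨centre_mem hΦ _, ?_⟩, mem_univ _⟩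
    show |0 + Λ.al * Λ.fx 0 0 (1 / 2) - Λ.al * Λ.fx 0 0 (1 / 2)| < Λ.N / 4 - Λ.K * 0
    rw [zero_add, sub_self, abs_zero]; linarith
  · rintro X ⟨⟨⟨⟨⟨h1, h2⟩, h3⟩, h4⟩, h5⟩, -⟩
    exact ⟨h3.le, h4.le, h1.le, h2.le, h5.le⟩
  · rintro ⟨x, y, z⟩ ⟨h3, h4, h1, h2, h5⟩
    simp only at h1 h2 h3 h4 h5
    have hz := Lay.zabs hΦ h3 h4
    have hKz := abs_lt.1 (Λ.Kz_abs hz)
    have hη : |0 - (y - Λ.al * x)| ≤ Λ.N / 2 := by
      rw [zero_sub, abs_neg]; linarith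
    obtain ⟨γ, g1, g2, g3, g4⟩ := path_in_Opn hΦ hs hη h1 h2 h3 h4
    refine ⟨γ, g1, g2, g3, ?_⟩
    intro t ht0 ht1
    obtain ⟨k1, k2, k3⟩ := g4 t ht0 ht1
    refine ⟨⟨k1, ?_⟩, mem_univ _⟩
    show |(γ t).2.1 - Λ.al * (γ t).1| < Λ.N / 4 - Λ.K * (γ t).2.2
    rw [k3, k2]
    have := seg_abs (b := 0) (B := Λ.N / 4) ht0 ht1 h5 (by rw [abs_zero]; linarith)
    linarith

theorem LB_closed (hΦ : LayPhi Λ Φ κ) :
    IsClosed {X : ℝ × ℝ × ℝ | Λ.LB Φ X.1 X.2.1 X.2.2} := by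
  have hcΦ := hΦ.cont
  have e : {X : ℝ × ℝ × ℝ | Λ.LB Φ X.1 X.2.1 X.2.2} =
      {X : ℝ × ℝ × ℝ | -Φ X.1 (X.2.1 - Λ.N / 2) ≤ X.2.2} ∩
      ({X : ℝ × ℝ × ℝ | X.2.2 ≤ Φ X.1 X.2.1} ∩
      ({X : ℝ × ℝ × ℝ | Λ.wl (X.2.1 - Λ.al * X.1) X.2.2 ≤ X.1} ∩
      ({X : ℝ × ℝ × ℝ | X.1 ≤ Λ.wr (X.2.1 - Λ.al * X.1) X.2.2} ∩
      {X : ℝ × ℝ × ℝ | |X.2.1 - Λ.al * X.1| ≤ Λ.N / 4 - Λ.K * X.2.2}))) := rfl
  rw [e]
  refine (isClosed_le ?_ (by fun_prop)).inter ((isClosed_le (by fun_prop) ?_).inter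
    ((isClosed_le ?_ (by fun_prop)).inter ((isClosed_le (by fun_prop) ?_).inter
    (isClosed_le (by fun_prop) (by fun_prop)))))
  · exact (hcΦ.comp (f := fun X : ℝ × ℝ × ℝ => (X.1, X.2.1 - Λ.N / 2)) (by fun_prop)).neg
  · exact (hcΦ.comp (f := fun X : ℝ × ℝ × ℝ => (X.1, X.2.1)) (by fun_prop))
  · exact Λ.wl_cont.comp (f := fun X : ℝ × ℝ × ℝ => (X.2.1 - Λ.al * X.1, X.2.2)) (by fun_prop)
  · exact Λ.wr_cont.comp (f := fun X : ℝ × ℝ × ℝ => (X.2.1 - Λ.al * X.1, X.2.2)) (by fun_prop)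

theorem LB_bounded (hΦ : LayPhi Λ Φ κ) :
    Bornology.IsBounded {X : ℝ × ℝ × ℝ | Λ.LB Φ X.1 X.2.1 X.2.2} := by
  have hb : Bornology.IsBounded
      (Icc (-1 : ℝ) 1 ×ˢ (Icc (-(Λ.N / 2 + |Λ.al|)) (Λ.N / 2 + |Λ.al|) ×ˢ Icc (-Λ.Zhi) Λ.Zhi)) :=
    (Metric.isBounded_Icc _ _).prod ((Metric.isBounded_Icc _ _).prod (Metric.isBounded_Icc _ _))
  refine hb.subset ?_
  rintro ⟨x, y, z⟩ h
  have hx := Lay.LB_xabs hΦ h
  obtain ⟨h3, h4, h1, h2, h5⟩ := h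
  simp only at h1 h2 h3 h4 h5
  have hz := Lay.zabs hΦ h3 h4
  have hKz := abs_lt.1 (Λ.Kz_abs hz)
  have hx' := abs_lt.1 hx
  have hax : |Λ.al * x| ≤ |Λ.al| := by
    rw [abs_mul]; exact mul_le_of_le_one_right (abs_nonneg _) hx.le
  have hax' := abs_le.1 hax
  have h5' := abs_le.1 h5
  exact ⟨⟨hx'.1.le, hx'.2.le⟩, ⟨by linarith, by linarith⟩, abs_le.1 hz⟩

/-! ### Cells -/

namespace Saw

variable (S : Saw)

lemma low_up {x y : ℝ} (h : x ≤ y) : S.low y - S.low x ≤ S.pd * (y - x) := by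
  have hb := S.pb_neg
  have hh := S.ph_nonpos
  have hd := S.pd_pos
  have e : S.low y ≤ S.low x + S.pd * (y - x) := by
    unfold low
    refine max_le ?_ (max_le ?_ ?_)
    · refine le_trans ?_ (add_le_add (le_max_left _ _) le_rfl)
      nlinarith
    · refine le_trans ?_ (add_le_add (le_trans (le_max_left _ _) (le_max_right _ _)) le_rfl)
      nlinarith
    · refine le_trans ?_ (add_le_add (le_trans (le_max_right _ _) (le_max_right _ _)) le_rfl)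
      nlinarith
  linarith

lemma f_up {x y : ℝ} (h : x ≤ y) : S.f y - S.f x ≤ S.pd * (y - x) := by
  have hm : Monotone (fun t => S.pd * t - S.f t) := by
    refine monotone_of_intervals S.h_pos fun k x hx y hy hxy => ?_
    rcases Int.even_or_odd k with ⟨l, hl⟩ | ⟨l, hl⟩
    · subst hl
      push_cast at hx hy
      have ex := glue_of_mem_even (A := S.low) (B := fun t => -S.low (S.N / 2 - t)) S.h_pos
        S.B_zero S.low_half l (t := x) ⟨by linarith [hx.1], by linarith [hx.2]⟩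
      have ey := glue_of_mem_even (A := S.low) (B := fun t => -S.low (S.N / 2 - t)) S.h_pos
        S.B_zero S.low_half l (t := y) ⟨by linarith [hy.1], by linarith [hy.2]⟩
      have := S.low_up (x := x - l * (2 * (S.N / 2))) (y := y - l * (2 * (S.N / 2))) (by linarith)
      simp only [f]
      rw [ex, ey]
      linarith
    · subst hl
      push_cast at hx hy
      have ex := glue_of_mem_odd (A := S.low) (B := fun t => -S.low (S.N / 2 - t)) S.h_pos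
        S.low_zero S.B_half (l + 1) (t := x)
          ⟨by push_cast; linarith [hx.1], by push_cast; linarith [hx.2]⟩
      have ey := glue_of_mem_odd (A := S.low) (B := fun t => -S.low (S.N / 2 - t)) S.h_pos
        S.low_zero S.B_half (l + 1) (t := y)
          ⟨by push_cast; linarith [hy.1], by push_cast; linarith [hy.2]⟩
      simp only [f]
      rw [ex, ey]
      have := S.low_up
        (x := S.N / 2 - (y - (((l + 1 : ℤ) : ℝ)) * (2 * (S.N / 2)) + S.N / 2))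
        (y := S.N / 2 - (x - (((l + 1 : ℤ) : ℝ)) * (2 * (S.N / 2)) + S.N / 2)) (by linarith)
      linarith
  have := hm h
  simp only at this
  linarith

end Saw

namespace Plan

variable (P : Plan)

lemma pd_small_aux (S T : Saw) (s : ℝ) (hs : 1000 ≤ s) (hN : S.N = s ^ 2 - 1)
    (ha : S.a2 = (s + 1) / 2 + T.u2) : S.pd * s ≤ 1 / 50 := by
  have h1 := S.u2_lt
  have h2 := T.u2_lt
  have h3 : 25 * s ≤ S.N / 2 - S.a2 := by rw [hN, ha]; nlinarith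
  have h4 : 0 < S.N / 2 - S.a2 := by linarith
  unfold Saw.pd
  rw [div_mul_eq_mul_div, div_le_iff₀ h4]
  have := S.u2_pos
  nlinarith

lemma w_width (y : ℝ) : 49 / 50 ≤ P.w 0 y - P.w (-1) y := by
  have h := pd_small_aux P.f P.g P.s P.s_ge' P.fN P.fa2
  have hs := P.s_ge'
  have hu := P.f.f_up (x := y - P.s / 2) (y := y + P.s / 2) (by linarith)
  have e0 : P.w 0 y = 1 / 2 + P.f.f (y - P.s / 2) := by
    unfold w; push_cast; congr 2 <;> ring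
  have e1 : P.w (-1) y = -(1 / 2) + P.f.f (y + P.s / 2) := by
    unfold w; push_cast
    rw [show y - P.s * -1 - P.s / 2 = y + (P.s : ℝ) / 2 by ring]
    ring
  rw [e0, e1]
  linarith

lemma r_width (n : ℤ) (x : ℝ) : 49 / 50 ≤ P.r n x - P.r (n - 1) x := by
  have h := pd_small_aux P.g P.f P.s P.s_ge' P.gN P.ga2
  have hs := P.s_ge'
  have hu := P.g.f_up (x := x - P.s * n - P.s / 2) (y := x - P.s * n + P.s / 2) (by linarith)
  have e1 : P.r (n - 1) x = n - 1 / 2 + P.g.f (x - P.s * n + P.s / 2) := by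
    unfold r; push_cast
    rw [show x - P.s * (n - 1) - P.s / 2 = x - P.s * n + (P.s : ℝ) / 2 by ring]
    ring
  rw [e1]
  unfold r
  linarith

lemma w_cont (c : ℤ) : Continuous (P.w c) := by
  rw [continuous_iff_continuousAt]
  intro p
  rw [ContinuousAt, tendsto_iff_dist_tendsto_zero]
  have hb : ∀ q : ℝ, dist (P.w c q) (P.w c p) ≤ 1 / 100 * |q - p| := by
    intro q; rw [Real.dist_eq]; exact P.w0_lip c q p
  refine squeeze_zero (fun _ => dist_nonneg) hb ?_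
  have : Continuous (fun q : ℝ => 1 / 100 * |q - p|) := by fun_prop
  have h2 := this.tendsto p
  simpa using h2

lemma r_cont (i : ℤ) : Continuous (P.r i) := by
  rw [continuous_iff_continuousAt]
  intro p
  rw [ContinuousAt, tendsto_iff_dist_tendsto_zero]
  have hb : ∀ q : ℝ, dist (P.r i q) (P.r i p) ≤ 1 / 100 * |q - p| := by
    intro q; rw [Real.dist_eq]; exact P.r_lip i q p
  refine squeeze_zero (fun _ => dist_nonneg) hb ?_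
  have : Continuous (fun q : ℝ => 1 / 100 * |q - p|) := by fun_prop
  have h2 := this.tendsto p
  simpa using h2

end Plan

lemma interp {h : ℝ → ℝ} (hh : ∀ a b, |h a - h b| ≤ 1 / 100 * |a - b|) {x y xc yc t : ℝ}
    (ht0 : 0 < t) (ht1 : t ≤ 1) (h1 : x ≤ h y) (h2 : xc + 1 / 5 ≤ h yc) (h3 : |yc - y| ≤ 3 / 2) :
    (1 - t) * x + t * xc < h ((1 - t) * y + t * yc) := by
  have a1 := (abs_le.1 (hh ((1 - t) * y + t * yc) y)).1
  have a2 := (abs_le.1 (hh ((1 - t) * y + t * yc) yc)).1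
  rw [show (1 - t) * y + t * yc - y = t * (yc - y) by ring, abs_mul, abs_of_pos ht0] at a1
  rw [show (1 - t) * y + t * yc - yc = -((1 - t) * (yc - y)) by ring, abs_neg, abs_mul,
    abs_of_nonneg (by linarith : 0 ≤ 1 - t)] at a2
  have b1 := mul_le_mul_of_nonneg_left h1 (by linarith : 0 ≤ 1 - t)
  have b2 := mul_le_mul_of_nonneg_left h2 ht0.le
  have c1 := mul_le_mul_of_nonneg_left a1 (by linarith : 0 ≤ 1 - t)
  have c2 := mul_le_mul_of_nonneg_left a2 ht0.le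
  have d1 : t * (1 - t) * |yc - y| ≤ t * (3 / 2) := by
    have : (1 - t) * |yc - y| ≤ 1 * (3 / 2) :=
      mul_le_mul (by linarith) h3 (abs_nonneg _) (by norm_num)
    nlinarith
  nlinarith

lemma interp' {h : ℝ → ℝ} (hh : ∀ a b, |h a - h b| ≤ 1 / 100 * |a - b|) {x y xc yc t : ℝ}
    (ht0 : 0 < t) (ht1 : t ≤ 1) (h1 : h y ≤ x) (h2 : h yc + 1 / 5 ≤ xc) (h3 : |yc - y| ≤ 3 / 2) :
    h ((1 - t) * y + t * yc) < (1 - t) * x + t * xc := by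
  have := interp (h := fun y => -h y) (x := -x) (xc := -xc) (fun a b => by
    rw [show -h a - -h b = -(h a - h b) by ring, abs_neg]; exact hh a b) ht0 ht1
    (neg_le_neg h1) (by linarith) h3
  linarith

theorem cell_reg (P : Plan) {n : ℤ} (_ : 1 ≤ n) (_ : n ≤ P.N - 1) (A B C : ℝ) :
    Reg {X : ℝ × ℝ × ℝ | P.Cell 0 n (-X.1) (P.N / 2 - X.2.1) ∧ X.2.2 = A * X.1 + B * X.2.1 + C}
      {X | X.2.2 = A * X.1 + B * X.2.1 + C} := by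
  set yc : ℝ := (P.r n 0 + P.r (n - 1) 0) / 2 with hyc
  set xc : ℝ := (P.w 0 yc + P.w (-1) yc) / 2 with hxc
  have w1 := P.w_width yc
  have r1 := P.r_width n 0
  have wa := P.w_lt 0 yc
  have wb := P.lt_w 0 yc
  have wc := P.w_lt (-1) yc
  have wd := P.lt_w (-1) yc
  push_cast at wa wb wc wd
  have ra := P.r_lt n 0
  have rb := P.lt_r n 0
  have rc := P.r_lt (n - 1) 0
  have rd := P.lt_r (n - 1) 0
  push_cast at rc rd
  have hx1 : |xc| ≤ 1 / 2 := by rw [abs_le]; constructor <;> linarith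
  have q1 := abs_le.1 (P.r_lip n xc 0)
  have q2 := abs_le.1 (P.r_lip (n - 1) xc 0)
  rw [sub_zero] at q1 q2
  have k1 : xc + 1 / 5 ≤ P.w 0 yc := by linarith
  have k2 : P.w (0 - 1) yc + 1 / 5 ≤ xc := by rw [zero_sub]; linarith
  have k3 : yc + 1 / 5 ≤ P.r n xc := by linarith [q1.1]
  have k4 : P.r (n - 1) xc + 1 / 5 ≤ yc := by linarith [q2.2]
  set c : ℝ × ℝ × ℝ := (-xc, P.N / 2 - yc, A * -xc + B * (P.N / 2 - yc) + C) with hcdef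
  have key : ∀ q : ℝ × ℝ × ℝ, (P.Cell 0 n (-q.1) (P.N / 2 - q.2.1) ∧
      q.2.2 = A * q.1 + B * q.2.1 + C) → ∀ t, 0 < t → t ≤ 1 →
      seg q c t ∈ ((({X | P.w (0 - 1) (P.N / 2 - X.2.1) < -X.1} ∩
        {X | -X.1 < P.w 0 (P.N / 2 - X.2.1)}) ∩
        {X | P.r (n - 1) (-X.1) < P.N / 2 - X.2.1}) ∩ {X | P.N / 2 - X.2.1 < P.r n (-X.1)}) ∩
        {X : ℝ × ℝ × ℝ | X.2.2 = A * X.1 + B * X.2.1 + C} := by
    rintro ⟨x, y, z⟩ ⟨⟨h1, h2, h3, h4⟩, h5⟩ t ht0 ht1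
    simp only at h1 h2 h3 h4 h5
    have c1 := P.w_lt 0 (P.N / 2 - y)
    have c2 := P.lt_w (0 - 1) (P.N / 2 - y)
    have c3 := P.r_lt n (-x)
    have c4 := P.lt_r (n - 1) (-x)
    push_cast at c1 c2 c4
    have dx : |xc - -x| ≤ 3 / 2 := by
      have := abs_le.1 hx1
      rw [abs_le]; constructor <;> linarith
    have dy : |yc - (P.N / 2 - y)| ≤ 3 / 2 := by
      rw [abs_le]; constructor <;> linarith
    have e1 : -((1 - t) * x + t * -xc) = (1 - t) * -x + t * xc := by ring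
    have e2 : P.N / 2 - ((1 - t) * y + t * (P.N / 2 - yc)) =
      (1 - t) * (P.N / 2 - y) + t * yc := by ring
    refine ⟨⟨⟨⟨?_, ?_⟩, ?_⟩, ?_⟩, ?_⟩
    · show P.w (0 - 1) (P.N / 2 - ((1 - t) * y + t * (P.N / 2 - yc))) <
        -((1 - t) * x + t * -xc)
      rw [e1, e2]
      exact interp' (P.w0_lip (0 - 1)) ht0 ht1 h1 k2 dy
    · show -((1 - t) * x + t * -xc) < P.w 0 (P.N / 2 - ((1 - t) * y + t * (P.N / 2 - yc)))
      rw [e1, e2]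
      exact interp (P.w0_lip 0) ht0 ht1 h2 k1 dy
    · show P.r (n - 1) (-((1 - t) * x + t * -xc)) <
        P.N / 2 - ((1 - t) * y + t * (P.N / 2 - yc))
      rw [e1, e2]
      exact interp' (P.r_lip (n - 1)) ht0 ht1 h3 k4 dx
    · show P.N / 2 - ((1 - t) * y + t * (P.N / 2 - yc)) < P.r n (-((1 - t) * x + t * -xc))
      rw [e1, e2]
      exact interp (P.r_lip n) ht0 ht1 h4 k3 dx
    · show (1 - t) * z + t * (A * -xc + B * (P.N / 2 - yc) + C) =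
        A * ((1 - t) * x + t * -xc) + B * ((1 - t) * y + t * (P.N / 2 - yc)) + C
      rw [h5]; ring
  have hc : P.Cell 0 n (-c.1) (P.N / 2 - c.2.1) ∧ c.2.2 = A * c.1 + B * c.2.1 + C := by
    refine ⟨?_, rfl⟩
    have e1 : - -xc = xc := neg_neg _
    have e2 : P.N / 2 - (P.N / 2 - yc) = yc := by ring
    show P.Cell 0 n (- -xc) (P.N / 2 - (P.N / 2 - yc))
    rw [e1, e2]
    have z5 : (0 : ℝ) ≤ 1 / 5 := by norm_num
    exact ⟨(le_add_of_nonneg_right z5).trans k2, (le_add_of_nonneg_right z5).trans k1,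
      (le_add_of_nonneg_right z5).trans k4, (le_add_of_nonneg_right z5).trans k3⟩
  refine reg_of_contract
    (O := (({X | P.w (0 - 1) (P.N / 2 - X.2.1) < -X.1} ∩
        {X | -X.1 < P.w 0 (P.N / 2 - X.2.1)}) ∩
        {X | P.r (n - 1) (-X.1) < P.N / 2 - X.2.1}) ∩ {X | P.N / 2 - X.2.1 < P.r n (-X.1)})
    (c := c) ?_ ?_ ?_ ?_
  · refine (((isOpen_lt ?_ (by fun_prop)).inter
      (isOpen_lt (by fun_prop) ?_)).inter (isOpen_lt ?_ (by fun_prop))).inter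
      (isOpen_lt (by fun_prop) ?_)
    · exact (P.w_cont _).comp (by fun_prop)
    · exact (P.w_cont _).comp (by fun_prop)
    · exact (P.r_cont _).comp (by fun_prop)
    · exact (P.r_cont _).comp (by fun_prop)
  · have := key c hc 1 one_pos le_rfl
    rwa [seg_one] at this
  · rintro X ⟨⟨⟨⟨h1, h2⟩, h3⟩, h4⟩, h5⟩
    exact ⟨⟨h1.le, h2.le, h3.le, h4.le⟩, h5⟩
  · intro q hq
    exact ⟨seg q c, seg_cont q c, seg_zero q c, seg_one q c, key q hq⟩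

end Pool.Agent.DAF
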