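import Pool.Agent.DAF.Classify
import Pool.Agent.DAF.Regular
import Pool.Agent.DAF.Area

open Set Topology

namespace Pool.Agent.DAF

lemma Reg.preimage {E F : Type*} [TopologicalSpace E] [TopologicalSpace F] (h : E ≃ₜ F)
    {D H : Set F} (hr : Reg D H) : Reg (h ⁻¹' D) (h ⁻¹' H) := by
  obtain ⟨O, h1, h2, h3, h4⟩ := hr
  refine ⟨h ⁻¹' O, h1.preimage h.continuous, fun x hx => h2 hx, ?_, ?_⟩
  · rw [← preimage_inter, ← h.preimage_closure]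
    exact preimage_mono h3
  · rw [← preimage_inter, ← h.image_symm]
    exact h4.image _ h.symm.continuous.continuousOn

/-- a plane given by a normal vector -/
def pl (v : ℝ × ℝ × ℝ) (c : ℝ) : Set (ℝ × ℝ × ℝ) :=
  {X | v.1 * X.1 + v.2.1 * X.2.1 + v.2.2 * X.2.2 = c}

/-- the contact of two tiles is a regular piece of a plane -/
structure Item (T S : Set (ℝ × ℝ × ℝ)) (v : ℝ × ℝ × ℝ) (c : ℝ) : Prop where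
  ne : v ≠ 0
  sub : T ∩ S ⊆ pl v c
  reg : Reg (T ∩ S) (pl v c)

lemma Item.rh {T S : Set (ℝ × ℝ × ℝ)} {v : ℝ × ℝ × ℝ} {c : ℝ} (h : Item T S v c) :
    Item (rh ⁻¹' T) (rh ⁻¹' S) (-v.1, -v.2.1, v.2.2) c := by
  have e : DAF.rh ⁻¹' pl v c = pl (-v.1, -v.2.1, v.2.2) c := by
    ext X
    change v.1 * -X.1 + v.2.1 * -X.2.1 + v.2.2 * X.2.2 = c ↔
      -v.1 * X.1 + -v.2.1 * X.2.1 + v.2.2 * X.2.2 = c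
    constructor <;> intro h <;> linarith
  refine ⟨?_, ?_, ?_⟩
  · intro h0
    apply h.ne
    simp only [Prod.mk_eq_zero, neg_eq_zero] at h0
    exact Prod.ext h0.1 (Prod.ext h0.2.1 h0.2.2)
  · rw [← e, ← preimage_inter]
    exact preimage_mono h.sub
  · rw [← e, ← preimage_inter]
    exact h.reg.preimage _

lemma Item.dl (H : ℝ) {T S : Set (ℝ × ℝ × ℝ)} {v : ℝ × ℝ × ℝ} {c : ℝ} (h : Item T S v c) :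
    Item (dl H ⁻¹' T) (dl H ⁻¹' S) (v.2.1, v.1, -v.2.2) (c - v.2.2 * H) := by
  have e : DAF.dl H ⁻¹' pl v c = pl (v.2.1, v.1, -v.2.2) (c - v.2.2 * H) := by
    ext X
    change v.1 * X.2.1 + v.2.1 * X.1 + v.2.2 * (H - X.2.2) = c ↔
      v.2.1 * X.1 + v.1 * X.2.1 + -v.2.2 * X.2.2 = c - v.2.2 * H
    constructor <;> intro h <;> linarith
  refine ⟨?_, ?_, ?_⟩
  · intro h0
    apply h.ne
    simp only [Prod.mk_eq_zero, neg_eq_zero] at h0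
    exact Prod.ext h0.2.1 (Prod.ext h0.1 h0.2.2)
  · rw [← e, ← preimage_inter]
    exact preimage_mono h.sub
  · rw [← e, ← preimage_inter]
    exact h.reg.preimage _

/-- the four basic walls of a layer -/
inductive Wl
  | a1
  | a2
  | be
  | bn

/-- contacts in the lower half -/
inductive SIdx
  | wall (ρ : Bool) (w : Wl)
  | cell (n : ℤ)

namespace Data

variable (𝔇 : Data)

/-- the tile behind a basic wall -/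
def wT : Wl → Set (ℝ × ℝ × ℝ)
  | Wl.a1 => 𝔇.tA 1 𝔇.P.s 0
  | Wl.a2 => 𝔇.tA 1 (𝔇.P.s - 𝔇.P.N) 0
  | Wl.be => 𝔇.tB 1 (𝔇.P.s - 𝔇.hlf) 0
  | Wl.bn => 𝔇.tB 0 𝔇.hlf 0

/-- the basic contact sets -/
def wD : Wl → Set (ℝ × ℝ × ℝ)
  | Wl.a1 => {X | 𝔇.Λ.DA1 𝔇.Ψ X.1 X.2.1 X.2.2}
  | Wl.a2 => {X | 𝔇.Λ.DA2 𝔇.Ψ X.1 X.2.1 X.2.2}
  | Wl.be => {X | 𝔇.Λ.DBE 𝔇.Ψ X.1 X.2.1 X.2.2}
  | Wl.bn => {X | 𝔇.Λ.DBN 𝔇.Ψ X.1 X.2.1 X.2.2}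

/-- the normal vectors -/
noncomputable def wv : Wl → ℝ × ℝ × ℝ
  | Wl.a1 => (1 + 𝔇.Λ.al * 𝔇.Λ.pd, -𝔇.Λ.pd, 0)
  | Wl.a2 => (1 + 𝔇.Λ.al * 𝔇.Λ.pb, -𝔇.Λ.pb, 0)
  | Wl.be => (1 + 𝔇.Λ.al * 𝔇.Λ.rho, -𝔇.Λ.rho, -𝔇.Λ.sig)
  | Wl.bn => (-𝔇.Λ.al, 1, 𝔇.Λ.K)

/-- the constants -/
noncomputable def wc : Wl → ℝ
  | Wl.a1 => 1 / 2 - 𝔇.Λ.pd * 𝔇.Λ.be
  | Wl.a2 => 1 / 2 + 𝔇.Λ.pb * (𝔇.Λ.N / 2 - 𝔇.Λ.be)
  | Wl.be => 1 / 2 + 𝔇.Λ.rho * (𝔇.Λ.N / 4 - 𝔇.Λ.be)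
  | Wl.bn => 𝔇.Λ.N / 4

lemma N_real : (1000 : ℝ) ≤ 𝔇.P.N := by exact_mod_cast 𝔇.N_pos
lemma s_real : (1000 : ℝ) ≤ 𝔇.P.s := 𝔇.P.sR
lemma N_s : (𝔇.P.s : ℝ) * 999 ≤ 𝔇.P.N := 𝔇.P.N_big
lemma two_hlf : (𝔇.P.N : ℝ) = 2 * 𝔇.hlf := by unfold hlf; ring

/-- contact sets: tiles of the first kind at level 0 -/
lemma contactA {a b : ℝ} (hL : 𝔇.P.Lat a b) (hne : ¬ (a = 0 ∧ b = 0)) {X : ℝ × ℝ × ℝ}
    (hX : X ∈ 𝔇.TS ∩ 𝔇.tA a b 0) :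
    (𝔇.Bd X.1 X.2.1 X.2.2 ∧ 𝔇.Bd (X.1 - a) (X.2.1 - b) X.2.2) ∨
    (𝔇.Am X.1 X.2.1 X.2.2 ∧ 𝔇.Am (X.1 - a) (X.2.1 - b) X.2.2 ∧ (|b| ≤ 1 ∧
      ¬ (|a| ≤ 1))) := by
  obtain ⟨x, y, z⟩ := X
  obtain ⟨h1, h2⟩ := hX
  have h2' : 𝔇.T (x - a) (y - b) z := by
    have : 𝔇.T (x - a) (y - b) (z - 2 * 𝔇.H * ((0 : ℤ) : ℝ)) := h2
    simpa using this
  rcases le_total z (𝔇.Ψ x y) with hz | hz
  · left
    exact ⟨𝔇.T_low h1 hz, 𝔇.T_low h2' (by rw [𝔇.Ψ_lat hL]; exact hz)⟩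
  · right
    have b1 := 𝔇.T_high h1 hz
    have b2 := 𝔇.T_high h2' (by rw [𝔇.Ψ_lat hL]; exact hz)
    refine ⟨b1, b2, ?_⟩
    have c1 : 𝔇.dual.Bd y x (𝔇.H - z) := by rw [dual_Bd, sub_sub_cancel]; exact b1
    have c2 : 𝔇.dual.Bd (y - b) (x - a) (𝔇.H - z) := by rw [dual_Bd, sub_sub_cancel]; exact b2
    have hs : ((𝔇.dual.P.s : ℤ) : ℝ) = 𝔇.P.s := rfl
    have hN : ((𝔇.dual.P.N : ℤ) : ℝ) = 𝔇.P.N := rfl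
    have g1 := 𝔇.s_real
    have g2 := 𝔇.N_s
    rcases 𝔇.dual.meetA0 (𝔇.Lat_dual.2 hL) (fun h => hne ⟨h.2, h.1⟩) c1 c2 with
      ⟨e1, e2, _⟩ | ⟨e1, e2, _⟩ | ⟨e1, e2, _⟩ | ⟨e1, e2, _⟩
    · rw [hs] at e2
      refine ⟨by rw [e1]; norm_num, fun h => ?_⟩
      have := (abs_le.1 h).2; linarith
    · rw [hs, hN] at e2
      refine ⟨by rw [e1]; norm_num, fun h => ?_⟩
      have := (abs_le.1 h).1; linarith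
    · rw [hs] at e2
      refine ⟨by rw [e1]; norm_num, fun h => ?_⟩
      have := (abs_le.1 h).1; linarith
    · rw [hs, hN] at e2
      refine ⟨by rw [e1]; norm_num, fun h => ?_⟩
      have := (abs_le.1 h).2; linarith

/-- contact sets: tiles of the second kind at level 0 -/
lemma contactB {a b : ℝ} (hL : 𝔇.P.Lat a (b - 𝔇.hlf)) {X : ℝ × ℝ × ℝ}
    (hX : X ∈ 𝔇.TS ∩ 𝔇.tB a b 0) :
    𝔇.Bd X.1 X.2.1 X.2.2 ∧ 𝔇.Bd (a - X.1) (b - X.2.1) (-X.2.2) := by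
  obtain ⟨x, y, z⟩ := X
  obtain ⟨h1, h2⟩ := hX
  have h2' : 𝔇.T (a - x) (b - y) (-z) := by
    have : 𝔇.T (a - x) (b - y) (2 * 𝔇.H * ((0 : ℤ) : ℝ) - z) := h2
    simpa using this
  have g1 := 𝔇.T_ge h1
  have g2 := 𝔇.T_ge h2'
  unfold h0 at g2
  rw [𝔇.Ψ_refl' hL] at g2
  have hz : z ≤ 𝔇.Ψ x y := by linarith
  exact ⟨𝔇.T_low h1 hz, 𝔇.T_low h2' (by rw [𝔇.Ψ_refl hL]; unfold h0 at g1; linarith)⟩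

lemma Lat_a1 : 𝔇.P.Lat 1 𝔇.P.s := ⟨1, 0, by simp, by simp⟩
lemma Lat_a2 : 𝔇.P.Lat 1 (𝔇.P.s - 𝔇.P.N) := ⟨1, -1, by simp, by push_cast; ring⟩
lemma Lat_bn : 𝔇.P.Lat 0 (𝔇.hlf - 𝔇.hlf) := by rw [sub_self]; exact 𝔇.P.Lat_zero
lemma Lat_be : 𝔇.P.Lat 1 (𝔇.P.s - 𝔇.hlf - 𝔇.hlf) :=
  ⟨1, -1, by simp, by rw [𝔇.two_hlf]; push_cast; ring⟩

theorem wall_contact (w : Wl) : 𝔇.TS ∩ 𝔇.wT w = 𝔇.wD w := by
  have gs := 𝔇.s_real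
  have gN := 𝔇.N_s
  have g2 := 𝔇.two_hlf
  cases w with
  | a1 =>
    ext ⟨x, y, z⟩
    constructor
    · intro hX
      rcases 𝔇.contactA 𝔇.Lat_a1 (fun h => one_ne_zero h.1) hX with ⟨b1, b2⟩ | ⟨_, _, h, _⟩
      · rcases 𝔇.meetA0 𝔇.Lat_a1 (fun h => one_ne_zero h.1) b1 b2 with
          ⟨_, _, h⟩ | ⟨_, e, _⟩ | ⟨e, _, _⟩ | ⟨e, _, _⟩
        · exact h
        · linarith
        · norm_num at e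
        · norm_num at e
      · have := (abs_le.1 h).2; linarith
    · intro h
      obtain ⟨h1, h2⟩ := Lay.DA1_LB 𝔇.phi h
      refine ⟨Or.inl h1, ?_⟩
      change 𝔇.T (x - 1) (y - 𝔇.P.s) (z - 2 * 𝔇.H * ((0 : ℤ) : ℝ))
      rw [Int.cast_zero, mul_zero, sub_zero]
      left
      rw [𝔇.comp.hbe, sub_add_cancel] at h2
      exact h2
  | a2 =>
    ext ⟨x, y, z⟩
    constructor
    · intro hX
      rcases 𝔇.contactA 𝔇.Lat_a2 (fun h => one_ne_zero h.1) hX with ⟨b1, b2⟩ | ⟨_, _, h, _⟩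
      · rcases 𝔇.meetA0 𝔇.Lat_a2 (fun h => one_ne_zero h.1) b1 b2 with
          ⟨_, e, _⟩ | ⟨_, _, h⟩ | ⟨e, _, _⟩ | ⟨e, _, _⟩
        · linarith
        · exact h
        · norm_num at e
        · norm_num at e
      · have := (abs_le.1 h).1; linarith
    · intro h
      obtain ⟨h1, h2⟩ := Lay.DA2_LB 𝔇.phi h
      refine ⟨Or.inl h1, ?_⟩
      change 𝔇.T (x - 1) (y - (𝔇.P.s - 𝔇.P.N)) (z - 2 * 𝔇.H * ((0 : ℤ) : ℝ))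
      rw [Int.cast_zero, mul_zero, sub_zero]
      left
      rw [𝔇.comp.hbe, sub_add_cancel, 𝔇.LNN] at h2
      exact h2
  | be =>
    ext ⟨x, y, z⟩
    constructor
    · intro hX
      obtain ⟨b1, b2⟩ := 𝔇.contactB 𝔇.Lat_be hX
      rcases 𝔇.meetB0 𝔇.Lat_be b1 b2 with ⟨e, _, _⟩ | ⟨e, _, _⟩ | ⟨_, _, h⟩ | ⟨e, _, _⟩
      · norm_num at e
      · norm_num at e
      · exact h
      · norm_num at e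
    · intro h
      obtain ⟨h1, h2⟩ := Lay.DBE_LB 𝔇.phi h
      refine ⟨Or.inl h1, ?_⟩
      change 𝔇.T (1 - x) (𝔇.P.s - 𝔇.hlf - y) (2 * 𝔇.H * ((0 : ℤ) : ℝ) - z)
      rw [Int.cast_zero, mul_zero, zero_sub]
      left
      rw [𝔇.comp.hbe, sub_add_cancel, 𝔇.LN] at h2
      exact h2
  | bn =>
    ext ⟨x, y, z⟩
    constructor
    · intro hX
      obtain ⟨b1, b2⟩ := 𝔇.contactB 𝔇.Lat_bn hX
      rcases 𝔇.meetB0 𝔇.Lat_bn b1 b2 with ⟨_, _, h⟩ | ⟨_, e, _⟩ | ⟨e, _, _⟩ | ⟨e, _, _⟩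
      · exact h
      · exfalso
        linarith
      · norm_num at e
      · norm_num at e
    · intro h
      obtain ⟨h1, h2⟩ := Lay.DBN_LB 𝔇.phi h
      refine ⟨Or.inl h1, ?_⟩
      change 𝔇.T (0 - x) (𝔇.hlf - y) (2 * 𝔇.H * ((0 : ℤ) : ℝ) - z)
      rw [Int.cast_zero, mul_zero, zero_sub, zero_sub]
      left
      rw [𝔇.LN] at h2
      exact h2

lemma al_le : |𝔇.Λ.al| ≤ 1 := 𝔇.comp.al
lemma pb_le : -𝔇.Λ.pb ≤ 1 / 50 := 𝔇.comp.pb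

lemma al_mul {t : ℝ} (ht : |t| ≤ 1 / 50) : |𝔇.Λ.al * t| ≤ 1 / 50 := by
  rw [abs_mul]
  calc |𝔇.Λ.al| * |t| ≤ 1 * (1 / 50) := mul_le_mul 𝔇.al_le ht (abs_nonneg _) zero_le_one
    _ = 1 / 50 := by norm_num

lemma abs_pd : |𝔇.Λ.pd| ≤ 1 / 50 := by
  rw [abs_of_pos 𝔇.Λ.pd_pos]; linarith [𝔇.Λ.pd_lt, 𝔇.pb_le]
lemma abs_pb : |𝔇.Λ.pb| ≤ 1 / 50 := by
  rw [abs_of_neg 𝔇.Λ.pb_neg]; exact 𝔇.pb_le
lemma abs_rho : |𝔇.Λ.rho| ≤ 1 / 50 := by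
  rw [abs_of_neg 𝔇.Λ.rho_neg]
  have := 𝔇.pb_le
  have := 𝔇.Λ.pd_pos
  have := 𝔇.Λ.pb_neg
  unfold Lay.rho; linarith

theorem wall_item (w : Wl) : Item 𝔇.TS (𝔇.wT w) (𝔇.wv w) (𝔇.wc w) := by
  have hs := 𝔇.comp.toLaySmall
  have hd := abs_le.1 (𝔇.al_mul 𝔇.abs_pd)
  have hb := abs_le.1 (𝔇.al_mul 𝔇.abs_pb)
  have hr := abs_le.1 (𝔇.al_mul 𝔇.abs_rho)
  have key : ∀ (w : Wl) (Hs : Set (ℝ × ℝ × ℝ)), Hs = pl (𝔇.wv w) (𝔇.wc w) → 𝔇.wv w ≠ 0 →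
      𝔇.wD w ⊆ Hs → Reg (𝔇.wD w) Hs → Item 𝔇.TS (𝔇.wT w) (𝔇.wv w) (𝔇.wc w) := by
    intro w Hs e h1 h2 h3
    rw [e] at h2 h3
    exact ⟨h1, by rw [wall_contact]; exact h2, by rw [wall_contact]; exact h3⟩
  cases w with
  | a1 =>
    refine key Wl.a1 _ ?_ ?_ ?_ (DA1_reg 𝔇.phi hs)
    · ext X
      change X.1 = 1 / 2 + 𝔇.Λ.pd * (X.2.1 - 𝔇.Λ.al * X.1 - 𝔇.Λ.be) ↔
        (1 + 𝔇.Λ.al * 𝔇.Λ.pd) * X.1 + -𝔇.Λ.pd * X.2.1 + 0 * X.2.2 = 1 / 2 - 𝔇.Λ.pd * 𝔇.Λ.be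
      constructor <;> intro h <;> linarith
    · intro h0
      have := congrArg Prod.fst h0
      change 1 + 𝔇.Λ.al * 𝔇.Λ.pd = 0 at this
      linarith
    · intro X hX; exact hX.1
  | a2 =>
    refine key Wl.a2 _ ?_ ?_ ?_ (DA2_reg 𝔇.phi hs)
    · ext X
      change X.1 = 1 / 2 + 𝔇.Λ.pb * (X.2.1 - 𝔇.Λ.al * X.1 - 𝔇.Λ.be + 𝔇.Λ.N / 2) ↔
        (1 + 𝔇.Λ.al * 𝔇.Λ.pb) * X.1 + -𝔇.Λ.pb * X.2.1 + 0 * X.2.2 =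
          1 / 2 + 𝔇.Λ.pb * (𝔇.Λ.N / 2 - 𝔇.Λ.be)
      constructor <;> intro h <;> linarith
    · intro h0
      have := congrArg Prod.fst h0
      change 1 + 𝔇.Λ.al * 𝔇.Λ.pb = 0 at this
      linarith
    · intro X hX; exact hX.1
  | be =>
    refine key Wl.be _ ?_ ?_ ?_ (DBE_reg 𝔇.phi hs)
    · ext X
      change X.1 = 1 / 2 + 𝔇.Λ.rho * (X.2.1 - 𝔇.Λ.al * X.1 - 𝔇.Λ.be + 𝔇.Λ.N / 4) +
          𝔇.Λ.sig * X.2.2 ↔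
        (1 + 𝔇.Λ.al * 𝔇.Λ.rho) * X.1 + -𝔇.Λ.rho * X.2.1 + -𝔇.Λ.sig * X.2.2 =
          1 / 2 + 𝔇.Λ.rho * (𝔇.Λ.N / 4 - 𝔇.Λ.be)
      constructor <;> intro h <;> linarith
    · intro h0
      have := congrArg Prod.fst h0
      change 1 + 𝔇.Λ.al * 𝔇.Λ.rho = 0 at this
      linarith
    · intro X hX; exact hX.1
  | bn =>
    refine key Wl.bn _ ?_ ?_ ?_ (DBN_reg 𝔇.phi hs)
    · ext X
      change X.2.1 - 𝔇.Λ.al * X.1 = 𝔇.Λ.N / 4 - 𝔇.Λ.K * X.2.2 ↔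
        -𝔇.Λ.al * X.1 + 1 * X.2.1 + 𝔇.Λ.K * X.2.2 = 𝔇.Λ.N / 4
      constructor <;> intro h <;> linarith
    · intro h0
      have := congrArg (fun X => X.2.1) h0
      change (1 : ℝ) = 0 at this
      norm_num at this
    · intro X hX; exact hX.1

theorem cell_item {n : ℤ} (h1 : 1 ≤ n) (h2 : n ≤ 𝔇.P.N - 1) :
    Item 𝔇.TS (𝔇.cT n) (-𝔇.gx n, -𝔇.gy n, 1) (-𝔇.gy n * 𝔇.hlf - 𝔇.q n) := by
  have hset : 𝔇.TS ∩ 𝔇.cT n = {X : ℝ × ℝ × ℝ | 𝔇.P.Cell 0 n (-X.1) (𝔇.P.N / 2 - X.2.1) ∧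
      X.2.2 = 𝔇.gx n * X.1 + 𝔇.gy n * X.2.1 + (-𝔇.gy n * 𝔇.hlf - 𝔇.q n)} := by
    rw [𝔇.cell_contact h1 h2]
    ext X
    change X.2.2 = 𝔇.h0 X.1 X.2.1 ∧ 𝔇.P.Cell 0 n (-X.1) (𝔇.hlf - X.2.1) ↔
      𝔇.P.Cell 0 n (-X.1) (𝔇.hlf - X.2.1) ∧
      X.2.2 = 𝔇.gx n * X.1 + 𝔇.gy n * X.2.1 + (-𝔇.gy n * 𝔇.hlf - 𝔇.q n)
    rw [and_comm]
    apply and_congr_right
    intro hc
    have h3 := 𝔇.psi.cell n h1 h2 _ _ hc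
    have h4 : 𝔇.h0 X.1 X.2.1 = -𝔇.Ψ (-X.1) (𝔇.hlf - X.2.1) := by
      unfold h0
      rw [← 𝔇.psi.even]; congr 2; ring
    rw [h4, h3]
    constructor <;> intro h <;> linarith
  have hpl : {X : ℝ × ℝ × ℝ | X.2.2 = 𝔇.gx n * X.1 + 𝔇.gy n * X.2.1 +
      (-𝔇.gy n * 𝔇.hlf - 𝔇.q n)} = pl (-𝔇.gx n, -𝔇.gy n, 1) (-𝔇.gy n * 𝔇.hlf - 𝔇.q n) := by
    ext X
    change X.2.2 = 𝔇.gx n * X.1 + 𝔇.gy n * X.2.1 + (-𝔇.gy n * 𝔇.hlf - 𝔇.q n) ↔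
      -𝔇.gx n * X.1 + -𝔇.gy n * X.2.1 + 1 * X.2.2 = -𝔇.gy n * 𝔇.hlf - 𝔇.q n
    constructor <;> intro h <;> linarith
  refine ⟨?_, ?_, ?_⟩
  · intro h0
    have := congrArg (fun X => X.2.2) h0
    change (1 : ℝ) = 0 at this
    norm_num at this
  · rw [hset, ← hpl]
    intro X hX
    exact hX.2
  · rw [hset, ← hpl]
    exact cell_reg 𝔇.P h1 h2 _ _ _

/-- tiles, normals, constants of the contacts in the lower half -/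
def sT : SIdx → Set (ℝ × ℝ × ℝ)
  | SIdx.wall false w => 𝔇.wT w
  | SIdx.wall true w => rh ⁻¹' 𝔇.wT w
  | SIdx.cell n => 𝔇.cT n

noncomputable def sv : SIdx → ℝ × ℝ × ℝ
  | SIdx.wall false w => 𝔇.wv w
  | SIdx.wall true w => (-(𝔇.wv w).1, -(𝔇.wv w).2.1, (𝔇.wv w).2.2)
  | SIdx.cell n => (-𝔇.gx n, -𝔇.gy n, 1)

noncomputable def sc : SIdx → ℝ
  | SIdx.wall _ w => 𝔇.wc w
  | SIdx.cell n => -𝔇.gy n * 𝔇.hlf - 𝔇.q n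

def ok : SIdx → Prop
  | SIdx.wall _ _ => True
  | SIdx.cell n => 1 ≤ n ∧ n ≤ 𝔇.P.N - 1

theorem side_item {j : SIdx} (hj : 𝔇.ok j) : Item 𝔇.TS (𝔇.sT j) (𝔇.sv j) (𝔇.sc j) := by
  match j, hj with
  | SIdx.wall false w, _ => exact 𝔇.wall_item w
  | SIdx.wall true w, _ =>
    have := (𝔇.wall_item w).rh
    rw [rh_TS] at this
    exact this
  | SIdx.cell n, h => exact 𝔇.cell_item h.1 h.2

/-- the contacts in the lower half lie in the body and in the listed surfaces -/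
theorem side_piece {j : SIdx} (hj : 𝔇.ok j) {X : ℝ × ℝ × ℝ} (hX : X ∈ 𝔇.TS ∩ 𝔇.sT j) :
    𝔇.Bd X.1 X.2.1 X.2.2 ∧ LPiece 𝔇.Λ 𝔇.Ψ X.1 X.2.1 X.2.2 := by
  have wall : ∀ (w : Wl) (X : ℝ × ℝ × ℝ), X ∈ 𝔇.wD w →
      𝔇.Bd X.1 X.2.1 X.2.2 ∧ LWall 𝔇.Λ X.1 X.2.1 X.2.2 := by
    intro w X hX
    cases w with
    | a1 => exact ⟨(Lay.DA1_LB 𝔇.phi hX).1, Or.inl hX.1⟩
    | a2 => exact ⟨(Lay.DA2_LB 𝔇.phi hX).1, Or.inr (Or.inl hX.1)⟩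
    | be => exact ⟨(Lay.DBE_LB 𝔇.phi hX).1, Or.inr (Or.inr (Or.inl hX.1))⟩
    | bn => exact ⟨(Lay.DBN_LB 𝔇.phi hX).1, Or.inr (Or.inr (Or.inr hX.1))⟩
  match j, hj with
  | SIdx.wall false w, _ =>
    have h1 : X ∈ 𝔇.TS ∩ 𝔇.wT w := hX
    rw [wall_contact] at h1
    obtain ⟨a, b⟩ := wall w X h1
    exact ⟨a, Or.inr (Or.inl b)⟩
  | SIdx.wall true w, _ =>
    have h1 : X ∈ 𝔇.TS ∩ rh ⁻¹' 𝔇.wT w := hX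
    rw [← 𝔇.rh_TS, ← preimage_inter, wall_contact] at h1
    obtain ⟨a, b⟩ := wall w _ h1
    refine ⟨?_, Or.inr (Or.inr b)⟩
    have := Lay.LB_neg 𝔇.phi a
    change 𝔇.Λ.LB 𝔇.Ψ (- -X.1) (- -X.2.1) X.2.2 at this
    rw [neg_neg, neg_neg] at this
    exact this
  | SIdx.cell n, h =>
    have h1 : X ∈ 𝔇.TS ∩ 𝔇.cT n := hX
    have h2 := h1
    rw [𝔇.cell_contact h.1 h.2] at h2
    have h3 := h2.1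
    refine ⟨𝔇.T_low h1.1 (by rw [h3]; exact (𝔇.h0_lt _ _).le), Or.inl ?_⟩
    rw [𝔇.LN]
    exact h3

/-- a corner tile -/
def Corner (S : Set (ℝ × ℝ × ℝ)) : Prop :=
  S = 𝔇.tA (-𝔇.hlf) 𝔇.hlf (-1) ∨ S = 𝔇.tA 𝔇.hlf 𝔇.hlf (-1) ∨
    S = 𝔇.tA (-𝔇.hlf) (-𝔇.hlf) (-1) ∨ S = 𝔇.tA 𝔇.hlf (-𝔇.hlf) (-1)

theorem low_cases {S : Set (ℝ × ℝ × ℝ)} (h : 𝔇.Low S) :
    S = 𝔇.TS ∨ (∃ j, 𝔇.ok j ∧ S = 𝔇.sT j) ∨ 𝔇.Corner S := by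
  rcases h with h | (h | h | h | h) | (h | h | h | h) | ⟨n, h1, h2, h⟩ | h
  · exact Or.inl h
  · exact Or.inr (Or.inl ⟨SIdx.wall false Wl.a1, trivial, h⟩)
  · exact Or.inr (Or.inl ⟨SIdx.wall false Wl.a2, trivial, h⟩)
  · refine Or.inr (Or.inl ⟨SIdx.wall true Wl.a1, trivial, ?_⟩)
    rw [h]; exact (𝔇.rh_tA _ _ _).symm
  · refine Or.inr (Or.inl ⟨SIdx.wall true Wl.a2, trivial, ?_⟩)
    rw [h]; exact (𝔇.rh_tA _ _ _).symm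
  · exact Or.inr (Or.inl ⟨SIdx.wall false Wl.bn, trivial, h⟩)
  · refine Or.inr (Or.inl ⟨SIdx.wall true Wl.bn, trivial, ?_⟩)
    rw [h]
    have := 𝔇.rh_tB 0 𝔇.hlf 0
    rw [neg_zero] at this
    exact this.symm
  · exact Or.inr (Or.inl ⟨SIdx.wall false Wl.be, trivial, h⟩)
  · refine Or.inr (Or.inl ⟨SIdx.wall true Wl.be, trivial, ?_⟩)
    rw [h]; exact (𝔇.rh_tB _ _ _).symm
  · exact Or.inr (Or.inl ⟨SIdx.cell n, ⟨h1, h2⟩, h⟩)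
  · exact Or.inr (Or.inr h)

end Data

end Pool.Agent.DAF
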