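import Pool.Agent.DAF.Glue

open Set

namespace Pool.Agent.DAF

/-- Parameters of a layer (in sheared coordinates `(x, η, z)`, `η = y - al x`). -/
structure Lay where
  N : ℝ
  al : ℝ
  be : ℝ
  pb : ℝ
  pd : ℝ
  K : ℝ
  Zlo : ℝ
  Zhi : ℝ
  N_pos : 0 < N
  pb_neg : pb < 0
  pd_pos : 0 < pd
  K_pos : 0 < K
  be_pos : 0 < be
  be_lt : be < N / 4
  rel : be * (pd - pb) = pd * N / 2
  Zlohi : Zlo ≤ Zhi
  lamlt : N / 4 - be < K * Zlo
  KZ : K * Zhi < N / 4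
  b1 : -pb * (K * Zhi - (N / 4 - be)) < 1 / 2
  b2 : pd * (K * Zhi + (N / 4 - be)) < 1 / 2

namespace Lay

variable (Λ : Lay)

noncomputable def rho : ℝ := (Λ.pb + Λ.pd) / 2
noncomputable def sig : ℝ := Λ.K * (Λ.pd - Λ.pb) / 2
/-- `K λ`, with `λ` the height of the upper flip vertices -/
noncomputable def l : ℝ := Λ.N / 4 - Λ.be

lemma l_pos : 0 < Λ.l := by unfold l; linarith [Λ.be_lt]
lemma l_lt : Λ.l < Λ.N / 4 := by unfold l; linarith [Λ.be_pos]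
lemma pd_lt : Λ.pd < -Λ.pb := by
  have h1 := Λ.rel
  have h2 := Λ.be_lt
  have h3 := Λ.pd_pos
  have h4 := Λ.pb_neg
  have h5 := Λ.N_pos
  by_contra! hcon
  nlinarith
lemma rho_neg : Λ.rho < 0 := by unfold rho; linarith [Λ.pd_lt]
lemma sig_pos : 0 < Λ.sig := by
  unfold sig
  have h3 := Λ.pd_pos
  have h4 := Λ.pb_neg
  have := mul_pos Λ.K_pos (by linarith : 0 < Λ.pd - Λ.pb)
  linarith
lemma D_pos : 0 < Λ.pd - Λ.pb := by linarith [Λ.pd_pos, Λ.pb_neg]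
lemma Zlo_pos : 0 < Λ.Zlo := by
  have h1 := Λ.lamlt
  have h2 := Λ.be_lt
  have h3 := Λ.K_pos
  by_contra! hcon
  nlinarith
lemma Zhi_pos : 0 < Λ.Zhi := Λ.Zlo_pos.trans_le Λ.Zlohi

/-- the slanted wall function -/
noncomputable def X (t z : ℝ) : ℝ := Λ.rho * (t - Λ.N / 4) - Λ.sig * z

lemma X_sub_pd (t z : ℝ) :
    Λ.X t z - Λ.pd * t = (Λ.pd - Λ.pb) / 2 * (Λ.l - Λ.K * z - t) := by
  have h := Λ.rel
  unfold X rho sig l
  linear_combination (1 / 2 : ℝ) * h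

lemma X_sub_pb (t z : ℝ) :
    Λ.X t z - Λ.pb * t = (Λ.pd - Λ.pb) / 2 * (Λ.l - Λ.K * z + t) := by
  have h := Λ.rel
  unfold X rho sig l
  linear_combination (1 / 2 : ℝ) * h

lemma X_sub_pd' (t z : ℝ) :
    Λ.X t z - Λ.pd * (t - Λ.N / 2) =
      (Λ.pd - Λ.pb) / 2 * (Λ.N / 2 - (Λ.K * z + Λ.l) - t) := by
  have h := Λ.rel
  unfold X rho sig l
  linear_combination (-1 / 2 : ℝ) * h

lemma X_sub_pb' (t z : ℝ) :
    Λ.X t z - Λ.pb * (t - Λ.N / 2) =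
      (Λ.pd - Λ.pb) / 2 * (t - Λ.N / 2 - (Λ.K * z + Λ.l)) := by
  have h := Λ.rel
  unfold X rho sig l
  linear_combination (-1 / 2 : ℝ) * h

noncomputable def G (t z : ℝ) : ℝ :=
  max (max (Λ.pb * t) (Λ.pd * (t - Λ.N / 2)))
    (min (Λ.X t z) (min (Λ.pd * t) (Λ.pb * (t - Λ.N / 2))))

section Gcases

variable {Λ}
variable {t z : ℝ}

lemma G_a (h0 : 0 ≤ t) (hz : |Λ.K * z| < Λ.N / 4) (h : t ≤ Λ.l - Λ.K * z) :
    Λ.G t z = Λ.pd * t := by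
  have hX := Λ.X_sub_pd t z
  have hD := Λ.D_pos
  have hpd := Λ.pd_pos
  have hpb := Λ.pb_neg
  have hN := Λ.N_pos
  have hrel := Λ.rel
  have hl : Λ.l = Λ.N / 4 - Λ.be := rfl
  have hz' := (abs_lt.1 hz).1
  have h1 : Λ.pd * t ≤ Λ.X t z := by nlinarith
  have h2 : Λ.pd * t ≤ Λ.pb * (t - Λ.N / 2) := by
    have : t < Λ.N / 2 - Λ.be := by linarith
    nlinarith
  unfold G
  rw [min_eq_left h2, min_eq_right h1]
  apply max_eq_right
  apply max_le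
  · nlinarith
  · nlinarith

lemma G_b (h0 : 0 ≤ t) (hz : |Λ.K * z| < Λ.N / 4) (h : t ≤ Λ.K * z - Λ.l) :
    Λ.G t z = Λ.pb * t := by
  have hX := Λ.X_sub_pb t z
  have hD := Λ.D_pos
  have hpd := Λ.pd_pos
  have hpb := Λ.pb_neg
  have hN := Λ.N_pos
  have hrel := Λ.rel
  have hl : Λ.l = Λ.N / 4 - Λ.be := rfl
  have hz' := (abs_lt.1 hz).2
  have h1 : Λ.X t z ≤ Λ.pb * t := by nlinarith
  have h2 : Λ.pd * (t - Λ.N / 2) ≤ Λ.pb * t := by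
    have : t < Λ.be := by linarith
    nlinarith
  unfold G
  rw [max_eq_left h2]
  apply max_eq_left
  exact (min_le_left _ _).trans h1

lemma G_e (h0 : 0 ≤ t) (h0' : t ≤ Λ.N / 2) (h1 : Λ.l - Λ.K * z ≤ t) (h2 : Λ.K * z - Λ.l ≤ t)
    (h3 : t ≤ Λ.N / 2 - (Λ.K * z + Λ.l)) (h4 : t ≤ Λ.N / 2 + (Λ.K * z + Λ.l)) :
    Λ.G t z = Λ.X t z := by
  have e1 := Λ.X_sub_pd t z
  have e2 := Λ.X_sub_pb t z
  have e3 := Λ.X_sub_pd' t z
  have e4 := Λ.X_sub_pb' t z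
  have hD := Λ.D_pos
  have i1 : Λ.X t z ≤ Λ.pd * t := by nlinarith
  have i2 : Λ.pb * t ≤ Λ.X t z := by nlinarith
  have i3 : Λ.pd * (t - Λ.N / 2) ≤ Λ.X t z := by nlinarith
  have i4 : Λ.X t z ≤ Λ.pb * (t - Λ.N / 2) := by nlinarith
  unfold G
  rw [min_eq_left (le_min i1 i4)]
  exact max_eq_right (max_le i2 i3)

lemma L0_le {t : ℝ} (h0 : 0 ≤ t) (h1 : t ≤ Λ.N / 2) :
    max (Λ.pb * t) (Λ.pd * (t - Λ.N / 2)) ≤ 0 := by
  have hpd := Λ.pd_pos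
  have hpb := Λ.pb_neg
  apply max_le
  · nlinarith
  · nlinarith

lemma U0_ge {t : ℝ} (h0 : 0 ≤ t) (h1 : t ≤ Λ.N / 2) :
    0 ≤ min (Λ.pd * t) (Λ.pb * (t - Λ.N / 2)) := by
  have hpd := Λ.pd_pos
  have hpb := Λ.pb_neg
  apply le_min
  · nlinarith
  · nlinarith

lemma clamp_neg {a b x : ℝ} (hab : a ≤ b) :
    max (-b) (min (-x) (-a)) = -(max a (min x b)) := by
  rcases le_total x a with h | h
  · rw [min_eq_left (h.trans hab), max_eq_left h, min_eq_right (neg_le_neg h),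
      max_eq_right (neg_le_neg hab)]
  · rw [min_eq_left (neg_le_neg h)]
    rcases le_total x b with h' | h'
    · rw [min_eq_left h', max_eq_right h, max_eq_right (neg_le_neg h')]
    · rw [min_eq_right h', max_eq_right hab, max_eq_left (neg_le_neg h')]

lemma G_symm (h0 : 0 ≤ t) (h1 : t ≤ Λ.N / 2) : Λ.G (Λ.N / 2 - t) (-z) = -Λ.G t z := by
  have hX : Λ.X (Λ.N / 2 - t) (-z) = -Λ.X t z := by unfold X; ring
  have e1 : Λ.pd * (Λ.N / 2 - t - Λ.N / 2) = -(Λ.pd * t) := by ring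
  have e2 : Λ.pb * (Λ.N / 2 - t - Λ.N / 2) = -(Λ.pb * t) := by ring
  have e3 : Λ.pb * (Λ.N / 2 - t) = -(Λ.pb * (t - Λ.N / 2)) := by ring
  have e4 : Λ.pd * (Λ.N / 2 - t) = -(Λ.pd * (t - Λ.N / 2)) := by ring
  have hab := (Λ.L0_le h0 h1).trans (Λ.U0_ge h0 h1)
  unfold G
  rw [hX, e1, e2, e3, e4]
  have f1 : max (-(Λ.pb * (t - Λ.N / 2))) (-(Λ.pd * t)) =
      -(min (Λ.pd * t) (Λ.pb * (t - Λ.N / 2))) := by
    rw [max_neg_neg, min_comm]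
  have f2 : min (-(Λ.pd * (t - Λ.N / 2))) (-(Λ.pb * t)) =
      -(max (Λ.pb * t) (Λ.pd * (t - Λ.N / 2))) := by
    rw [min_neg_neg, max_comm]
  rw [f1, f2]
  exact clamp_neg hab

lemma G_zero (z : ℝ) : Λ.G 0 z = 0 := by
  have hN := Λ.N_pos
  have h1 := Λ.L0_le (t := 0) le_rfl (by linarith)
  have h2 : 0 ≤ max (Λ.pb * 0) (Λ.pd * (0 - Λ.N / 2)) :=
    le_trans (by simp) (le_max_left _ _)
  have h3 : min (Λ.X 0 z) (min (Λ.pd * 0) (Λ.pb * (0 - Λ.N / 2))) ≤ 0 := by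
    refine (min_le_right _ _).trans ((min_le_left _ _).trans ?_)
    simp
  unfold G
  rw [le_antisymm h1 h2]
  exact max_eq_left h3

lemma G_half (z : ℝ) : Λ.G (Λ.N / 2) z = 0 := by
  have hN := Λ.N_pos
  have := G_symm (Λ := Λ) (t := 0) (z := -z) le_rfl (by linarith)
  simpa [G_zero] using this

/-- the bound of `|F|` -/
noncomputable def Fm (Λ : Lay) : ℝ :=
  max (-Λ.pb * (Λ.K * Λ.Zhi - Λ.l)) (Λ.pd * (Λ.K * Λ.Zhi + Λ.l))

lemma Fm_lt : Λ.Fm < 1 / 2 := max_lt Λ.b1 Λ.b2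

lemma Fm_nonneg : 0 ≤ Λ.Fm := by
  have h1 := Λ.lamlt
  have h2 := mul_le_mul_of_nonneg_left Λ.Zlohi Λ.K_pos.le
  have h3 : Λ.l = Λ.N / 4 - Λ.be := rfl
  have h4 := Λ.pb_neg
  refine le_trans ?_ (le_max_left _ _)
  exact mul_nonneg (by linarith) (by linarith)

lemma Kz_abs {z : ℝ} (hz : |z| ≤ Λ.Zhi) : |Λ.K * z| < Λ.N / 4 := by
  rw [abs_mul, abs_of_pos Λ.K_pos]
  exact lt_of_le_of_lt (mul_le_mul_of_nonneg_left hz Λ.K_pos.le) Λ.KZ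

lemma G_ge (h0 : 0 ≤ t) (h1 : t ≤ Λ.N / 2) (hz : |z| ≤ Λ.Zhi) : -Λ.Fm ≤ Λ.G t z := by
  have hK := Λ.K_pos
  have hpd := Λ.pd_pos
  have hpb := Λ.pb_neg
  have hD := Λ.D_pos
  have hr := Λ.rho_neg
  have hFm := Λ.Fm_nonneg
  have k1 := Λ.Kz_abs hz
  have k2 : Λ.K * z ≤ Λ.K * Λ.Zhi := mul_le_mul_of_nonneg_left (abs_le.1 hz).2 hK.le
  have m1 : -Λ.pb * (Λ.K * Λ.Zhi - Λ.l) ≤ Λ.Fm := le_max_left _ _
  have m2 : Λ.pd * (Λ.K * Λ.Zhi + Λ.l) ≤ Λ.Fm := le_max_right _ _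
  have e3 := Λ.X_sub_pd' t z
  by_cases ha : t ≤ Λ.l - Λ.K * z
  · rw [G_a h0 k1 ha]; nlinarith
  by_cases hb : t ≤ Λ.K * z - Λ.l
  · rw [G_b h0 k1 hb]; nlinarith
  by_cases hc : Λ.N / 2 - (Λ.K * z + Λ.l) ≤ t
  · have : Λ.pd * (t - Λ.N / 2) ≤ Λ.G t z := (le_max_right _ _).trans (le_max_left _ _)
    nlinarith
  by_cases hd : Λ.N / 2 + (Λ.K * z + Λ.l) ≤ t
  · have : Λ.G t z = Λ.pb * (t - Λ.N / 2) := by
      have := G_symm (Λ := Λ) (t := Λ.N / 2 - t) (z := -z) (by linarith) (by linarith)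
      have hGb := G_b (Λ := Λ) (t := Λ.N / 2 - t) (z := -z) (by linarith)
        (by rw [mul_neg, abs_neg]; exact k1) (by linarith)
      rw [neg_neg, show Λ.N / 2 - (Λ.N / 2 - t) = t by ring, hGb] at this
      rw [this]; ring
    rw [this]; nlinarith
  · push Not at ha hb hc hd
    rw [G_e h0 h1 ha.le hb.le hc.le hd.le]
    -- `X` is decreasing in `t`
    have e5 := Λ.X_sub_pd' (Λ.N / 2 - (Λ.K * z + Λ.l)) z
    have e6 : Λ.X t z - Λ.X (Λ.N / 2 - (Λ.K * z + Λ.l)) z =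
        Λ.rho * (t - (Λ.N / 2 - (Λ.K * z + Λ.l))) := by unfold X; ring
    nlinarith

lemma G_abs (h0 : 0 ≤ t) (h1 : t ≤ Λ.N / 2) (hz : |z| ≤ Λ.Zhi) : |Λ.G t z| ≤ Λ.Fm := by
  rw [abs_le]
  refine ⟨G_ge h0 h1 hz, ?_⟩
  have := G_ge (Λ := Λ) (t := Λ.N / 2 - t) (z := -z) (by linarith) (by linarith)
    (by rwa [abs_neg])
  rw [G_symm h0 h1] at this
  linarith

/-- Lipschitz constant in `t`. -/
lemma G_lip (t t' z z' : ℝ) :
    |Λ.G t z - Λ.G t' z'| ≤ -Λ.pb * |t - t'| + Λ.sig * |z - z'| := by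
  have hpd := Λ.pd_pos
  have hpb := Λ.pb_neg
  have hpd2 := Λ.pd_lt
  have hs := Λ.sig_pos
  have hr := Λ.rho_neg
  have hz0 : 0 ≤ Λ.sig * |z - z'| := mul_nonneg hs.le (abs_nonneg _)
  have hb : |Λ.pb * t - Λ.pb * t'| ≤ -Λ.pb * |t - t'| + Λ.sig * |z - z'| := by
    rw [← mul_sub, abs_mul, abs_of_neg hpb]; linarith
  have hb' : |Λ.pb * (t - Λ.N / 2) - Λ.pb * (t' - Λ.N / 2)| ≤
      -Λ.pb * |t - t'| + Λ.sig * |z - z'| := by
    rw [← mul_sub, abs_mul, abs_of_neg hpb,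
      show t - Λ.N / 2 - (t' - Λ.N / 2) = t - t' by ring]; linarith
  have hd : |Λ.pd * t - Λ.pd * t'| ≤ -Λ.pb * |t - t'| + Λ.sig * |z - z'| := by
    rw [← mul_sub, abs_mul, abs_of_pos hpd]
    have := mul_le_mul_of_nonneg_right hpd2.le (abs_nonneg (t - t'))
    linarith
  have hd' : |Λ.pd * (t - Λ.N / 2) - Λ.pd * (t' - Λ.N / 2)| ≤
      -Λ.pb * |t - t'| + Λ.sig * |z - z'| := by
    rw [← mul_sub, abs_mul, abs_of_pos hpd,
      show t - Λ.N / 2 - (t' - Λ.N / 2) = t - t' by ring]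
    have := mul_le_mul_of_nonneg_right hpd2.le (abs_nonneg (t - t'))
    linarith
  have hX : |Λ.X t z - Λ.X t' z'| ≤ -Λ.pb * |t - t'| + Λ.sig * |z - z'| := by
    rw [show Λ.X t z - Λ.X t' z' = Λ.rho * (t - t') + -(Λ.sig * (z - z')) by unfold X; ring]
    refine (abs_add_le _ _).trans ?_
    rw [abs_neg, abs_mul, abs_mul, abs_of_neg hr, abs_of_pos hs]
    have : -Λ.rho ≤ -Λ.pb := by unfold rho; linarith
    have := mul_le_mul_of_nonneg_right this (abs_nonneg (t - t'))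
    linarith
  unfold G
  refine (abs_max_sub_max_le_max _ _ _ _).trans (max_le ?_ ?_)
  · exact (abs_max_sub_max_le_max _ _ _ _).trans (max_le hb hd')
  · refine (abs_min_sub_min_le_max _ _ _ _).trans (max_le hX ?_)
    exact (abs_min_sub_min_le_max _ _ _ _).trans (max_le hd hb')

end Gcases

/-- The wall function. -/
noncomputable def F (t z : ℝ) : ℝ := glue (Λ.N / 2) (fun t => Λ.G t z) (fun t => Λ.G t (-z)) t

lemma half_pos : 0 < Λ.N / 2 := by linarith [Λ.N_pos]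

lemma F_of_mem {t z : ℝ} (h0 : 0 ≤ t) (h1 : t ≤ Λ.N / 2) : Λ.F t z = Λ.G t z :=
  glue_of_mem (A := fun t => Λ.G t z) (B := fun t => Λ.G t (-z)) Λ.half_pos (G_zero _) (G_half _)
    ⟨h0, h1⟩

lemma F_add_half (t z : ℝ) : Λ.F (t + Λ.N / 2) z = Λ.F t (-z) := by
  unfold F
  rw [glue_swap_add Λ.half_pos, neg_neg]

lemma F_add_int (t z : ℝ) (k : ℤ) : Λ.F (t + k * Λ.N) z = Λ.F t z := by
  have := glue_add_int_period (A := fun t => Λ.G t z) (B := fun t => Λ.G t (-z)) Λ.half_pos t k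
  rw [show 2 * (Λ.N / 2) = Λ.N by ring] at this
  exact this

lemma F_neg (t z : ℝ) : Λ.F (-t) z = -Λ.F t z :=
  glue_neg (A := fun t => Λ.G t z) (B := fun t => Λ.G t (-z)) Λ.half_pos
    (G_zero _) (G_half _) (G_zero _) (G_half _) (fun t ht => G_symm ht.1 ht.2) t

lemma F_abs (t : ℝ) {z : ℝ} (hz : |z| ≤ Λ.Zhi) : |Λ.F t z| ≤ Λ.Fm :=
  glue_abs_le (A := fun t => Λ.G t z) (B := fun t => Λ.G t (-z)) Λ.half_pos
    (G_zero _) (G_half _) (G_zero _) (G_half _)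
    (fun t ht => G_abs ht.1 ht.2 hz)
    (fun t ht => G_abs ht.1 ht.2 (by rwa [abs_neg])) t

lemma F_abs_lt (t : ℝ) {z : ℝ} (hz : |z| ≤ Λ.Zhi) : |Λ.F t z| < 1 / 2 :=
  (Λ.F_abs t hz).trans_lt Λ.Fm_lt

lemma F_lip (t t' z z' : ℝ) :
    |Λ.F t z - Λ.F t' z'| ≤ -Λ.pb * |t - t'| + Λ.sig * |z - z'| := by
  have hs := Λ.sig_pos
  have h1 : |Λ.F t z - Λ.F t' z| ≤ -Λ.pb * |t - t'| := by
    refine glue_lip (A := fun t => Λ.G t z) (B := fun t => Λ.G t (-z)) Λ.half_pos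
      (G_zero _) (G_half _) (G_zero _) (G_half _) ?_ ?_ t t'
    · intro t _ t' _
      have := G_lip (Λ := Λ) t t' z z
      simpa using this
    · intro t _ t' _
      have := G_lip (Λ := Λ) t t' (-z) (-z)
      simpa using this
  have h2 : |Λ.F t' z - Λ.F t' z'| ≤ Λ.sig * |z - z'| := by
    unfold F glue
    split_ifs
    · have := G_lip (Λ := Λ) (t' - ⌊t' / (Λ.N / 2)⌋ * (Λ.N / 2))
        (t' - ⌊t' / (Λ.N / 2)⌋ * (Λ.N / 2)) z z'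
      simpa using this
    · have := G_lip (Λ := Λ) (t' - ⌊t' / (Λ.N / 2)⌋ * (Λ.N / 2))
        (t' - ⌊t' / (Λ.N / 2)⌋ * (Λ.N / 2)) (-z) (-z')
      rw [show -z - -z' = -(z - z') by ring, abs_neg] at this
      simpa using this
  calc |Λ.F t z - Λ.F t' z'| = |(Λ.F t z - Λ.F t' z) + (Λ.F t' z - Λ.F t' z')| := by ring_nf
    _ ≤ _ := (abs_add_le _ _).trans (add_le_add h1 h2)

/-- near an upper flip axis, below the flip vertex -/
lemma F_d {t z : ℝ} (hz : |z| ≤ Λ.Zhi) (h : |t| ≤ Λ.l - Λ.K * z) : Λ.F t z = Λ.pd * t := by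
  have k := Λ.Kz_abs hz
  have k' := abs_lt.1 k
  have hl := Λ.l_lt
  have hN := Λ.N_pos
  have h' := abs_le.1 h
  rcases le_total 0 t with h0 | h0
  · rw [F_of_mem _ h0 (by linarith), G_a h0 k h'.2]
  · have : Λ.F t z = -Λ.F (-t) z := by rw [F_neg]; ring
    rw [this, F_of_mem _ (by linarith) (by linarith), G_a (by linarith) k (by linarith)]
    ring

/-- near an upper flip axis, above the flip vertex -/
lemma F_b {t z : ℝ} (hz : |z| ≤ Λ.Zhi) (h : |t| ≤ Λ.K * z - Λ.l) : Λ.F t z = Λ.pb * t := by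
  have k := Λ.Kz_abs hz
  have k' := abs_lt.1 k
  have hl := Λ.l_pos
  have hN := Λ.N_pos
  have h' := abs_le.1 h
  rcases le_total 0 t with h0 | h0
  · rw [F_of_mem _ h0 (by linarith), G_b h0 k h'.2]
  · have : Λ.F t z = -Λ.F (-t) z := by rw [F_neg]; ring
    rw [this, F_of_mem _ (by linarith) (by linarith), G_b (by linarith) k (by linarith)]
    ring

/-- near a lower flip axis, below the flip vertex -/
lemma F_b' {t z : ℝ} (hz : |z| ≤ Λ.Zhi) (h : |t + Λ.N / 2| ≤ -(Λ.K * z + Λ.l)) :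
    Λ.F t z = Λ.pb * (t + Λ.N / 2) := by
  have : Λ.F t z = Λ.F (t + Λ.N / 2) (-z) := by rw [F_add_half, neg_neg]
  rw [this, F_b _ (by rwa [abs_neg]) (by linarith)]

lemma F_X {t z : ℝ} (h1 : -(Λ.N / 2) + |Λ.K * z + Λ.l| ≤ t)
    (h2 : t ≤ -|Λ.K * z - Λ.l|) : Λ.F t z = Λ.rho * (t + Λ.N / 4) + Λ.sig * z := by
  have a1 := abs_nonneg (Λ.K * z + Λ.l)
  have a2 := abs_nonneg (Λ.K * z - Λ.l)
  have b1 := abs_le.1 (le_refl |Λ.K * z + Λ.l|)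
  have b2 := abs_le.1 (le_refl |Λ.K * z - Λ.l|)
  have : Λ.F t z = -Λ.F (-t) z := by rw [F_neg]; ring
  rw [this, F_of_mem _ (by linarith) (by linarith),
    G_e (by linarith) (by linarith) (by linarith) (by linarith) (by linarith) (by linarith)]
  unfold X; ring

end Lay

end Pool.Agent.DAF
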