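import Pool.Agent.DAF.Layer

open Set

namespace Pool.Agent.DAF

/-- Hypotheses on the height function of the upper side of a layer. -/
structure LayPhi (Λ : Lay) (Φ : ℝ → ℝ → ℝ) (κ : ℝ) : Prop where
  per : ∀ (a m : ℤ) (x y : ℝ), Φ (x + a) (y + ((2 * Λ.be + Λ.al) * a + m * Λ.N)) = Φ x y
  even : ∀ x y, Φ (-x) (-y) = Φ x y
  lo : ∀ x y, Λ.Zlo ≤ Φ x y
  hi : ∀ x y, Φ x y ≤ Λ.Zhi
  lip : ∀ x y x' y', |Φ x y - Φ x' y'| ≤ κ * (|x - x'| + |y - y'|)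

namespace Lay

variable (Λ : Lay) (Φ : ℝ → ℝ → ℝ)

/-- the solid body of the tile in the layer -/
def LB (x y z : ℝ) : Prop :=
  -Φ x (y - Λ.N / 2) ≤ z ∧ z ≤ Φ x y ∧ -(1 / 2) + Λ.F (y - Λ.al * x + Λ.be) z ≤ x ∧
    x ≤ 1 / 2 + Λ.F (y - Λ.al * x - Λ.be) z ∧ |y - Λ.al * x| ≤ Λ.N / 4 - Λ.K * z

/-- contact with the body displaced by `(1, s)` -/
def DA1 (x y z : ℝ) : Prop :=
  x = 1 / 2 + Λ.pd * (y - Λ.al * x - Λ.be) ∧ |y - Λ.al * x - Λ.be| ≤ Λ.l - Λ.K * z ∧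
    -Φ x (y - Λ.N / 2) ≤ z

/-- contact with the body displaced by `(1, s - N)` -/
def DA2 (x y z : ℝ) : Prop :=
  x = 1 / 2 + Λ.pb * (y - Λ.al * x - Λ.be + Λ.N / 2) ∧
    |y - Λ.al * x - Λ.be + Λ.N / 2| ≤ -(Λ.K * z + Λ.l) ∧ -Φ x (y - Λ.N / 2) ≤ z

/-- contact with the reflected body in the same column -/
def DBN (x y z : ℝ) : Prop :=
  y - Λ.al * x = Λ.N / 4 - Λ.K * z ∧ -Φ x (y - Λ.N / 2) ≤ z ∧ z ≤ Φ x y ∧
    -(1 / 2) + Λ.F (y - Λ.al * x + Λ.be) z ≤ x ∧ x ≤ 1 / 2 + Λ.F (y - Λ.al * x - Λ.be) z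

/-- contact with the reflected body in the next column -/
def DBE (x y z : ℝ) : Prop :=
  x = 1 / 2 + Λ.rho * (y - Λ.al * x - Λ.be + Λ.N / 4) + Λ.sig * z ∧
    -(Λ.N / 2) + |Λ.K * z + Λ.l| ≤ y - Λ.al * x - Λ.be ∧
    y - Λ.al * x - Λ.be ≤ -|Λ.K * z - Λ.l| ∧ -Φ x (y - Λ.N / 2) ≤ z ∧ z ≤ Φ x y

variable {Λ Φ} {κ : ℝ}

section

variable (hΦ : LayPhi Λ Φ κ)
include hΦ

lemma per1 (x y : ℝ) : Φ (x - 1) (y - (2 * Λ.be + Λ.al)) = Φ x y := by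
  have := hΦ.per (-1) 0 x y
  rw [← this]; push_cast; congr 1; ring

lemma perN (x y : ℝ) : Φ x (y - Λ.N) = Φ x y := by
  have := hΦ.per 0 (-1) x y
  rw [← this]; push_cast; congr 1 <;> ring

lemma perN' (x y : ℝ) : Φ x (y + Λ.N / 2) = Φ x (y - Λ.N / 2) := by
  have := perN hΦ x (y + Λ.N / 2)
  rw [← this]; congr 1; ring

lemma zabs {x y z : ℝ} (h1 : -Φ x (y - Λ.N / 2) ≤ z) (h2 : z ≤ Φ x y) : |z| ≤ Λ.Zhi := by
  rw [abs_le]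
  exact ⟨by linarith [hΦ.hi x (y - Λ.N / 2)], h2.trans (hΦ.hi x y)⟩

lemma LB_neg {x y z : ℝ} (h : Λ.LB Φ x y z) : Λ.LB Φ (-x) (-y) z := by
  obtain ⟨h1, h2, h3, h4, h5⟩ := h
  refine ⟨?_, ?_, ?_, ?_, ?_⟩
  · rw [show -y - Λ.N / 2 = -(y + Λ.N / 2) by ring, hΦ.even, perN' hΦ]; exact h1
  · rw [hΦ.even]; exact h2
  · rw [show -y - Λ.al * -x + Λ.be = -(y - Λ.al * x - Λ.be) by ring, F_neg]; linarith
  · rw [show -y - Λ.al * -x - Λ.be = -(y - Λ.al * x + Λ.be) by ring, F_neg]; linarith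
  · rw [show -y - Λ.al * -x = -(y - Λ.al * x) by ring, abs_neg]; exact h5

lemma LB_xabs {x y z : ℝ} (h : Λ.LB Φ x y z) : |x| < 1 := by
  have hz := zabs hΦ h.1 h.2.1
  have a1 := abs_lt.1 (Λ.F_abs_lt (y - Λ.al * x + Λ.be) hz)
  have a2 := abs_lt.1 (Λ.F_abs_lt (y - Λ.al * x - Λ.be) hz)
  rw [abs_lt]
  exact ⟨by linarith [h.2.2.1], by linarith [h.2.2.2.1]⟩

/-- the point lies on the common wall of two bodies in adjacent columns -/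
lemma wall_eq {x y z : ℝ} {m : ℤ} (h : Λ.LB Φ x y z)
    (h' : Λ.LB Φ (x - 1) (y - ((2 * Λ.be + Λ.al) + m * Λ.N)) z) :
    x = 1 / 2 + Λ.F (y - Λ.al * x - Λ.be) z := by
  have e : y - ((2 * Λ.be + Λ.al) + m * Λ.N) - Λ.al * (x - 1) + Λ.be =
      (y - Λ.al * x - Λ.be) + ((-m : ℤ) : ℝ) * Λ.N := by push_cast; ring
  have h3 := h'.2.2.1
  rw [e, F_add_int] at h3
  linarith [h.2.2.2.1]

lemma LB_LB_one {x y z : ℝ} {m : ℤ} (h : Λ.LB Φ x y z)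
    (h' : Λ.LB Φ (x - 1) (y - ((2 * Λ.be + Λ.al) + m * Λ.N)) z) :
    (m = 0 ∧ Λ.DA1 Φ x y z) ∨ (m = -1 ∧ Λ.DA2 Φ x y z) := by
  have hw := wall_eq hΦ h h'
  have hz := zabs hΦ h.1 h.2.1
  have hK := abs_lt.1 (Λ.Kz_abs hz)
  have hb := Λ.be_pos
  have hb2 := Λ.be_lt
  have hN := Λ.N_pos
  have hl : Λ.l = Λ.N / 4 - Λ.be := rfl
  have a := abs_le.1 h.2.2.2.2
  have b := abs_le.1 h'.2.2.2.2
  have hm1 : m ≤ 0 := by
    by_contra hcon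
    have : (1 : ℝ) ≤ m := by exact_mod_cast not_le.1 hcon
    nlinarith
  have hm2 : -1 ≤ m := by
    by_contra hcon
    have : (m : ℝ) ≤ -2 := by exact_mod_cast (by omega : m ≤ -2)
    nlinarith
  obtain rfl | rfl : m = 0 ∨ m = -1 := by omega
  · left
    push_cast at b
    have hth : |y - Λ.al * x - Λ.be| ≤ Λ.l - Λ.K * z := by
      rw [abs_le]; constructor <;> linarith
    refine ⟨rfl, ?_, hth, h.1⟩
    rwa [F_d _ hz hth] at hw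
  · right
    push_cast at b
    have hth : |y - Λ.al * x - Λ.be + Λ.N / 2| ≤ -(Λ.K * z + Λ.l) := by
      rw [abs_le]; constructor <;> linarith
    refine ⟨rfl, ?_, hth, h.1⟩
    rwa [F_b' _ hz hth] at hw

/-- Two different bodies of the same orientation in a layer. -/
theorem LB_LB {x y z : ℝ} {a m : ℤ} (h : Λ.LB Φ x y z)
    (h' : Λ.LB Φ (x - a) (y - ((2 * Λ.be + Λ.al) * a + m * Λ.N)) z) (hne : ¬ (a = 0 ∧ m = 0)) :
    (a = 1 ∧ m = 0 ∧ Λ.DA1 Φ x y z) ∨ (a = 1 ∧ m = -1 ∧ Λ.DA2 Φ x y z) ∨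
    (a = -1 ∧ m = 0 ∧ Λ.DA1 Φ (-x) (-y) z) ∨ (a = -1 ∧ m = 1 ∧ Λ.DA2 Φ (-x) (-y) z) := by
  have hx := abs_lt.1 (LB_xabs hΦ h)
  have hx' := abs_lt.1 (LB_xabs hΦ h')
  have ha1 : (a : ℝ) < 2 := by linarith
  have ha2 : (-2 : ℝ) < a := by linarith
  have ha1' : a < 2 := by exact_mod_cast ha1
  have ha2' : -2 < a := by exact_mod_cast ha2
  obtain rfl | rfl | rfl : a = 0 ∨ a = 1 ∨ a = -1 := by omega
  · exfalso
    have hz := zabs hΦ h.1 h.2.1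
    have hK := abs_lt.1 (Λ.Kz_abs hz)
    have hN := Λ.N_pos
    have a := abs_le.1 h.2.2.2.2
    have b := abs_le.1 h'.2.2.2.2
    push_cast at b
    apply hne
    refine ⟨rfl, ?_⟩
    have hm1 : m < 1 := by
      by_contra hcon
      have : (1 : ℝ) ≤ m := by exact_mod_cast not_lt.1 hcon
      nlinarith
    have hm2 : -1 < m := by
      by_contra hcon
      have : (m : ℝ) ≤ -1 := by exact_mod_cast not_lt.1 hcon
      nlinarith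
    omega
  · have h'' : Λ.LB Φ (x - 1) (y - ((2 * Λ.be + Λ.al) + m * Λ.N)) z := by
      have e : (2 * Λ.be + Λ.al) * ((1 : ℤ) : ℝ) + m * Λ.N = (2 * Λ.be + Λ.al) + m * Λ.N := by
        push_cast; ring
      rw [e] at h'
      simpa using h'
    rcases LB_LB_one hΦ h h'' with ⟨h1, h2⟩ | ⟨h1, h2⟩
    · exact Or.inl ⟨rfl, h1, h2⟩
    · exact Or.inr (Or.inl ⟨rfl, h1, h2⟩)
  · have h1 := LB_neg hΦ h
    have h2 := LB_neg hΦ h'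
    have h'' : Λ.LB Φ (-x - 1) (-y - ((2 * Λ.be + Λ.al) + ((-m : ℤ) : ℝ) * Λ.N)) z := by
      have e1 : -x - 1 = -(x - ((-1 : ℤ) : ℝ)) := by push_cast; ring
      have e2 : -y - ((2 * Λ.be + Λ.al) + ((-m : ℤ) : ℝ) * Λ.N) =
          -(y - ((2 * Λ.be + Λ.al) * ((-1 : ℤ) : ℝ) + m * Λ.N)) := by push_cast; ring
      rw [e1, e2]; exact h2
    rcases LB_LB_one hΦ h1 h'' with ⟨h1, h2⟩ | ⟨h1, h2⟩
    · exact Or.inr (Or.inr (Or.inl ⟨rfl, by omega, h2⟩))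
    · exact Or.inr (Or.inr (Or.inr ⟨rfl, by omega, h2⟩))

lemma DA1_LB {x y z : ℝ} (h : Λ.DA1 Φ x y z) :
    Λ.LB Φ x y z ∧ Λ.LB Φ (x - 1) (y - (2 * Λ.be + Λ.al)) z := by
  obtain ⟨h1, h2, h3⟩ := h
  have hb := Λ.be_pos
  have hb2 := Λ.be_lt
  have hN := Λ.N_pos
  have hl : Λ.l = Λ.N / 4 - Λ.be := rfl
  have hK := Λ.K_pos
  have hlam := Λ.lamlt
  have hzz : z ≤ Λ.Zlo := by
    by_contra! hcon
    have := abs_nonneg (y - Λ.al * x - Λ.be)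
    nlinarith
  have h4 : z ≤ Φ x y := hzz.trans (hΦ.lo x y)
  have hz := zabs hΦ h3 h4
  have hKz := abs_lt.1 (Λ.Kz_abs hz)
  have hF := F_d _ hz h2
  have h2' := abs_le.1 h2
  have a1 := abs_lt.1 (Λ.F_abs_lt (y - Λ.al * x + Λ.be) hz)
  have a2 := abs_lt.1 (Λ.F_abs_lt (y - Λ.al * x - Λ.be) hz)
  have a3 := abs_lt.1 (Λ.F_abs_lt (y - Λ.al * x - 3 * Λ.be) hz)
  refine ⟨⟨h3, h4, ?_, ?_, ?_⟩, ⟨?_, ?_, ?_, ?_, ?_⟩⟩
  · linarith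
  · linarith
  · rw [abs_le]; constructor <;> linarith
  · rw [show y - (2 * Λ.be + Λ.al) - Λ.N / 2 = (y - Λ.N / 2) - (2 * Λ.be + Λ.al) by ring, per1 hΦ]
    exact h3
  · rw [per1 hΦ]; exact h4
  · rw [show y - (2 * Λ.be + Λ.al) - Λ.al * (x - 1) + Λ.be = y - Λ.al * x - Λ.be by ring]
    linarith
  · rw [show y - (2 * Λ.be + Λ.al) - Λ.al * (x - 1) - Λ.be = y - Λ.al * x - 3 * Λ.be by ring]
    linarith
  · rw [show y - (2 * Λ.be + Λ.al) - Λ.al * (x - 1) = y - Λ.al * x - 2 * Λ.be by ring, abs_le]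
    constructor <;> linarith

lemma DA2_LB {x y z : ℝ} (h : Λ.DA2 Φ x y z) :
    Λ.LB Φ x y z ∧ Λ.LB Φ (x - 1) (y - ((2 * Λ.be + Λ.al) - Λ.N)) z := by
  obtain ⟨h1, h2, h3⟩ := h
  have hb := Λ.be_pos
  have hb2 := Λ.be_lt
  have hN := Λ.N_pos
  have hl : Λ.l = Λ.N / 4 - Λ.be := rfl
  have hK := Λ.K_pos
  have hlam := Λ.lamlt
  have hzz : z ≤ 0 := by
    by_contra! hcon
    have := abs_nonneg (y - Λ.al * x - Λ.be + Λ.N / 2)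
    nlinarith
  have h4 : z ≤ Φ x y := hzz.trans (Λ.Zlo_pos.le.trans (hΦ.lo x y))
  have hz := zabs hΦ h3 h4
  have hKz := abs_lt.1 (Λ.Kz_abs hz)
  have hF := F_b' _ hz h2
  have h2' := abs_le.1 h2
  have a1 := abs_lt.1 (Λ.F_abs_lt (y - Λ.al * x + Λ.be) hz)
  have a2 := abs_lt.1 (Λ.F_abs_lt (y - Λ.al * x - Λ.be) hz)
  have a3 := abs_lt.1 (Λ.F_abs_lt (y - Λ.al * x - 3 * Λ.be + Λ.N) hz)
  have e1 : Λ.F (y - Λ.al * x - Λ.be + Λ.N) z = Λ.F (y - Λ.al * x - Λ.be) z := by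
    have := Λ.F_add_int (y - Λ.al * x - Λ.be) z 1
    rw [← this]; congr 1; push_cast; ring
  have e2 : ∀ x y, Φ (x - 1) (y - ((2 * Λ.be + Λ.al) - Λ.N)) = Φ x y := by
    intro x y
    rw [show y - ((2 * Λ.be + Λ.al) - Λ.N) = (y + Λ.N) - (2 * Λ.be + Λ.al) by ring, per1 hΦ]
    have := perN hΦ x (y + Λ.N)
    rw [← this]; congr 1; ring
  refine ⟨⟨h3, h4, ?_, ?_, ?_⟩, ⟨?_, ?_, ?_, ?_, ?_⟩⟩
  · linarith
  · linarith
  · rw [abs_le]; constructor <;> linarith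
  · rw [show y - ((2 * Λ.be + Λ.al) - Λ.N) - Λ.N / 2 =
      (y - Λ.N / 2) - ((2 * Λ.be + Λ.al) - Λ.N) by ring, e2]
    exact h3
  · rw [e2]; exact h4
  · rw [show y - ((2 * Λ.be + Λ.al) - Λ.N) - Λ.al * (x - 1) + Λ.be =
      y - Λ.al * x - Λ.be + Λ.N by ring, e1]
    linarith
  · rw [show y - ((2 * Λ.be + Λ.al) - Λ.N) - Λ.al * (x - 1) - Λ.be =
      y - Λ.al * x - 3 * Λ.be + Λ.N by ring]
    linarith
  · rw [show y - ((2 * Λ.be + Λ.al) - Λ.N) - Λ.al * (x - 1) =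
      y - Λ.al * x - 2 * Λ.be + Λ.N by ring, abs_le]
    constructor <;> linarith

omit hΦ in
lemma F_refl (t z : ℝ) (m : ℤ) :
    Λ.F (m * Λ.N + Λ.N / 2 - t) (-z) = -Λ.F t z := by
  have e : (m : ℝ) * Λ.N + Λ.N / 2 - t = (-t + Λ.N / 2) + m * Λ.N := by ring
  rw [e, F_add_int, F_add_half, neg_neg, F_neg]

lemma Phi_refl (x y : ℝ) (a m : ℤ) :
    Φ (a - x) ((2 * Λ.be + Λ.al) * a + m * Λ.N + Λ.N / 2 - y) = Φ x (y - Λ.N / 2) := by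
  have := hΦ.per a m (-x) (-(y - Λ.N / 2))
  rw [hΦ.even] at this
  rw [← this]; congr 1 <;> ring

lemma Phi_refl' (x y : ℝ) (a m : ℤ) :
    Φ (a - x) ((2 * Λ.be + Λ.al) * a + m * Λ.N + Λ.N / 2 - y - Λ.N / 2) = Φ x y := by
  have := hΦ.per a m (-x) (-y)
  rw [hΦ.even] at this
  rw [← this]; congr 1 <;> ring

/-- characterisation of membership in a reflected body -/
lemma LB_refl_iff {x y z : ℝ} (a m : ℤ) :
    Λ.LB Φ (a - x) ((2 * Λ.be + Λ.al) * a + m * Λ.N + Λ.N / 2 - y) (-z) ↔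
      -Φ x (y - Λ.N / 2) ≤ z ∧ z ≤ Φ x y ∧
      a - 1 / 2 + Λ.F (y - Λ.al * x - 2 * Λ.be * a + Λ.be) z ≤ x ∧
      x ≤ a + 1 / 2 + Λ.F (y - Λ.al * x - 2 * Λ.be * a - Λ.be) z ∧
      |y - Λ.al * x - 2 * Λ.be * a - m * Λ.N - Λ.N / 2| ≤ Λ.N / 4 + Λ.K * z := by
  unfold LB
  rw [Phi_refl hΦ, Phi_refl' hΦ]
  have e1 : (2 * Λ.be + Λ.al) * a + m * Λ.N + Λ.N / 2 - y - Λ.al * (a - x) + Λ.be =
      m * Λ.N + Λ.N / 2 - (y - Λ.al * x - 2 * Λ.be * a - Λ.be) := by ring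
  have e2 : (2 * Λ.be + Λ.al) * a + m * Λ.N + Λ.N / 2 - y - Λ.al * (a - x) - Λ.be =
      m * Λ.N + Λ.N / 2 - (y - Λ.al * x - 2 * Λ.be * a + Λ.be) := by ring
  have e3 : (2 * Λ.be + Λ.al) * a + m * Λ.N + Λ.N / 2 - y - Λ.al * (a - x) =
      -(y - Λ.al * x - 2 * Λ.be * a - m * Λ.N - Λ.N / 2) := by ring
  rw [e1, e2, F_refl, F_refl, e3, abs_neg]
  constructor
  · rintro ⟨h1, h2, h3, h4, h5⟩
    exact ⟨by linarith, by linarith, by linarith, by linarith, by linarith⟩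
  · rintro ⟨h1, h2, h3, h4, h5⟩
    exact ⟨by linarith, by linarith, by linarith, by linarith, by linarith⟩

lemma LB_refl_one {x y z : ℝ} {m : ℤ} (h : Λ.LB Φ x y z)
    (h' : Λ.LB Φ (((1 : ℤ) : ℝ) - x)
      ((2 * Λ.be + Λ.al) * ((1 : ℤ) : ℝ) + m * Λ.N + Λ.N / 2 - y) (-z)) :
    m = -1 ∧ Λ.DBE Φ x y z := by
  rw [LB_refl_iff hΦ] at h'
  have hz := zabs hΦ h.1 h.2.1
  have hK := abs_lt.1 (Λ.Kz_abs hz)
  have hb := Λ.be_pos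
  have hb2 := Λ.be_lt
  have hN := Λ.N_pos
  have hl : Λ.l = Λ.N / 4 - Λ.be := rfl
  have a := abs_le.1 h.2.2.2.2
  have b := abs_le.1 h'.2.2.2.2
  push_cast at b h'
  have e : y - Λ.al * x - 2 * Λ.be * 1 + Λ.be = y - Λ.al * x - Λ.be := by ring
  rw [e] at h'
  have hw : x = 1 / 2 + Λ.F (y - Λ.al * x - Λ.be) z := by linarith [h.2.2.2.1, h'.2.2.1]
  have hm1 : m ≤ -1 := by
    by_contra hcon
    have : (0 : ℝ) ≤ m := by exact_mod_cast (by omega : 0 ≤ m)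
    nlinarith
  have hm2 : -1 ≤ m := by
    by_contra hcon
    have : (m : ℝ) ≤ -2 := by exact_mod_cast (by omega : m ≤ -2)
    nlinarith
  obtain rfl : m = -1 := by omega
  push_cast at b
  have t1 : -(Λ.N / 2) + |Λ.K * z + Λ.l| ≤ y - Λ.al * x - Λ.be := by
    rcases abs_cases (Λ.K * z + Λ.l) with ⟨h1, _⟩ | ⟨h1, _⟩ <;> rw [h1] <;> linarith
  have t2 : y - Λ.al * x - Λ.be ≤ -|Λ.K * z - Λ.l| := by
    rcases abs_cases (Λ.K * z - Λ.l) with ⟨h1, _⟩ | ⟨h1, _⟩ <;> rw [h1] <;> linarith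
  rw [F_X _ t1 t2] at hw
  exact ⟨rfl, by linarith, t1, t2, h.1, h.2.1⟩

/-- A body and a reflected body in a layer. -/
theorem LB_refl {x y z : ℝ} {a m : ℤ} (h : Λ.LB Φ x y z)
    (h' : Λ.LB Φ (a - x) ((2 * Λ.be + Λ.al) * a + m * Λ.N + Λ.N / 2 - y) (-z)) :
    (a = 0 ∧ m = 0 ∧ Λ.DBN Φ x y z) ∨ (a = 0 ∧ m = -1 ∧ Λ.DBN Φ (-x) (-y) z) ∨
    (a = 1 ∧ m = -1 ∧ Λ.DBE Φ x y z) ∨ (a = -1 ∧ m = 0 ∧ Λ.DBE Φ (-x) (-y) z) := by
  have hx := abs_lt.1 (LB_xabs hΦ h)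
  have hx' := abs_lt.1 (LB_xabs hΦ h')
  have ha1 : (a : ℝ) < 2 := by linarith
  have ha2 : (-2 : ℝ) < a := by linarith
  have ha1' : a < 2 := by exact_mod_cast ha1
  have ha2' : -2 < a := by exact_mod_cast ha2
  obtain rfl | rfl | rfl : a = 0 ∨ a = 1 ∨ a = -1 := by omega
  · rw [LB_refl_iff hΦ] at h'
    have hz := zabs hΦ h.1 h.2.1
    have hK := abs_lt.1 (Λ.Kz_abs hz)
    have hN := Λ.N_pos
    have a := abs_le.1 h.2.2.2.2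
    have b := abs_le.1 h'.2.2.2.2
    push_cast at b
    have hm1 : m < 1 := by
      by_contra hcon
      have : (1 : ℝ) ≤ m := by exact_mod_cast not_lt.1 hcon
      nlinarith
    have hm2 : -2 < m := by
      by_contra hcon
      have : (m : ℝ) ≤ -2 := by exact_mod_cast not_lt.1 hcon
      nlinarith
    obtain rfl | rfl : m = 0 ∨ m = -1 := by omega
    · left
      push_cast at b
      exact ⟨rfl, rfl, by linarith, h.1, h.2.1, h.2.2.1, h.2.2.2.1⟩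
    · right; left
      push_cast at b
      have hn := LB_neg hΦ h
      exact ⟨rfl, rfl, by linarith, hn.1, hn.2.1, hn.2.2.1, hn.2.2.2.1⟩
  · obtain ⟨h1, h2⟩ := LB_refl_one hΦ h h'
    exact Or.inr (Or.inr (Or.inl ⟨rfl, h1, h2⟩))
  · have h1 := LB_neg hΦ h
    have h2 := LB_neg hΦ h'
    have h'' : Λ.LB Φ (((1 : ℤ) : ℝ) - (-x))
      ((2 * Λ.be + Λ.al) * ((1 : ℤ) : ℝ) + ((-m - 1 : ℤ) : ℝ) * Λ.N + Λ.N / 2 - (-y)) (-z) := by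
      have e1 : ((1 : ℤ) : ℝ) - (-x) = -(((-1 : ℤ) : ℝ) - x) := by push_cast; ring
      have e2 : (2 * Λ.be + Λ.al) * ((1 : ℤ) : ℝ) + ((-m - 1 : ℤ) : ℝ) * Λ.N + Λ.N / 2 - (-y) =
          -((2 * Λ.be + Λ.al) * ((-1 : ℤ) : ℝ) + m * Λ.N + Λ.N / 2 - y) := by push_cast; ring
      rw [e1, e2]; exact h2
    obtain ⟨h3, h4⟩ := LB_refl_one hΦ h1 h''
    exact Or.inr (Or.inr (Or.inr ⟨rfl, by omega, h4⟩))

lemma DBN_LB {x y z : ℝ} (h : Λ.DBN Φ x y z) :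
    Λ.LB Φ x y z ∧ Λ.LB Φ (-x) (Λ.N / 2 - y) (-z) := by
  obtain ⟨h1, h2, h3, h4, h5⟩ := h
  have hz := zabs hΦ h2 h3
  have hK := abs_lt.1 (Λ.Kz_abs hz)
  refine ⟨⟨h2, h3, h4, h5, ?_⟩, ?_⟩
  · rw [h1, abs_of_nonneg (by linarith)]
  · have := (LB_refl_iff hΦ (x := x) (y := y) (z := z) 0 0).2 ?_
    · push_cast at this
      rw [show (2 * Λ.be + Λ.al) * 0 + 0 * Λ.N + Λ.N / 2 - y = Λ.N / 2 - y by ring,
        show (0 : ℝ) - x = -x by ring] at this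
      exact this
    · push_cast
      rw [show y - Λ.al * x - 2 * Λ.be * 0 + Λ.be = y - Λ.al * x + Λ.be by ring,
        show y - Λ.al * x - 2 * Λ.be * 0 - Λ.be = y - Λ.al * x - Λ.be by ring]
      refine ⟨h2, h3, by linarith, by linarith, ?_⟩
      rw [abs_le]; constructor <;> linarith

lemma DBE_LB {x y z : ℝ} (h : Λ.DBE Φ x y z) :
    Λ.LB Φ x y z ∧ Λ.LB Φ (1 - x) ((2 * Λ.be + Λ.al) - Λ.N / 2 - y) (-z) := by
  obtain ⟨h1, t1, t2, h2, h3⟩ := h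
  have hz := zabs hΦ h2 h3
  have hK := abs_lt.1 (Λ.Kz_abs hz)
  have hb := Λ.be_pos
  have hb2 := Λ.be_lt
  have hN := Λ.N_pos
  have hl : Λ.l = Λ.N / 4 - Λ.be := rfl
  have hF := F_X _ t1 t2
  have a1 := abs_lt.1 (Λ.F_abs_lt (y - Λ.al * x + Λ.be) hz)
  have a2 := abs_lt.1 (Λ.F_abs_lt (y - Λ.al * x - Λ.be) hz)
  have a3 := abs_lt.1 (Λ.F_abs_lt (y - Λ.al * x - 3 * Λ.be) hz)
  have b1 := abs_le.1 (le_refl |Λ.K * z + Λ.l|)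
  have b2 := abs_le.1 (le_refl |Λ.K * z - Λ.l|)
  refine ⟨⟨h2, h3, ?_, ?_, ?_⟩, ?_⟩
  · linarith
  · linarith
  · rw [abs_le]; constructor <;> linarith
  · have := (LB_refl_iff hΦ (x := x) (y := y) (z := z) 1 (-1)).2 ?_
    · push_cast at this
      rw [show (2 * Λ.be + Λ.al) * 1 + -1 * Λ.N + Λ.N / 2 - y =
        (2 * Λ.be + Λ.al) - Λ.N / 2 - y by ring] at this
      exact this
    · push_cast
      rw [show y - Λ.al * x - 2 * Λ.be * 1 + Λ.be = y - Λ.al * x - Λ.be by ring,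
        show y - Λ.al * x - 2 * Λ.be * 1 - Λ.be = y - Λ.al * x - 3 * Λ.be by ring]
      refine ⟨h2, h3, by linarith, by linarith, ?_⟩
      rw [abs_le]; constructor <;> linarith

/-- Every point of the layer lies in a body or in a reflected body. -/
theorem layer_cover {x y z : ℝ} (h1 : -Φ x (y - Λ.N / 2) ≤ z) (h2 : z ≤ Φ x y) :
    ∃ a m : ℤ, Λ.LB Φ (x - a) (y - ((2 * Λ.be + Λ.al) * a + m * Λ.N)) z ∨
      Λ.LB Φ (a - x) ((2 * Λ.be + Λ.al) * a + m * Λ.N + Λ.N / 2 - y) (-z) := by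
  have hz := zabs hΦ h1 h2
  have hK := abs_lt.1 (Λ.Kz_abs hz)
  have hN := Λ.N_pos
  -- the column
  obtain ⟨a, ha1, ha2⟩ : ∃ a : ℤ, a - 1 / 2 + Λ.F (y - Λ.al * x - 2 * Λ.be * a + Λ.be) z ≤ x ∧
      x ≤ a + 1 / 2 + Λ.F (y - Λ.al * x - 2 * Λ.be * a - Λ.be) z := by
    have hfl := Int.floor_le x
    have hfl2 := Int.lt_floor_add_one x
    by_cases hc : x ≤ ⌊x⌋ + 1 / 2 + Λ.F (y - Λ.al * x - 2 * Λ.be * ⌊x⌋ - Λ.be) z
    · refine ⟨⌊x⌋, ?_, hc⟩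
      have := abs_lt.1 (Λ.F_abs_lt (y - Λ.al * x - 2 * Λ.be * ⌊x⌋ + Λ.be) hz)
      linarith
    · refine ⟨⌊x⌋ + 1, ?_, ?_⟩
      · push_cast
        rw [show y - Λ.al * x - 2 * Λ.be * (⌊x⌋ + 1) + Λ.be =
          y - Λ.al * x - 2 * Λ.be * ⌊x⌋ - Λ.be by ring]
        linarith
      · have := abs_lt.1 (Λ.F_abs_lt (y - Λ.al * x - 2 * Λ.be * ((⌊x⌋ + 1 : ℤ) : ℝ) - Λ.be) hz)
        push_cast at this ⊢
        linarith
  -- the position in the column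
  set η := y - Λ.al * x - 2 * Λ.be * a with hη
  set m := ⌊(η + (Λ.N / 4 - Λ.K * z)) / Λ.N⌋ with hm
  have g1 := Int.floor_le ((η + (Λ.N / 4 - Λ.K * z)) / Λ.N)
  have g2 := Int.lt_floor_add_one ((η + (Λ.N / 4 - Λ.K * z)) / Λ.N)
  rw [le_div_iff₀ hN, ← hm] at g1
  rw [div_lt_iff₀ hN, ← hm] at g2
  refine ⟨a, m, ?_⟩
  by_cases hA : η - m * Λ.N ≤ Λ.N / 4 - Λ.K * z
  · left
    have p1 : Φ (x - a) (y - ((2 * Λ.be + Λ.al) * a + m * Λ.N)) = Φ x y := by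
      have := hΦ.per (-a) (-m) x y
      rw [← this]; push_cast; congr 1; ring
    have p2 : Φ (x - a) (y - ((2 * Λ.be + Λ.al) * a + m * Λ.N) - Λ.N / 2) =
        Φ x (y - Λ.N / 2) := by
      have := hΦ.per (-a) (-m) x (y - Λ.N / 2)
      rw [← this]; push_cast; congr 1; ring
    have e1 : y - ((2 * Λ.be + Λ.al) * a + m * Λ.N) - Λ.al * (x - a) + Λ.be =
        (η + Λ.be) + ((-m : ℤ) : ℝ) * Λ.N := by rw [hη]; push_cast; ring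
    have e2 : y - ((2 * Λ.be + Λ.al) * a + m * Λ.N) - Λ.al * (x - a) - Λ.be =
        (η - Λ.be) + ((-m : ℤ) : ℝ) * Λ.N := by rw [hη]; push_cast; ring
    have e3 : y - ((2 * Λ.be + Λ.al) * a + m * Λ.N) - Λ.al * (x - a) =
        η - m * Λ.N := by rw [hη]; ring
    refine ⟨by rw [p2]; exact h1, by rw [p1]; exact h2, ?_, ?_, ?_⟩
    · rw [e1, F_add_int]; linarith
    · rw [e2, F_add_int]; linarith
    · rw [e3, abs_le]; constructor <;> linarith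
  · right
    rw [LB_refl_iff hΦ]
    push Not at hA
    refine ⟨h1, h2, ha1, ha2, ?_⟩
    rw [← hη, abs_le]
    constructor <;> linarith

end

end Lay

end Pool.Agent.DAF
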