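import Pool.Agent.DAF.Glue

open Set

namespace Pool.Agent.DAF

/-- Data of a periodic odd piecewise linear function through `(0,0)`, `(a1,-u1)`, `(a2,-u2)`,
`(N/2,0)`. -/
structure Saw where
  N : ℝ
  a1 : ℝ
  a2 : ℝ
  u1 : ℝ
  u2 : ℝ
  m : ℝ
  a1_pos : 0 < a1
  a12 : a1 < a2
  a2N : a2 < N / 2
  u1_pos : 0 < u1
  u12 : u1 ≤ u2
  u2_lt : u2 < 1 / 2
  slope : (u2 - u1) / (a2 - a1) ≤ u1 / a1
  hm1 : u1 / a1 ≤ m
  hm2 : u2 / (N / 2 - a2) ≤ m

namespace Saw

variable (S : Saw)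

/-- slope of the `b`-line -/
noncomputable def pb : ℝ := -(S.u1 / S.a1)
/-- slope of the hole side -/
noncomputable def ph : ℝ := -((S.u2 - S.u1) / (S.a2 - S.a1))
/-- slope of the `d`-line -/
noncomputable def pd : ℝ := S.u2 / (S.N / 2 - S.a2)

/-- The lower function on `[0, N/2]`. -/
noncomputable def low (t : ℝ) : ℝ :=
  max (S.pb * t) (max (-S.u1 + S.ph * (t - S.a1)) (S.pd * (t - S.N / 2)))

lemma a2_pos : 0 < S.a2 := S.a1_pos.trans S.a12
lemma N_pos : 0 < S.N := by have := S.a2_pos; have := S.a2N; linarith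
lemma h_pos : 0 < S.N / 2 := by have := S.N_pos; linarith
lemma u2_pos : 0 < S.u2 := S.u1_pos.trans_le S.u12
lemma pd_pos : 0 < S.pd := div_pos S.u2_pos (by have := S.a2N; linarith)
lemma pb_neg : S.pb < 0 := by
  unfold pb; have := div_pos S.u1_pos S.a1_pos; linarith
lemma ph_nonpos : S.ph ≤ 0 := by
  unfold ph
  have := div_nonneg (sub_nonneg.2 S.u12) (sub_nonneg.2 S.a12.le); linarith
lemma pb_le_ph : S.pb ≤ S.ph := by
  unfold pb ph; linarith [S.slope]
lemma pb_mul : S.pb * S.a1 = -S.u1 := by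
  unfold pb; field_simp [S.a1_pos.ne']
lemma ph_mul : S.ph * (S.a2 - S.a1) = -(S.u2 - S.u1) := by
  have : S.a2 - S.a1 ≠ 0 := by have := S.a12; intro h; linarith
  unfold ph; field_simp
lemma pd_mul : S.pd * (S.a2 - S.N / 2) = -S.u2 := by
  have : S.N / 2 - S.a2 ≠ 0 := by have := S.a2N; intro h; linarith
  unfold pd
  rw [show S.a2 - S.N / 2 = -(S.N / 2 - S.a2) by ring, mul_neg, div_mul_cancel₀ _ this]
lemma m_pos : 0 < S.m := lt_of_lt_of_le S.pd_pos S.hm2
lemma abs_pb_le : |S.pb| ≤ S.m := by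
  rw [abs_of_neg S.pb_neg]; unfold pb; linarith [S.hm1]
lemma abs_ph_le : |S.ph| ≤ S.m := by
  rw [abs_of_nonpos S.ph_nonpos]; unfold ph; linarith [S.hm1, S.slope]
lemma abs_pd_le : |S.pd| ≤ S.m := by
  rw [abs_of_pos S.pd_pos]; exact S.hm2

lemma low_eq_b {t : ℝ} (ht : t ≤ S.a1) : S.low t = S.pb * t := by
  have h1 := S.pb_mul
  have h2 := S.pb_le_ph
  have h3 := S.pd_mul
  have h4 := S.pd_pos
  have h5 := S.a12
  have h6 := S.u12
  have h7 := S.pb_neg
  unfold low
  apply max_eq_left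
  apply max_le
  · nlinarith
  · -- pd (t - N/2) ≤ pd (a1 - N/2) + pb (t - a1)
    nlinarith

lemma low_eq_h {t : ℝ} (h1 : S.a1 ≤ t) (h2 : t ≤ S.a2) :
    S.low t = -S.u1 + S.ph * (t - S.a1) := by
  have e1 := S.pb_mul
  have e2 := S.pb_le_ph
  have e3 := S.pd_mul
  have e4 := S.pd_pos
  have e5 := S.ph_mul
  have e6 := S.ph_nonpos
  unfold low
  rw [max_eq_left (a := -S.u1 + S.ph * (t - S.a1)), max_eq_right]
  · nlinarith
  · nlinarith

lemma low_eq_d {t : ℝ} (h1 : S.a2 ≤ t) : S.low t = S.pd * (t - S.N / 2) := by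
  have e1 := S.pb_mul
  have e2 := S.pb_le_ph
  have e3 := S.pd_mul
  have e4 := S.pd_pos
  have e5 := S.ph_mul
  have e6 := S.ph_nonpos
  have e7 := S.a12
  have e8 := S.pb_neg
  unfold low
  rw [max_eq_right (a := -S.u1 + S.ph * (t - S.a1)), max_eq_right]
  · have : S.pb * t ≤ -S.u1 + S.ph * (S.a2 - S.a1) := by nlinarith
    nlinarith
  · nlinarith

lemma low_zero : S.low 0 = 0 := by rw [S.low_eq_b S.a1_pos.le]; simp
lemma low_half : S.low (S.N / 2) = 0 := by rw [S.low_eq_d S.a2N.le]; simp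

lemma low_ge (t : ℝ) : -S.u2 ≤ S.low t := by
  have e3 := S.pd_mul
  have e4 := S.pd_pos
  have e5 := S.ph_mul
  have e6 := S.ph_nonpos
  rcases le_total t S.a2 with h | h
  · unfold low
    refine le_trans ?_ (le_max_right _ _)
    refine le_trans ?_ (le_max_left _ _)
    nlinarith
  · unfold low
    refine le_trans ?_ (le_max_right _ _)
    refine le_trans ?_ (le_max_right _ _)
    nlinarith

lemma low_le {t : ℝ} (h0 : 0 ≤ t) (h1 : t ≤ S.N / 2) : S.low t ≤ 0 := by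
  have e1 := S.pb_mul
  have e2 := S.pb_le_ph
  have e4 := S.pd_pos
  have e6 := S.ph_nonpos
  have e7 := S.pb_neg
  unfold low
  refine max_le ?_ (max_le ?_ ?_)
  · nlinarith
  · have : S.ph * (0 - S.a1) ≤ S.u1 := by nlinarith [S.a1_pos]
    nlinarith
  · nlinarith

lemma low_lip (t t' : ℝ) : |S.low t - S.low t'| ≤ S.m * |t - t'| := by
  have hb : |S.pb * t - S.pb * t'| ≤ S.m * |t - t'| := by
    rw [← mul_sub, abs_mul]; exact mul_le_mul_of_nonneg_right S.abs_pb_le (abs_nonneg _)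
  have hh : |(-S.u1 + S.ph * (t - S.a1)) - (-S.u1 + S.ph * (t' - S.a1))| ≤ S.m * |t - t'| := by
    rw [show (-S.u1 + S.ph * (t - S.a1)) - (-S.u1 + S.ph * (t' - S.a1)) = S.ph * (t - t') by ring,
      abs_mul]
    exact mul_le_mul_of_nonneg_right S.abs_ph_le (abs_nonneg _)
  have hd : |S.pd * (t - S.N / 2) - S.pd * (t' - S.N / 2)| ≤ S.m * |t - t'| := by
    rw [← mul_sub, abs_mul, show t - S.N / 2 - (t' - S.N / 2) = t - t' by ring]
    exact mul_le_mul_of_nonneg_right S.abs_pd_le (abs_nonneg _)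
  unfold low
  refine (abs_max_sub_max_le_max _ _ _ _).trans (max_le hb ?_)
  exact (abs_max_sub_max_le_max _ _ _ _).trans (max_le hh hd)

/-- The periodic function. -/
noncomputable def f (t : ℝ) : ℝ := glue (S.N / 2) S.low (fun t => -S.low (S.N / 2 - t)) t

lemma B_zero : (fun t => -S.low (S.N / 2 - t)) 0 = 0 := by simp [S.low_half]
lemma B_half : (fun t => -S.low (S.N / 2 - t)) (S.N / 2) = 0 := by simp [S.low_zero]

lemma f_add_N (t : ℝ) (k : ℤ) : S.f (t + k * S.N) = S.f t := by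
  have := glue_add_int_period (A := S.low) (B := fun t => -S.low (S.N / 2 - t)) S.h_pos t k
  rw [show 2 * (S.N / 2) = S.N by ring] at this
  exact this

lemma f_neg (t : ℝ) : S.f (-t) = -S.f t :=
  glue_neg S.h_pos S.low_zero S.low_half S.B_zero S.B_half
    (fun t _ => by simp) t

lemma f_abs (t : ℝ) : |S.f t| ≤ S.u2 := by
  have hu := S.u2_pos
  refine glue_abs_le S.h_pos S.low_zero S.low_half S.B_zero S.B_half ?_ ?_ t
  · intro t ht
    rw [abs_le]
    exact ⟨S.low_ge t, (S.low_le ht.1 ht.2).trans hu.le⟩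
  · intro t ht
    have h1 := S.low_ge (S.N / 2 - t)
    have h2 := S.low_le (t := S.N / 2 - t) (by linarith [ht.2]) (by linarith [ht.1])
    rw [abs_le]
    constructor <;> linarith

lemma f_lip (t t' : ℝ) : |S.f t - S.f t'| ≤ S.m * |t - t'| := by
  refine glue_lip S.h_pos S.low_zero S.low_half S.B_zero S.B_half (fun t _ t' _ => S.low_lip t t')
    ?_ t t'
  intro t _ t' _
  have := S.low_lip (S.N / 2 - t') (S.N / 2 - t)
  rw [show -S.low (S.N / 2 - t) - -S.low (S.N / 2 - t') =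
    S.low (S.N / 2 - t') - S.low (S.N / 2 - t) by ring]
  refine this.trans (le_of_eq ?_)
  congr 2; ring

lemma f_pos_half {t : ℝ} (h0 : 0 ≤ t) (h1 : t ≤ S.N / 2) : S.f t = S.low t :=
  glue_of_mem S.h_pos S.B_zero S.low_half ⟨h0, h1⟩

/-- `f` is given by `low` on the long window `[-a1, N - a2]`. -/
lemma f_window {t : ℝ} (h0 : -S.a1 ≤ t) (h1 : t ≤ S.N - S.a2) : S.f t = S.low t := by
  have ha := S.a1_pos
  have ha12 := S.a12
  have ha2 := S.a2N
  rcases le_total t 0 with h | h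
  · have : S.f t = -S.f (-t) := by rw [S.f_neg]; ring
    rw [this, S.f_pos_half (by linarith) (by linarith), S.low_eq_b (by linarith),
      S.low_eq_b (by linarith)]
    ring
  · rcases le_total t (S.N / 2) with h' | h'
    · exact S.f_pos_half h h'
    · have : S.f t = -S.f (S.N - t) := by
        have e : S.N - t = -t + ((1 : ℤ) : ℝ) * S.N := by push_cast; ring
        rw [e, S.f_add_N, S.f_neg]; ring
      rw [this, S.f_pos_half (by linarith) (by linarith), S.low_eq_d (by linarith),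
        S.low_eq_d (by linarith)]
      ring

/-- On the symmetric window `f` is given by `-low (-t)`. -/
lemma f_window' {t : ℝ} (h0 : S.a2 - S.N ≤ t) (h1 : t ≤ S.a1) : S.f t = -S.low (-t) := by
  have : S.f t = -S.f (-t) := by rw [S.f_neg]; ring
  rw [this, S.f_window (by linarith) (by linarith)]

lemma f_b {t : ℝ} (h0 : -S.a1 ≤ t) (h1 : t ≤ S.a1) : S.f t = S.pb * t := by
  rw [S.f_window h0 (by have := S.a12; have := S.a2N; linarith), S.low_eq_b h1]

lemma f_d {t : ℝ} (h0 : S.a2 ≤ t) (h1 : t ≤ S.N - S.a2) : S.f t = S.pd * (t - S.N / 2) := by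
  rw [S.f_window (by have := S.a1_pos; have := S.a12; linarith) h1, S.low_eq_d h0]

lemma f_h {t : ℝ} (h0 : S.a1 ≤ t) (h1 : t ≤ S.a2) : S.f t = -S.u1 + S.ph * (t - S.a1) := by
  rw [S.f_window (by have := S.a1_pos; linarith) (by have := S.a2N; linarith), S.low_eq_h h0 h1]

lemma f_h' {t : ℝ} (h0 : -S.a2 ≤ t) (h1 : t ≤ -S.a1) : S.f t = S.u1 + S.ph * (t + S.a1) := by
  have : S.f t = -S.f (-t) := by rw [S.f_neg]; ring
  rw [this, S.f_h (by linarith) (by linarith)]
  ring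

lemma f_a1 : S.f S.a1 = -S.u1 := by
  rw [S.f_h le_rfl S.a12.le]; ring
lemma f_a2 : S.f S.a2 = -S.u2 := by
  rw [S.f_h S.a12.le le_rfl, S.ph_mul]; ring

end Saw

end Pool.Agent.DAF
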