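import Pool.Agent.DAF.Interface

open Set Topology

namespace Pool.Agent.DAF

namespace Data

variable (𝔇 : Data)

/-- half the period, as a real number -/
noncomputable def hlf : ℝ := (𝔇.P.N : ℝ) / 2

lemma phi : LayPhi 𝔇.Λ 𝔇.Ψ 𝔇.κ := layPhi 𝔇.comp 𝔇.psi
lemma phi' : LayPhi 𝔇.Λ' 𝔇.Ψ' 𝔇.κ := layPhi 𝔇.comp' 𝔇.psi'

lemma LN : 𝔇.Λ.N / 2 = 𝔇.hlf := by rw [𝔇.comp.hN]; rfl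
lemma LN' : 𝔇.Λ'.N / 2 = 𝔇.hlf := by rw [𝔇.comp'.hN]; rfl
lemma LNN : 𝔇.Λ.N = 𝔇.P.N := 𝔇.comp.hN
lemma LNN' : 𝔇.Λ'.N = 𝔇.P.N := 𝔇.comp'.hN

lemma dual_Ψ' : 𝔇.dual.Ψ' = 𝔇.Ψ := by
  funext x y
  change 𝔇.H - (𝔇.H - 𝔇.Ψ x y) = _
  ring

lemma dual_hlf : 𝔇.dual.hlf = 𝔇.hlf := rfl

lemma Ψ_pos (x y : ℝ) : 0 < 𝔇.Ψ x y := lt_of_lt_of_le 𝔇.Λ.Zlo_pos (𝔇.phi.lo x y)

lemma Ψ_lt (x y : ℝ) : 𝔇.Ψ x y < 𝔇.H := by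
  have h := lt_of_lt_of_le 𝔇.Λ'.Zlo_pos (𝔇.phi'.lo y x)
  unfold Ψ' at h
  linarith

lemma H_pos : 0 < 𝔇.H := (𝔇.Ψ_pos 0 0).trans (𝔇.Ψ_lt 0 0)

/-- height of the bottom of the thick layer -/
noncomputable def h0 (x y : ℝ) : ℝ := -𝔇.Ψ x (y - 𝔇.hlf)

lemma Ψ_lat {a b : ℝ} (h : 𝔇.P.Lat a b) (x y : ℝ) : 𝔇.Ψ (x - a) (y - b) = 𝔇.Ψ x y := by
  have := 𝔇.psi.per _ _ h (x - a) (y - b)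
  rw [← this]; congr 1 <;> ring

lemma Lat_half : 𝔇.P.Lat 𝔇.hlf (-𝔇.hlf) := 𝔇.P.Lat_half

lemma Ψ_half (x y : ℝ) : 𝔇.Ψ (x - 𝔇.hlf) y = 𝔇.Ψ x (y - 𝔇.hlf) := by
  have := 𝔇.psi.per _ _ 𝔇.Lat_half (x - 𝔇.hlf) y
  rw [← this]; congr 1; ring

lemma h0_lat {a b : ℝ} (h : 𝔇.P.Lat a b) (x y : ℝ) : 𝔇.h0 (x - a) (y - b) = 𝔇.h0 x y := by
  unfold h0
  rw [show y - b - 𝔇.hlf = (y - 𝔇.hlf) - b by ring, 𝔇.Ψ_lat h]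

/-- reflection of the second kind -/
lemma Ψ_refl {a b : ℝ} (h : 𝔇.P.Lat a (b - 𝔇.hlf)) (x y : ℝ) :
    𝔇.Ψ (a - x) (b - y) = 𝔇.Ψ x (y - 𝔇.hlf) := by
  have := 𝔇.psi.per _ _ h (-x) (-(y - 𝔇.hlf))
  rw [𝔇.psi.even] at this
  rw [← this]; congr 1 <;> ring

lemma Ψ_refl' {a b : ℝ} (h : 𝔇.P.Lat a (b - 𝔇.hlf)) (x y : ℝ) :
    𝔇.Ψ (a - x) (b - y - 𝔇.hlf) = 𝔇.Ψ x y := by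
  have := 𝔇.psi.per _ _ h (-x) (-y)
  rw [𝔇.psi.even] at this
  rw [← this]; congr 1 <;> ring

lemma h0_lt (x y : ℝ) : 𝔇.h0 x y < 𝔇.Ψ x y := by
  have h1 := 𝔇.Ψ_pos x y
  have h2 := 𝔇.Ψ_pos x (y - 𝔇.hlf)
  unfold h0; linarith

lemma lt_top (x y : ℝ) : 𝔇.Ψ x y < 𝔇.h0 x y + 2 * 𝔇.H := by
  have h1 := 𝔇.Ψ_lt x y
  have h2 := 𝔇.Ψ_lt x (y - 𝔇.hlf)
  unfold h0; linarith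

/-- body and arm -/
def Bd (x y z : ℝ) : Prop := 𝔇.Λ.LB 𝔇.Ψ x y z
def Am (x y z : ℝ) : Prop := 𝔇.Λ'.LB 𝔇.Ψ' y x (𝔇.H - z)

lemma T_iff {x y z : ℝ} : 𝔇.T x y z ↔ 𝔇.Bd x y z ∨ 𝔇.Am x y z := Iff.rfl

lemma dual_Bd {x y z : ℝ} : 𝔇.dual.Bd x y z ↔ 𝔇.Am y x (𝔇.H - z) := by
  unfold Am
  rw [sub_sub_cancel]
  exact Iff.rfl

lemma dual_Am {x y z : ℝ} : 𝔇.dual.Am x y z ↔ 𝔇.Bd y x (𝔇.H - z) := by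
  have : 𝔇.dual.Am x y z = 𝔇.Λ.LB 𝔇.dual.Ψ' y x (𝔇.H - z) := rfl
  rw [this, 𝔇.dual_Ψ']
  exact Iff.rfl

lemma dual_T {x y z : ℝ} : 𝔇.dual.T x y z ↔ 𝔇.T y x (𝔇.H - z) := by
  rw [T_iff, T_iff, dual_Bd, dual_Am]
  exact or_comm

lemma T_neg {x y z : ℝ} (h : 𝔇.T x y z) : 𝔇.T (-x) (-y) z := by
  rcases h with h | h
  · exact Or.inl (Lay.LB_neg 𝔇.phi h)
  · exact Or.inr (Lay.LB_neg 𝔇.phi' h)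

lemma T_neg_iff {x y z : ℝ} : 𝔇.T (-x) (-y) z ↔ 𝔇.T x y z := by
  refine ⟨fun h => ?_, 𝔇.T_neg⟩
  have := 𝔇.T_neg h
  rwa [neg_neg, neg_neg] at this

lemma Bd_le {x y z : ℝ} (h : 𝔇.Bd x y z) : z ≤ 𝔇.Ψ x y := h.2.1

lemma Bd_ge {x y z : ℝ} (h : 𝔇.Bd x y z) : 𝔇.h0 x y ≤ z := by
  have := h.1
  rw [𝔇.LN] at this
  exact this

lemma Am_ge {x y z : ℝ} (h : 𝔇.Am x y z) : 𝔇.Ψ x y ≤ z := by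
  have := h.2.1
  unfold Ψ' at this
  linarith

lemma Am_le {x y z : ℝ} (h : 𝔇.Am x y z) : z ≤ 𝔇.h0 x y + 2 * 𝔇.H := by
  have := h.1
  rw [𝔇.LN'] at this
  unfold Ψ' at this
  rw [𝔇.Ψ_half] at this
  unfold h0
  linarith

lemma hole_Bd {x y : ℝ} : 𝔇.Bd x y (𝔇.Ψ x y) ↔ 𝔇.P.Cell 0 0 x y := LB_top 𝔇.comp 𝔇.psi x y

lemma hole_Am {x y : ℝ} : 𝔇.Am x y (𝔇.Ψ x y) ↔ 𝔇.P.Cell 0 0 x y := by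
  have h := LB_top 𝔇.comp' 𝔇.psi' y x
  have e : 𝔇.Am x y (𝔇.Ψ x y) ↔ 𝔇.Λ'.LB (fun x y => 𝔇.H - 𝔇.Ψ y x) y x (𝔇.H - 𝔇.Ψ x y) :=
    Iff.rfl
  rw [e, h]
  unfold Plan.Cell
  constructor
  · rintro ⟨a, b, c, d⟩
    exact ⟨c, d, a, b⟩
  · rintro ⟨a, b, c, d⟩
    exact ⟨c, d, a, b⟩

lemma T_low {x y z : ℝ} (h : 𝔇.T x y z) (hz : z ≤ 𝔇.Ψ x y) : 𝔇.Bd x y z := by
  rcases h with h | h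
  · exact h
  · have h1 := 𝔇.Am_ge h
    obtain rfl : z = 𝔇.Ψ x y := le_antisymm hz h1
    exact 𝔇.hole_Bd.2 (𝔇.hole_Am.1 h)

lemma T_high {x y z : ℝ} (h : 𝔇.T x y z) (hz : 𝔇.Ψ x y ≤ z) : 𝔇.Am x y z := by
  rcases h with h | h
  · have h1 := 𝔇.Bd_le h
    obtain rfl : z = 𝔇.Ψ x y := le_antisymm h1 hz
    exact 𝔇.hole_Am.2 (𝔇.hole_Bd.1 h)
  · exact h

lemma T_ge {x y z : ℝ} (h : 𝔇.T x y z) : 𝔇.h0 x y ≤ z := by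
  rcases h with h | h
  · exact 𝔇.Bd_ge h
  · exact (𝔇.h0_lt x y).le.trans (𝔇.Am_ge h)

lemma T_le {x y z : ℝ} (h : 𝔇.T x y z) : z ≤ 𝔇.h0 x y + 2 * 𝔇.H := by
  rcases h with h | h
  · exact (𝔇.Bd_le h).trans (𝔇.lt_top x y).le
  · exact 𝔇.Am_le h

/-- the tiles of the tiling -/
def tA (a b : ℝ) (k : ℤ) : Set (ℝ × ℝ × ℝ) :=
  {X | 𝔇.T (X.1 - a) (X.2.1 - b) (X.2.2 - 2 * 𝔇.H * k)}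
def tB (a b : ℝ) (k : ℤ) : Set (ℝ × ℝ × ℝ) :=
  {X | 𝔇.T (a - X.1) (b - X.2.1) (2 * 𝔇.H * k - X.2.2)}

/-- the tile -/
def TS : Set (ℝ × ℝ × ℝ) := {X | 𝔇.T X.1 X.2.1 X.2.2}

/-- the tiling -/
def Til : Set (Set (ℝ × ℝ × ℝ)) :=
  {S | ∃ (a b : ℝ) (k : ℤ), (𝔇.P.Lat a b ∧ S = 𝔇.tA a b k) ∨
    (𝔇.P.Lat a (b - 𝔇.hlf) ∧ S = 𝔇.tB a b k)}

lemma tA_zero : 𝔇.tA 0 0 0 = 𝔇.TS := by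
  ext X; simp [tA, TS]

/-- every point is covered -/
theorem cover (X : ℝ × ℝ × ℝ) : ∃ S ∈ 𝔇.Til, X ∈ S := by
  obtain ⟨x, y, z⟩ := X
  have hH : 0 < 2 * 𝔇.H := by linarith [𝔇.H_pos]
  set k := ⌊(z - 𝔇.h0 x y) / (2 * 𝔇.H)⌋ with hk
  have g1 := Int.floor_le ((z - 𝔇.h0 x y) / (2 * 𝔇.H))
  have g2 := Int.lt_floor_add_one ((z - 𝔇.h0 x y) / (2 * 𝔇.H))
  rw [le_div_iff₀ hH, ← hk] at g1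
  rw [div_lt_iff₀ hH, ← hk] at g2
  set z' := z - 2 * 𝔇.H * k with hz'
  have g1' : 𝔇.h0 x y ≤ z' := by linarith
  have g2' : z' < 𝔇.h0 x y + 2 * 𝔇.H := by linarith
  by_cases hc : z' ≤ 𝔇.Ψ x y
  · have g1'' : -𝔇.Ψ x (y - 𝔇.Λ.N / 2) ≤ z' := by rw [𝔇.LN]; exact g1'
    obtain ⟨a, m, h | h⟩ := Lay.layer_cover 𝔇.phi g1'' hc
    · refine ⟨_, ⟨a, 𝔇.P.s * a + m * 𝔇.P.N, k, Or.inl ⟨⟨a, m, rfl, rfl⟩, rfl⟩⟩, ?_⟩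
      left
      change 𝔇.Λ.LB 𝔇.Ψ (x - a) (y - (𝔇.P.s * a + m * 𝔇.P.N)) z'
      rw [𝔇.comp.hbe, sub_add_cancel, 𝔇.LNN] at h
      exact h
    · refine ⟨_, ⟨a, 𝔇.P.s * a + m * 𝔇.P.N + 𝔇.hlf, k, Or.inr ⟨⟨a, m, rfl, by ring⟩, rfl⟩⟩, ?_⟩
      left
      change 𝔇.Λ.LB 𝔇.Ψ (a - x) (𝔇.P.s * a + m * 𝔇.P.N + 𝔇.hlf - y) (2 * 𝔇.H * k - z)
      rw [𝔇.comp.hbe, sub_add_cancel, 𝔇.LN, 𝔇.LNN] at h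
      rw [show 2 * 𝔇.H * k - z = -z' by rw [hz']; ring]
      exact h
  · push Not at hc
    have g1'' : -𝔇.Ψ' y (x - 𝔇.Λ'.N / 2) ≤ 𝔇.H - z' := by
      rw [𝔇.LN']; unfold Ψ'; rw [𝔇.Ψ_half]; unfold h0 at g2'; linarith
    have g2'' : 𝔇.H - z' ≤ 𝔇.Ψ' y x := by unfold Ψ'; linarith
    obtain ⟨a, m, h | h⟩ := Lay.layer_cover 𝔇.phi' g1'' g2''
    · have hL : 𝔇.P.Lat (𝔇.P.s * a + m * 𝔇.P.N) a :=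
        𝔇.P.Lat_dual.1 ⟨a, m, rfl, rfl⟩
      refine ⟨_, ⟨𝔇.P.s * a + m * 𝔇.P.N, a, k, Or.inl ⟨hL, rfl⟩⟩, ?_⟩
      right
      change 𝔇.Λ'.LB 𝔇.Ψ' (y - a) (x - (𝔇.P.s * a + m * 𝔇.P.N)) (𝔇.H - z')
      rw [𝔇.comp'.hbe, sub_add_cancel, 𝔇.LNN'] at h
      exact h
    · have hL : 𝔇.P.Lat (𝔇.P.s * a + m * 𝔇.P.N) a :=
        𝔇.P.Lat_dual.1 ⟨a, m, rfl, rfl⟩
      refine ⟨_, ⟨𝔇.P.s * a + m * 𝔇.P.N + 𝔇.hlf, a, k + 1, Or.inr ⟨?_, rfl⟩⟩, ?_⟩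
      · have := Plan.Lat.add 𝔇.P hL 𝔇.Lat_half
        rwa [← sub_eq_add_neg] at this
      · right
        change 𝔇.Λ'.LB 𝔇.Ψ' (a - y) (𝔇.P.s * a + m * 𝔇.P.N + 𝔇.hlf - x)
          (𝔇.H - (2 * 𝔇.H * ((k + 1 : ℤ) : ℝ) - z))
        rw [𝔇.comp'.hbe, sub_add_cancel, 𝔇.LN', 𝔇.LNN'] at h
        rw [show 𝔇.H - (2 * 𝔇.H * ((k + 1 : ℤ) : ℝ) - z) = -(𝔇.H - z') by
          rw [hz']; push_cast; ring]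
        exact h

/-- `T` meets a tile of the first kind with `k = 0` below the interface -/
lemma meetA0 {a b x y z : ℝ} (hL : 𝔇.P.Lat a b) (hne : ¬ (a = 0 ∧ b = 0))
    (h1 : 𝔇.Bd x y z) (h2 : 𝔇.Bd (x - a) (y - b) z) :
    (a = 1 ∧ b = 𝔇.P.s ∧ 𝔇.Λ.DA1 𝔇.Ψ x y z) ∨
    (a = 1 ∧ b = 𝔇.P.s - 𝔇.P.N ∧ 𝔇.Λ.DA2 𝔇.Ψ x y z) ∨
    (a = -1 ∧ b = -𝔇.P.s ∧ 𝔇.Λ.DA1 𝔇.Ψ (-x) (-y) z) ∨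
    (a = -1 ∧ b = -(𝔇.P.s - 𝔇.P.N) ∧ 𝔇.Λ.DA2 𝔇.Ψ (-x) (-y) z) := by
  obtain ⟨i, m, rfl, rfl⟩ := hL
  have h2' : 𝔇.Λ.LB 𝔇.Ψ (x - i) (y - ((2 * 𝔇.Λ.be + 𝔇.Λ.al) * i + m * 𝔇.Λ.N)) z := by
    rw [𝔇.comp.hbe, sub_add_cancel, 𝔇.LNN]; exact h2
  have hne' : ¬ (i = 0 ∧ m = 0) := by
    rintro ⟨rfl, rfl⟩; exact hne ⟨by simp, by simp⟩
  rcases Lay.LB_LB 𝔇.phi h1 h2' hne' with ⟨rfl, rfl, h⟩ | ⟨rfl, rfl, h⟩ | ⟨rfl, rfl, h⟩ |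
    ⟨rfl, rfl, h⟩
  · exact Or.inl ⟨by push_cast; ring, by push_cast; ring, h⟩
  · exact Or.inr (Or.inl ⟨by push_cast; ring, by push_cast; ring, h⟩)
  · exact Or.inr (Or.inr (Or.inl ⟨by push_cast; ring, by push_cast; ring, h⟩))
  · exact Or.inr (Or.inr (Or.inr ⟨by push_cast; ring, by push_cast; ring, h⟩))

/-- `T` meets a tile of the second kind with `k = 0` -/
lemma meetB0 {a b x y z : ℝ} (hL : 𝔇.P.Lat a (b - 𝔇.hlf))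
    (h1 : 𝔇.Bd x y z) (h2 : 𝔇.Bd (a - x) (b - y) (-z)) :
    (a = 0 ∧ b = 𝔇.hlf ∧ 𝔇.Λ.DBN 𝔇.Ψ x y z) ∨
    (a = 0 ∧ b = -𝔇.hlf ∧ 𝔇.Λ.DBN 𝔇.Ψ (-x) (-y) z) ∨
    (a = 1 ∧ b = 𝔇.P.s - 𝔇.hlf ∧ 𝔇.Λ.DBE 𝔇.Ψ x y z) ∨
    (a = -1 ∧ b = -(𝔇.P.s - 𝔇.hlf) ∧ 𝔇.Λ.DBE 𝔇.Ψ (-x) (-y) z) := by
  obtain ⟨i, m, hi, hm⟩ := hL
  have hb : b = 𝔇.P.s * i + m * 𝔇.P.N + 𝔇.hlf := by linarith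
  have hN2 : (𝔇.P.N : ℝ) = 2 * 𝔇.hlf := by unfold hlf; ring
  subst hi hb
  have h2' : 𝔇.Λ.LB 𝔇.Ψ (i - x)
      ((2 * 𝔇.Λ.be + 𝔇.Λ.al) * i + m * 𝔇.Λ.N + 𝔇.Λ.N / 2 - y) (-z) := by
    rw [𝔇.comp.hbe, sub_add_cancel, 𝔇.LN, 𝔇.LNN]; exact h2
  rcases Lay.LB_refl 𝔇.phi h1 h2' with ⟨rfl, rfl, h⟩ | ⟨rfl, rfl, h⟩ | ⟨rfl, rfl, h⟩ |
    ⟨rfl, rfl, h⟩
  · exact Or.inl ⟨by push_cast; ring, by push_cast; ring, h⟩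
  · exact Or.inr (Or.inl ⟨by push_cast; ring, by rw [hN2]; push_cast; ring, h⟩)
  · exact Or.inr (Or.inr (Or.inl ⟨by push_cast; ring, by rw [hN2]; push_cast; ring, h⟩))
  · exact Or.inr (Or.inr (Or.inr ⟨by push_cast; ring, by push_cast; ring, h⟩))

end Data

end Pool.Agent.DAF
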